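import Pool.Agent.Q132.Cover

/-! Super edge-magic labelings of the book graphs `B_n`. -/

namespace Pool.Agent.Q132.Books

open Pool.Agent.Q132

/-- The book `B_n = K_{1,n} □ K_2`: the vertices `(none, false)` and `(none, true)` are the two
hubs, `(some i, false)` and `(some i, true)` are the two other vertices of the page `i`. -/
def book (n : ℕ) : SimpleGraph (Option (Fin n) × Bool) where
  Adj x y := (x.2 = y.2 ∧ x.1.isNone ≠ y.1.isNone) ∨ (x.2 ≠ y.2 ∧ x.1 = y.1)
  symm := ⟨fun x y h => by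
    rcases h with h | h
    · exact Or.inl ⟨h.1.symm, h.2.symm⟩
    · exact Or.inr ⟨h.1.symm, h.2.symm⟩⟩
  loopless := ⟨fun x h => by
    rcases h with h | h
    · exact h.2 rfl
    · exact h.1 rfl⟩

/-- The index type of the edges of `B_n`. -/
abbrev Idx (n : ℕ) : Type := Option (Fin n) ⊕ (Fin n × Bool)

def endA {n : ℕ} : Idx n → Option (Fin n) × Bool
  | Sum.inl u => (u, false)
  | Sum.inr (_, s) => (none, s)

def endB {n : ℕ} : Idx n → Option (Fin n) × Bool
  | Sum.inl u => (u, true)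
  | Sum.inr (i, s) => (some i, s)

theorem adj_ends {n : ℕ} (i : Idx n) : (book n).Adj (endA i) (endB i) := by
  rcases i with u | ⟨i, s⟩
  · exact Or.inr ⟨by simp [endA, endB], rfl⟩
  · exact Or.inl ⟨rfl, by simp [endA, endB]⟩

theorem all_ends {n : ℕ} (x y : Option (Fin n) × Bool) (h : (book n).Adj x y) :
    ∃ i : Idx n, (endA i = x ∧ endB i = y) ∨ (endA i = y ∧ endB i = x) := by
  obtain ⟨u, s⟩ := x
  obtain ⟨v, t⟩ := y
  rcases h with ⟨h1, h2⟩ | ⟨h1, h2⟩
  · change s = t at h1
    change u.isNone ≠ v.isNone at h2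
    subst h1
    rcases u with _ | i <;> rcases v with _ | j
    · exact absurd rfl h2
    · exact ⟨Sum.inr (j, s), Or.inl ⟨rfl, rfl⟩⟩
    · exact ⟨Sum.inr (i, s), Or.inr ⟨rfl, rfl⟩⟩
    · exact absurd rfl h2
  · change s ≠ t at h1
    change u = v at h2
    subst h2
    cases s <;> cases t
    · exact absurd rfl h1
    · exact ⟨Sum.inl u, Or.inl ⟨rfl, rfl⟩⟩
    · exact ⟨Sum.inl u, Or.inr ⟨rfl, rfl⟩⟩
    · exact absurd rfl h1

theorem card_idx (n : ℕ) : Fintype.card (Idx n) = 3 * n + 1 := by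
  rw [Fintype.card_sum, Fintype.card_prod, Fintype.card_option, Fintype.card_fin,
    Fintype.card_bool]
  omega

theorem card_vert (n : ℕ) : Fintype.card (Option (Fin n) × Bool) = 2 * n + 2 := by
  rw [Fintype.card_prod, Fintype.card_option, Fintype.card_fin, Fintype.card_bool]
  omega

/-- The labels of the vertices. -/
def lab {n : ℕ} (a b : ℕ) (x y : ℕ → ℕ) : Option (Fin n) × Bool → ℕ
  | (none, false) => a
  | (none, true) => b
  | (some i, false) => x i.val
  | (some i, true) => y i.val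

/-- The criterion in terms of covering: `P` is the list of the pages `(x, y)`. -/
theorem sem_of_cover (n a b s : ℕ) (P : List (ℕ × ℕ)) (hlen : P.length = n)
    (hl : ∀ l, 1 ≤ l → l ≤ 2 * n + 2 →
      l = a ∨ l = b ∨ (∃ p ∈ P, p.1 = l) ∨ ∃ p ∈ P, p.2 = l)
    (hs : ∀ t, s ≤ t → t < s + (3 * n + 1) →
      t = a + b ∨ (∃ p ∈ P, a + p.1 = t) ∨ (∃ p ∈ P, b + p.2 = t) ∨ ∃ p ∈ P, p.1 + p.2 = t) :
    SuperEdgeMagic (book n) := by
  subst hlen
  let x : ℕ → ℕ := fun i => (P.getD i (0, 0)).1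
  let y : ℕ → ℕ := fun i => (P.getD i (0, 0)).2
  have key : ∀ p ∈ P, ∃ i : Fin P.length, x i.val = p.1 ∧ y i.val = p.2 := by
    intro p hp
    obtain ⟨i, hi, rfl⟩ := List.mem_iff_getElem.mp hp
    refine ⟨⟨i, hi⟩, ?_, ?_⟩
    · show (P.getD i (0, 0)).1 = P[i].1
      rw [List.getD_eq_getElem _ _ hi]
    · show (P.getD i (0, 0)).2 = P[i].2
      rw [List.getD_eq_getElem _ _ hi]
  refine superEdgeMagic_of_cover (book P.length) endA endB adj_ends all_ends (lab a b x y) ?_ s ?_
  · rw [card_vert]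
    intro l h1 h2
    rcases hl l h1 h2 with h | h | ⟨p, hp, h⟩ | ⟨p, hp, h⟩
    · exact ⟨(none, false), h.symm⟩
    · exact ⟨(none, true), h.symm⟩
    · obtain ⟨i, hx, _⟩ := key p hp
      exact ⟨(some i, false), hx.trans h⟩
    · obtain ⟨i, _, hy⟩ := key p hp
      exact ⟨(some i, true), hy.trans h⟩
  · rw [card_idx]
    intro t h1 h2
    rcases hs t h1 h2 with h | ⟨p, hp, h⟩ | ⟨p, hp, h⟩ | ⟨p, hp, h⟩
    · exact ⟨Sum.inl none, h.symm⟩
    · obtain ⟨i, hx, _⟩ := key p hp
      refine ⟨Sum.inr (i, false), ?_⟩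
      show a + x i.val = t
      rw [hx, h]
    · obtain ⟨i, _, hy⟩ := key p hp
      refine ⟨Sum.inr (i, true), ?_⟩
      show b + y i.val = t
      rw [hy, h]
    · obtain ⟨i, hx, hy⟩ := key p hp
      refine ⟨Sum.inl (some i), ?_⟩
      show x i.val + y i.val = t
      rw [hx, hy, h]

/-- A boolean check of the criterion for concrete lists. -/
def chkPages (n a b s : ℕ) (P : List (ℕ × ℕ)) : Bool :=
  (P.length == n) &&
  (List.range (2 * n + 2)).all (fun i => (1 + i == a) || (1 + i == b) ||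
    P.any (fun p => p.1 == 1 + i) || P.any (fun p => p.2 == 1 + i)) &&
  (List.range (3 * n + 1)).all (fun i => (s + i == a + b) || P.any (fun p => a + p.1 == s + i) ||
    P.any (fun p => b + p.2 == s + i) || P.any (fun p => p.1 + p.2 == s + i))

theorem sem_of_chkPages (n a b s : ℕ) (P : List (ℕ × ℕ)) (h : chkPages n a b s P = true) :
    SuperEdgeMagic (book n) := by
  simp only [chkPages, Bool.and_eq_true, beq_iff_eq, List.all_eq_true, Bool.or_eq_true,
    List.any_eq_true, List.mem_range] at h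
  obtain ⟨⟨h1, h2⟩, h3⟩ := h
  refine sem_of_cover n a b s P h1 ?_ ?_
  · intro l l1 l2
    have h := h2 (l - 1) (by omega)
    rw [Nat.add_sub_cancel' l1] at h
    rcases h with ((h | h) | h) | h
    · exact Or.inl h
    · exact Or.inr (Or.inl h)
    · exact Or.inr (Or.inr (Or.inl h))
    · exact Or.inr (Or.inr (Or.inr h))
  · intro t l1 l2
    have h := h3 (t - s) (by omega)
    rw [Nat.add_sub_cancel' l1] at h
    rcases h with ((h | h) | h) | h
    · exact Or.inl h
    · exact Or.inr (Or.inl h)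
    · exact Or.inr (Or.inr (Or.inl h))
    · exact Or.inr (Or.inr (Or.inr h))

theorem sem_5 : SuperEdgeMagic (book 5) :=
  sem_of_chkPages 5 2 9 5 [(4, 1), (5, 8), (6, 10), (7, 11), (12, 3)] (by decide +kernel)

theorem sem_13 : SuperEdgeMagic (book 13) :=
  sem_of_chkPages 13 2 22 8 [(6, 11), (7, 15), (8, 5), (10, 1), (12, 3), (14, 20), (16, 24), (17, 21),
    (18, 23), (19, 25), (26, 13), (27, 9), (28, 4)] (by decide +kernel)

theorem sem_21 : SuperEdgeMagic (book 21) :=
  sem_of_chkPages 21 3 34 11 [(8, 25), (9, 15), (10, 18), (11, 6), (12, 38), (13, 5), (16, 4), (19, 7),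
    (20, 1), (22, 32), (24, 36), (26, 27), (28, 2), (29, 33), (31, 37), (39, 35), (40, 23),
    (41, 17), (42, 14), (43, 30), (44, 21)] (by decide +kernel)

theorem sem_29 : SuperEdgeMagic (book 29) :=
  sem_of_chkPages 29 3 47 14 [(11, 36), (12, 52), (13, 30), (14, 51), (15, 54), (16, 26), (17, 5),
    (18, 21), (20, 9), (22, 53), (23, 1), (25, 2), (27, 49), (28, 7), (29, 4), (31, 50), (33, 39),
    (34, 6), (35, 45), (38, 40), (41, 44), (42, 48), (43, 46), (55, 19), (56, 32), (57, 37),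
    (58, 24), (59, 8), (60, 10)] (by decide +kernel)

/-- The criterion in terms of the labels `a`, `b` of the hubs and `x i`, `y i` of the pages. -/
theorem sem_of {n : ℕ} (a b : ℕ) (x y : ℕ → ℕ) (s : ℕ) (hab : a ≠ b)
    (ra : 1 ≤ a ∧ a ≤ 2 * n + 2) (rb : 1 ≤ b ∧ b ≤ 2 * n + 2)
    (rx : ∀ i, i < n → 1 ≤ x i ∧ x i ≤ 2 * n + 2 ∧ x i ≠ a ∧ x i ≠ b ∧
      s ≤ a + x i ∧ a + x i < s + (3 * n + 1))
    (ry : ∀ i, i < n → 1 ≤ y i ∧ y i ≤ 2 * n + 2 ∧ y i ≠ a ∧ y i ≠ b ∧
      s ≤ b + y i ∧ b + y i < s + (3 * n + 1))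
    (rs : ∀ i, i < n → s ≤ x i + y i ∧ x i + y i < s + (3 * n + 1) ∧ x i + y i ≠ a + b)
    (rab : s ≤ a + b ∧ a + b < s + (3 * n + 1))
    (ix : ∀ i j, i < n → j < n → x i = x j → i = j)
    (iy : ∀ i j, i < n → j < n → y i = y j → i = j)
    (is : ∀ i j, i < n → j < n → x i + y i = x j + y j → i = j)
    (dxy : ∀ i j, i < n → j < n → x i ≠ y j)
    (dax : ∀ i j, i < n → j < n → a + x i ≠ b + y j)
    (das : ∀ i j, i < n → j < n → a + x i ≠ x j + y j)
    (dbs : ∀ i j, i < n → j < n → b + y i ≠ x j + y j) :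
    SuperEdgeMagic (book n) := by
  refine superEdgeMagic_of (book n) endA endB adj_ends all_ends (lab a b x y) ?_ ?_ s ?_ ?_
  · rintro ⟨_ | i, _ | _⟩ ⟨_ | j, _ | _⟩ h
    · rfl
    · exact absurd h hab
    · exact absurd h.symm (rx j.val j.isLt).2.2.1
    · exact absurd h.symm (ry j.val j.isLt).2.2.1
    · exact absurd h.symm hab
    · rfl
    · exact absurd h.symm (rx j.val j.isLt).2.2.2.1
    · exact absurd h.symm (ry j.val j.isLt).2.2.2.1
    · exact absurd h (rx i.val i.isLt).2.2.1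
    · exact absurd h (rx i.val i.isLt).2.2.2.1
    · rw [Fin.ext (ix i.val j.val i.isLt j.isLt h)]
    · exact absurd h (dxy i.val j.val i.isLt j.isLt)
    · exact absurd h (ry i.val i.isLt).2.2.1
    · exact absurd h (ry i.val i.isLt).2.2.2.1
    · exact absurd h.symm (dxy j.val i.val j.isLt i.isLt)
    · rw [Fin.ext (iy i.val j.val i.isLt j.isLt h)]
  · rw [card_vert]
    rintro ⟨_ | i, _ | _⟩
    · exact ra
    · exact rb
    · exact ⟨(rx i.val i.isLt).1, (rx i.val i.isLt).2.1⟩
    · exact ⟨(ry i.val i.isLt).1, (ry i.val i.isLt).2.1⟩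
  · rintro ((_ | i) | ⟨i, _ | _⟩) ((_ | j) | ⟨j, _ | _⟩) h
    · rfl
    · have h1 : a + b = x j.val + y j.val := h
      exact absurd h1.symm (rs j.val j.isLt).2.2
    · have h1 : a + b = a + x j.val := h
      have := (rx j.val j.isLt).2.2.2.1
      omega
    · have h1 : a + b = b + y j.val := h
      have := (ry j.val j.isLt).2.2.1
      omega
    · have h1 : x i.val + y i.val = a + b := h
      exact absurd h1 (rs i.val i.isLt).2.2
    · rw [Fin.ext (is i.val j.val i.isLt j.isLt h)]
    · have h1 : x i.val + y i.val = a + x j.val := h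
      exact absurd h1.symm (das j.val i.val j.isLt i.isLt)
    · have h1 : x i.val + y i.val = b + y j.val := h
      exact absurd h1.symm (dbs j.val i.val j.isLt i.isLt)
    · have h1 : a + x i.val = a + b := h
      have := (rx i.val i.isLt).2.2.2.1
      omega
    · have h1 : a + x i.val = x j.val + y j.val := h
      exact absurd h1 (das i.val j.val i.isLt j.isLt)
    · have h1 : a + x i.val = a + x j.val := h
      rw [Fin.ext (ix i.val j.val i.isLt j.isLt (by omega))]
    · have h1 : a + x i.val = b + y j.val := h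
      exact absurd h1 (dax i.val j.val i.isLt j.isLt)
    · have h1 : b + y i.val = a + b := h
      have := (ry i.val i.isLt).2.2.1
      omega
    · have h1 : b + y i.val = x j.val + y j.val := h
      exact absurd h1 (dbs i.val j.val i.isLt j.isLt)
    · have h1 : b + y i.val = a + x j.val := h
      exact absurd h1.symm (dax j.val i.val j.isLt i.isLt)
    · have h1 : b + y i.val = b + y j.val := h
      rw [Fin.ext (iy i.val j.val i.isLt j.isLt (by omega))]
  · rw [card_idx]
    rintro ((_ | i) | ⟨i, _ | _⟩)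
    · exact rab
    · exact ⟨(rs i.val i.isLt).1, (rs i.val i.isLt).2.1⟩
    · exact ⟨(rx i.val i.isLt).2.2.2.2.1, (rx i.val i.isLt).2.2.2.2.2⟩
    · exact ⟨(ry i.val i.isLt).2.2.2.2.1, (ry i.val i.isLt).2.2.2.2.2⟩

/-! ### Even numbers of pages -/

/-- A permutation `p` of `{1, ..., 2h+1}` without `h + 2` whose displacements are
`±1, ..., ±(h-1), ±(2h-1)`, each taken once. -/
def Good (h : ℕ) (p : ℕ → ℕ) : Prop :=
  (∀ x, 1 ≤ x → x ≤ 2 * h + 1 → x ≠ h + 2 → 1 ≤ p x ∧ p x ≤ 2 * h + 1 ∧ p x ≠ h + 2) ∧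
  (∀ x y, 1 ≤ x → x ≤ 2 * h + 1 → x ≠ h + 2 → 1 ≤ y → y ≤ 2 * h + 1 → y ≠ h + 2 →
    p x = p y → x = y) ∧
  (∀ x y, 1 ≤ x → x ≤ 2 * h + 1 → x ≠ h + 2 → 1 ≤ y → y ≤ 2 * h + 1 → y ≠ h + 2 →
    x + p y = y + p x → x = y) ∧
  (∀ x, 1 ≤ x → x ≤ 2 * h + 1 → x ≠ h + 2 → p x ≠ x ∧
    (x + 2 * h = p x + 1 ∨ p x + 2 * h = x + 1 ∨ (x < p x + h ∧ p x < x + h)))

/-- The elements of `{1, ..., 2h+1}` without `h + 2` in increasing order. -/
def xi (h i : ℕ) : ℕ := if i ≤ h then i + 1 else i + 2

theorem xi_cases (h i : ℕ) (hi : i < 2 * h) : 1 ≤ xi h i ∧ xi h i ≤ 2 * h + 1 ∧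
    xi h i ≠ h + 2 ∧ (xi h i = i + 1 ∧ i ≤ h ∨ xi h i = i + 2 ∧ h < i) := by
  unfold xi
  split_ifs <;> omega

theorem sem_even (h : ℕ) (hh : 2 ≤ h) (p : ℕ → ℕ) (hp : Good h p) :
    SuperEdgeMagic (book (2 * h)) := by
  obtain ⟨p1, p2, p3, p4⟩ := hp
  refine sem_of (h + 2) (3 * h + 1) (xi h) (fun i => 4 * h + 3 - p (xi h i)) (h + 3)
    (by omega) (by omega) (by omega) ?_ ?_ ?_ (by omega) ?_ ?_ ?_ ?_ ?_ ?_ ?_
  · intro i hi
    have a := xi_cases h i hi
    omega
  · intro i hi
    have a := xi_cases h i hi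
    have b := p1 (xi h i) (by omega) (by omega) (by omega)
    omega
  · intro i hi
    have a := xi_cases h i hi
    have b := p1 (xi h i) (by omega) (by omega) (by omega)
    have c := p4 (xi h i) (by omega) (by omega) (by omega)
    omega
  · intro i j hi hj e
    have a := xi_cases h i hi
    have b := xi_cases h j hj
    omega
  · intro i j hi hj e
    have a := xi_cases h i hi
    have b := xi_cases h j hj
    have a1 := p1 (xi h i) (by omega) (by omega) (by omega)
    have b1 := p1 (xi h j) (by omega) (by omega) (by omega)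
    have c := p2 (xi h i) (xi h j) (by omega) (by omega) (by omega) (by omega) (by omega)
      (by omega) (by omega)
    omega
  · intro i j hi hj e
    have a := xi_cases h i hi
    have b := xi_cases h j hj
    have a1 := p1 (xi h i) (by omega) (by omega) (by omega)
    have b1 := p1 (xi h j) (by omega) (by omega) (by omega)
    have c := p3 (xi h i) (xi h j) (by omega) (by omega) (by omega) (by omega) (by omega)
      (by omega) (by omega)
    omega
  · intro i j hi hj
    have a := xi_cases h i hi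
    have b := xi_cases h j hj
    have b1 := p1 (xi h j) (by omega) (by omega) (by omega)
    omega
  · intro i j hi hj
    have a := xi_cases h i hi
    have b := xi_cases h j hj
    have b1 := p1 (xi h j) (by omega) (by omega) (by omega)
    omega
  · intro i j hi hj
    have a := xi_cases h i hi
    have b := xi_cases h j hj
    have b1 := p1 (xi h j) (by omega) (by omega) (by omega)
    have c := p4 (xi h j) (by omega) (by omega) (by omega)
    omega
  · intro i j hi hj
    have a := xi_cases h i hi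
    have b := xi_cases h j hj
    have a1 := p1 (xi h i) (by omega) (by omega) (by omega)
    have b1 := p1 (xi h j) (by omega) (by omega) (by omega)
    have c := p4 (xi h j) (by omega) (by omega) (by omega)
    omega

/-- A finite check for `Good`. -/
def chk (h : ℕ) (p : ℕ → ℕ) : Bool :=
  (List.range (2 * h + 2)).all fun x => x == 0 || x == h + 2 ||
    (decide (1 ≤ p x ∧ p x ≤ 2 * h + 1 ∧ p x ≠ h + 2) &&
      decide (p x ≠ x ∧ (x + 2 * h = p x + 1 ∨ p x + 2 * h = x + 1 ∨
        (x < p x + h ∧ p x < x + h))) &&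
      (List.range (2 * h + 2)).all fun y => y == 0 || y == h + 2 || y == x ||
        (decide (p x ≠ p y) && decide (x + p y ≠ y + p x)))

theorem good_of_chk (h : ℕ) (p : ℕ → ℕ) (hc : chk h p = true) : Good h p := by
  unfold chk at hc
  rw [List.all_eq_true] at hc
  have key : ∀ x, 1 ≤ x → x ≤ 2 * h + 1 → x ≠ h + 2 →
      (1 ≤ p x ∧ p x ≤ 2 * h + 1 ∧ p x ≠ h + 2) ∧
      (p x ≠ x ∧ (x + 2 * h = p x + 1 ∨ p x + 2 * h = x + 1 ∨ (x < p x + h ∧ p x < x + h))) ∧
      ∀ y, 1 ≤ y → y ≤ 2 * h + 1 → y ≠ h + 2 → y ≠ x → p x ≠ p y ∧ x + p y ≠ y + p x := by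
    intro x h1 h2 h3
    have h4 := hc x (List.mem_range.mpr (by omega))
    have h0 : ¬ x = 0 := by omega
    simp only [Bool.or_eq_true, beq_iff_eq, h0, h3, false_or, Bool.and_eq_true, decide_eq_true_eq,
      List.all_eq_true] at h4
    refine ⟨h4.1.1, h4.1.2, ?_⟩
    intro y g1 g2 g3 g4
    have h5 := h4.2 y (List.mem_range.mpr (by omega))
    have h6 : ¬ y = 0 := by omega
    simp only [h6, g3, g4, false_or] at h5
    exact h5
  refine ⟨fun x h1 h2 h3 => (key x h1 h2 h3).1, ?_, ?_, fun x h1 h2 h3 => (key x h1 h2 h3).2.1⟩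
  · intro x y h1 h2 h3 g1 g2 g3 e
    by_contra hne
    exact ((key x h1 h2 h3).2.2 y g1 g2 g3 (Ne.symm hne)).1 e
  · intro x y h1 h2 h3 g1 g2 g3 e
    by_contra hne
    exact ((key x h1 h2 h3).2.2 y g1 g2 g3 (Ne.symm hne)).2 e

/-- The permutation for `h = 4 * m + 8`. -/
def perm0 (m x : ℕ) : ℕ :=
  if x ≤ 1 then 8 * m + 17 - x else
  if x ≤ 2 * m + 3 then 4 * m + 10 - x else
  if x ≤ 2 * m + 4 then 2 * m + 5 - x else
  if x ≤ 3 * m + 6 then 8 * m + 17 - x else
  if x ≤ 4 * m + 9 then 4 * m + 12 - x else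
  if x ≤ 5 * m + 11 then 6 * m + 17 - x else
  if x ≤ 6 * m + 11 then 10 * m + 22 - x else
  if x ≤ 8 * m + 14 then 14 * m + 27 - x else
  if x ≤ 8 * m + 15 then 16 * m + 32 - x else
  if x ≤ 8 * m + 16 then 12 * m + 25 - x else
  8 * m + 19 - x

theorem perm0_cases (m x : ℕ) (h1 : 1 ≤ x) (h2 : x ≤ 2 * (4 * m + 8) + 1) (h3 : x ≠ 4 * m + 8 + 2) :
    (1 ≤ x ∧ x ≤ 1 ∧ perm0 m x + x = 8 * m + 17) ∨
    (2 ≤ x ∧ x ≤ 2 * m + 3 ∧ perm0 m x + x = 4 * m + 10) ∨
    (2 * m + 4 ≤ x ∧ x ≤ 2 * m + 4 ∧ perm0 m x + x = 2 * m + 5) ∨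
    (2 * m + 5 ≤ x ∧ x ≤ 3 * m + 6 ∧ perm0 m x + x = 8 * m + 17) ∨
    (3 * m + 7 ≤ x ∧ x ≤ 4 * m + 9 ∧ perm0 m x + x = 4 * m + 12) ∨
    (4 * m + 11 ≤ x ∧ x ≤ 5 * m + 11 ∧ perm0 m x + x = 6 * m + 17) ∨
    (5 * m + 12 ≤ x ∧ x ≤ 6 * m + 11 ∧ perm0 m x + x = 10 * m + 22) ∨
    (6 * m + 12 ≤ x ∧ x ≤ 8 * m + 14 ∧ perm0 m x + x = 14 * m + 27) ∨
    (8 * m + 15 ≤ x ∧ x ≤ 8 * m + 15 ∧ perm0 m x + x = 16 * m + 32) ∨
    (8 * m + 16 ≤ x ∧ x ≤ 8 * m + 16 ∧ perm0 m x + x = 12 * m + 25) ∨
    (8 * m + 17 ≤ x ∧ x ≤ 8 * m + 17 ∧ perm0 m x + x = 8 * m + 19) := by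
  have h : perm0 m x = _ := rfl
  conv at h => rhs; unfold perm0
  by_cases c0 : x ≤ 1
  · rw [if_pos c0] at h
    exact Or.inl ⟨by omega, by omega, by omega⟩
  rw [if_neg c0] at h
  by_cases c1 : x ≤ 2 * m + 3
  · rw [if_pos c1] at h
    exact Or.inr (Or.inl ⟨by omega, by omega, by omega⟩)
  rw [if_neg c1] at h
  by_cases c2 : x ≤ 2 * m + 4
  · rw [if_pos c2] at h
    exact Or.inr (Or.inr (Or.inl ⟨by omega, by omega, by omega⟩))
  rw [if_neg c2] at h
  by_cases c3 : x ≤ 3 * m + 6
  · rw [if_pos c3] at h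
    exact Or.inr (Or.inr (Or.inr (Or.inl ⟨by omega, by omega, by omega⟩)))
  rw [if_neg c3] at h
  by_cases c4 : x ≤ 4 * m + 9
  · rw [if_pos c4] at h
    exact Or.inr (Or.inr (Or.inr (Or.inr (Or.inl ⟨by omega, by omega, by omega⟩))))
  rw [if_neg c4] at h
  by_cases c5 : x ≤ 5 * m + 11
  · rw [if_pos c5] at h
    exact Or.inr (Or.inr (Or.inr (Or.inr (Or.inr (Or.inl ⟨by omega, by omega, by omega⟩)))))
  rw [if_neg c5] at h
  by_cases c6 : x ≤ 6 * m + 11
  · rw [if_pos c6] at h
    exact Or.inr (Or.inr (Or.inr (Or.inr (Or.inr (Or.inr (Or.inl ⟨by omega, by omega, by omega⟩))))))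
  rw [if_neg c6] at h
  by_cases c7 : x ≤ 8 * m + 14
  · rw [if_pos c7] at h
    exact Or.inr (Or.inr (Or.inr (Or.inr (Or.inr (Or.inr (Or.inr (Or.inl ⟨by omega, by omega, by omega⟩)))))))
  rw [if_neg c7] at h
  by_cases c8 : x ≤ 8 * m + 15
  · rw [if_pos c8] at h
    exact Or.inr (Or.inr (Or.inr (Or.inr (Or.inr (Or.inr (Or.inr (Or.inr (Or.inl ⟨by omega, by omega, by omega⟩))))))))
  rw [if_neg c8] at h
  by_cases c9 : x ≤ 8 * m + 16
  · rw [if_pos c9] at h
    exact Or.inr (Or.inr (Or.inr (Or.inr (Or.inr (Or.inr (Or.inr (Or.inr (Or.inr (Or.inl ⟨by omega, by omega, by omega⟩)))))))))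
  rw [if_neg c9] at h
  exact Or.inr (Or.inr (Or.inr (Or.inr (Or.inr (Or.inr (Or.inr (Or.inr (Or.inr (Or.inr ⟨by omega, by omega, by omega⟩)))))))))

theorem perm0_ok (m : ℕ) : Good (4 * m + 8) (perm0 m) := by
  refine ⟨?_, ?_, ?_, ?_⟩
  · intro x h1 h2 h3
    have a := perm0_cases m x h1 h2 h3
    omega
  · intro x y h1 h2 h3 h4 h5 h6 h
    have a := perm0_cases m x h1 h2 h3
    have b := perm0_cases m y h4 h5 h6
    omega
  · intro x y h1 h2 h3 h4 h5 h6 h
    have a := perm0_cases m x h1 h2 h3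
    have b := perm0_cases m y h4 h5 h6
    omega
  · intro x h1 h2 h3
    have a := perm0_cases m x h1 h2 h3
    omega

/-- The permutation for `h = 4 * m + 13`. -/
def perm1 (m x : ℕ) : ℕ :=
  if x ≤ 1 then 8 * m + 27 - x else
  if x ≤ m + 7 then 4 * m + 16 - x else
  if x ≤ 2 * m + 8 then 6 * m + 25 - x else
  if x ≤ 4 * m + 14 then 4 * m + 16 - x else
  if x ≤ 4 * m + 16 then 12 * m + 43 - x else
  if x ≤ 5 * m + 16 then 10 * m + 34 - x else
  if x ≤ 6 * m + 17 then 8 * m + 25 - x else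
  if x ≤ 8 * m + 25 then 14 * m + 43 - x else
  if x ≤ 8 * m + 26 then 8 * m + 27 - x else
  12 * m + 43 - x

theorem perm1_cases (m x : ℕ) (h1 : 1 ≤ x) (h2 : x ≤ 2 * (4 * m + 13) + 1) (h3 : x ≠ 4 * m + 13 + 2) :
    (1 ≤ x ∧ x ≤ 1 ∧ perm1 m x + x = 8 * m + 27) ∨
    (2 ≤ x ∧ x ≤ m + 7 ∧ perm1 m x + x = 4 * m + 16) ∨
    (m + 8 ≤ x ∧ x ≤ 2 * m + 8 ∧ perm1 m x + x = 6 * m + 25) ∨
    (2 * m + 9 ≤ x ∧ x ≤ 4 * m + 14 ∧ perm1 m x + x = 4 * m + 16) ∨
    (4 * m + 16 ≤ x ∧ x ≤ 4 * m + 16 ∧ perm1 m x + x = 12 * m + 43) ∨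
    (4 * m + 17 ≤ x ∧ x ≤ 5 * m + 16 ∧ perm1 m x + x = 10 * m + 34) ∨
    (5 * m + 17 ≤ x ∧ x ≤ 6 * m + 17 ∧ perm1 m x + x = 8 * m + 25) ∨
    (6 * m + 18 ≤ x ∧ x ≤ 8 * m + 25 ∧ perm1 m x + x = 14 * m + 43) ∨
    (8 * m + 26 ≤ x ∧ x ≤ 8 * m + 26 ∧ perm1 m x + x = 8 * m + 27) ∨
    (8 * m + 27 ≤ x ∧ x ≤ 8 * m + 27 ∧ perm1 m x + x = 12 * m + 43) := by
  have h : perm1 m x = _ := rfl
  conv at h => rhs; unfold perm1
  by_cases c0 : x ≤ 1
  · rw [if_pos c0] at h
    exact Or.inl ⟨by omega, by omega, by omega⟩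
  rw [if_neg c0] at h
  by_cases c1 : x ≤ m + 7
  · rw [if_pos c1] at h
    exact Or.inr (Or.inl ⟨by omega, by omega, by omega⟩)
  rw [if_neg c1] at h
  by_cases c2 : x ≤ 2 * m + 8
  · rw [if_pos c2] at h
    exact Or.inr (Or.inr (Or.inl ⟨by omega, by omega, by omega⟩))
  rw [if_neg c2] at h
  by_cases c3 : x ≤ 4 * m + 14
  · rw [if_pos c3] at h
    exact Or.inr (Or.inr (Or.inr (Or.inl ⟨by omega, by omega, by omega⟩)))
  rw [if_neg c3] at h
  by_cases c4 : x ≤ 4 * m + 16
  · rw [if_pos c4] at h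
    exact Or.inr (Or.inr (Or.inr (Or.inr (Or.inl ⟨by omega, by omega, by omega⟩))))
  rw [if_neg c4] at h
  by_cases c5 : x ≤ 5 * m + 16
  · rw [if_pos c5] at h
    exact Or.inr (Or.inr (Or.inr (Or.inr (Or.inr (Or.inl ⟨by omega, by omega, by omega⟩)))))
  rw [if_neg c5] at h
  by_cases c6 : x ≤ 6 * m + 17
  · rw [if_pos c6] at h
    exact Or.inr (Or.inr (Or.inr (Or.inr (Or.inr (Or.inr (Or.inl ⟨by omega, by omega, by omega⟩))))))
  rw [if_neg c6] at h
  by_cases c7 : x ≤ 8 * m + 25
  · rw [if_pos c7] at h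
    exact Or.inr (Or.inr (Or.inr (Or.inr (Or.inr (Or.inr (Or.inr (Or.inl ⟨by omega, by omega, by omega⟩)))))))
  rw [if_neg c7] at h
  by_cases c8 : x ≤ 8 * m + 26
  · rw [if_pos c8] at h
    exact Or.inr (Or.inr (Or.inr (Or.inr (Or.inr (Or.inr (Or.inr (Or.inr (Or.inl ⟨by omega, by omega, by omega⟩))))))))
  rw [if_neg c8] at h
  exact Or.inr (Or.inr (Or.inr (Or.inr (Or.inr (Or.inr (Or.inr (Or.inr (Or.inr ⟨by omega, by omega, by omega⟩))))))))

theorem perm1_ok (m : ℕ) : Good (4 * m + 13) (perm1 m) := by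
  refine ⟨?_, ?_, ?_, ?_⟩
  · intro x h1 h2 h3
    have a := perm1_cases m x h1 h2 h3
    omega
  · intro x y h1 h2 h3 h4 h5 h6 h
    have a := perm1_cases m x h1 h2 h3
    have b := perm1_cases m y h4 h5 h6
    omega
  · intro x y h1 h2 h3 h4 h5 h6 h
    have a := perm1_cases m x h1 h2 h3
    have b := perm1_cases m y h4 h5 h6
    omega
  · intro x h1 h2 h3
    have a := perm1_cases m x h1 h2 h3
    omega

/-- The permutation for `h = 4 * m + 10`. -/
def perm2 (m x : ℕ) : ℕ :=
  if x ≤ 1 then 8 * m + 21 - x else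
  if x ≤ 2 then 4 * m + 13 - x else
  if x ≤ 3 then 4 - x else
  if x ≤ 2 * m + 6 then 4 * m + 14 - x else
  if x ≤ 3 * m + 8 then 8 * m + 21 - x else
  if x ≤ 4 * m + 11 then 4 * m + 14 - x else
  if x ≤ 4 * m + 13 then 12 * m + 34 - x else
  if x ≤ 5 * m + 15 then 6 * m + 21 - x else
  if x ≤ 6 * m + 15 then 10 * m + 28 - x else
  if x ≤ 8 * m + 20 then 14 * m + 35 - x else
  8 * m + 23 - x

theorem perm2_cases (m x : ℕ) (h1 : 1 ≤ x) (h2 : x ≤ 2 * (4 * m + 10) + 1) (h3 : x ≠ 4 * m + 10 + 2) :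
    (1 ≤ x ∧ x ≤ 1 ∧ perm2 m x + x = 8 * m + 21) ∨
    (2 ≤ x ∧ x ≤ 2 ∧ perm2 m x + x = 4 * m + 13) ∨
    (3 ≤ x ∧ x ≤ 3 ∧ perm2 m x + x = 4) ∨
    (4 ≤ x ∧ x ≤ 2 * m + 6 ∧ perm2 m x + x = 4 * m + 14) ∨
    (2 * m + 7 ≤ x ∧ x ≤ 3 * m + 8 ∧ perm2 m x + x = 8 * m + 21) ∨
    (3 * m + 9 ≤ x ∧ x ≤ 4 * m + 11 ∧ perm2 m x + x = 4 * m + 14) ∨
    (4 * m + 13 ≤ x ∧ x ≤ 4 * m + 13 ∧ perm2 m x + x = 12 * m + 34) ∨
    (4 * m + 14 ≤ x ∧ x ≤ 5 * m + 15 ∧ perm2 m x + x = 6 * m + 21) ∨
    (5 * m + 16 ≤ x ∧ x ≤ 6 * m + 15 ∧ perm2 m x + x = 10 * m + 28) ∨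
    (6 * m + 16 ≤ x ∧ x ≤ 8 * m + 20 ∧ perm2 m x + x = 14 * m + 35) ∨
    (8 * m + 21 ≤ x ∧ x ≤ 8 * m + 21 ∧ perm2 m x + x = 8 * m + 23) := by
  have h : perm2 m x = _ := rfl
  conv at h => rhs; unfold perm2
  by_cases c0 : x ≤ 1
  · rw [if_pos c0] at h
    exact Or.inl ⟨by omega, by omega, by omega⟩
  rw [if_neg c0] at h
  by_cases c1 : x ≤ 2
  · rw [if_pos c1] at h
    exact Or.inr (Or.inl ⟨by omega, by omega, by omega⟩)
  rw [if_neg c1] at h
  by_cases c2 : x ≤ 3
  · rw [if_pos c2] at h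
    exact Or.inr (Or.inr (Or.inl ⟨by omega, by omega, by omega⟩))
  rw [if_neg c2] at h
  by_cases c3 : x ≤ 2 * m + 6
  · rw [if_pos c3] at h
    exact Or.inr (Or.inr (Or.inr (Or.inl ⟨by omega, by omega, by omega⟩)))
  rw [if_neg c3] at h
  by_cases c4 : x ≤ 3 * m + 8
  · rw [if_pos c4] at h
    exact Or.inr (Or.inr (Or.inr (Or.inr (Or.inl ⟨by omega, by omega, by omega⟩))))
  rw [if_neg c4] at h
  by_cases c5 : x ≤ 4 * m + 11
  · rw [if_pos c5] at h
    exact Or.inr (Or.inr (Or.inr (Or.inr (Or.inr (Or.inl ⟨by omega, by omega, by omega⟩)))))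
  rw [if_neg c5] at h
  by_cases c6 : x ≤ 4 * m + 13
  · rw [if_pos c6] at h
    exact Or.inr (Or.inr (Or.inr (Or.inr (Or.inr (Or.inr (Or.inl ⟨by omega, by omega, by omega⟩))))))
  rw [if_neg c6] at h
  by_cases c7 : x ≤ 5 * m + 15
  · rw [if_pos c7] at h
    exact Or.inr (Or.inr (Or.inr (Or.inr (Or.inr (Or.inr (Or.inr (Or.inl ⟨by omega, by omega, by omega⟩)))))))
  rw [if_neg c7] at h
  by_cases c8 : x ≤ 6 * m + 15
  · rw [if_pos c8] at h
    exact Or.inr (Or.inr (Or.inr (Or.inr (Or.inr (Or.inr (Or.inr (Or.inr (Or.inl ⟨by omega, by omega, by omega⟩))))))))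
  rw [if_neg c8] at h
  by_cases c9 : x ≤ 8 * m + 20
  · rw [if_pos c9] at h
    exact Or.inr (Or.inr (Or.inr (Or.inr (Or.inr (Or.inr (Or.inr (Or.inr (Or.inr (Or.inl ⟨by omega, by omega, by omega⟩)))))))))
  rw [if_neg c9] at h
  exact Or.inr (Or.inr (Or.inr (Or.inr (Or.inr (Or.inr (Or.inr (Or.inr (Or.inr (Or.inr ⟨by omega, by omega, by omega⟩)))))))))

theorem perm2_ok (m : ℕ) : Good (4 * m + 10) (perm2 m) := by
  refine ⟨?_, ?_, ?_, ?_⟩
  · intro x h1 h2 h3
    have a := perm2_cases m x h1 h2 h3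
    omega
  · intro x y h1 h2 h3 h4 h5 h6 h
    have a := perm2_cases m x h1 h2 h3
    have b := perm2_cases m y h4 h5 h6
    omega
  · intro x y h1 h2 h3 h4 h5 h6 h
    have a := perm2_cases m x h1 h2 h3
    have b := perm2_cases m y h4 h5 h6
    omega
  · intro x h1 h2 h3
    have a := perm2_cases m x h1 h2 h3
    omega

/-- The permutation for `h = 4 * m + 11`. -/
def perm3 (m x : ℕ) : ℕ :=
  if x ≤ 1 then 8 * m + 23 - x else
  if x ≤ 2 * m + 5 then 4 * m + 14 - x else
  if x ≤ 2 * m + 6 then 2 * m + 8 - x else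
  if x ≤ 3 * m + 9 then 8 * m + 23 - x else
  if x ≤ 4 * m + 12 then 4 * m + 15 - x else
  if x ≤ 5 * m + 16 then 6 * m + 22 - x else
  if x ≤ 6 * m + 16 then 10 * m + 30 - x else
  if x ≤ 8 * m + 20 then 14 * m + 37 - x else
  if x ≤ 8 * m + 21 then 16 * m + 44 - x else
  if x ≤ 8 * m + 22 then 8 * m + 23 - x else
  16 * m + 44 - x

theorem perm3_cases (m x : ℕ) (h1 : 1 ≤ x) (h2 : x ≤ 2 * (4 * m + 11) + 1) (h3 : x ≠ 4 * m + 11 + 2) :
    (1 ≤ x ∧ x ≤ 1 ∧ perm3 m x + x = 8 * m + 23) ∨
    (2 ≤ x ∧ x ≤ 2 * m + 5 ∧ perm3 m x + x = 4 * m + 14) ∨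
    (2 * m + 6 ≤ x ∧ x ≤ 2 * m + 6 ∧ perm3 m x + x = 2 * m + 8) ∨
    (2 * m + 7 ≤ x ∧ x ≤ 3 * m + 9 ∧ perm3 m x + x = 8 * m + 23) ∨
    (3 * m + 10 ≤ x ∧ x ≤ 4 * m + 12 ∧ perm3 m x + x = 4 * m + 15) ∨
    (4 * m + 14 ≤ x ∧ x ≤ 5 * m + 16 ∧ perm3 m x + x = 6 * m + 22) ∨
    (5 * m + 17 ≤ x ∧ x ≤ 6 * m + 16 ∧ perm3 m x + x = 10 * m + 30) ∨
    (6 * m + 17 ≤ x ∧ x ≤ 8 * m + 20 ∧ perm3 m x + x = 14 * m + 37) ∨
    (8 * m + 21 ≤ x ∧ x ≤ 8 * m + 21 ∧ perm3 m x + x = 16 * m + 44) ∨
    (8 * m + 22 ≤ x ∧ x ≤ 8 * m + 22 ∧ perm3 m x + x = 8 * m + 23) ∨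
    (8 * m + 23 ≤ x ∧ x ≤ 8 * m + 23 ∧ perm3 m x + x = 16 * m + 44) := by
  have h : perm3 m x = _ := rfl
  conv at h => rhs; unfold perm3
  by_cases c0 : x ≤ 1
  · rw [if_pos c0] at h
    exact Or.inl ⟨by omega, by omega, by omega⟩
  rw [if_neg c0] at h
  by_cases c1 : x ≤ 2 * m + 5
  · rw [if_pos c1] at h
    exact Or.inr (Or.inl ⟨by omega, by omega, by omega⟩)
  rw [if_neg c1] at h
  by_cases c2 : x ≤ 2 * m + 6
  · rw [if_pos c2] at h
    exact Or.inr (Or.inr (Or.inl ⟨by omega, by omega, by omega⟩))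
  rw [if_neg c2] at h
  by_cases c3 : x ≤ 3 * m + 9
  · rw [if_pos c3] at h
    exact Or.inr (Or.inr (Or.inr (Or.inl ⟨by omega, by omega, by omega⟩)))
  rw [if_neg c3] at h
  by_cases c4 : x ≤ 4 * m + 12
  · rw [if_pos c4] at h
    exact Or.inr (Or.inr (Or.inr (Or.inr (Or.inl ⟨by omega, by omega, by omega⟩))))
  rw [if_neg c4] at h
  by_cases c5 : x ≤ 5 * m + 16
  · rw [if_pos c5] at h
    exact Or.inr (Or.inr (Or.inr (Or.inr (Or.inr (Or.inl ⟨by omega, by omega, by omega⟩)))))
  rw [if_neg c5] at h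
  by_cases c6 : x ≤ 6 * m + 16
  · rw [if_pos c6] at h
    exact Or.inr (Or.inr (Or.inr (Or.inr (Or.inr (Or.inr (Or.inl ⟨by omega, by omega, by omega⟩))))))
  rw [if_neg c6] at h
  by_cases c7 : x ≤ 8 * m + 20
  · rw [if_pos c7] at h
    exact Or.inr (Or.inr (Or.inr (Or.inr (Or.inr (Or.inr (Or.inr (Or.inl ⟨by omega, by omega, by omega⟩)))))))
  rw [if_neg c7] at h
  by_cases c8 : x ≤ 8 * m + 21
  · rw [if_pos c8] at h
    exact Or.inr (Or.inr (Or.inr (Or.inr (Or.inr (Or.inr (Or.inr (Or.inr (Or.inl ⟨by omega, by omega, by omega⟩))))))))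
  rw [if_neg c8] at h
  by_cases c9 : x ≤ 8 * m + 22
  · rw [if_pos c9] at h
    exact Or.inr (Or.inr (Or.inr (Or.inr (Or.inr (Or.inr (Or.inr (Or.inr (Or.inr (Or.inl ⟨by omega, by omega, by omega⟩)))))))))
  rw [if_neg c9] at h
  exact Or.inr (Or.inr (Or.inr (Or.inr (Or.inr (Or.inr (Or.inr (Or.inr (Or.inr (Or.inr ⟨by omega, by omega, by omega⟩)))))))))

theorem perm3_ok (m : ℕ) : Good (4 * m + 11) (perm3 m) := by
  refine ⟨?_, ?_, ?_, ?_⟩
  · intro x h1 h2 h3
    have a := perm3_cases m x h1 h2 h3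
    omega
  · intro x y h1 h2 h3 h4 h5 h6 h
    have a := perm3_cases m x h1 h2 h3
    have b := perm3_cases m y h4 h5 h6
    omega
  · intro x y h1 h2 h3 h4 h5 h6 h
    have a := perm3_cases m x h1 h2 h3
    have b := perm3_cases m y h4 h5 h6
    omega
  · intro x h1 h2 h3
    have a := perm3_cases m x h1 h2 h3
    omega

theorem good_3 : Good 3 (fun x => ([0, 6, 4, 1, 3, 0, 7, 2] : List ℕ).getD x 0) :=
  good_of_chk _ _ (by decide +kernel)

theorem good_4 : Good 4 (fun x => ([0, 2, 9, 5, 3, 8, 0, 4, 1, 7] : List ℕ).getD x 0) :=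
  good_of_chk _ _ (by decide +kernel)

theorem good_5 : Good 5 (fun x => ([0, 2, 11, 5, 3, 8, 10, 0, 4, 6, 1, 9] : List ℕ).getD x 0) :=
  good_of_chk _ _ (by decide +kernel)

theorem good_6 : Good 6 (fun x => ([0, 12, 7, 6, 5, 3, 2, 11, 0, 4, 9, 13, 1, 10] : List ℕ).getD x 0) :=
  good_of_chk _ _ (by decide +kernel)

theorem good_7 : Good 7 (fun x => ([0, 5, 15, 8, 10, 7, 1, 3, 6, 0, 4, 14, 13, 12, 11, 2] : List ℕ).getD x 0) :=
  good_of_chk _ _ (by decide +kernel)

theorem good_9 : Good 9 (fun x => ([0, 7, 19, 10, 12, 9, 8, 1, 6, 5, 3, 0, 4, 18, 17, 16, 15, 14, 13, 2] : List ℕ).getD x 0) :=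
  good_of_chk _ _ (by decide +kernel)


theorem even_half (h : ℕ) (hh : 3 ≤ h) : SuperEdgeMagic (book (2 * h)) := by
  by_cases h3 : h = 3
  · subst h3; exact sem_even 3 (by omega) _ good_3
  by_cases h4 : h = 4
  · subst h4; exact sem_even 4 (by omega) _ good_4
  by_cases h5 : h = 5
  · subst h5; exact sem_even 5 (by omega) _ good_5
  by_cases h6 : h = 6
  · subst h6; exact sem_even 6 (by omega) _ good_6
  by_cases h7 : h = 7
  · subst h7; exact sem_even 7 (by omega) _ good_7
  by_cases h9 : h = 9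
  · subst h9; exact sem_even 9 (by omega) _ good_9
  have hm : (∃ m, h = 4 * m + 8) ∨ (∃ m, h = 4 * m + 13) ∨ (∃ m, h = 4 * m + 10) ∨
      (∃ m, h = 4 * m + 11) := by
    have h0 : h % 4 = 0 ∨ h % 4 = 1 ∨ h % 4 = 2 ∨ h % 4 = 3 := by omega
    rcases h0 with h0 | h0 | h0 | h0
    · exact Or.inl ⟨(h - 8) / 4, by omega⟩
    · exact Or.inr (Or.inl ⟨(h - 13) / 4, by omega⟩)
    · exact Or.inr (Or.inr (Or.inl ⟨(h - 10) / 4, by omega⟩))
    · exact Or.inr (Or.inr (Or.inr ⟨(h - 11) / 4, by omega⟩))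
  rcases hm with ⟨m, rfl⟩ | ⟨m, rfl⟩ | ⟨m, rfl⟩ | ⟨m, rfl⟩
  · exact sem_even _ (by omega) _ (perm0_ok m)
  · exact sem_even _ (by omega) _ (perm1_ok m)
  · exact sem_even _ (by omega) _ (perm2_ok m)
  · exact sem_even _ (by omega) _ (perm3_ok m)

/-- Every book with an even number `n ≥ 6` of pages is super edge-magic. -/
theorem even_books (n : ℕ) (hn : 5 ≤ n) (he : Even n) : SuperEdgeMagic (book n) := by
  obtain ⟨h, rfl⟩ := he
  have := even_half h (by omega)
  rwa [two_mul] at this

/-- The pages of the labeling (`runA`): a list of triples `(x, y, L)`. -/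
def runA (h : ℕ) : List (ℕ × ℕ × ℕ) :=
  [(2 * h + 3, 12 * h + 5, h - 1),
   (3 * h + 2, 13 * h + 5, h - 1),
   (4 * h + 3, 10 * h + 6, h - 1),
   (5 * h + 2, 11 * h + 6, h - 1),
   (6 * h + 1, 2 * h + 2, 1),
   (6 * h + 3, 18 * h + 10, h - 1),
   (7 * h + 2, 29 * h + 11, 1),
   (7 * h + 3, 31 * h + 12, 1),
   (7 * h + 4, 19 * h + 9, h - 1),
   (8 * h + 3, 1, 1),
   (8 * h + 4, 16 * h + 8, 1),
   (8 * h + 5, 28 * h + 12, h - 1),
   (9 * h + 4, h, 1),
   (9 * h + 5, 11 * h + 5, 1),
   (9 * h + 6, 29 * h + 12, h),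
   (14 * h + 4, 4 * h + 1, 1),
   (14 * h + 5, 18 * h + 9, 1),
   (14 * h + 6, 22 * h + 10, h - 1),
   (15 * h + 5, h + 1, 1),
   (15 * h + 6, 21 * h + 9, 1),
   (15 * h + 7, 23 * h + 9, 1),
   (15 * h + 8, 13 * h + 4, 1),
   (15 * h + 9, 23 * h + 10, h - 1),
   (16 * h + 9, 30 * h + 12, h),
   (17 * h + 9, 31 * h + 13, h - 1),
   (24 * h + 11, 24 * h + 10, 1),
   (24 * h + 12, 2, h - 2),
   (25 * h + 10, h + 2, h),
   (26 * h + 10, 18 * h + 8, 1),
   (26 * h + 11, 24 * h + 9, 1),
   (26 * h + 12, 20 * h + 8, h + 1),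
   (27 * h + 13, 21 * h + 10, h - 1),
   (32 * h + 12, 6 * h + 2, 1)]

theorem runA_m0 (h : ℕ) : (2 * h + 3, 12 * h + 5, h - 1) ∈ runA h := by
  simp only [runA]; repeat (first | exact List.mem_cons_self | apply List.mem_cons_of_mem)
theorem runA_m1 (h : ℕ) : (3 * h + 2, 13 * h + 5, h - 1) ∈ runA h := by
  simp only [runA]; repeat (first | exact List.mem_cons_self | apply List.mem_cons_of_mem)
theorem runA_m2 (h : ℕ) : (4 * h + 3, 10 * h + 6, h - 1) ∈ runA h := by
  simp only [runA]; repeat (first | exact List.mem_cons_self | apply List.mem_cons_of_mem)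
theorem runA_m3 (h : ℕ) : (5 * h + 2, 11 * h + 6, h - 1) ∈ runA h := by
  simp only [runA]; repeat (first | exact List.mem_cons_self | apply List.mem_cons_of_mem)
theorem runA_m4 (h : ℕ) : (6 * h + 1, 2 * h + 2, 1) ∈ runA h := by
  simp only [runA]; repeat (first | exact List.mem_cons_self | apply List.mem_cons_of_mem)
theorem runA_m5 (h : ℕ) : (6 * h + 3, 18 * h + 10, h - 1) ∈ runA h := by
  simp only [runA]; repeat (first | exact List.mem_cons_self | apply List.mem_cons_of_mem)
theorem runA_m6 (h : ℕ) : (7 * h + 2, 29 * h + 11, 1) ∈ runA h := by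
  simp only [runA]; repeat (first | exact List.mem_cons_self | apply List.mem_cons_of_mem)
theorem runA_m7 (h : ℕ) : (7 * h + 3, 31 * h + 12, 1) ∈ runA h := by
  simp only [runA]; repeat (first | exact List.mem_cons_self | apply List.mem_cons_of_mem)
theorem runA_m8 (h : ℕ) : (7 * h + 4, 19 * h + 9, h - 1) ∈ runA h := by
  simp only [runA]; repeat (first | exact List.mem_cons_self | apply List.mem_cons_of_mem)
theorem runA_m9 (h : ℕ) : (8 * h + 3, 1, 1) ∈ runA h := by
  simp only [runA]; repeat (first | exact List.mem_cons_self | apply List.mem_cons_of_mem)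
theorem runA_m10 (h : ℕ) : (8 * h + 4, 16 * h + 8, 1) ∈ runA h := by
  simp only [runA]; repeat (first | exact List.mem_cons_self | apply List.mem_cons_of_mem)
theorem runA_m11 (h : ℕ) : (8 * h + 5, 28 * h + 12, h - 1) ∈ runA h := by
  simp only [runA]; repeat (first | exact List.mem_cons_self | apply List.mem_cons_of_mem)
theorem runA_m12 (h : ℕ) : (9 * h + 4, h, 1) ∈ runA h := by
  simp only [runA]; repeat (first | exact List.mem_cons_self | apply List.mem_cons_of_mem)
theorem runA_m13 (h : ℕ) : (9 * h + 5, 11 * h + 5, 1) ∈ runA h := by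
  simp only [runA]; repeat (first | exact List.mem_cons_self | apply List.mem_cons_of_mem)
theorem runA_m14 (h : ℕ) : (9 * h + 6, 29 * h + 12, h) ∈ runA h := by
  simp only [runA]; repeat (first | exact List.mem_cons_self | apply List.mem_cons_of_mem)
theorem runA_m15 (h : ℕ) : (14 * h + 4, 4 * h + 1, 1) ∈ runA h := by
  simp only [runA]; repeat (first | exact List.mem_cons_self | apply List.mem_cons_of_mem)
theorem runA_m16 (h : ℕ) : (14 * h + 5, 18 * h + 9, 1) ∈ runA h := by
  simp only [runA]; repeat (first | exact List.mem_cons_self | apply List.mem_cons_of_mem)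
theorem runA_m17 (h : ℕ) : (14 * h + 6, 22 * h + 10, h - 1) ∈ runA h := by
  simp only [runA]; repeat (first | exact List.mem_cons_self | apply List.mem_cons_of_mem)
theorem runA_m18 (h : ℕ) : (15 * h + 5, h + 1, 1) ∈ runA h := by
  simp only [runA]; repeat (first | exact List.mem_cons_self | apply List.mem_cons_of_mem)
theorem runA_m19 (h : ℕ) : (15 * h + 6, 21 * h + 9, 1) ∈ runA h := by
  simp only [runA]; repeat (first | exact List.mem_cons_self | apply List.mem_cons_of_mem)
theorem runA_m20 (h : ℕ) : (15 * h + 7, 23 * h + 9, 1) ∈ runA h := by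
  simp only [runA]; repeat (first | exact List.mem_cons_self | apply List.mem_cons_of_mem)
theorem runA_m21 (h : ℕ) : (15 * h + 8, 13 * h + 4, 1) ∈ runA h := by
  simp only [runA]; repeat (first | exact List.mem_cons_self | apply List.mem_cons_of_mem)
theorem runA_m22 (h : ℕ) : (15 * h + 9, 23 * h + 10, h - 1) ∈ runA h := by
  simp only [runA]; repeat (first | exact List.mem_cons_self | apply List.mem_cons_of_mem)
theorem runA_m23 (h : ℕ) : (16 * h + 9, 30 * h + 12, h) ∈ runA h := by
  simp only [runA]; repeat (first | exact List.mem_cons_self | apply List.mem_cons_of_mem)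
theorem runA_m24 (h : ℕ) : (17 * h + 9, 31 * h + 13, h - 1) ∈ runA h := by
  simp only [runA]; repeat (first | exact List.mem_cons_self | apply List.mem_cons_of_mem)
theorem runA_m25 (h : ℕ) : (24 * h + 11, 24 * h + 10, 1) ∈ runA h := by
  simp only [runA]; repeat (first | exact List.mem_cons_self | apply List.mem_cons_of_mem)
theorem runA_m26 (h : ℕ) : (24 * h + 12, 2, h - 2) ∈ runA h := by
  simp only [runA]; repeat (first | exact List.mem_cons_self | apply List.mem_cons_of_mem)
theorem runA_m27 (h : ℕ) : (25 * h + 10, h + 2, h) ∈ runA h := by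
  simp only [runA]; repeat (first | exact List.mem_cons_self | apply List.mem_cons_of_mem)
theorem runA_m28 (h : ℕ) : (26 * h + 10, 18 * h + 8, 1) ∈ runA h := by
  simp only [runA]; repeat (first | exact List.mem_cons_self | apply List.mem_cons_of_mem)
theorem runA_m29 (h : ℕ) : (26 * h + 11, 24 * h + 9, 1) ∈ runA h := by
  simp only [runA]; repeat (first | exact List.mem_cons_self | apply List.mem_cons_of_mem)
theorem runA_m30 (h : ℕ) : (26 * h + 12, 20 * h + 8, h + 1) ∈ runA h := by
  simp only [runA]; repeat (first | exact List.mem_cons_self | apply List.mem_cons_of_mem)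
theorem runA_m31 (h : ℕ) : (27 * h + 13, 21 * h + 10, h - 1) ∈ runA h := by
  simp only [runA]; repeat (first | exact List.mem_cons_self | apply List.mem_cons_of_mem)
theorem runA_m32 (h : ℕ) : (32 * h + 12, 6 * h + 2, 1) ∈ runA h := by
  simp only [runA]; repeat (first | exact List.mem_cons_self | apply List.mem_cons_of_mem)

theorem runA_len (h : ℕ) (hh : 2 ≤ h) : (pairs (runA h)).length = 16 * h + 5 := by
  rw [length_pairs]
  simp only [runA, List.map_cons, List.map_nil, List.sum_cons, List.sum_nil]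
  omega

theorem runA_lab (h : ℕ) (hh : 2 ≤ h) (l : ℕ) (l1 : 1 ≤ l) (l2 : l ≤ 32 * h + 12) :
    l = 4 * h + 2 ∨ l = 22 * h + 9 ∨ (∃ p ∈ pairs (runA h), p.1 = l) ∨ ∃ p ∈ pairs (runA h), p.2 = l := by
  by_cases c : l < 2
  · clear l2
    exact Or.inr (Or.inr (Or.inr (cov_y (runA_m9 h) (by omega) (by omega))))
  replace l1 : 2 ≤ l := by omega
  clear c
  by_cases c : l < h
  · clear l2
    exact Or.inr (Or.inr (Or.inr (cov_y (runA_m26 h) (by omega) (by omega))))
  replace l1 : h ≤ l := by omega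
  clear c
  by_cases c : l < h + 1
  · clear l2
    exact Or.inr (Or.inr (Or.inr (cov_y (runA_m12 h) (by omega) (by omega))))
  replace l1 : h + 1 ≤ l := by omega
  clear c
  by_cases c : l < h + 2
  · clear l2
    exact Or.inr (Or.inr (Or.inr (cov_y (runA_m18 h) (by omega) (by omega))))
  replace l1 : h + 2 ≤ l := by omega
  clear c
  by_cases c : l < 2 * h + 2
  · clear l2
    exact Or.inr (Or.inr (Or.inr (cov_y (runA_m27 h) (by omega) (by omega))))
  replace l1 : 2 * h + 2 ≤ l := by omega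
  clear c
  by_cases c : l < 2 * h + 3
  · clear l2
    exact Or.inr (Or.inr (Or.inr (cov_y (runA_m4 h) (by omega) (by omega))))
  replace l1 : 2 * h + 3 ≤ l := by omega
  clear c
  by_cases c : l < 3 * h + 2
  · clear l2
    exact Or.inr (Or.inr (Or.inl (cov_x (runA_m0 h) (by omega) (by omega))))
  replace l1 : 3 * h + 2 ≤ l := by omega
  clear c
  by_cases c : l < 4 * h + 1
  · clear l2
    exact Or.inr (Or.inr (Or.inl (cov_x (runA_m1 h) (by omega) (by omega))))
  replace l1 : 4 * h + 1 ≤ l := by omega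
  clear c
  by_cases c : l < 4 * h + 2
  · clear l2
    exact Or.inr (Or.inr (Or.inr (cov_y (runA_m15 h) (by omega) (by omega))))
  replace l1 : 4 * h + 2 ≤ l := by omega
  clear c
  by_cases c : l < 4 * h + 3
  · clear l2
    exact Or.inl (by omega)
  replace l1 : 4 * h + 3 ≤ l := by omega
  clear c
  by_cases c : l < 5 * h + 2
  · clear l2
    exact Or.inr (Or.inr (Or.inl (cov_x (runA_m2 h) (by omega) (by omega))))
  replace l1 : 5 * h + 2 ≤ l := by omega
  clear c
  by_cases c : l < 6 * h + 1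
  · clear l2
    exact Or.inr (Or.inr (Or.inl (cov_x (runA_m3 h) (by omega) (by omega))))
  replace l1 : 6 * h + 1 ≤ l := by omega
  clear c
  by_cases c : l < 6 * h + 2
  · clear l2
    exact Or.inr (Or.inr (Or.inl (cov_x (runA_m4 h) (by omega) (by omega))))
  replace l1 : 6 * h + 2 ≤ l := by omega
  clear c
  by_cases c : l < 6 * h + 3
  · clear l2
    exact Or.inr (Or.inr (Or.inr (cov_y (runA_m32 h) (by omega) (by omega))))
  replace l1 : 6 * h + 3 ≤ l := by omega
  clear c
  by_cases c : l < 7 * h + 2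
  · clear l2
    exact Or.inr (Or.inr (Or.inl (cov_x (runA_m5 h) (by omega) (by omega))))
  replace l1 : 7 * h + 2 ≤ l := by omega
  clear c
  by_cases c : l < 7 * h + 3
  · clear l2
    exact Or.inr (Or.inr (Or.inl (cov_x (runA_m6 h) (by omega) (by omega))))
  replace l1 : 7 * h + 3 ≤ l := by omega
  clear c
  by_cases c : l < 7 * h + 4
  · clear l2
    exact Or.inr (Or.inr (Or.inl (cov_x (runA_m7 h) (by omega) (by omega))))
  replace l1 : 7 * h + 4 ≤ l := by omega
  clear c
  by_cases c : l < 8 * h + 3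
  · clear l2
    exact Or.inr (Or.inr (Or.inl (cov_x (runA_m8 h) (by omega) (by omega))))
  replace l1 : 8 * h + 3 ≤ l := by omega
  clear c
  by_cases c : l < 8 * h + 4
  · clear l2
    exact Or.inr (Or.inr (Or.inl (cov_x (runA_m9 h) (by omega) (by omega))))
  replace l1 : 8 * h + 4 ≤ l := by omega
  clear c
  by_cases c : l < 8 * h + 5
  · clear l2
    exact Or.inr (Or.inr (Or.inl (cov_x (runA_m10 h) (by omega) (by omega))))
  replace l1 : 8 * h + 5 ≤ l := by omega
  clear c
  by_cases c : l < 9 * h + 4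
  · clear l2
    exact Or.inr (Or.inr (Or.inl (cov_x (runA_m11 h) (by omega) (by omega))))
  replace l1 : 9 * h + 4 ≤ l := by omega
  clear c
  by_cases c : l < 9 * h + 5
  · clear l2
    exact Or.inr (Or.inr (Or.inl (cov_x (runA_m12 h) (by omega) (by omega))))
  replace l1 : 9 * h + 5 ≤ l := by omega
  clear c
  by_cases c : l < 9 * h + 6
  · clear l2
    exact Or.inr (Or.inr (Or.inl (cov_x (runA_m13 h) (by omega) (by omega))))
  replace l1 : 9 * h + 6 ≤ l := by omega
  clear c
  by_cases c : l < 10 * h + 6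
  · clear l2
    exact Or.inr (Or.inr (Or.inl (cov_x (runA_m14 h) (by omega) (by omega))))
  replace l1 : 10 * h + 6 ≤ l := by omega
  clear c
  by_cases c : l < 11 * h + 5
  · clear l2
    exact Or.inr (Or.inr (Or.inr (cov_y (runA_m2 h) (by omega) (by omega))))
  replace l1 : 11 * h + 5 ≤ l := by omega
  clear c
  by_cases c : l < 11 * h + 6
  · clear l2
    exact Or.inr (Or.inr (Or.inr (cov_y (runA_m13 h) (by omega) (by omega))))
  replace l1 : 11 * h + 6 ≤ l := by omega
  clear c
  by_cases c : l < 12 * h + 5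
  · clear l2
    exact Or.inr (Or.inr (Or.inr (cov_y (runA_m3 h) (by omega) (by omega))))
  replace l1 : 12 * h + 5 ≤ l := by omega
  clear c
  by_cases c : l < 13 * h + 4
  · clear l2
    exact Or.inr (Or.inr (Or.inr (cov_y (runA_m0 h) (by omega) (by omega))))
  replace l1 : 13 * h + 4 ≤ l := by omega
  clear c
  by_cases c : l < 13 * h + 5
  · clear l2
    exact Or.inr (Or.inr (Or.inr (cov_y (runA_m21 h) (by omega) (by omega))))
  replace l1 : 13 * h + 5 ≤ l := by omega
  clear c
  by_cases c : l < 14 * h + 4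
  · clear l2
    exact Or.inr (Or.inr (Or.inr (cov_y (runA_m1 h) (by omega) (by omega))))
  replace l1 : 14 * h + 4 ≤ l := by omega
  clear c
  by_cases c : l < 14 * h + 5
  · clear l2
    exact Or.inr (Or.inr (Or.inl (cov_x (runA_m15 h) (by omega) (by omega))))
  replace l1 : 14 * h + 5 ≤ l := by omega
  clear c
  by_cases c : l < 14 * h + 6
  · clear l2
    exact Or.inr (Or.inr (Or.inl (cov_x (runA_m16 h) (by omega) (by omega))))
  replace l1 : 14 * h + 6 ≤ l := by omega
  clear c
  by_cases c : l < 15 * h + 5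
  · clear l2
    exact Or.inr (Or.inr (Or.inl (cov_x (runA_m17 h) (by omega) (by omega))))
  replace l1 : 15 * h + 5 ≤ l := by omega
  clear c
  by_cases c : l < 15 * h + 6
  · clear l2
    exact Or.inr (Or.inr (Or.inl (cov_x (runA_m18 h) (by omega) (by omega))))
  replace l1 : 15 * h + 6 ≤ l := by omega
  clear c
  by_cases c : l < 15 * h + 7
  · clear l2
    exact Or.inr (Or.inr (Or.inl (cov_x (runA_m19 h) (by omega) (by omega))))
  replace l1 : 15 * h + 7 ≤ l := by omega
  clear c
  by_cases c : l < 15 * h + 8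
  · clear l2
    exact Or.inr (Or.inr (Or.inl (cov_x (runA_m20 h) (by omega) (by omega))))
  replace l1 : 15 * h + 8 ≤ l := by omega
  clear c
  by_cases c : l < 15 * h + 9
  · clear l2
    exact Or.inr (Or.inr (Or.inl (cov_x (runA_m21 h) (by omega) (by omega))))
  replace l1 : 15 * h + 9 ≤ l := by omega
  clear c
  by_cases c : l < 16 * h + 8
  · clear l2
    exact Or.inr (Or.inr (Or.inl (cov_x (runA_m22 h) (by omega) (by omega))))
  replace l1 : 16 * h + 8 ≤ l := by omega
  clear c
  by_cases c : l < 16 * h + 9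
  · clear l2
    exact Or.inr (Or.inr (Or.inr (cov_y (runA_m10 h) (by omega) (by omega))))
  replace l1 : 16 * h + 9 ≤ l := by omega
  clear c
  by_cases c : l < 17 * h + 9
  · clear l2
    exact Or.inr (Or.inr (Or.inl (cov_x (runA_m23 h) (by omega) (by omega))))
  replace l1 : 17 * h + 9 ≤ l := by omega
  clear c
  by_cases c : l < 18 * h + 8
  · clear l2
    exact Or.inr (Or.inr (Or.inl (cov_x (runA_m24 h) (by omega) (by omega))))
  replace l1 : 18 * h + 8 ≤ l := by omega
  clear c
  by_cases c : l < 18 * h + 9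
  · clear l2
    exact Or.inr (Or.inr (Or.inr (cov_y (runA_m28 h) (by omega) (by omega))))
  replace l1 : 18 * h + 9 ≤ l := by omega
  clear c
  by_cases c : l < 18 * h + 10
  · clear l2
    exact Or.inr (Or.inr (Or.inr (cov_y (runA_m16 h) (by omega) (by omega))))
  replace l1 : 18 * h + 10 ≤ l := by omega
  clear c
  by_cases c : l < 19 * h + 9
  · clear l2
    exact Or.inr (Or.inr (Or.inr (cov_y (runA_m5 h) (by omega) (by omega))))
  replace l1 : 19 * h + 9 ≤ l := by omega
  clear c
  by_cases c : l < 20 * h + 8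
  · clear l2
    exact Or.inr (Or.inr (Or.inr (cov_y (runA_m8 h) (by omega) (by omega))))
  replace l1 : 20 * h + 8 ≤ l := by omega
  clear c
  by_cases c : l < 21 * h + 9
  · clear l2
    exact Or.inr (Or.inr (Or.inr (cov_y (runA_m30 h) (by omega) (by omega))))
  replace l1 : 21 * h + 9 ≤ l := by omega
  clear c
  by_cases c : l < 21 * h + 10
  · clear l2
    exact Or.inr (Or.inr (Or.inr (cov_y (runA_m19 h) (by omega) (by omega))))
  replace l1 : 21 * h + 10 ≤ l := by omega
  clear c
  by_cases c : l < 22 * h + 9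
  · clear l2
    exact Or.inr (Or.inr (Or.inr (cov_y (runA_m31 h) (by omega) (by omega))))
  replace l1 : 22 * h + 9 ≤ l := by omega
  clear c
  by_cases c : l < 22 * h + 10
  · clear l2
    exact Or.inr (Or.inl (by omega))
  replace l1 : 22 * h + 10 ≤ l := by omega
  clear c
  by_cases c : l < 23 * h + 9
  · clear l2
    exact Or.inr (Or.inr (Or.inr (cov_y (runA_m17 h) (by omega) (by omega))))
  replace l1 : 23 * h + 9 ≤ l := by omega
  clear c
  by_cases c : l < 23 * h + 10
  · clear l2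
    exact Or.inr (Or.inr (Or.inr (cov_y (runA_m20 h) (by omega) (by omega))))
  replace l1 : 23 * h + 10 ≤ l := by omega
  clear c
  by_cases c : l < 24 * h + 9
  · clear l2
    exact Or.inr (Or.inr (Or.inr (cov_y (runA_m22 h) (by omega) (by omega))))
  replace l1 : 24 * h + 9 ≤ l := by omega
  clear c
  by_cases c : l < 24 * h + 10
  · clear l2
    exact Or.inr (Or.inr (Or.inr (cov_y (runA_m29 h) (by omega) (by omega))))
  replace l1 : 24 * h + 10 ≤ l := by omega
  clear c
  by_cases c : l < 24 * h + 11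
  · clear l2
    exact Or.inr (Or.inr (Or.inr (cov_y (runA_m25 h) (by omega) (by omega))))
  replace l1 : 24 * h + 11 ≤ l := by omega
  clear c
  by_cases c : l < 24 * h + 12
  · clear l2
    exact Or.inr (Or.inr (Or.inl (cov_x (runA_m25 h) (by omega) (by omega))))
  replace l1 : 24 * h + 12 ≤ l := by omega
  clear c
  by_cases c : l < 25 * h + 10
  · clear l2
    exact Or.inr (Or.inr (Or.inl (cov_x (runA_m26 h) (by omega) (by omega))))
  replace l1 : 25 * h + 10 ≤ l := by omega
  clear c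
  by_cases c : l < 26 * h + 10
  · clear l2
    exact Or.inr (Or.inr (Or.inl (cov_x (runA_m27 h) (by omega) (by omega))))
  replace l1 : 26 * h + 10 ≤ l := by omega
  clear c
  by_cases c : l < 26 * h + 11
  · clear l2
    exact Or.inr (Or.inr (Or.inl (cov_x (runA_m28 h) (by omega) (by omega))))
  replace l1 : 26 * h + 11 ≤ l := by omega
  clear c
  by_cases c : l < 26 * h + 12
  · clear l2
    exact Or.inr (Or.inr (Or.inl (cov_x (runA_m29 h) (by omega) (by omega))))
  replace l1 : 26 * h + 12 ≤ l := by omega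
  clear c
  by_cases c : l < 27 * h + 13
  · clear l2
    exact Or.inr (Or.inr (Or.inl (cov_x (runA_m30 h) (by omega) (by omega))))
  replace l1 : 27 * h + 13 ≤ l := by omega
  clear c
  by_cases c : l < 28 * h + 12
  · clear l2
    exact Or.inr (Or.inr (Or.inl (cov_x (runA_m31 h) (by omega) (by omega))))
  replace l1 : 28 * h + 12 ≤ l := by omega
  clear c
  by_cases c : l < 29 * h + 11
  · clear l2
    exact Or.inr (Or.inr (Or.inr (cov_y (runA_m11 h) (by omega) (by omega))))
  replace l1 : 29 * h + 11 ≤ l := by omega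
  clear c
  by_cases c : l < 29 * h + 12
  · clear l2
    exact Or.inr (Or.inr (Or.inr (cov_y (runA_m6 h) (by omega) (by omega))))
  replace l1 : 29 * h + 12 ≤ l := by omega
  clear c
  by_cases c : l < 30 * h + 12
  · clear l2
    exact Or.inr (Or.inr (Or.inr (cov_y (runA_m14 h) (by omega) (by omega))))
  replace l1 : 30 * h + 12 ≤ l := by omega
  clear c
  by_cases c : l < 31 * h + 12
  · clear l2
    exact Or.inr (Or.inr (Or.inr (cov_y (runA_m23 h) (by omega) (by omega))))
  replace l1 : 31 * h + 12 ≤ l := by omega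
  clear c
  by_cases c : l < 31 * h + 13
  · clear l2
    exact Or.inr (Or.inr (Or.inr (cov_y (runA_m7 h) (by omega) (by omega))))
  replace l1 : 31 * h + 13 ≤ l := by omega
  clear c
  by_cases c : l < 32 * h + 12
  · clear l2
    exact Or.inr (Or.inr (Or.inr (cov_y (runA_m24 h) (by omega) (by omega))))
  replace l1 : 32 * h + 12 ≤ l := by omega
  clear c
  exact Or.inr (Or.inr (Or.inl (cov_x (runA_m32 h) (by omega) (by omega))))

theorem runA_sum (h : ℕ) (hh : 2 ≤ h) (t : ℕ) (l1 : 6 * h + 5 ≤ t) (l2 : t ≤ 54 * h + 20) :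
    t = (4 * h + 2) + (22 * h + 9) ∨ (∃ p ∈ pairs (runA h), (4 * h + 2) + p.1 = t) ∨
      (∃ p ∈ pairs (runA h), (22 * h + 9) + p.2 = t) ∨ ∃ p ∈ pairs (runA h), p.1 + p.2 = t := by
  by_cases c : t < 7 * h + 4
  · clear l2
    exact Or.inr (Or.inl (cov_ax _ (runA_m0 h) (by omega) (by omega)))
  replace l1 : 7 * h + 4 ≤ t := by omega
  clear c
  by_cases c : t < 8 * h + 3
  · clear l2
    exact Or.inr (Or.inl (cov_ax _ (runA_m1 h) (by omega) (by omega)))
  replace l1 : 8 * h + 3 ≤ t := by omega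
  clear c
  by_cases c : t < 8 * h + 4
  · clear l2
    exact Or.inr (Or.inr (Or.inr (cov_xy (runA_m4 h) (by omega) (by omega) (by omega))))
  replace l1 : 8 * h + 4 ≤ t := by omega
  clear c
  by_cases c : t < 8 * h + 5
  · clear l2
    exact Or.inr (Or.inr (Or.inr (cov_xy (runA_m9 h) (by omega) (by omega) (by omega))))
  replace l1 : 8 * h + 5 ≤ t := by omega
  clear c
  by_cases c : t < 9 * h + 4
  · clear l2
    exact Or.inr (Or.inl (cov_ax _ (runA_m2 h) (by omega) (by omega)))
  replace l1 : 9 * h + 4 ≤ t := by omega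
  clear c
  by_cases c : t < 10 * h + 3
  · clear l2
    exact Or.inr (Or.inl (cov_ax _ (runA_m3 h) (by omega) (by omega)))
  replace l1 : 10 * h + 3 ≤ t := by omega
  clear c
  by_cases c : t < 10 * h + 4
  · clear l2
    exact Or.inr (Or.inl (cov_ax _ (runA_m4 h) (by omega) (by omega)))
  replace l1 : 10 * h + 4 ≤ t := by omega
  clear c
  by_cases c : t < 10 * h + 5
  · clear l2
    exact Or.inr (Or.inr (Or.inr (cov_xy (runA_m12 h) (by omega) (by omega) (by omega))))
  replace l1 : 10 * h + 5 ≤ t := by omega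
  clear c
  by_cases c : t < 11 * h + 4
  · clear l2
    exact Or.inr (Or.inl (cov_ax _ (runA_m5 h) (by omega) (by omega)))
  replace l1 : 11 * h + 4 ≤ t := by omega
  clear c
  by_cases c : t < 11 * h + 5
  · clear l2
    exact Or.inr (Or.inl (cov_ax _ (runA_m6 h) (by omega) (by omega)))
  replace l1 : 11 * h + 5 ≤ t := by omega
  clear c
  by_cases c : t < 11 * h + 6
  · clear l2
    exact Or.inr (Or.inl (cov_ax _ (runA_m7 h) (by omega) (by omega)))
  replace l1 : 11 * h + 6 ≤ t := by omega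
  clear c
  by_cases c : t < 12 * h + 5
  · clear l2
    exact Or.inr (Or.inl (cov_ax _ (runA_m8 h) (by omega) (by omega)))
  replace l1 : 12 * h + 5 ≤ t := by omega
  clear c
  by_cases c : t < 12 * h + 6
  · clear l2
    exact Or.inr (Or.inl (cov_ax _ (runA_m9 h) (by omega) (by omega)))
  replace l1 : 12 * h + 6 ≤ t := by omega
  clear c
  by_cases c : t < 12 * h + 7
  · clear l2
    exact Or.inr (Or.inl (cov_ax _ (runA_m10 h) (by omega) (by omega)))
  replace l1 : 12 * h + 7 ≤ t := by omega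
  clear c
  by_cases c : t < 13 * h + 6
  · clear l2
    exact Or.inr (Or.inl (cov_ax _ (runA_m11 h) (by omega) (by omega)))
  replace l1 : 13 * h + 6 ≤ t := by omega
  clear c
  by_cases c : t < 13 * h + 7
  · clear l2
    exact Or.inr (Or.inl (cov_ax _ (runA_m12 h) (by omega) (by omega)))
  replace l1 : 13 * h + 7 ≤ t := by omega
  clear c
  by_cases c : t < 13 * h + 8
  · clear l2
    exact Or.inr (Or.inl (cov_ax _ (runA_m13 h) (by omega) (by omega)))
  replace l1 : 13 * h + 8 ≤ t := by omega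
  clear c
  by_cases c : t < 14 * h + 8
  · clear l2
    exact Or.inr (Or.inl (cov_ax _ (runA_m14 h) (by omega) (by omega)))
  replace l1 : 14 * h + 8 ≤ t := by omega
  clear c
  by_cases c : t < 14 * h + 9
  · clear l2
    exact Or.inr (Or.inr (Or.inr (cov_xy (runA_m0 h) (by omega) (by omega) (by omega))))
  replace l1 : 14 * h + 9 ≤ t := by omega
  clear c
  by_cases c : t < 16 * h + 5
  · clear l2
    have hp : (t - (14 * h + 8)) % 2 = 0 ∨ (t - (14 * h + 8)) % 2 = 1 := by omega
    rcases hp with hp | hp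
    · exact Or.inr (Or.inr (Or.inr (cov_xy (runA_m0 h) (by omega) (by omega) (by omega))))
    · exact Or.inr (Or.inr (Or.inr (cov_xy (runA_m2 h) (by omega) (by omega) (by omega))))
  replace l1 : 16 * h + 5 ≤ t := by omega
  clear c
  by_cases c : t < 16 * h + 6
  · clear l2
    exact Or.inr (Or.inr (Or.inr (cov_xy (runA_m2 h) (by omega) (by omega) (by omega))))
  replace l1 : 16 * h + 6 ≤ t := by omega
  clear c
  by_cases c : t < 16 * h + 7
  · clear l2
    exact Or.inr (Or.inr (Or.inr (cov_xy (runA_m18 h) (by omega) (by omega) (by omega))))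
  replace l1 : 16 * h + 7 ≤ t := by omega
  clear c
  by_cases c : t < 16 * h + 8
  · clear l2
    exact Or.inr (Or.inr (Or.inr (cov_xy (runA_m1 h) (by omega) (by omega) (by omega))))
  replace l1 : 16 * h + 8 ≤ t := by omega
  clear c
  by_cases c : t < 18 * h + 4
  · clear l2
    have hp : (t - (16 * h + 7)) % 2 = 0 ∨ (t - (16 * h + 7)) % 2 = 1 := by omega
    rcases hp with hp | hp
    · exact Or.inr (Or.inr (Or.inr (cov_xy (runA_m1 h) (by omega) (by omega) (by omega))))
    · exact Or.inr (Or.inr (Or.inr (cov_xy (runA_m3 h) (by omega) (by omega) (by omega))))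
  replace l1 : 18 * h + 4 ≤ t := by omega
  clear c
  by_cases c : t < 18 * h + 5
  · clear l2
    exact Or.inr (Or.inr (Or.inr (cov_xy (runA_m3 h) (by omega) (by omega) (by omega))))
  replace l1 : 18 * h + 5 ≤ t := by omega
  clear c
  by_cases c : t < 18 * h + 6
  · clear l2
    exact Or.inr (Or.inr (Or.inr (cov_xy (runA_m15 h) (by omega) (by omega) (by omega))))
  replace l1 : 18 * h + 6 ≤ t := by omega
  clear c
  by_cases c : t < 18 * h + 7
  · clear l2
    exact Or.inr (Or.inl (cov_ax _ (runA_m15 h) (by omega) (by omega)))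
  replace l1 : 18 * h + 7 ≤ t := by omega
  clear c
  by_cases c : t < 18 * h + 8
  · clear l2
    exact Or.inr (Or.inl (cov_ax _ (runA_m16 h) (by omega) (by omega)))
  replace l1 : 18 * h + 8 ≤ t := by omega
  clear c
  by_cases c : t < 19 * h + 7
  · clear l2
    exact Or.inr (Or.inl (cov_ax _ (runA_m17 h) (by omega) (by omega)))
  replace l1 : 19 * h + 7 ≤ t := by omega
  clear c
  by_cases c : t < 19 * h + 8
  · clear l2
    exact Or.inr (Or.inl (cov_ax _ (runA_m18 h) (by omega) (by omega)))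
  replace l1 : 19 * h + 8 ≤ t := by omega
  clear c
  by_cases c : t < 19 * h + 9
  · clear l2
    exact Or.inr (Or.inl (cov_ax _ (runA_m19 h) (by omega) (by omega)))
  replace l1 : 19 * h + 9 ≤ t := by omega
  clear c
  by_cases c : t < 19 * h + 10
  · clear l2
    exact Or.inr (Or.inl (cov_ax _ (runA_m20 h) (by omega) (by omega)))
  replace l1 : 19 * h + 10 ≤ t := by omega
  clear c
  by_cases c : t < 19 * h + 11
  · clear l2
    exact Or.inr (Or.inl (cov_ax _ (runA_m21 h) (by omega) (by omega)))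
  replace l1 : 19 * h + 11 ≤ t := by omega
  clear c
  by_cases c : t < 20 * h + 10
  · clear l2
    exact Or.inr (Or.inl (cov_ax _ (runA_m22 h) (by omega) (by omega)))
  replace l1 : 20 * h + 10 ≤ t := by omega
  clear c
  by_cases c : t < 20 * h + 11
  · clear l2
    exact Or.inr (Or.inr (Or.inr (cov_xy (runA_m13 h) (by omega) (by omega) (by omega))))
  replace l1 : 20 * h + 11 ≤ t := by omega
  clear c
  by_cases c : t < 21 * h + 11
  · clear l2
    exact Or.inr (Or.inl (cov_ax _ (runA_m23 h) (by omega) (by omega)))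
  replace l1 : 21 * h + 11 ≤ t := by omega
  clear c
  by_cases c : t < 22 * h + 10
  · clear l2
    exact Or.inr (Or.inl (cov_ax _ (runA_m24 h) (by omega) (by omega)))
  replace l1 : 22 * h + 10 ≤ t := by omega
  clear c
  by_cases c : t < 22 * h + 11
  · clear l2
    exact Or.inr (Or.inr (Or.inl (cov_by _ (runA_m9 h) (by omega) (by omega))))
  replace l1 : 22 * h + 11 ≤ t := by omega
  clear c
  by_cases c : t < 23 * h + 9
  · clear l2
    exact Or.inr (Or.inr (Or.inl (cov_by _ (runA_m26 h) (by omega) (by omega))))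
  replace l1 : 23 * h + 9 ≤ t := by omega
  clear c
  by_cases c : t < 23 * h + 10
  · clear l2
    exact Or.inr (Or.inr (Or.inl (cov_by _ (runA_m12 h) (by omega) (by omega))))
  replace l1 : 23 * h + 10 ≤ t := by omega
  clear c
  by_cases c : t < 23 * h + 11
  · clear l2
    exact Or.inr (Or.inr (Or.inl (cov_by _ (runA_m18 h) (by omega) (by omega))))
  replace l1 : 23 * h + 11 ≤ t := by omega
  clear c
  by_cases c : t < 24 * h + 11
  · clear l2
    exact Or.inr (Or.inr (Or.inl (cov_by _ (runA_m27 h) (by omega) (by omega))))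
  replace l1 : 24 * h + 11 ≤ t := by omega
  clear c
  by_cases c : t < 24 * h + 12
  · clear l2
    exact Or.inr (Or.inr (Or.inl (cov_by _ (runA_m4 h) (by omega) (by omega))))
  replace l1 : 24 * h + 12 ≤ t := by omega
  clear c
  by_cases c : t < 24 * h + 13
  · clear l2
    exact Or.inr (Or.inr (Or.inr (cov_xy (runA_m10 h) (by omega) (by omega) (by omega))))
  replace l1 : 24 * h + 13 ≤ t := by omega
  clear c
  by_cases c : t < 24 * h + 14
  · clear l2
    exact Or.inr (Or.inr (Or.inr (cov_xy (runA_m5 h) (by omega) (by omega) (by omega))))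
  replace l1 : 24 * h + 14 ≤ t := by omega
  clear c
  by_cases c : t < 26 * h + 9
  · clear l2
    have hp : (t - (24 * h + 13)) % 2 = 0 ∨ (t - (24 * h + 13)) % 2 = 1 := by omega
    rcases hp with hp | hp
    · exact Or.inr (Or.inr (Or.inr (cov_xy (runA_m5 h) (by omega) (by omega) (by omega))))
    · exact Or.inr (Or.inr (Or.inr (cov_xy (runA_m26 h) (by omega) (by omega) (by omega))))
  replace l1 : 26 * h + 9 ≤ t := by omega
  clear c
  by_cases c : t < 26 * h + 10
  · clear l2
    exact Or.inr (Or.inr (Or.inr (cov_xy (runA_m5 h) (by omega) (by omega) (by omega))))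
  replace l1 : 26 * h + 10 ≤ t := by omega
  clear c
  by_cases c : t < 26 * h + 11
  · clear l2
    exact Or.inr (Or.inr (Or.inl (cov_by _ (runA_m15 h) (by omega) (by omega))))
  replace l1 : 26 * h + 11 ≤ t := by omega
  clear c
  by_cases c : t < 26 * h + 12
  · clear l2
    exact Or.inl (by omega)
  replace l1 : 26 * h + 12 ≤ t := by omega
  clear c
  by_cases c : t < 26 * h + 13
  · clear l2
    exact Or.inr (Or.inr (Or.inr (cov_xy (runA_m27 h) (by omega) (by omega) (by omega))))
  replace l1 : 26 * h + 13 ≤ t := by omega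
  clear c
  by_cases c : t < 28 * h + 10
  · clear l2
    have hp : (t - (26 * h + 13)) % 2 = 0 ∨ (t - (26 * h + 13)) % 2 = 1 := by omega
    rcases hp with hp | hp
    · exact Or.inr (Or.inr (Or.inr (cov_xy (runA_m8 h) (by omega) (by omega) (by omega))))
    · exact Or.inr (Or.inr (Or.inr (cov_xy (runA_m27 h) (by omega) (by omega) (by omega))))
  replace l1 : 28 * h + 10 ≤ t := by omega
  clear c
  by_cases c : t < 28 * h + 11
  · clear l2
    exact Or.inr (Or.inr (Or.inr (cov_xy (runA_m27 h) (by omega) (by omega) (by omega))))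
  replace l1 : 28 * h + 11 ≤ t := by omega
  clear c
  by_cases c : t < 28 * h + 12
  · clear l2
    exact Or.inr (Or.inr (Or.inl (cov_by _ (runA_m32 h) (by omega) (by omega))))
  replace l1 : 28 * h + 12 ≤ t := by omega
  clear c
  by_cases c : t < 28 * h + 13
  · clear l2
    exact Or.inr (Or.inr (Or.inr (cov_xy (runA_m21 h) (by omega) (by omega) (by omega))))
  replace l1 : 28 * h + 13 ≤ t := by omega
  clear c
  by_cases c : t < 28 * h + 14
  · clear l2
    exact Or.inr (Or.inl (cov_ax _ (runA_m25 h) (by omega) (by omega)))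
  replace l1 : 28 * h + 14 ≤ t := by omega
  clear c
  by_cases c : t < 29 * h + 12
  · clear l2
    exact Or.inr (Or.inl (cov_ax _ (runA_m26 h) (by omega) (by omega)))
  replace l1 : 29 * h + 12 ≤ t := by omega
  clear c
  by_cases c : t < 30 * h + 12
  · clear l2
    exact Or.inr (Or.inl (cov_ax _ (runA_m27 h) (by omega) (by omega)))
  replace l1 : 30 * h + 12 ≤ t := by omega
  clear c
  by_cases c : t < 30 * h + 13
  · clear l2
    exact Or.inr (Or.inl (cov_ax _ (runA_m28 h) (by omega) (by omega)))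
  replace l1 : 30 * h + 13 ≤ t := by omega
  clear c
  by_cases c : t < 30 * h + 14
  · clear l2
    exact Or.inr (Or.inl (cov_ax _ (runA_m29 h) (by omega) (by omega)))
  replace l1 : 30 * h + 14 ≤ t := by omega
  clear c
  by_cases c : t < 31 * h + 15
  · clear l2
    exact Or.inr (Or.inl (cov_ax _ (runA_m30 h) (by omega) (by omega)))
  replace l1 : 31 * h + 15 ≤ t := by omega
  clear c
  by_cases c : t < 32 * h + 14
  · clear l2
    exact Or.inr (Or.inl (cov_ax _ (runA_m31 h) (by omega) (by omega)))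
  replace l1 : 32 * h + 14 ≤ t := by omega
  clear c
  by_cases c : t < 32 * h + 15
  · clear l2
    exact Or.inr (Or.inr (Or.inr (cov_xy (runA_m16 h) (by omega) (by omega) (by omega))))
  replace l1 : 32 * h + 15 ≤ t := by omega
  clear c
  by_cases c : t < 33 * h + 14
  · clear l2
    exact Or.inr (Or.inr (Or.inl (cov_by _ (runA_m2 h) (by omega) (by omega))))
  replace l1 : 33 * h + 14 ≤ t := by omega
  clear c
  by_cases c : t < 33 * h + 15
  · clear l2
    exact Or.inr (Or.inr (Or.inl (cov_by _ (runA_m13 h) (by omega) (by omega))))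
  replace l1 : 33 * h + 15 ≤ t := by omega
  clear c
  by_cases c : t < 34 * h + 14
  · clear l2
    exact Or.inr (Or.inr (Or.inl (cov_by _ (runA_m3 h) (by omega) (by omega))))
  replace l1 : 34 * h + 14 ≤ t := by omega
  clear c
  by_cases c : t < 35 * h + 13
  · clear l2
    exact Or.inr (Or.inr (Or.inl (cov_by _ (runA_m0 h) (by omega) (by omega))))
  replace l1 : 35 * h + 13 ≤ t := by omega
  clear c
  by_cases c : t < 35 * h + 14
  · clear l2
    exact Or.inr (Or.inr (Or.inl (cov_by _ (runA_m21 h) (by omega) (by omega))))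
  replace l1 : 35 * h + 14 ≤ t := by omega
  clear c
  by_cases c : t < 36 * h + 13
  · clear l2
    exact Or.inr (Or.inr (Or.inl (cov_by _ (runA_m1 h) (by omega) (by omega))))
  replace l1 : 36 * h + 13 ≤ t := by omega
  clear c
  by_cases c : t < 36 * h + 14
  · clear l2
    exact Or.inr (Or.inr (Or.inr (cov_xy (runA_m6 h) (by omega) (by omega) (by omega))))
  replace l1 : 36 * h + 14 ≤ t := by omega
  clear c
  by_cases c : t < 36 * h + 15
  · clear l2
    exact Or.inr (Or.inl (cov_ax _ (runA_m32 h) (by omega) (by omega)))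
  replace l1 : 36 * h + 15 ≤ t := by omega
  clear c
  by_cases c : t < 36 * h + 16
  · clear l2
    exact Or.inr (Or.inr (Or.inr (cov_xy (runA_m19 h) (by omega) (by omega) (by omega))))
  replace l1 : 36 * h + 16 ≤ t := by omega
  clear c
  by_cases c : t < 36 * h + 17
  · clear l2
    exact Or.inr (Or.inr (Or.inr (cov_xy (runA_m17 h) (by omega) (by omega) (by omega))))
  replace l1 : 36 * h + 17 ≤ t := by omega
  clear c
  by_cases c : t < 38 * h + 13
  · clear l2
    have hp : (t - (36 * h + 17)) % 2 = 0 ∨ (t - (36 * h + 17)) % 2 = 1 := by omega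
    rcases hp with hp | hp
    · exact Or.inr (Or.inr (Or.inr (cov_xy (runA_m11 h) (by omega) (by omega) (by omega))))
    · exact Or.inr (Or.inr (Or.inr (cov_xy (runA_m17 h) (by omega) (by omega) (by omega))))
  replace l1 : 38 * h + 13 ≤ t := by omega
  clear c
  by_cases c : t < 38 * h + 14
  · clear l2
    exact Or.inr (Or.inr (Or.inr (cov_xy (runA_m11 h) (by omega) (by omega) (by omega))))
  replace l1 : 38 * h + 14 ≤ t := by omega
  clear c
  by_cases c : t < 38 * h + 15
  · clear l2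
    exact Or.inr (Or.inr (Or.inr (cov_xy (runA_m32 h) (by omega) (by omega) (by omega))))
  replace l1 : 38 * h + 15 ≤ t := by omega
  clear c
  by_cases c : t < 38 * h + 16
  · clear l2
    exact Or.inr (Or.inr (Or.inr (cov_xy (runA_m7 h) (by omega) (by omega) (by omega))))
  replace l1 : 38 * h + 16 ≤ t := by omega
  clear c
  by_cases c : t < 38 * h + 17
  · clear l2
    exact Or.inr (Or.inr (Or.inr (cov_xy (runA_m20 h) (by omega) (by omega) (by omega))))
  replace l1 : 38 * h + 17 ≤ t := by omega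
  clear c
  by_cases c : t < 38 * h + 18
  · clear l2
    exact Or.inr (Or.inr (Or.inl (cov_by _ (runA_m10 h) (by omega) (by omega))))
  replace l1 : 38 * h + 18 ≤ t := by omega
  clear c
  by_cases c : t < 38 * h + 19
  · clear l2
    exact Or.inr (Or.inr (Or.inr (cov_xy (runA_m14 h) (by omega) (by omega) (by omega))))
  replace l1 : 38 * h + 19 ≤ t := by omega
  clear c
  by_cases c : t < 40 * h + 16
  · clear l2
    have hp : (t - (38 * h + 18)) % 2 = 0 ∨ (t - (38 * h + 18)) % 2 = 1 := by omega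
    rcases hp with hp | hp
    · exact Or.inr (Or.inr (Or.inr (cov_xy (runA_m14 h) (by omega) (by omega) (by omega))))
    · exact Or.inr (Or.inr (Or.inr (cov_xy (runA_m22 h) (by omega) (by omega) (by omega))))
  replace l1 : 40 * h + 16 ≤ t := by omega
  clear c
  by_cases c : t < 40 * h + 17
  · clear l2
    exact Or.inr (Or.inr (Or.inr (cov_xy (runA_m14 h) (by omega) (by omega) (by omega))))
  replace l1 : 40 * h + 17 ≤ t := by omega
  clear c
  by_cases c : t < 40 * h + 18
  · clear l2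
    exact Or.inr (Or.inr (Or.inl (cov_by _ (runA_m28 h) (by omega) (by omega))))
  replace l1 : 40 * h + 18 ≤ t := by omega
  clear c
  by_cases c : t < 40 * h + 19
  · clear l2
    exact Or.inr (Or.inr (Or.inl (cov_by _ (runA_m16 h) (by omega) (by omega))))
  replace l1 : 40 * h + 19 ≤ t := by omega
  clear c
  by_cases c : t < 41 * h + 18
  · clear l2
    exact Or.inr (Or.inr (Or.inl (cov_by _ (runA_m5 h) (by omega) (by omega))))
  replace l1 : 41 * h + 18 ≤ t := by omega
  clear c
  by_cases c : t < 42 * h + 17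
  · clear l2
    exact Or.inr (Or.inr (Or.inl (cov_by _ (runA_m8 h) (by omega) (by omega))))
  replace l1 : 42 * h + 17 ≤ t := by omega
  clear c
  by_cases c : t < 43 * h + 18
  · clear l2
    exact Or.inr (Or.inr (Or.inl (cov_by _ (runA_m30 h) (by omega) (by omega))))
  replace l1 : 43 * h + 18 ≤ t := by omega
  clear c
  by_cases c : t < 43 * h + 19
  · clear l2
    exact Or.inr (Or.inr (Or.inl (cov_by _ (runA_m19 h) (by omega) (by omega))))
  replace l1 : 43 * h + 19 ≤ t := by omega
  clear c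
  by_cases c : t < 44 * h + 18
  · clear l2
    exact Or.inr (Or.inr (Or.inl (cov_by _ (runA_m31 h) (by omega) (by omega))))
  replace l1 : 44 * h + 18 ≤ t := by omega
  clear c
  by_cases c : t < 44 * h + 19
  · clear l2
    exact Or.inr (Or.inr (Or.inr (cov_xy (runA_m28 h) (by omega) (by omega) (by omega))))
  replace l1 : 44 * h + 19 ≤ t := by omega
  clear c
  by_cases c : t < 45 * h + 18
  · clear l2
    exact Or.inr (Or.inr (Or.inl (cov_by _ (runA_m17 h) (by omega) (by omega))))
  replace l1 : 45 * h + 18 ≤ t := by omega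
  clear c
  by_cases c : t < 45 * h + 19
  · clear l2
    exact Or.inr (Or.inr (Or.inl (cov_by _ (runA_m20 h) (by omega) (by omega))))
  replace l1 : 45 * h + 19 ≤ t := by omega
  clear c
  by_cases c : t < 46 * h + 18
  · clear l2
    exact Or.inr (Or.inr (Or.inl (cov_by _ (runA_m22 h) (by omega) (by omega))))
  replace l1 : 46 * h + 18 ≤ t := by omega
  clear c
  by_cases c : t < 46 * h + 19
  · clear l2
    exact Or.inr (Or.inr (Or.inl (cov_by _ (runA_m29 h) (by omega) (by omega))))
  replace l1 : 46 * h + 19 ≤ t := by omega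
  clear c
  by_cases c : t < 46 * h + 20
  · clear l2
    exact Or.inr (Or.inr (Or.inl (cov_by _ (runA_m25 h) (by omega) (by omega))))
  replace l1 : 46 * h + 20 ≤ t := by omega
  clear c
  by_cases c : t < 46 * h + 21
  · clear l2
    exact Or.inr (Or.inr (Or.inr (cov_xy (runA_m30 h) (by omega) (by omega) (by omega))))
  replace l1 : 46 * h + 21 ≤ t := by omega
  clear c
  by_cases c : t < 48 * h + 20
  · clear l2
    have hp : (t - (46 * h + 21)) % 2 = 0 ∨ (t - (46 * h + 21)) % 2 = 1 := by omega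
    rcases hp with hp | hp
    · exact Or.inr (Or.inr (Or.inr (cov_xy (runA_m23 h) (by omega) (by omega) (by omega))))
    · exact Or.inr (Or.inr (Or.inr (cov_xy (runA_m30 h) (by omega) (by omega) (by omega))))
  replace l1 : 48 * h + 20 ≤ t := by omega
  clear c
  by_cases c : t < 48 * h + 21
  · clear l2
    exact Or.inr (Or.inr (Or.inr (cov_xy (runA_m30 h) (by omega) (by omega) (by omega))))
  replace l1 : 48 * h + 21 ≤ t := by omega
  clear c
  by_cases c : t < 48 * h + 22
  · clear l2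
    exact Or.inr (Or.inr (Or.inr (cov_xy (runA_m25 h) (by omega) (by omega) (by omega))))
  replace l1 : 48 * h + 22 ≤ t := by omega
  clear c
  by_cases c : t < 48 * h + 23
  · clear l2
    exact Or.inr (Or.inr (Or.inr (cov_xy (runA_m24 h) (by omega) (by omega) (by omega))))
  replace l1 : 48 * h + 23 ≤ t := by omega
  clear c
  by_cases c : t < 50 * h + 19
  · clear l2
    have hp : (t - (48 * h + 22)) % 2 = 0 ∨ (t - (48 * h + 22)) % 2 = 1 := by omega
    rcases hp with hp | hp
    · exact Or.inr (Or.inr (Or.inr (cov_xy (runA_m24 h) (by omega) (by omega) (by omega))))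
    · exact Or.inr (Or.inr (Or.inr (cov_xy (runA_m31 h) (by omega) (by omega) (by omega))))
  replace l1 : 50 * h + 19 ≤ t := by omega
  clear c
  by_cases c : t < 50 * h + 20
  · clear l2
    exact Or.inr (Or.inr (Or.inr (cov_xy (runA_m31 h) (by omega) (by omega) (by omega))))
  replace l1 : 50 * h + 20 ≤ t := by omega
  clear c
  by_cases c : t < 50 * h + 21
  · clear l2
    exact Or.inr (Or.inr (Or.inr (cov_xy (runA_m29 h) (by omega) (by omega) (by omega))))
  replace l1 : 50 * h + 21 ≤ t := by omega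
  clear c
  by_cases c : t < 51 * h + 20
  · clear l2
    exact Or.inr (Or.inr (Or.inl (cov_by _ (runA_m11 h) (by omega) (by omega))))
  replace l1 : 51 * h + 20 ≤ t := by omega
  clear c
  by_cases c : t < 51 * h + 21
  · clear l2
    exact Or.inr (Or.inr (Or.inl (cov_by _ (runA_m6 h) (by omega) (by omega))))
  replace l1 : 51 * h + 21 ≤ t := by omega
  clear c
  by_cases c : t < 52 * h + 21
  · clear l2
    exact Or.inr (Or.inr (Or.inl (cov_by _ (runA_m14 h) (by omega) (by omega))))
  replace l1 : 52 * h + 21 ≤ t := by omega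
  clear c
  by_cases c : t < 53 * h + 21
  · clear l2
    exact Or.inr (Or.inr (Or.inl (cov_by _ (runA_m23 h) (by omega) (by omega))))
  replace l1 : 53 * h + 21 ≤ t := by omega
  clear c
  by_cases c : t < 53 * h + 22
  · clear l2
    exact Or.inr (Or.inr (Or.inl (cov_by _ (runA_m7 h) (by omega) (by omega))))
  replace l1 : 53 * h + 22 ≤ t := by omega
  clear c
  exact Or.inr (Or.inr (Or.inl (cov_by _ (runA_m24 h) (by omega) (by omega))))

theorem runA_sem (h : ℕ) (hh : 2 ≤ h) : SuperEdgeMagic (book (16 * h + 5)) := by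
  refine sem_of_cover (16 * h + 5) (4 * h + 2) (22 * h + 9) (6 * h + 5) (pairs (runA h)) (runA_len h hh) ?_ ?_
  · intro l l1 l2
    exact runA_lab h hh l l1 (by omega)
  · intro t l1 l2
    exact runA_sum h hh t l1 (by omega)


/-- The pages of the labeling (`runB`): a list of triples `(x, y, L)`. -/
def runB (h : ℕ) : List (ℕ × ℕ × ℕ) :=
  [(2 * h + 3, 22 * h + 20, 1),
   (2 * h + 4, 12 * h + 11, 2 * h + 1),
   (4 * h + 6, 10 * h + 10, h),
   (5 * h + 6, 11 * h + 12, h - 1),
   (6 * h + 5, 18 * h + 17, h + 1),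
   (7 * h + 6, 11 * h + 10, 1),
   (7 * h + 7, 19 * h + 18, h - 1),
   (8 * h + 6, 30 * h + 26, 1),
   (8 * h + 7, 20 * h + 17, 1),
   (8 * h + 8, 2, 1),
   (8 * h + 9, 28 * h + 24, 2 * h + 1),
   (14 * h + 12, 32 * h + 28, 1),
   (14 * h + 13, 22 * h + 21, h - 1),
   (15 * h + 12, 21 * h + 19, 1),
   (15 * h + 13, h + 3, 1),
   (15 * h + 14, 23 * h + 20, h),
   (16 * h + 14, 30 * h + 27, h),
   (17 * h + 14, 11 * h + 11, 1),
   (17 * h + 15, 31 * h + 27, h),
   (24 * h + 21, 30 * h + 25, 1),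
   (24 * h + 22, 3, h),
   (25 * h + 22, h + 4, h - 1),
   (26 * h + 21, 24 * h + 20, 1),
   (26 * h + 22, 18 * h + 16, 1),
   (26 * h + 23, 20 * h + 19, h),
   (27 * h + 23, 21 * h + 20, h - 1),
   (28 * h + 22, 1, 1),
   (28 * h + 23, 20 * h + 18, 1),
   (32 * h + 27, 18 * h + 15, 1)]

theorem runB_m0 (h : ℕ) : (2 * h + 3, 22 * h + 20, 1) ∈ runB h := by
  simp only [runB]; repeat (first | exact List.mem_cons_self | apply List.mem_cons_of_mem)
theorem runB_m1 (h : ℕ) : (2 * h + 4, 12 * h + 11, 2 * h + 1) ∈ runB h := by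
  simp only [runB]; repeat (first | exact List.mem_cons_self | apply List.mem_cons_of_mem)
theorem runB_m2 (h : ℕ) : (4 * h + 6, 10 * h + 10, h) ∈ runB h := by
  simp only [runB]; repeat (first | exact List.mem_cons_self | apply List.mem_cons_of_mem)
theorem runB_m3 (h : ℕ) : (5 * h + 6, 11 * h + 12, h - 1) ∈ runB h := by
  simp only [runB]; repeat (first | exact List.mem_cons_self | apply List.mem_cons_of_mem)
theorem runB_m4 (h : ℕ) : (6 * h + 5, 18 * h + 17, h + 1) ∈ runB h := by
  simp only [runB]; repeat (first | exact List.mem_cons_self | apply List.mem_cons_of_mem)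
theorem runB_m5 (h : ℕ) : (7 * h + 6, 11 * h + 10, 1) ∈ runB h := by
  simp only [runB]; repeat (first | exact List.mem_cons_self | apply List.mem_cons_of_mem)
theorem runB_m6 (h : ℕ) : (7 * h + 7, 19 * h + 18, h - 1) ∈ runB h := by
  simp only [runB]; repeat (first | exact List.mem_cons_self | apply List.mem_cons_of_mem)
theorem runB_m7 (h : ℕ) : (8 * h + 6, 30 * h + 26, 1) ∈ runB h := by
  simp only [runB]; repeat (first | exact List.mem_cons_self | apply List.mem_cons_of_mem)
theorem runB_m8 (h : ℕ) : (8 * h + 7, 20 * h + 17, 1) ∈ runB h := by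
  simp only [runB]; repeat (first | exact List.mem_cons_self | apply List.mem_cons_of_mem)
theorem runB_m9 (h : ℕ) : (8 * h + 8, 2, 1) ∈ runB h := by
  simp only [runB]; repeat (first | exact List.mem_cons_self | apply List.mem_cons_of_mem)
theorem runB_m10 (h : ℕ) : (8 * h + 9, 28 * h + 24, 2 * h + 1) ∈ runB h := by
  simp only [runB]; repeat (first | exact List.mem_cons_self | apply List.mem_cons_of_mem)
theorem runB_m11 (h : ℕ) : (14 * h + 12, 32 * h + 28, 1) ∈ runB h := by
  simp only [runB]; repeat (first | exact List.mem_cons_self | apply List.mem_cons_of_mem)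
theorem runB_m12 (h : ℕ) : (14 * h + 13, 22 * h + 21, h - 1) ∈ runB h := by
  simp only [runB]; repeat (first | exact List.mem_cons_self | apply List.mem_cons_of_mem)
theorem runB_m13 (h : ℕ) : (15 * h + 12, 21 * h + 19, 1) ∈ runB h := by
  simp only [runB]; repeat (first | exact List.mem_cons_self | apply List.mem_cons_of_mem)
theorem runB_m14 (h : ℕ) : (15 * h + 13, h + 3, 1) ∈ runB h := by
  simp only [runB]; repeat (first | exact List.mem_cons_self | apply List.mem_cons_of_mem)
theorem runB_m15 (h : ℕ) : (15 * h + 14, 23 * h + 20, h) ∈ runB h := by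
  simp only [runB]; repeat (first | exact List.mem_cons_self | apply List.mem_cons_of_mem)
theorem runB_m16 (h : ℕ) : (16 * h + 14, 30 * h + 27, h) ∈ runB h := by
  simp only [runB]; repeat (first | exact List.mem_cons_self | apply List.mem_cons_of_mem)
theorem runB_m17 (h : ℕ) : (17 * h + 14, 11 * h + 11, 1) ∈ runB h := by
  simp only [runB]; repeat (first | exact List.mem_cons_self | apply List.mem_cons_of_mem)
theorem runB_m18 (h : ℕ) : (17 * h + 15, 31 * h + 27, h) ∈ runB h := by
  simp only [runB]; repeat (first | exact List.mem_cons_self | apply List.mem_cons_of_mem)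
theorem runB_m19 (h : ℕ) : (24 * h + 21, 30 * h + 25, 1) ∈ runB h := by
  simp only [runB]; repeat (first | exact List.mem_cons_self | apply List.mem_cons_of_mem)
theorem runB_m20 (h : ℕ) : (24 * h + 22, 3, h) ∈ runB h := by
  simp only [runB]; repeat (first | exact List.mem_cons_self | apply List.mem_cons_of_mem)
theorem runB_m21 (h : ℕ) : (25 * h + 22, h + 4, h - 1) ∈ runB h := by
  simp only [runB]; repeat (first | exact List.mem_cons_self | apply List.mem_cons_of_mem)
theorem runB_m22 (h : ℕ) : (26 * h + 21, 24 * h + 20, 1) ∈ runB h := by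
  simp only [runB]; repeat (first | exact List.mem_cons_self | apply List.mem_cons_of_mem)
theorem runB_m23 (h : ℕ) : (26 * h + 22, 18 * h + 16, 1) ∈ runB h := by
  simp only [runB]; repeat (first | exact List.mem_cons_self | apply List.mem_cons_of_mem)
theorem runB_m24 (h : ℕ) : (26 * h + 23, 20 * h + 19, h) ∈ runB h := by
  simp only [runB]; repeat (first | exact List.mem_cons_self | apply List.mem_cons_of_mem)
theorem runB_m25 (h : ℕ) : (27 * h + 23, 21 * h + 20, h - 1) ∈ runB h := by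
  simp only [runB]; repeat (first | exact List.mem_cons_self | apply List.mem_cons_of_mem)
theorem runB_m26 (h : ℕ) : (28 * h + 22, 1, 1) ∈ runB h := by
  simp only [runB]; repeat (first | exact List.mem_cons_self | apply List.mem_cons_of_mem)
theorem runB_m27 (h : ℕ) : (28 * h + 23, 20 * h + 18, 1) ∈ runB h := by
  simp only [runB]; repeat (first | exact List.mem_cons_self | apply List.mem_cons_of_mem)
theorem runB_m28 (h : ℕ) : (32 * h + 27, 18 * h + 15, 1) ∈ runB h := by
  simp only [runB]; repeat (first | exact List.mem_cons_self | apply List.mem_cons_of_mem)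

theorem runB_len (h : ℕ) (hh : 2 ≤ h) : (pairs (runB h)).length = 16 * h + 13 := by
  rw [length_pairs]
  simp only [runB, List.map_cons, List.map_nil, List.sum_cons, List.sum_nil]
  omega

theorem runB_lab (h : ℕ) (hh : 2 ≤ h) (l : ℕ) (l1 : 1 ≤ l) (l2 : l ≤ 32 * h + 28) :
    l = 4 * h + 5 ∨ l = 22 * h + 19 ∨ (∃ p ∈ pairs (runB h), p.1 = l) ∨ ∃ p ∈ pairs (runB h), p.2 = l := by
  by_cases c : l < 2
  · clear l2
    exact Or.inr (Or.inr (Or.inr (cov_y (runB_m26 h) (by omega) (by omega))))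
  replace l1 : 2 ≤ l := by omega
  clear c
  by_cases c : l < 3
  · clear l2
    exact Or.inr (Or.inr (Or.inr (cov_y (runB_m9 h) (by omega) (by omega))))
  replace l1 : 3 ≤ l := by omega
  clear c
  by_cases c : l < h + 3
  · clear l2
    exact Or.inr (Or.inr (Or.inr (cov_y (runB_m20 h) (by omega) (by omega))))
  replace l1 : h + 3 ≤ l := by omega
  clear c
  by_cases c : l < h + 4
  · clear l2
    exact Or.inr (Or.inr (Or.inr (cov_y (runB_m14 h) (by omega) (by omega))))
  replace l1 : h + 4 ≤ l := by omega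
  clear c
  by_cases c : l < 2 * h + 3
  · clear l2
    exact Or.inr (Or.inr (Or.inr (cov_y (runB_m21 h) (by omega) (by omega))))
  replace l1 : 2 * h + 3 ≤ l := by omega
  clear c
  by_cases c : l < 2 * h + 4
  · clear l2
    exact Or.inr (Or.inr (Or.inl (cov_x (runB_m0 h) (by omega) (by omega))))
  replace l1 : 2 * h + 4 ≤ l := by omega
  clear c
  by_cases c : l < 4 * h + 5
  · clear l2
    exact Or.inr (Or.inr (Or.inl (cov_x (runB_m1 h) (by omega) (by omega))))
  replace l1 : 4 * h + 5 ≤ l := by omega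
  clear c
  by_cases c : l < 4 * h + 6
  · clear l2
    exact Or.inl (by omega)
  replace l1 : 4 * h + 6 ≤ l := by omega
  clear c
  by_cases c : l < 5 * h + 6
  · clear l2
    exact Or.inr (Or.inr (Or.inl (cov_x (runB_m2 h) (by omega) (by omega))))
  replace l1 : 5 * h + 6 ≤ l := by omega
  clear c
  by_cases c : l < 6 * h + 5
  · clear l2
    exact Or.inr (Or.inr (Or.inl (cov_x (runB_m3 h) (by omega) (by omega))))
  replace l1 : 6 * h + 5 ≤ l := by omega
  clear c
  by_cases c : l < 7 * h + 6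
  · clear l2
    exact Or.inr (Or.inr (Or.inl (cov_x (runB_m4 h) (by omega) (by omega))))
  replace l1 : 7 * h + 6 ≤ l := by omega
  clear c
  by_cases c : l < 7 * h + 7
  · clear l2
    exact Or.inr (Or.inr (Or.inl (cov_x (runB_m5 h) (by omega) (by omega))))
  replace l1 : 7 * h + 7 ≤ l := by omega
  clear c
  by_cases c : l < 8 * h + 6
  · clear l2
    exact Or.inr (Or.inr (Or.inl (cov_x (runB_m6 h) (by omega) (by omega))))
  replace l1 : 8 * h + 6 ≤ l := by omega
  clear c
  by_cases c : l < 8 * h + 7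
  · clear l2
    exact Or.inr (Or.inr (Or.inl (cov_x (runB_m7 h) (by omega) (by omega))))
  replace l1 : 8 * h + 7 ≤ l := by omega
  clear c
  by_cases c : l < 8 * h + 8
  · clear l2
    exact Or.inr (Or.inr (Or.inl (cov_x (runB_m8 h) (by omega) (by omega))))
  replace l1 : 8 * h + 8 ≤ l := by omega
  clear c
  by_cases c : l < 8 * h + 9
  · clear l2
    exact Or.inr (Or.inr (Or.inl (cov_x (runB_m9 h) (by omega) (by omega))))
  replace l1 : 8 * h + 9 ≤ l := by omega
  clear c
  by_cases c : l < 10 * h + 10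
  · clear l2
    exact Or.inr (Or.inr (Or.inl (cov_x (runB_m10 h) (by omega) (by omega))))
  replace l1 : 10 * h + 10 ≤ l := by omega
  clear c
  by_cases c : l < 11 * h + 10
  · clear l2
    exact Or.inr (Or.inr (Or.inr (cov_y (runB_m2 h) (by omega) (by omega))))
  replace l1 : 11 * h + 10 ≤ l := by omega
  clear c
  by_cases c : l < 11 * h + 11
  · clear l2
    exact Or.inr (Or.inr (Or.inr (cov_y (runB_m5 h) (by omega) (by omega))))
  replace l1 : 11 * h + 11 ≤ l := by omega
  clear c
  by_cases c : l < 11 * h + 12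
  · clear l2
    exact Or.inr (Or.inr (Or.inr (cov_y (runB_m17 h) (by omega) (by omega))))
  replace l1 : 11 * h + 12 ≤ l := by omega
  clear c
  by_cases c : l < 12 * h + 11
  · clear l2
    exact Or.inr (Or.inr (Or.inr (cov_y (runB_m3 h) (by omega) (by omega))))
  replace l1 : 12 * h + 11 ≤ l := by omega
  clear c
  by_cases c : l < 14 * h + 12
  · clear l2
    exact Or.inr (Or.inr (Or.inr (cov_y (runB_m1 h) (by omega) (by omega))))
  replace l1 : 14 * h + 12 ≤ l := by omega
  clear c
  by_cases c : l < 14 * h + 13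
  · clear l2
    exact Or.inr (Or.inr (Or.inl (cov_x (runB_m11 h) (by omega) (by omega))))
  replace l1 : 14 * h + 13 ≤ l := by omega
  clear c
  by_cases c : l < 15 * h + 12
  · clear l2
    exact Or.inr (Or.inr (Or.inl (cov_x (runB_m12 h) (by omega) (by omega))))
  replace l1 : 15 * h + 12 ≤ l := by omega
  clear c
  by_cases c : l < 15 * h + 13
  · clear l2
    exact Or.inr (Or.inr (Or.inl (cov_x (runB_m13 h) (by omega) (by omega))))
  replace l1 : 15 * h + 13 ≤ l := by omega
  clear c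
  by_cases c : l < 15 * h + 14
  · clear l2
    exact Or.inr (Or.inr (Or.inl (cov_x (runB_m14 h) (by omega) (by omega))))
  replace l1 : 15 * h + 14 ≤ l := by omega
  clear c
  by_cases c : l < 16 * h + 14
  · clear l2
    exact Or.inr (Or.inr (Or.inl (cov_x (runB_m15 h) (by omega) (by omega))))
  replace l1 : 16 * h + 14 ≤ l := by omega
  clear c
  by_cases c : l < 17 * h + 14
  · clear l2
    exact Or.inr (Or.inr (Or.inl (cov_x (runB_m16 h) (by omega) (by omega))))
  replace l1 : 17 * h + 14 ≤ l := by omega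
  clear c
  by_cases c : l < 17 * h + 15
  · clear l2
    exact Or.inr (Or.inr (Or.inl (cov_x (runB_m17 h) (by omega) (by omega))))
  replace l1 : 17 * h + 15 ≤ l := by omega
  clear c
  by_cases c : l < 18 * h + 15
  · clear l2
    exact Or.inr (Or.inr (Or.inl (cov_x (runB_m18 h) (by omega) (by omega))))
  replace l1 : 18 * h + 15 ≤ l := by omega
  clear c
  by_cases c : l < 18 * h + 16
  · clear l2
    exact Or.inr (Or.inr (Or.inr (cov_y (runB_m28 h) (by omega) (by omega))))
  replace l1 : 18 * h + 16 ≤ l := by omega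
  clear c
  by_cases c : l < 18 * h + 17
  · clear l2
    exact Or.inr (Or.inr (Or.inr (cov_y (runB_m23 h) (by omega) (by omega))))
  replace l1 : 18 * h + 17 ≤ l := by omega
  clear c
  by_cases c : l < 19 * h + 18
  · clear l2
    exact Or.inr (Or.inr (Or.inr (cov_y (runB_m4 h) (by omega) (by omega))))
  replace l1 : 19 * h + 18 ≤ l := by omega
  clear c
  by_cases c : l < 20 * h + 17
  · clear l2
    exact Or.inr (Or.inr (Or.inr (cov_y (runB_m6 h) (by omega) (by omega))))
  replace l1 : 20 * h + 17 ≤ l := by omega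
  clear c
  by_cases c : l < 20 * h + 18
  · clear l2
    exact Or.inr (Or.inr (Or.inr (cov_y (runB_m8 h) (by omega) (by omega))))
  replace l1 : 20 * h + 18 ≤ l := by omega
  clear c
  by_cases c : l < 20 * h + 19
  · clear l2
    exact Or.inr (Or.inr (Or.inr (cov_y (runB_m27 h) (by omega) (by omega))))
  replace l1 : 20 * h + 19 ≤ l := by omega
  clear c
  by_cases c : l < 21 * h + 19
  · clear l2
    exact Or.inr (Or.inr (Or.inr (cov_y (runB_m24 h) (by omega) (by omega))))
  replace l1 : 21 * h + 19 ≤ l := by omega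
  clear c
  by_cases c : l < 21 * h + 20
  · clear l2
    exact Or.inr (Or.inr (Or.inr (cov_y (runB_m13 h) (by omega) (by omega))))
  replace l1 : 21 * h + 20 ≤ l := by omega
  clear c
  by_cases c : l < 22 * h + 19
  · clear l2
    exact Or.inr (Or.inr (Or.inr (cov_y (runB_m25 h) (by omega) (by omega))))
  replace l1 : 22 * h + 19 ≤ l := by omega
  clear c
  by_cases c : l < 22 * h + 20
  · clear l2
    exact Or.inr (Or.inl (by omega))
  replace l1 : 22 * h + 20 ≤ l := by omega
  clear c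
  by_cases c : l < 22 * h + 21
  · clear l2
    exact Or.inr (Or.inr (Or.inr (cov_y (runB_m0 h) (by omega) (by omega))))
  replace l1 : 22 * h + 21 ≤ l := by omega
  clear c
  by_cases c : l < 23 * h + 20
  · clear l2
    exact Or.inr (Or.inr (Or.inr (cov_y (runB_m12 h) (by omega) (by omega))))
  replace l1 : 23 * h + 20 ≤ l := by omega
  clear c
  by_cases c : l < 24 * h + 20
  · clear l2
    exact Or.inr (Or.inr (Or.inr (cov_y (runB_m15 h) (by omega) (by omega))))
  replace l1 : 24 * h + 20 ≤ l := by omega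
  clear c
  by_cases c : l < 24 * h + 21
  · clear l2
    exact Or.inr (Or.inr (Or.inr (cov_y (runB_m22 h) (by omega) (by omega))))
  replace l1 : 24 * h + 21 ≤ l := by omega
  clear c
  by_cases c : l < 24 * h + 22
  · clear l2
    exact Or.inr (Or.inr (Or.inl (cov_x (runB_m19 h) (by omega) (by omega))))
  replace l1 : 24 * h + 22 ≤ l := by omega
  clear c
  by_cases c : l < 25 * h + 22
  · clear l2
    exact Or.inr (Or.inr (Or.inl (cov_x (runB_m20 h) (by omega) (by omega))))
  replace l1 : 25 * h + 22 ≤ l := by omega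
  clear c
  by_cases c : l < 26 * h + 21
  · clear l2
    exact Or.inr (Or.inr (Or.inl (cov_x (runB_m21 h) (by omega) (by omega))))
  replace l1 : 26 * h + 21 ≤ l := by omega
  clear c
  by_cases c : l < 26 * h + 22
  · clear l2
    exact Or.inr (Or.inr (Or.inl (cov_x (runB_m22 h) (by omega) (by omega))))
  replace l1 : 26 * h + 22 ≤ l := by omega
  clear c
  by_cases c : l < 26 * h + 23
  · clear l2
    exact Or.inr (Or.inr (Or.inl (cov_x (runB_m23 h) (by omega) (by omega))))
  replace l1 : 26 * h + 23 ≤ l := by omega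
  clear c
  by_cases c : l < 27 * h + 23
  · clear l2
    exact Or.inr (Or.inr (Or.inl (cov_x (runB_m24 h) (by omega) (by omega))))
  replace l1 : 27 * h + 23 ≤ l := by omega
  clear c
  by_cases c : l < 28 * h + 22
  · clear l2
    exact Or.inr (Or.inr (Or.inl (cov_x (runB_m25 h) (by omega) (by omega))))
  replace l1 : 28 * h + 22 ≤ l := by omega
  clear c
  by_cases c : l < 28 * h + 23
  · clear l2
    exact Or.inr (Or.inr (Or.inl (cov_x (runB_m26 h) (by omega) (by omega))))
  replace l1 : 28 * h + 23 ≤ l := by omega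
  clear c
  by_cases c : l < 28 * h + 24
  · clear l2
    exact Or.inr (Or.inr (Or.inl (cov_x (runB_m27 h) (by omega) (by omega))))
  replace l1 : 28 * h + 24 ≤ l := by omega
  clear c
  by_cases c : l < 30 * h + 25
  · clear l2
    exact Or.inr (Or.inr (Or.inr (cov_y (runB_m10 h) (by omega) (by omega))))
  replace l1 : 30 * h + 25 ≤ l := by omega
  clear c
  by_cases c : l < 30 * h + 26
  · clear l2
    exact Or.inr (Or.inr (Or.inr (cov_y (runB_m19 h) (by omega) (by omega))))
  replace l1 : 30 * h + 26 ≤ l := by omega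
  clear c
  by_cases c : l < 30 * h + 27
  · clear l2
    exact Or.inr (Or.inr (Or.inr (cov_y (runB_m7 h) (by omega) (by omega))))
  replace l1 : 30 * h + 27 ≤ l := by omega
  clear c
  by_cases c : l < 31 * h + 27
  · clear l2
    exact Or.inr (Or.inr (Or.inr (cov_y (runB_m16 h) (by omega) (by omega))))
  replace l1 : 31 * h + 27 ≤ l := by omega
  clear c
  by_cases c : l < 32 * h + 27
  · clear l2
    exact Or.inr (Or.inr (Or.inr (cov_y (runB_m18 h) (by omega) (by omega))))
  replace l1 : 32 * h + 27 ≤ l := by omega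
  clear c
  by_cases c : l < 32 * h + 28
  · clear l2
    exact Or.inr (Or.inr (Or.inl (cov_x (runB_m28 h) (by omega) (by omega))))
  replace l1 : 32 * h + 28 ≤ l := by omega
  clear c
  exact Or.inr (Or.inr (Or.inr (cov_y (runB_m11 h) (by omega) (by omega))))

theorem runB_sum (h : ℕ) (hh : 2 ≤ h) (t : ℕ) (l1 : 6 * h + 8 ≤ t) (l2 : t ≤ 54 * h + 47) :
    t = (4 * h + 5) + (22 * h + 19) ∨ (∃ p ∈ pairs (runB h), (4 * h + 5) + p.1 = t) ∨
      (∃ p ∈ pairs (runB h), (22 * h + 19) + p.2 = t) ∨ ∃ p ∈ pairs (runB h), p.1 + p.2 = t := by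
  by_cases c : t < 6 * h + 9
  · clear l2
    exact Or.inr (Or.inl (cov_ax _ (runB_m0 h) (by omega) (by omega)))
  replace l1 : 6 * h + 9 ≤ t := by omega
  clear c
  by_cases c : t < 8 * h + 10
  · clear l2
    exact Or.inr (Or.inl (cov_ax _ (runB_m1 h) (by omega) (by omega)))
  replace l1 : 8 * h + 10 ≤ t := by omega
  clear c
  by_cases c : t < 8 * h + 11
  · clear l2
    exact Or.inr (Or.inr (Or.inr (cov_xy (runB_m9 h) (by omega) (by omega) (by omega))))
  replace l1 : 8 * h + 11 ≤ t := by omega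
  clear c
  by_cases c : t < 9 * h + 11
  · clear l2
    exact Or.inr (Or.inl (cov_ax _ (runB_m2 h) (by omega) (by omega)))
  replace l1 : 9 * h + 11 ≤ t := by omega
  clear c
  by_cases c : t < 10 * h + 10
  · clear l2
    exact Or.inr (Or.inl (cov_ax _ (runB_m3 h) (by omega) (by omega)))
  replace l1 : 10 * h + 10 ≤ t := by omega
  clear c
  by_cases c : t < 11 * h + 11
  · clear l2
    exact Or.inr (Or.inl (cov_ax _ (runB_m4 h) (by omega) (by omega)))
  replace l1 : 11 * h + 11 ≤ t := by omega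
  clear c
  by_cases c : t < 11 * h + 12
  · clear l2
    exact Or.inr (Or.inl (cov_ax _ (runB_m5 h) (by omega) (by omega)))
  replace l1 : 11 * h + 12 ≤ t := by omega
  clear c
  by_cases c : t < 12 * h + 11
  · clear l2
    exact Or.inr (Or.inl (cov_ax _ (runB_m6 h) (by omega) (by omega)))
  replace l1 : 12 * h + 11 ≤ t := by omega
  clear c
  by_cases c : t < 12 * h + 12
  · clear l2
    exact Or.inr (Or.inl (cov_ax _ (runB_m7 h) (by omega) (by omega)))
  replace l1 : 12 * h + 12 ≤ t := by omega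
  clear c
  by_cases c : t < 12 * h + 13
  · clear l2
    exact Or.inr (Or.inl (cov_ax _ (runB_m8 h) (by omega) (by omega)))
  replace l1 : 12 * h + 13 ≤ t := by omega
  clear c
  by_cases c : t < 12 * h + 14
  · clear l2
    exact Or.inr (Or.inl (cov_ax _ (runB_m9 h) (by omega) (by omega)))
  replace l1 : 12 * h + 14 ≤ t := by omega
  clear c
  by_cases c : t < 14 * h + 15
  · clear l2
    exact Or.inr (Or.inl (cov_ax _ (runB_m10 h) (by omega) (by omega)))
  replace l1 : 14 * h + 15 ≤ t := by omega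
  clear c
  by_cases c : t < 14 * h + 16
  · clear l2
    exact Or.inr (Or.inr (Or.inr (cov_xy (runB_m1 h) (by omega) (by omega) (by omega))))
  replace l1 : 14 * h + 16 ≤ t := by omega
  clear c
  by_cases c : t < 16 * h + 15
  · clear l2
    have hp : (t - (14 * h + 15)) % 2 = 0 ∨ (t - (14 * h + 15)) % 2 = 1 := by omega
    rcases hp with hp | hp
    · exact Or.inr (Or.inr (Or.inr (cov_xy (runB_m1 h) (by omega) (by omega) (by omega))))
    · exact Or.inr (Or.inr (Or.inr (cov_xy (runB_m2 h) (by omega) (by omega) (by omega))))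
  replace l1 : 16 * h + 15 ≤ t := by omega
  clear c
  by_cases c : t < 16 * h + 16
  · clear l2
    exact Or.inr (Or.inr (Or.inr (cov_xy (runB_m1 h) (by omega) (by omega) (by omega))))
  replace l1 : 16 * h + 16 ≤ t := by omega
  clear c
  by_cases c : t < 16 * h + 17
  · clear l2
    exact Or.inr (Or.inr (Or.inr (cov_xy (runB_m14 h) (by omega) (by omega) (by omega))))
  replace l1 : 16 * h + 17 ≤ t := by omega
  clear c
  by_cases c : t < 16 * h + 18
  · clear l2
    exact Or.inr (Or.inr (Or.inr (cov_xy (runB_m1 h) (by omega) (by omega) (by omega))))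
  replace l1 : 16 * h + 18 ≤ t := by omega
  clear c
  by_cases c : t < 18 * h + 15
  · clear l2
    have hp : (t - (14 * h + 15)) % 2 = 0 ∨ (t - (14 * h + 15)) % 2 = 1 := by omega
    rcases hp with hp | hp
    · exact Or.inr (Or.inr (Or.inr (cov_xy (runB_m1 h) (by omega) (by omega) (by omega))))
    · exact Or.inr (Or.inr (Or.inr (cov_xy (runB_m3 h) (by omega) (by omega) (by omega))))
  replace l1 : 18 * h + 15 ≤ t := by omega
  clear c
  by_cases c : t < 18 * h + 16
  · clear l2
    exact Or.inr (Or.inr (Or.inr (cov_xy (runB_m1 h) (by omega) (by omega) (by omega))))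
  replace l1 : 18 * h + 16 ≤ t := by omega
  clear c
  by_cases c : t < 18 * h + 17
  · clear l2
    exact Or.inr (Or.inr (Or.inr (cov_xy (runB_m5 h) (by omega) (by omega) (by omega))))
  replace l1 : 18 * h + 17 ≤ t := by omega
  clear c
  by_cases c : t < 18 * h + 18
  · clear l2
    exact Or.inr (Or.inl (cov_ax _ (runB_m11 h) (by omega) (by omega)))
  replace l1 : 18 * h + 18 ≤ t := by omega
  clear c
  by_cases c : t < 19 * h + 17
  · clear l2
    exact Or.inr (Or.inl (cov_ax _ (runB_m12 h) (by omega) (by omega)))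
  replace l1 : 19 * h + 17 ≤ t := by omega
  clear c
  by_cases c : t < 19 * h + 18
  · clear l2
    exact Or.inr (Or.inl (cov_ax _ (runB_m13 h) (by omega) (by omega)))
  replace l1 : 19 * h + 18 ≤ t := by omega
  clear c
  by_cases c : t < 19 * h + 19
  · clear l2
    exact Or.inr (Or.inl (cov_ax _ (runB_m14 h) (by omega) (by omega)))
  replace l1 : 19 * h + 19 ≤ t := by omega
  clear c
  by_cases c : t < 20 * h + 19
  · clear l2
    exact Or.inr (Or.inl (cov_ax _ (runB_m15 h) (by omega) (by omega)))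
  replace l1 : 20 * h + 19 ≤ t := by omega
  clear c
  by_cases c : t < 21 * h + 19
  · clear l2
    exact Or.inr (Or.inl (cov_ax _ (runB_m16 h) (by omega) (by omega)))
  replace l1 : 21 * h + 19 ≤ t := by omega
  clear c
  by_cases c : t < 21 * h + 20
  · clear l2
    exact Or.inr (Or.inl (cov_ax _ (runB_m17 h) (by omega) (by omega)))
  replace l1 : 21 * h + 20 ≤ t := by omega
  clear c
  by_cases c : t < 22 * h + 20
  · clear l2
    exact Or.inr (Or.inl (cov_ax _ (runB_m18 h) (by omega) (by omega)))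
  replace l1 : 22 * h + 20 ≤ t := by omega
  clear c
  by_cases c : t < 22 * h + 21
  · clear l2
    exact Or.inr (Or.inr (Or.inl (cov_by _ (runB_m26 h) (by omega) (by omega))))
  replace l1 : 22 * h + 21 ≤ t := by omega
  clear c
  by_cases c : t < 22 * h + 22
  · clear l2
    exact Or.inr (Or.inr (Or.inl (cov_by _ (runB_m9 h) (by omega) (by omega))))
  replace l1 : 22 * h + 22 ≤ t := by omega
  clear c
  by_cases c : t < 23 * h + 22
  · clear l2
    exact Or.inr (Or.inr (Or.inl (cov_by _ (runB_m20 h) (by omega) (by omega))))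
  replace l1 : 23 * h + 22 ≤ t := by omega
  clear c
  by_cases c : t < 23 * h + 23
  · clear l2
    exact Or.inr (Or.inr (Or.inl (cov_by _ (runB_m14 h) (by omega) (by omega))))
  replace l1 : 23 * h + 23 ≤ t := by omega
  clear c
  by_cases c : t < 24 * h + 22
  · clear l2
    exact Or.inr (Or.inr (Or.inl (cov_by _ (runB_m21 h) (by omega) (by omega))))
  replace l1 : 24 * h + 22 ≤ t := by omega
  clear c
  by_cases c : t < 24 * h + 23
  · clear l2
    exact Or.inr (Or.inr (Or.inr (cov_xy (runB_m4 h) (by omega) (by omega) (by omega))))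
  replace l1 : 24 * h + 23 ≤ t := by omega
  clear c
  by_cases c : t < 24 * h + 24
  · clear l2
    exact Or.inr (Or.inr (Or.inr (cov_xy (runB_m0 h) (by omega) (by omega) (by omega))))
  replace l1 : 24 * h + 24 ≤ t := by omega
  clear c
  by_cases c : t < 24 * h + 25
  · clear l2
    exact Or.inr (Or.inr (Or.inr (cov_xy (runB_m4 h) (by omega) (by omega) (by omega))))
  replace l1 : 24 * h + 25 ≤ t := by omega
  clear c
  by_cases c : t < 26 * h + 23
  · clear l2
    have hp : (t - (24 * h + 22)) % 2 = 0 ∨ (t - (24 * h + 22)) % 2 = 1 := by omega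
    rcases hp with hp | hp
    · exact Or.inr (Or.inr (Or.inr (cov_xy (runB_m4 h) (by omega) (by omega) (by omega))))
    · exact Or.inr (Or.inr (Or.inr (cov_xy (runB_m20 h) (by omega) (by omega) (by omega))))
  replace l1 : 26 * h + 23 ≤ t := by omega
  clear c
  by_cases c : t < 26 * h + 24
  · clear l2
    exact Or.inr (Or.inr (Or.inr (cov_xy (runB_m20 h) (by omega) (by omega) (by omega))))
  replace l1 : 26 * h + 24 ≤ t := by omega
  clear c
  by_cases c : t < 26 * h + 25
  · clear l2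
    exact Or.inl (by omega)
  replace l1 : 26 * h + 25 ≤ t := by omega
  clear c
  by_cases c : t < 26 * h + 26
  · clear l2
    exact Or.inr (Or.inr (Or.inr (cov_xy (runB_m6 h) (by omega) (by omega) (by omega))))
  replace l1 : 26 * h + 26 ≤ t := by omega
  clear c
  by_cases c : t < 28 * h + 22
  · clear l2
    have hp : (t - (26 * h + 25)) % 2 = 0 ∨ (t - (26 * h + 25)) % 2 = 1 := by omega
    rcases hp with hp | hp
    · exact Or.inr (Or.inr (Or.inr (cov_xy (runB_m6 h) (by omega) (by omega) (by omega))))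
    · exact Or.inr (Or.inr (Or.inr (cov_xy (runB_m21 h) (by omega) (by omega) (by omega))))
  replace l1 : 28 * h + 22 ≤ t := by omega
  clear c
  by_cases c : t < 28 * h + 23
  · clear l2
    exact Or.inr (Or.inr (Or.inr (cov_xy (runB_m21 h) (by omega) (by omega) (by omega))))
  replace l1 : 28 * h + 23 ≤ t := by omega
  clear c
  by_cases c : t < 28 * h + 24
  · clear l2
    exact Or.inr (Or.inr (Or.inr (cov_xy (runB_m26 h) (by omega) (by omega) (by omega))))
  replace l1 : 28 * h + 24 ≤ t := by omega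
  clear c
  by_cases c : t < 28 * h + 25
  · clear l2
    exact Or.inr (Or.inr (Or.inr (cov_xy (runB_m8 h) (by omega) (by omega) (by omega))))
  replace l1 : 28 * h + 25 ≤ t := by omega
  clear c
  by_cases c : t < 28 * h + 26
  · clear l2
    exact Or.inr (Or.inr (Or.inr (cov_xy (runB_m17 h) (by omega) (by omega) (by omega))))
  replace l1 : 28 * h + 26 ≤ t := by omega
  clear c
  by_cases c : t < 28 * h + 27
  · clear l2
    exact Or.inr (Or.inl (cov_ax _ (runB_m19 h) (by omega) (by omega)))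
  replace l1 : 28 * h + 27 ≤ t := by omega
  clear c
  by_cases c : t < 29 * h + 27
  · clear l2
    exact Or.inr (Or.inl (cov_ax _ (runB_m20 h) (by omega) (by omega)))
  replace l1 : 29 * h + 27 ≤ t := by omega
  clear c
  by_cases c : t < 30 * h + 26
  · clear l2
    exact Or.inr (Or.inl (cov_ax _ (runB_m21 h) (by omega) (by omega)))
  replace l1 : 30 * h + 26 ≤ t := by omega
  clear c
  by_cases c : t < 30 * h + 27
  · clear l2
    exact Or.inr (Or.inl (cov_ax _ (runB_m22 h) (by omega) (by omega)))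
  replace l1 : 30 * h + 27 ≤ t := by omega
  clear c
  by_cases c : t < 30 * h + 28
  · clear l2
    exact Or.inr (Or.inl (cov_ax _ (runB_m23 h) (by omega) (by omega)))
  replace l1 : 30 * h + 28 ≤ t := by omega
  clear c
  by_cases c : t < 31 * h + 28
  · clear l2
    exact Or.inr (Or.inl (cov_ax _ (runB_m24 h) (by omega) (by omega)))
  replace l1 : 31 * h + 28 ≤ t := by omega
  clear c
  by_cases c : t < 32 * h + 27
  · clear l2
    exact Or.inr (Or.inl (cov_ax _ (runB_m25 h) (by omega) (by omega)))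
  replace l1 : 32 * h + 27 ≤ t := by omega
  clear c
  by_cases c : t < 32 * h + 28
  · clear l2
    exact Or.inr (Or.inl (cov_ax _ (runB_m26 h) (by omega) (by omega)))
  replace l1 : 32 * h + 28 ≤ t := by omega
  clear c
  by_cases c : t < 32 * h + 29
  · clear l2
    exact Or.inr (Or.inl (cov_ax _ (runB_m27 h) (by omega) (by omega)))
  replace l1 : 32 * h + 29 ≤ t := by omega
  clear c
  by_cases c : t < 33 * h + 29
  · clear l2
    exact Or.inr (Or.inr (Or.inl (cov_by _ (runB_m2 h) (by omega) (by omega))))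
  replace l1 : 33 * h + 29 ≤ t := by omega
  clear c
  by_cases c : t < 33 * h + 30
  · clear l2
    exact Or.inr (Or.inr (Or.inl (cov_by _ (runB_m5 h) (by omega) (by omega))))
  replace l1 : 33 * h + 30 ≤ t := by omega
  clear c
  by_cases c : t < 33 * h + 31
  · clear l2
    exact Or.inr (Or.inr (Or.inl (cov_by _ (runB_m17 h) (by omega) (by omega))))
  replace l1 : 33 * h + 31 ≤ t := by omega
  clear c
  by_cases c : t < 34 * h + 30
  · clear l2
    exact Or.inr (Or.inr (Or.inl (cov_by _ (runB_m3 h) (by omega) (by omega))))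
  replace l1 : 34 * h + 30 ≤ t := by omega
  clear c
  by_cases c : t < 36 * h + 31
  · clear l2
    exact Or.inr (Or.inr (Or.inl (cov_by _ (runB_m1 h) (by omega) (by omega))))
  replace l1 : 36 * h + 31 ≤ t := by omega
  clear c
  by_cases c : t < 36 * h + 32
  · clear l2
    exact Or.inr (Or.inr (Or.inr (cov_xy (runB_m13 h) (by omega) (by omega) (by omega))))
  replace l1 : 36 * h + 32 ≤ t := by omega
  clear c
  by_cases c : t < 36 * h + 33
  · clear l2
    exact Or.inr (Or.inl (cov_ax _ (runB_m28 h) (by omega) (by omega)))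
  replace l1 : 36 * h + 33 ≤ t := by omega
  clear c
  by_cases c : t < 36 * h + 34
  · clear l2
    exact Or.inr (Or.inr (Or.inr (cov_xy (runB_m10 h) (by omega) (by omega) (by omega))))
  replace l1 : 36 * h + 34 ≤ t := by omega
  clear c
  by_cases c : t < 38 * h + 31
  · clear l2
    have hp : (t - (36 * h + 33)) % 2 = 0 ∨ (t - (36 * h + 33)) % 2 = 1 := by omega
    rcases hp with hp | hp
    · exact Or.inr (Or.inr (Or.inr (cov_xy (runB_m10 h) (by omega) (by omega) (by omega))))
    · exact Or.inr (Or.inr (Or.inr (cov_xy (runB_m12 h) (by omega) (by omega) (by omega))))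
  replace l1 : 38 * h + 31 ≤ t := by omega
  clear c
  by_cases c : t < 38 * h + 32
  · clear l2
    exact Or.inr (Or.inr (Or.inr (cov_xy (runB_m10 h) (by omega) (by omega) (by omega))))
  replace l1 : 38 * h + 32 ≤ t := by omega
  clear c
  by_cases c : t < 38 * h + 33
  · clear l2
    exact Or.inr (Or.inr (Or.inr (cov_xy (runB_m7 h) (by omega) (by omega) (by omega))))
  replace l1 : 38 * h + 33 ≤ t := by omega
  clear c
  by_cases c : t < 38 * h + 34
  · clear l2
    exact Or.inr (Or.inr (Or.inr (cov_xy (runB_m10 h) (by omega) (by omega) (by omega))))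
  replace l1 : 38 * h + 34 ≤ t := by omega
  clear c
  by_cases c : t < 40 * h + 33
  · clear l2
    have hp : (t - (36 * h + 33)) % 2 = 0 ∨ (t - (36 * h + 33)) % 2 = 1 := by omega
    rcases hp with hp | hp
    · exact Or.inr (Or.inr (Or.inr (cov_xy (runB_m10 h) (by omega) (by omega) (by omega))))
    · exact Or.inr (Or.inr (Or.inr (cov_xy (runB_m15 h) (by omega) (by omega) (by omega))))
  replace l1 : 40 * h + 33 ≤ t := by omega
  clear c
  by_cases c : t < 40 * h + 34
  · clear l2
    exact Or.inr (Or.inr (Or.inr (cov_xy (runB_m10 h) (by omega) (by omega) (by omega))))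
  replace l1 : 40 * h + 34 ≤ t := by omega
  clear c
  by_cases c : t < 40 * h + 35
  · clear l2
    exact Or.inr (Or.inr (Or.inl (cov_by _ (runB_m28 h) (by omega) (by omega))))
  replace l1 : 40 * h + 35 ≤ t := by omega
  clear c
  by_cases c : t < 40 * h + 36
  · clear l2
    exact Or.inr (Or.inr (Or.inl (cov_by _ (runB_m23 h) (by omega) (by omega))))
  replace l1 : 40 * h + 36 ≤ t := by omega
  clear c
  by_cases c : t < 41 * h + 37
  · clear l2
    exact Or.inr (Or.inr (Or.inl (cov_by _ (runB_m4 h) (by omega) (by omega))))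
  replace l1 : 41 * h + 37 ≤ t := by omega
  clear c
  by_cases c : t < 42 * h + 36
  · clear l2
    exact Or.inr (Or.inr (Or.inl (cov_by _ (runB_m6 h) (by omega) (by omega))))
  replace l1 : 42 * h + 36 ≤ t := by omega
  clear c
  by_cases c : t < 42 * h + 37
  · clear l2
    exact Or.inr (Or.inr (Or.inl (cov_by _ (runB_m8 h) (by omega) (by omega))))
  replace l1 : 42 * h + 37 ≤ t := by omega
  clear c
  by_cases c : t < 42 * h + 38
  · clear l2
    exact Or.inr (Or.inr (Or.inl (cov_by _ (runB_m27 h) (by omega) (by omega))))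
  replace l1 : 42 * h + 38 ≤ t := by omega
  clear c
  by_cases c : t < 43 * h + 38
  · clear l2
    exact Or.inr (Or.inr (Or.inl (cov_by _ (runB_m24 h) (by omega) (by omega))))
  replace l1 : 43 * h + 38 ≤ t := by omega
  clear c
  by_cases c : t < 43 * h + 39
  · clear l2
    exact Or.inr (Or.inr (Or.inl (cov_by _ (runB_m13 h) (by omega) (by omega))))
  replace l1 : 43 * h + 39 ≤ t := by omega
  clear c
  by_cases c : t < 44 * h + 38
  · clear l2
    exact Or.inr (Or.inr (Or.inl (cov_by _ (runB_m25 h) (by omega) (by omega))))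
  replace l1 : 44 * h + 38 ≤ t := by omega
  clear c
  by_cases c : t < 44 * h + 39
  · clear l2
    exact Or.inr (Or.inr (Or.inr (cov_xy (runB_m23 h) (by omega) (by omega) (by omega))))
  replace l1 : 44 * h + 39 ≤ t := by omega
  clear c
  by_cases c : t < 44 * h + 40
  · clear l2
    exact Or.inr (Or.inr (Or.inl (cov_by _ (runB_m0 h) (by omega) (by omega))))
  replace l1 : 44 * h + 40 ≤ t := by omega
  clear c
  by_cases c : t < 45 * h + 39
  · clear l2
    exact Or.inr (Or.inr (Or.inl (cov_by _ (runB_m12 h) (by omega) (by omega))))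
  replace l1 : 45 * h + 39 ≤ t := by omega
  clear c
  by_cases c : t < 46 * h + 39
  · clear l2
    exact Or.inr (Or.inr (Or.inl (cov_by _ (runB_m15 h) (by omega) (by omega))))
  replace l1 : 46 * h + 39 ≤ t := by omega
  clear c
  by_cases c : t < 46 * h + 40
  · clear l2
    exact Or.inr (Or.inr (Or.inl (cov_by _ (runB_m22 h) (by omega) (by omega))))
  replace l1 : 46 * h + 40 ≤ t := by omega
  clear c
  by_cases c : t < 46 * h + 41
  · clear l2
    exact Or.inr (Or.inr (Or.inr (cov_xy (runB_m11 h) (by omega) (by omega) (by omega))))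
  replace l1 : 46 * h + 41 ≤ t := by omega
  clear c
  by_cases c : t < 46 * h + 42
  · clear l2
    exact Or.inr (Or.inr (Or.inr (cov_xy (runB_m16 h) (by omega) (by omega) (by omega))))
  replace l1 : 46 * h + 42 ≤ t := by omega
  clear c
  by_cases c : t < 48 * h + 40
  · clear l2
    have hp : (t - (46 * h + 41)) % 2 = 0 ∨ (t - (46 * h + 41)) % 2 = 1 := by omega
    rcases hp with hp | hp
    · exact Or.inr (Or.inr (Or.inr (cov_xy (runB_m16 h) (by omega) (by omega) (by omega))))
    · exact Or.inr (Or.inr (Or.inr (cov_xy (runB_m24 h) (by omega) (by omega) (by omega))))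
  replace l1 : 48 * h + 40 ≤ t := by omega
  clear c
  by_cases c : t < 48 * h + 41
  · clear l2
    exact Or.inr (Or.inr (Or.inr (cov_xy (runB_m24 h) (by omega) (by omega) (by omega))))
  replace l1 : 48 * h + 41 ≤ t := by omega
  clear c
  by_cases c : t < 48 * h + 42
  · clear l2
    exact Or.inr (Or.inr (Or.inr (cov_xy (runB_m27 h) (by omega) (by omega) (by omega))))
  replace l1 : 48 * h + 42 ≤ t := by omega
  clear c
  by_cases c : t < 48 * h + 43
  · clear l2
    exact Or.inr (Or.inr (Or.inr (cov_xy (runB_m18 h) (by omega) (by omega) (by omega))))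
  replace l1 : 48 * h + 43 ≤ t := by omega
  clear c
  by_cases c : t < 50 * h + 40
  · clear l2
    have hp : (t - (48 * h + 42)) % 2 = 0 ∨ (t - (48 * h + 42)) % 2 = 1 := by omega
    rcases hp with hp | hp
    · exact Or.inr (Or.inr (Or.inr (cov_xy (runB_m18 h) (by omega) (by omega) (by omega))))
    · exact Or.inr (Or.inr (Or.inr (cov_xy (runB_m25 h) (by omega) (by omega) (by omega))))
  replace l1 : 50 * h + 40 ≤ t := by omega
  clear c
  by_cases c : t < 50 * h + 41
  · clear l2
    exact Or.inr (Or.inr (Or.inr (cov_xy (runB_m18 h) (by omega) (by omega) (by omega))))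
  replace l1 : 50 * h + 41 ≤ t := by omega
  clear c
  by_cases c : t < 50 * h + 42
  · clear l2
    exact Or.inr (Or.inr (Or.inr (cov_xy (runB_m22 h) (by omega) (by omega) (by omega))))
  replace l1 : 50 * h + 42 ≤ t := by omega
  clear c
  by_cases c : t < 50 * h + 43
  · clear l2
    exact Or.inr (Or.inr (Or.inr (cov_xy (runB_m28 h) (by omega) (by omega) (by omega))))
  replace l1 : 50 * h + 43 ≤ t := by omega
  clear c
  by_cases c : t < 52 * h + 44
  · clear l2
    exact Or.inr (Or.inr (Or.inl (cov_by _ (runB_m10 h) (by omega) (by omega))))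
  replace l1 : 52 * h + 44 ≤ t := by omega
  clear c
  by_cases c : t < 52 * h + 45
  · clear l2
    exact Or.inr (Or.inr (Or.inl (cov_by _ (runB_m19 h) (by omega) (by omega))))
  replace l1 : 52 * h + 45 ≤ t := by omega
  clear c
  by_cases c : t < 52 * h + 46
  · clear l2
    exact Or.inr (Or.inr (Or.inl (cov_by _ (runB_m7 h) (by omega) (by omega))))
  replace l1 : 52 * h + 46 ≤ t := by omega
  clear c
  by_cases c : t < 53 * h + 46
  · clear l2
    exact Or.inr (Or.inr (Or.inl (cov_by _ (runB_m16 h) (by omega) (by omega))))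
  replace l1 : 53 * h + 46 ≤ t := by omega
  clear c
  by_cases c : t < 54 * h + 46
  · clear l2
    exact Or.inr (Or.inr (Or.inl (cov_by _ (runB_m18 h) (by omega) (by omega))))
  replace l1 : 54 * h + 46 ≤ t := by omega
  clear c
  by_cases c : t < 54 * h + 47
  · clear l2
    exact Or.inr (Or.inr (Or.inr (cov_xy (runB_m19 h) (by omega) (by omega) (by omega))))
  replace l1 : 54 * h + 47 ≤ t := by omega
  clear c
  exact Or.inr (Or.inr (Or.inl (cov_by _ (runB_m11 h) (by omega) (by omega))))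

theorem runB_sem (h : ℕ) (hh : 2 ≤ h) : SuperEdgeMagic (book (16 * h + 13)) := by
  refine sem_of_cover (16 * h + 13) (4 * h + 5) (22 * h + 19) (6 * h + 8) (pairs (runB h)) (runB_len h hh) ?_ ?_
  · intro l l1 l2
    exact runB_lab h hh l l1 (by omega)
  · intro t l1 l2
    exact runB_sum h hh t l1 (by omega)


/-- The books with `n ≡ 5 (mod 8)` pages are super edge-magic. -/
theorem odd_books (n : ℕ) (hn : n % 8 = 5) : SuperEdgeMagic (book n) := by
  obtain ⟨k, rfl⟩ : ∃ k, n = 8 * k + 5 := ⟨n / 8, by omega⟩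
  by_cases h0 : k = 0
  · subst h0; exact sem_5
  by_cases h1 : k = 1
  · subst h1; exact sem_13
  by_cases h2 : k = 2
  · subst h2; exact sem_21
  by_cases h3 : k = 3
  · subst h3; exact sem_29
  rcases Nat.even_or_odd' k with ⟨h, rfl | rfl⟩
  · have := runA_sem h (by omega)
    have e : 8 * (2 * h) + 5 = 16 * h + 5 := by omega
    rwa [e]
  · have := runB_sem h (by omega)
    have e : 8 * (2 * h + 1) + 5 = 16 * h + 13 := by omega
    rwa [e]

end Pool.Agent.Q132.Books
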