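import Pool.Agent.Q132.CovSum

/-! Three families of cyclic sequences modulo `4 k + 1` whose entries and consecutive sums cover
all nonzero residues up to sign: `k = 2 h + 1`, `k = 4 h` and `k = 4 h + 2`. -/

namespace Pool.Agent.Q132.CovSum

open Pool.Agent.Q132.Walks

/-! The case `k = 2 h + 1`, `h ≥ 3`. -/
namespace FamA

/-- tail 7 -/
def T7 (h : ℕ) : List ℤ := [3 * (h : ℤ) + 4]
/-- tail 6 -/
def T6 (h : ℕ) : List ℤ := (-3 * (h : ℤ) - 2) :: T7 h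
/-- tail 5 -/
def T5 (h : ℕ) : List ℤ := (-3 * (h : ℤ) - 3) :: T6 h
/-- tail 4 -/
def T4 (h : ℕ) : List ℤ := (-2 * (h : ℤ) - 1) :: T5 h
/-- tail 3 -/
def T3 (h : ℕ) : List ℤ := (-2 * (h : ℤ) - 2) :: T4 h
/-- tail 2 -/
def T2 (h : ℕ) : List ℤ := (2 * (h : ℤ) - 1) :: T3 h
/-- tail 1 -/
def T1 (h : ℕ) : List ℤ := (-2 * (h : ℤ) + 2) :: T2 h
/-- tail 0 -/
def T0 (h : ℕ) : List ℤ := run (p2 (3 * (h : ℤ) + 4) (-3 * (h : ℤ)) 1) (2 * h - 5) (T1 h)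

theorem head0 {h : ℕ} (hh : 3 ≤ h) : (T0 h).head? = some (3 * (h : ℤ) + 4) := hE (by omega)
theorem head1 {h : ℕ} (_ : 3 ≤ h) : (T1 h).head? = some (-2 * (h : ℤ) + 2) := rfl
theorem head2 {h : ℕ} (_ : 3 ≤ h) : (T2 h).head? = some (2 * (h : ℤ) - 1) := rfl
theorem head3 {h : ℕ} (_ : 3 ≤ h) : (T3 h).head? = some (-2 * (h : ℤ) - 2) := rfl
theorem head4 {h : ℕ} (_ : 3 ≤ h) : (T4 h).head? = some (-2 * (h : ℤ) - 1) := rfl
theorem head5 {h : ℕ} (_ : 3 ≤ h) : (T5 h).head? = some (-3 * (h : ℤ) - 3) := rfl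
theorem head6 {h : ℕ} (_ : 3 ≤ h) : (T6 h).head? = some (-3 * (h : ℤ) - 2) := rfl
theorem head7 {h : ℕ} (_ : 3 ≤ h) : (T7 h).head? = some (3 * (h : ℤ) + 4) := rfl

theorem sub0 {h : ℕ} {p : ℤ} (g : p ∈ T0 h) : p ∈ T0 h := g
theorem cp0 {h : ℕ} {p q : ℤ} (g : CP (T0 h) p q) : CP (T0 h) p q := g
theorem sub1 {h : ℕ} {p : ℤ} (g : p ∈ T1 h) : p ∈ T0 h := sub0 (run_rest g)
theorem cp1 {h : ℕ} {p q : ℤ} (g : CP (T1 h) p q) : CP (T0 h) p q := cp0 (CP_run_rest g)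
theorem sub2 {h : ℕ} {p : ℤ} (g : p ∈ T2 h) : p ∈ T0 h := sub1 (List.mem_cons_of_mem _ g)
theorem cp2 {h : ℕ} {p q : ℤ} (g : CP (T2 h) p q) : CP (T0 h) p q := cp1 (CP.cons g)
theorem sub3 {h : ℕ} {p : ℤ} (g : p ∈ T3 h) : p ∈ T0 h := sub2 (List.mem_cons_of_mem _ g)
theorem cp3 {h : ℕ} {p q : ℤ} (g : CP (T3 h) p q) : CP (T0 h) p q := cp2 (CP.cons g)
theorem sub4 {h : ℕ} {p : ℤ} (g : p ∈ T4 h) : p ∈ T0 h := sub3 (List.mem_cons_of_mem _ g)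
theorem cp4 {h : ℕ} {p q : ℤ} (g : CP (T4 h) p q) : CP (T0 h) p q := cp3 (CP.cons g)
theorem sub5 {h : ℕ} {p : ℤ} (g : p ∈ T5 h) : p ∈ T0 h := sub4 (List.mem_cons_of_mem _ g)
theorem cp5 {h : ℕ} {p q : ℤ} (g : CP (T5 h) p q) : CP (T0 h) p q := cp4 (CP.cons g)
theorem sub6 {h : ℕ} {p : ℤ} (g : p ∈ T6 h) : p ∈ T0 h := sub5 (List.mem_cons_of_mem _ g)
theorem cp6 {h : ℕ} {p q : ℤ} (g : CP (T6 h) p q) : CP (T0 h) p q := cp5 (CP.cons g)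
theorem sub7 {h : ℕ} {p : ℤ} (g : p ∈ T7 h) : p ∈ T0 h := sub6 (List.mem_cons_of_mem _ g)
theorem cp7 {h : ℕ} {p q : ℤ} (g : CP (T7 h) p q) : CP (T0 h) p q := cp6 (CP.cons g)

theorem last7 {h : ℕ} : (T7 h).getLast? = some (3 * (h : ℤ) + 4) := rfl
theorem last6 {h : ℕ} : (T6 h).getLast? = some (3 * (h : ℤ) + 4) := ends_cons last7
theorem last5 {h : ℕ} : (T5 h).getLast? = some (3 * (h : ℤ) + 4) := ends_cons last6
theorem last4 {h : ℕ} : (T4 h).getLast? = some (3 * (h : ℤ) + 4) := ends_cons last5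
theorem last3 {h : ℕ} : (T3 h).getLast? = some (3 * (h : ℤ) + 4) := ends_cons last4
theorem last2 {h : ℕ} : (T2 h).getLast? = some (3 * (h : ℤ) + 4) := ends_cons last3
theorem last1 {h : ℕ} : (T1 h).getLast? = some (3 * (h : ℤ) + 4) := ends_cons last2
theorem last0 {h : ℕ} : (T0 h).getLast? = some (3 * (h : ℤ) + 4) := ends_run last1

theorem len7 {h : ℕ} (_ : 3 ≤ h) : (T7 h).length = 1 := rfl
theorem len6 {h : ℕ} (hh : 3 ≤ h) : (T6 h).length = 2 := by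
  rw [T6, List.length_cons, len7 hh]
theorem len5 {h : ℕ} (hh : 3 ≤ h) : (T5 h).length = 3 := by
  rw [T5, List.length_cons, len6 hh]
theorem len4 {h : ℕ} (hh : 3 ≤ h) : (T4 h).length = 4 := by
  rw [T4, List.length_cons, len5 hh]
theorem len3 {h : ℕ} (hh : 3 ≤ h) : (T3 h).length = 5 := by
  rw [T3, List.length_cons, len4 hh]
theorem len2 {h : ℕ} (hh : 3 ≤ h) : (T2 h).length = 6 := by
  rw [T2, List.length_cons, len3 hh]
theorem len1 {h : ℕ} (hh : 3 ≤ h) : (T1 h).length = 7 := by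
  rw [T1, List.length_cons, len2 hh]
theorem len0 {h : ℕ} (hh : 3 ≤ h) : (T0 h).length = 2 * h + 2 := by
  rw [T0, run_length, len1 hh]
  all_goals omega

theorem sum7 {h : ℕ} (_ : 3 ≤ h) : 2 * (T7 h).sum = 0 * (h : ℤ) ^ 2 + 6 * (h : ℤ) + 8 := by
  simp only [T7, List.sum_cons, List.sum_nil]
  ring
theorem sum6 {h : ℕ} (hh : 3 ≤ h) : 2 * (T6 h).sum = 0 * (h : ℤ) ^ 2 + 0 * (h : ℤ) + 4 := by
  rw [T6, List.sum_cons, mul_add, sum7 hh]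
  ring
theorem sum5 {h : ℕ} (hh : 3 ≤ h) : 2 * (T5 h).sum = 0 * (h : ℤ) ^ 2 - 6 * (h : ℤ) - 2 := by
  rw [T5, List.sum_cons, mul_add, sum6 hh]
  ring
theorem sum4 {h : ℕ} (hh : 3 ≤ h) : 2 * (T4 h).sum = 0 * (h : ℤ) ^ 2 - 10 * (h : ℤ) - 4 := by
  rw [T4, List.sum_cons, mul_add, sum5 hh]
  ring
theorem sum3 {h : ℕ} (hh : 3 ≤ h) : 2 * (T3 h).sum = 0 * (h : ℤ) ^ 2 - 14 * (h : ℤ) - 8 := by
  rw [T3, List.sum_cons, mul_add, sum4 hh]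
  ring
theorem sum2 {h : ℕ} (hh : 3 ≤ h) : 2 * (T2 h).sum = 0 * (h : ℤ) ^ 2 - 10 * (h : ℤ) - 10 := by
  rw [T2, List.sum_cons, mul_add, sum3 hh]
  ring
theorem sum1 {h : ℕ} (hh : 3 ≤ h) : 2 * (T1 h).sum = 0 * (h : ℤ) ^ 2 - 14 * (h : ℤ) - 6 := by
  rw [T1, List.sum_cons, mul_add, sum2 hh]
  ring
theorem sum0 {h : ℕ} (hh : 3 ≤ h) : 2 * (T0 h).sum = 2 * (h : ℤ) ^ 2 - 12 * (h : ℤ) - 4 := by
  have e : ((h - 3 : ℕ) : ℤ) = (h : ℤ) - 3 := by omega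
  rw [T0, sumO (h - 3) (by omega), sum1 hh, e]
  ring

theorem jun0 {h : ℕ} (hh : 3 ≤ h) : CP (T0 h) (4 * (h : ℤ) + 1) (-2 * (h : ℤ) + 2) := by
  exact cp0 (lE (h - 3) (by omega) (head1 hh) (by omega))
theorem jun1 {h : ℕ} (hh : 3 ≤ h) : CP (T0 h) (-2 * (h : ℤ) + 2) (2 * (h : ℤ) - 1) := by
  exact cp1 (lastCons (head2 hh))
theorem jun2 {h : ℕ} (hh : 3 ≤ h) : CP (T0 h) (2 * (h : ℤ) - 1) (-2 * (h : ℤ) - 2) := by
  exact cp2 (lastCons (head3 hh))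
theorem jun3 {h : ℕ} (hh : 3 ≤ h) : CP (T0 h) (-2 * (h : ℤ) - 2) (-2 * (h : ℤ) - 1) := by
  exact cp3 (lastCons (head4 hh))
theorem jun4 {h : ℕ} (hh : 3 ≤ h) : CP (T0 h) (-2 * (h : ℤ) - 1) (-3 * (h : ℤ) - 3) := by
  exact cp4 (lastCons (head5 hh))
theorem jun5 {h : ℕ} (hh : 3 ≤ h) : CP (T0 h) (-3 * (h : ℤ) - 3) (-3 * (h : ℤ) - 2) := by
  exact cp5 (lastCons (head6 hh))
theorem jun6 {h : ℕ} (hh : 3 ≤ h) : CP (T0 h) (-3 * (h : ℤ) - 2) (3 * (h : ℤ) + 4) := by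
  exact cp6 (lastCons (head7 hh))

theorem cov {h : ℕ} (hh : 3 ≤ h) (m : ℤ) (h0 : 1 ≤ m) (h1 : m ≤ 4 * (h : ℤ) + 2) :
    Cov (8 * (h : ℤ) + 5) (T0 h) m := by
  rcases lt_or_ge (1) m with g0 | g0
  swap
  · exact Cov.su (jun1 hh) 0 (by omega)
  rcases lt_or_ge (2) m with g1 | g1
  swap
  · exact Cov.su (jun6 hh) 0 (by omega)
  clear g0
  rcases lt_or_ge (3) m with g2 | g2
  swap
  · exact Cov.su' (jun2 hh) 0 (by omega)
  clear g1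
  rcases lt_or_ge (2 * (h : ℤ) - 3) m with g3 | g3
  swap
  · exact Cov.run (fun _ _ g => cp0 g) ((m + 0 * (8 * (h : ℤ) + 5)) - (4)) (by omega) (by omega) 0 (by left; ring)
  clear g2
  rcases lt_or_ge (2 * (h : ℤ) - 2) m with g4 | g4
  swap
  · exact Cov.el' (y := -2 * (h : ℤ) + 2) (sub1 List.mem_cons_self) 0 (by omega)
  clear g3
  rcases lt_or_ge (2 * (h : ℤ) - 1) m with g5 | g5
  swap
  · exact Cov.el (y := 2 * (h : ℤ) - 1) (sub2 List.mem_cons_self) 0 (by omega)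
  clear g4
  rcases lt_or_ge (2 * (h : ℤ)) m with g6 | g6
  swap
  · exact Cov.su (jun5 hh) (-1) (by omega)
  clear g5
  rcases lt_or_ge (2 * (h : ℤ) + 1) m with g7 | g7
  swap
  · exact Cov.el' (y := -2 * (h : ℤ) - 1) (sub4 List.mem_cons_self) 0 (by omega)
  clear g6
  rcases lt_or_ge (2 * (h : ℤ) + 2) m with g8 | g8
  swap
  · exact Cov.el' (y := -2 * (h : ℤ) - 2) (sub3 List.mem_cons_self) 0 (by omega)
  clear g7
  rcases lt_or_ge (2 * (h : ℤ) + 3) m with g9 | g9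
  swap
  · exact Cov.su (jun0 hh) 0 (by omega)
  clear g8
  rcases lt_or_ge (3 * (h : ℤ)) m with g10 | g10
  swap
  · exact Cov.el' (y := -m) (sub0 (mO (-m - (-3 * (h : ℤ))) (by omega) (by omega) (by ring))) 0 (by ring)
  clear g9
  rcases lt_or_ge (3 * (h : ℤ) + 1) m with g11 | g11
  swap
  · exact Cov.su (jun4 hh) (-1) (by omega)
  clear g10
  rcases lt_or_ge (3 * (h : ℤ) + 2) m with g12 | g12
  swap
  · exact Cov.el' (y := -3 * (h : ℤ) - 2) (sub6 List.mem_cons_self) 0 (by omega)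
  clear g11
  rcases lt_or_ge (3 * (h : ℤ) + 3) m with g13 | g13
  swap
  · exact Cov.el' (y := -3 * (h : ℤ) - 3) (sub5 List.mem_cons_self) 0 (by omega)
  clear g12
  rcases lt_or_ge (4 * (h : ℤ) + 1) m with g14 | g14
  swap
  · exact Cov.el (y := m) (sub0 (mE (m - (3 * (h : ℤ) + 4)) (by omega) (by omega) (by ring))) 0 (by ring)
  clear g13
  exact Cov.su (jun3 hh) (-1) (by omega)

theorem good {h : ℕ} (hh : 3 ≤ h) : Good (2 * h + 1) := by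
  have ht : (4 * ((2 * h + 1 : ℕ) : ℤ) + 1) = 8 * (h : ℤ) + 5 := by push_cast; ring
  refine good_of_list (2 * h + 1) (by omega) (T0 h) (3 * (h : ℤ) + 4) (len0 hh) (head0 hh) last0 ?_ (128) (16 * (h : ℤ) - 154) (1) 1 (by norm_num) ?_
  · intro m h0 h1
    rw [ht]
    exact cov hh m h0 (by push_cast at h1; omega)
  · have e := sum0 hh
    rw [ht]
    linear_combination 64 * e

end FamA

/-! The case `k = 4 h`, `h ≥ 2`. -/
namespace FamB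

/-- tail 5 -/
def T5 (h : ℕ) : List ℤ := [6 * (h : ℤ) + 1]
/-- tail 4 -/
def T4 (h : ℕ) : List ℤ := (-4 * (h : ℤ)) :: T5 h
/-- tail 3 -/
def T3 (h : ℕ) : List ℤ := run (p2 (7 * (h : ℤ) + 1) (-5 * (h : ℤ) + 1) 1) (2 * h - 2) (T4 h)
/-- tail 2 -/
def T2 (h : ℕ) : List ℤ := (4 * (h : ℤ) - 1) :: T3 h
/-- tail 1 -/
def T1 (h : ℕ) : List ℤ := (-2 * (h : ℤ)) :: T2 h
/-- tail 0 -/
def T0 (h : ℕ) : List ℤ := run (p2 (6 * (h : ℤ) + 1) (-6 * (h : ℤ)) 1) (2 * h - 1) (T1 h)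

theorem head0 {h : ℕ} (hh : 2 ≤ h) : (T0 h).head? = some (6 * (h : ℤ) + 1) := hE (by omega)
theorem head1 {h : ℕ} (_ : 2 ≤ h) : (T1 h).head? = some (-2 * (h : ℤ)) := rfl
theorem head2 {h : ℕ} (_ : 2 ≤ h) : (T2 h).head? = some (4 * (h : ℤ) - 1) := rfl
theorem head3 {h : ℕ} (hh : 2 ≤ h) : (T3 h).head? = some (7 * (h : ℤ) + 1) := hE (by omega)
theorem head4 {h : ℕ} (_ : 2 ≤ h) : (T4 h).head? = some (-4 * (h : ℤ)) := rfl
theorem head5 {h : ℕ} (_ : 2 ≤ h) : (T5 h).head? = some (6 * (h : ℤ) + 1) := rfl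

theorem sub0 {h : ℕ} {p : ℤ} (g : p ∈ T0 h) : p ∈ T0 h := g
theorem cp0 {h : ℕ} {p q : ℤ} (g : CP (T0 h) p q) : CP (T0 h) p q := g
theorem sub1 {h : ℕ} {p : ℤ} (g : p ∈ T1 h) : p ∈ T0 h := sub0 (run_rest g)
theorem cp1 {h : ℕ} {p q : ℤ} (g : CP (T1 h) p q) : CP (T0 h) p q := cp0 (CP_run_rest g)
theorem sub2 {h : ℕ} {p : ℤ} (g : p ∈ T2 h) : p ∈ T0 h := sub1 (List.mem_cons_of_mem _ g)
theorem cp2 {h : ℕ} {p q : ℤ} (g : CP (T2 h) p q) : CP (T0 h) p q := cp1 (CP.cons g)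
theorem sub3 {h : ℕ} {p : ℤ} (g : p ∈ T3 h) : p ∈ T0 h := sub2 (List.mem_cons_of_mem _ g)
theorem cp3 {h : ℕ} {p q : ℤ} (g : CP (T3 h) p q) : CP (T0 h) p q := cp2 (CP.cons g)
theorem sub4 {h : ℕ} {p : ℤ} (g : p ∈ T4 h) : p ∈ T0 h := sub3 (run_rest g)
theorem cp4 {h : ℕ} {p q : ℤ} (g : CP (T4 h) p q) : CP (T0 h) p q := cp3 (CP_run_rest g)
theorem sub5 {h : ℕ} {p : ℤ} (g : p ∈ T5 h) : p ∈ T0 h := sub4 (List.mem_cons_of_mem _ g)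
theorem cp5 {h : ℕ} {p q : ℤ} (g : CP (T5 h) p q) : CP (T0 h) p q := cp4 (CP.cons g)

theorem last5 {h : ℕ} : (T5 h).getLast? = some (6 * (h : ℤ) + 1) := rfl
theorem last4 {h : ℕ} : (T4 h).getLast? = some (6 * (h : ℤ) + 1) := ends_cons last5
theorem last3 {h : ℕ} : (T3 h).getLast? = some (6 * (h : ℤ) + 1) := ends_run last4
theorem last2 {h : ℕ} : (T2 h).getLast? = some (6 * (h : ℤ) + 1) := ends_cons last3
theorem last1 {h : ℕ} : (T1 h).getLast? = some (6 * (h : ℤ) + 1) := ends_cons last2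
theorem last0 {h : ℕ} : (T0 h).getLast? = some (6 * (h : ℤ) + 1) := ends_run last1

theorem len5 {h : ℕ} (_ : 2 ≤ h) : (T5 h).length = 1 := rfl
theorem len4 {h : ℕ} (hh : 2 ≤ h) : (T4 h).length = 2 := by
  rw [T4, List.length_cons, len5 hh]
theorem len3 {h : ℕ} (hh : 2 ≤ h) : (T3 h).length = 2 * h := by
  rw [T3, run_length, len4 hh]
  all_goals omega
theorem len2 {h : ℕ} (hh : 2 ≤ h) : (T2 h).length = 2 * h + 1 := by
  rw [T2, List.length_cons, len3 hh]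
  all_goals omega
theorem len1 {h : ℕ} (hh : 2 ≤ h) : (T1 h).length = 2 * h + 2 := by
  rw [T1, List.length_cons, len2 hh]
  all_goals omega
theorem len0 {h : ℕ} (hh : 2 ≤ h) : (T0 h).length = 4 * h + 1 := by
  rw [T0, run_length, len1 hh]
  all_goals omega

theorem sum5 {h : ℕ} (_ : 2 ≤ h) : 2 * (T5 h).sum = 0 * (h : ℤ) ^ 2 + 12 * (h : ℤ) + 2 := by
  simp only [T5, List.sum_cons, List.sum_nil]
  ring
theorem sum4 {h : ℕ} (hh : 2 ≤ h) : 2 * (T4 h).sum = 0 * (h : ℤ) ^ 2 + 4 * (h : ℤ) + 2 := by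
  rw [T4, List.sum_cons, mul_add, sum5 hh]
  ring
theorem sum3 {h : ℕ} (hh : 2 ≤ h) : 2 * (T3 h).sum = 6 * (h : ℤ) ^ 2 - 2 * (h : ℤ) + 2 := by
  have e : ((h - 1 : ℕ) : ℤ) = (h : ℤ) - 1 := by omega
  rw [T3, sumE (h - 1) (by omega), sum4 hh, e]
  ring
theorem sum2 {h : ℕ} (hh : 2 ≤ h) : 2 * (T2 h).sum = 6 * (h : ℤ) ^ 2 + 6 * (h : ℤ) + 0 := by
  rw [T2, List.sum_cons, mul_add, sum3 hh]
  ring
theorem sum1 {h : ℕ} (hh : 2 ≤ h) : 2 * (T1 h).sum = 6 * (h : ℤ) ^ 2 + 2 * (h : ℤ) + 0 := by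
  rw [T1, List.sum_cons, mul_add, sum2 hh]
  ring
theorem sum0 {h : ℕ} (hh : 2 ≤ h) : 2 * (T0 h).sum = 8 * (h : ℤ) ^ 2 + 12 * (h : ℤ) + 2 := by
  have e : ((h - 1 : ℕ) : ℤ) = (h : ℤ) - 1 := by omega
  rw [T0, sumO (h - 1) (by omega), sum1 hh, e]
  ring

theorem jun0 {h : ℕ} (hh : 2 ≤ h) : CP (T0 h) (7 * (h : ℤ)) (-2 * (h : ℤ)) := by
  exact cp0 (lE (h - 1) (by omega) (head1 hh) (by omega))
theorem jun1 {h : ℕ} (hh : 2 ≤ h) : CP (T0 h) (-2 * (h : ℤ)) (4 * (h : ℤ) - 1) := by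
  exact cp1 (lastCons (head2 hh))
theorem jun2 {h : ℕ} (hh : 2 ≤ h) : CP (T0 h) (4 * (h : ℤ) - 1) (7 * (h : ℤ) + 1) := by
  exact cp2 (lastCons (head3 hh))
theorem jun3 {h : ℕ} (hh : 2 ≤ h) : CP (T0 h) (-4 * (h : ℤ) - 1) (-4 * (h : ℤ)) := by
  exact cp3 (lO (h - 2) (by omega) (head4 hh) (by omega))
theorem jun4 {h : ℕ} (hh : 2 ≤ h) : CP (T0 h) (-4 * (h : ℤ)) (6 * (h : ℤ) + 1) := by
  exact cp4 (lastCons (head5 hh))

theorem cov {h : ℕ} (hh : 2 ≤ h) (m : ℤ) (h0 : 1 ≤ m) (h1 : m ≤ 8 * (h : ℤ)) :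
    Cov (16 * (h : ℤ) + 1) (T0 h) m := by
  rcases lt_or_ge (2 * (h : ℤ) - 2) m with g0 | g0
  swap
  · exact Cov.run (fun _ _ g => cp0 g) ((m + 0 * (16 * (h : ℤ) + 1)) - (1)) (by omega) (by omega) 0 (by left; ring)
  rcases lt_or_ge (2 * (h : ℤ) - 1) m with g1 | g1
  swap
  · exact Cov.su (jun1 hh) 0 (by omega)
  clear g0
  rcases lt_or_ge (2 * (h : ℤ)) m with g2 | g2
  swap
  · exact Cov.el' (y := -2 * (h : ℤ)) (sub1 List.mem_cons_self) 0 (by omega)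
  clear g1
  rcases lt_or_ge (2 * (h : ℤ) + 1) m with g3 | g3
  swap
  · exact Cov.su (jun4 hh) 0 (by omega)
  clear g2
  rcases lt_or_ge (4 * (h : ℤ) - 2) m with g4 | g4
  swap
  · exact Cov.run (fun _ _ g => cp3 g) ((m + 0 * (16 * (h : ℤ) + 1)) - (2 * (h : ℤ) + 2)) (by omega) (by omega) 0 (by left; ring)
  clear g3
  rcases lt_or_ge (4 * (h : ℤ) - 1) m with g5 | g5
  swap
  · exact Cov.el (y := 4 * (h : ℤ) - 1) (sub2 List.mem_cons_self) 0 (by omega)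
  clear g4
  rcases lt_or_ge (4 * (h : ℤ)) m with g6 | g6
  swap
  · exact Cov.el' (y := -4 * (h : ℤ)) (sub4 List.mem_cons_self) 0 (by omega)
  clear g5
  rcases lt_or_ge (5 * (h : ℤ) - 1) m with g7 | g7
  swap
  · exact Cov.el' (y := -m) (sub3 (mO (-m - (-5 * (h : ℤ) + 1)) (by omega) (by omega) (by ring))) 0 (by ring)
  clear g6
  rcases lt_or_ge (5 * (h : ℤ)) m with g8 | g8
  swap
  · exact Cov.su (jun0 hh) 0 (by omega)
  clear g7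
  rcases lt_or_ge (5 * (h : ℤ) + 1) m with g9 | g9
  swap
  · exact Cov.su' (jun2 hh) 1 (by omega)
  clear g8
  rcases lt_or_ge (6 * (h : ℤ)) m with g10 | g10
  swap
  · exact Cov.el' (y := -m) (sub0 (mO (-m - (-6 * (h : ℤ))) (by omega) (by omega) (by ring))) 0 (by ring)
  clear g9
  rcases lt_or_ge (7 * (h : ℤ)) m with g11 | g11
  swap
  · exact Cov.el (y := m) (sub0 (mE (m - (6 * (h : ℤ) + 1)) (by omega) (by omega) (by ring))) 0 (by ring)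
  clear g10
  rcases lt_or_ge (8 * (h : ℤ) - 1) m with g12 | g12
  swap
  · exact Cov.el (y := m) (sub3 (mE (m - (7 * (h : ℤ) + 1)) (by omega) (by omega) (by ring))) 0 (by ring)
  clear g11
  exact Cov.su (jun3 hh) (-1) (by omega)

theorem good {h : ℕ} (hh : 2 ≤ h) : Good (4 * h) := by
  have ht : (4 * ((4 * h : ℕ) : ℤ) + 1) = 16 * (h : ℤ) + 1 := by push_cast; ring
  refine good_of_list (4 * h) (by omega) (T0 h) (6 * (h : ℤ) + 1) (len0 hh) (head0 hh) last0 ?_ (512) (128 * (h : ℤ) - 8) (1) 3 (by norm_num) ?_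
  · intro m h0 h1
    rw [ht]
    exact cov hh m h0 (by push_cast at h1; omega)
  · have e := sum0 hh
    rw [ht]
    linear_combination 256 * e

end FamB

/-! The case `k = 4 h + 2`, `h ≥ 1`. -/
namespace FamC

/-- tail 5 -/
def T5 (h : ℕ) : List ℤ := [6 * (h : ℤ) + 4]
/-- tail 4 -/
def T4 (h : ℕ) : List ℤ := (4 * (h : ℤ) + 2) :: T5 h
/-- tail 3 -/
def T3 (h : ℕ) : List ℤ := (-2 * (h : ℤ) - 2) :: T4 h
/-- tail 2 -/
def T2 (h : ℕ) : List ℤ := (1) :: T3 h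
/-- tail 1 -/
def T1 (h : ℕ) : List ℤ := run (p2 (4 * (h : ℤ) + 3) (-8 * (h : ℤ) - 4) 1) (2 * h) (T2 h)
/-- tail 0 -/
def T0 (h : ℕ) : List ℤ := run (p2 (6 * (h : ℤ) + 4) (-6 * (h : ℤ) - 2) 1) (2 * h - 1) (T1 h)

theorem head0 {h : ℕ} (hh : 1 ≤ h) : (T0 h).head? = some (6 * (h : ℤ) + 4) := hE (by omega)
theorem head1 {h : ℕ} (hh : 1 ≤ h) : (T1 h).head? = some (4 * (h : ℤ) + 3) := hE (by omega)
theorem head2 {h : ℕ} (_ : 1 ≤ h) : (T2 h).head? = some (1) := rfl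
theorem head3 {h : ℕ} (_ : 1 ≤ h) : (T3 h).head? = some (-2 * (h : ℤ) - 2) := rfl
theorem head4 {h : ℕ} (_ : 1 ≤ h) : (T4 h).head? = some (4 * (h : ℤ) + 2) := rfl
theorem head5 {h : ℕ} (_ : 1 ≤ h) : (T5 h).head? = some (6 * (h : ℤ) + 4) := rfl

theorem sub0 {h : ℕ} {p : ℤ} (g : p ∈ T0 h) : p ∈ T0 h := g
theorem cp0 {h : ℕ} {p q : ℤ} (g : CP (T0 h) p q) : CP (T0 h) p q := g
theorem sub1 {h : ℕ} {p : ℤ} (g : p ∈ T1 h) : p ∈ T0 h := sub0 (run_rest g)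
theorem cp1 {h : ℕ} {p q : ℤ} (g : CP (T1 h) p q) : CP (T0 h) p q := cp0 (CP_run_rest g)
theorem sub2 {h : ℕ} {p : ℤ} (g : p ∈ T2 h) : p ∈ T0 h := sub1 (run_rest g)
theorem cp2 {h : ℕ} {p q : ℤ} (g : CP (T2 h) p q) : CP (T0 h) p q := cp1 (CP_run_rest g)
theorem sub3 {h : ℕ} {p : ℤ} (g : p ∈ T3 h) : p ∈ T0 h := sub2 (List.mem_cons_of_mem _ g)
theorem cp3 {h : ℕ} {p q : ℤ} (g : CP (T3 h) p q) : CP (T0 h) p q := cp2 (CP.cons g)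
theorem sub4 {h : ℕ} {p : ℤ} (g : p ∈ T4 h) : p ∈ T0 h := sub3 (List.mem_cons_of_mem _ g)
theorem cp4 {h : ℕ} {p q : ℤ} (g : CP (T4 h) p q) : CP (T0 h) p q := cp3 (CP.cons g)
theorem sub5 {h : ℕ} {p : ℤ} (g : p ∈ T5 h) : p ∈ T0 h := sub4 (List.mem_cons_of_mem _ g)
theorem cp5 {h : ℕ} {p q : ℤ} (g : CP (T5 h) p q) : CP (T0 h) p q := cp4 (CP.cons g)

theorem last5 {h : ℕ} : (T5 h).getLast? = some (6 * (h : ℤ) + 4) := rfl
theorem last4 {h : ℕ} : (T4 h).getLast? = some (6 * (h : ℤ) + 4) := ends_cons last5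
theorem last3 {h : ℕ} : (T3 h).getLast? = some (6 * (h : ℤ) + 4) := ends_cons last4
theorem last2 {h : ℕ} : (T2 h).getLast? = some (6 * (h : ℤ) + 4) := ends_cons last3
theorem last1 {h : ℕ} : (T1 h).getLast? = some (6 * (h : ℤ) + 4) := ends_run last2
theorem last0 {h : ℕ} : (T0 h).getLast? = some (6 * (h : ℤ) + 4) := ends_run last1

theorem len5 {h : ℕ} (_ : 1 ≤ h) : (T5 h).length = 1 := rfl
theorem len4 {h : ℕ} (hh : 1 ≤ h) : (T4 h).length = 2 := by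
  rw [T4, List.length_cons, len5 hh]
theorem len3 {h : ℕ} (hh : 1 ≤ h) : (T3 h).length = 3 := by
  rw [T3, List.length_cons, len4 hh]
theorem len2 {h : ℕ} (hh : 1 ≤ h) : (T2 h).length = 4 := by
  rw [T2, List.length_cons, len3 hh]
theorem len1 {h : ℕ} (hh : 1 ≤ h) : (T1 h).length = 2 * h + 4 := by
  rw [T1, run_length, len2 hh]
  all_goals omega
theorem len0 {h : ℕ} (hh : 1 ≤ h) : (T0 h).length = 4 * h + 3 := by
  rw [T0, run_length, len1 hh]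
  all_goals omega

theorem sum5 {h : ℕ} (_ : 1 ≤ h) : 2 * (T5 h).sum = 0 * (h : ℤ) ^ 2 + 12 * (h : ℤ) + 8 := by
  simp only [T5, List.sum_cons, List.sum_nil]
  ring
theorem sum4 {h : ℕ} (hh : 1 ≤ h) : 2 * (T4 h).sum = 0 * (h : ℤ) ^ 2 + 20 * (h : ℤ) + 12 := by
  rw [T4, List.sum_cons, mul_add, sum5 hh]
  ring
theorem sum3 {h : ℕ} (hh : 1 ≤ h) : 2 * (T3 h).sum = 0 * (h : ℤ) ^ 2 + 16 * (h : ℤ) + 8 := by
  rw [T3, List.sum_cons, mul_add, sum4 hh]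
  ring
theorem sum2 {h : ℕ} (hh : 1 ≤ h) : 2 * (T2 h).sum = 0 * (h : ℤ) ^ 2 + 16 * (h : ℤ) + 10 := by
  rw [T2, List.sum_cons, mul_add, sum3 hh]
  ring
theorem sum1 {h : ℕ} (hh : 1 ≤ h) : 2 * (T1 h).sum = -6 * (h : ℤ) ^ 2 + 12 * (h : ℤ) + 10 := by
  have e : ((h : ℕ) : ℤ) = (h : ℤ) := by omega
  rw [T1, sumE (h) (by omega), sum2 hh, e]
  ring
theorem sum0 {h : ℕ} (hh : 1 ≤ h) : 2 * (T0 h).sum = -4 * (h : ℤ) ^ 2 + 24 * (h : ℤ) + 16 := by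
  have e : ((h - 1 : ℕ) : ℤ) = (h : ℤ) - 1 := by omega
  rw [T0, sumO (h - 1) (by omega), sum1 hh, e]
  ring

theorem jun0 {h : ℕ} (hh : 1 ≤ h) : CP (T0 h) (7 * (h : ℤ) + 3) (4 * (h : ℤ) + 3) := by
  exact cp0 (lE (h - 1) (by omega) (head1 hh) (by omega))
theorem jun1 {h : ℕ} (hh : 1 ≤ h) : CP (T0 h) (-7 * (h : ℤ) - 5) (1) := by
  exact cp1 (lO (h - 1) (by omega) (head2 hh) (by omega))
theorem jun2 {h : ℕ} (hh : 1 ≤ h) : CP (T0 h) (1) (-2 * (h : ℤ) - 2) := by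
  exact cp2 (lastCons (head3 hh))
theorem jun3 {h : ℕ} (hh : 1 ≤ h) : CP (T0 h) (-2 * (h : ℤ) - 2) (4 * (h : ℤ) + 2) := by
  exact cp3 (lastCons (head4 hh))
theorem jun4 {h : ℕ} (hh : 1 ≤ h) : CP (T0 h) (4 * (h : ℤ) + 2) (6 * (h : ℤ) + 4) := by
  exact cp4 (lastCons (head5 hh))

theorem cov {h : ℕ} (hh : 1 ≤ h) (m : ℤ) (h0 : 1 ≤ m) (h1 : m ≤ 8 * (h : ℤ) + 4) :
    Cov (16 * (h : ℤ) + 9) (T0 h) m := by
  rcases lt_or_ge (1) m with g0 | g0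
  swap
  · exact Cov.el (y := 1) (sub2 List.mem_cons_self) 0 (by omega)
  rcases lt_or_ge (2 * (h : ℤ) - 1) m with g1 | g1
  swap
  · exact Cov.run (fun _ _ g => cp0 g) ((m + 0 * (16 * (h : ℤ) + 9)) - (2)) (by omega) (by omega) 0 (by left; ring)
  clear g0
  rcases lt_or_ge (2 * (h : ℤ)) m with g2 | g2
  swap
  · exact Cov.su (jun3 hh) 0 (by omega)
  clear g1
  rcases lt_or_ge (2 * (h : ℤ) + 1) m with g3 | g3
  swap
  · exact Cov.su' (jun2 hh) 0 (by omega)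
  clear g2
  rcases lt_or_ge (2 * (h : ℤ) + 2) m with g4 | g4
  swap
  · exact Cov.el' (y := -2 * (h : ℤ) - 2) (sub3 List.mem_cons_self) 0 (by omega)
  clear g3
  rcases lt_or_ge (4 * (h : ℤ) + 1) m with g5 | g5
  swap
  · exact Cov.run (fun _ _ g => cp1 g) ((-m + 0 * (16 * (h : ℤ) + 9)) - (-4 * (h : ℤ) - 1)) (by omega) (by omega) 0 (by right; ring)
  clear g4
  rcases lt_or_ge (4 * (h : ℤ) + 2) m with g6 | g6
  swap
  · exact Cov.el (y := 4 * (h : ℤ) + 2) (sub4 List.mem_cons_self) 0 (by omega)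
  clear g5
  rcases lt_or_ge (5 * (h : ℤ) + 2) m with g7 | g7
  swap
  · exact Cov.el (y := m) (sub1 (mE (m - (4 * (h : ℤ) + 3)) (by omega) (by omega) (by ring))) 0 (by ring)
  clear g6
  rcases lt_or_ge (5 * (h : ℤ) + 3) m with g8 | g8
  swap
  · exact Cov.su' (jun0 hh) 1 (by omega)
  clear g7
  rcases lt_or_ge (6 * (h : ℤ) + 2) m with g9 | g9
  swap
  · exact Cov.el' (y := -m) (sub0 (mO (-m - (-6 * (h : ℤ) - 2)) (by omega) (by omega) (by ring))) 0 (by ring)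
  clear g8
  rcases lt_or_ge (6 * (h : ℤ) + 3) m with g10 | g10
  swap
  · exact Cov.su' (jun4 hh) 1 (by omega)
  clear g9
  rcases lt_or_ge (7 * (h : ℤ) + 3) m with g11 | g11
  swap
  · exact Cov.el (y := m) (sub0 (mE (m - (6 * (h : ℤ) + 4)) (by omega) (by omega) (by ring))) 0 (by ring)
  clear g10
  rcases lt_or_ge (7 * (h : ℤ) + 4) m with g12 | g12
  swap
  · exact Cov.su' (jun1 hh) 0 (by omega)
  clear g11
  exact Cov.el' (y := -m) (sub1 (mO (-m - (-8 * (h : ℤ) - 4)) (by omega) (by omega) (by ring))) 0 (by ring)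

theorem good {h : ℕ} (hh : 1 ≤ h) : Good (4 * h + 2) := by
  have ht : (4 * ((4 * h + 2 : ℕ) : ℤ) + 1) = 16 * (h : ℤ) + 9 := by push_cast; ring
  refine good_of_list (4 * h + 2) (by omega) (T0 h) (6 * (h : ℤ) + 4) (len0 hh) (head0 hh) last0 ?_ (512) (-64 * (h : ℤ) + 228) (-1) 2 (by norm_num) ?_
  · intro m h0 h1
    rw [ht]
    exact cov hh m h0 (by push_cast at h1; omega)
  · have e := sum0 hh
    rw [ht]
    linear_combination 256 * e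

end FamC

end Pool.Agent.Q132.CovSum
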