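import Pool.Agent.Q132.Walks

/-! Cyclic sequences in `ℤ / (4 k + 1)` whose entries and consecutive sums cover, up to sign, all
nonzero residues: lists of integers, zigzag runs and the covering criterion. -/

namespace Pool.Agent.Q132.CovSum

open Pool.Agent.Q132.Walks

/-- The list `f 0, f 1, ..., f (n - 1)` followed by `rest`. -/
def run (f : ℕ → ℤ) : ℕ → List ℤ → List ℤ
  | 0, rest => rest
  | n + 1, rest => f 0 :: run (fun i => f (i + 1)) n rest

theorem run_length (f : ℕ → ℤ) (n : ℕ) (rest : List ℤ) :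
    (run f n rest).length = n + rest.length := by
  induction n generalizing f with
  | zero => simp [run]
  | succ n ih => rw [run, List.length_cons, ih]; omega

theorem run_rest {f : ℕ → ℤ} {n : ℕ} {rest : List ℤ} {p : ℤ} (h : p ∈ rest) :
    p ∈ run f n rest := by
  induction n generalizing f with
  | zero => exact h
  | succ n ih => exact List.mem_cons_of_mem _ ih

theorem run_mem {f : ℕ → ℤ} {n : ℕ} {rest : List ℤ} (i : ℕ) (h : i < n) :
    f i ∈ run f n rest := by
  induction n generalizing f i with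
  | zero => omega
  | succ n ih =>
    rw [run]
    cases i with
    | zero => simp
    | succ i => exact List.mem_cons_of_mem _ (ih (f := fun i => f (i + 1)) i (by omega))

theorem CP_run_rest {f : ℕ → ℤ} {n : ℕ} {rest : List ℤ} {p q : ℤ}
    (h : CP rest p q) : CP (run f n rest) p q := by
  induction n generalizing f with
  | zero => exact h
  | succ n ih => exact CP.cons ih

theorem CP_run {f : ℕ → ℤ} {n : ℕ} {rest : List ℤ} (i : ℕ) (h : i + 1 < n) :
    CP (run f n rest) (f i) (f (i + 1)) := by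
  induction n generalizing f i with
  | zero => omega
  | succ n ih =>
    rw [run]
    cases i with
    | zero =>
      obtain ⟨m, rfl⟩ : ∃ m, n = m + 1 := ⟨n - 1, by omega⟩
      rw [run]
      exact Or.inl ⟨rfl, rfl⟩
    | succ i => exact CP.cons (ih (f := fun i => f (i + 1)) i (by omega))

theorem head_run {f : ℕ → ℤ} {n : ℕ} {rest : List ℤ} (hn : 0 < n) :
    (run f n rest).head? = some (f 0) := by
  obtain ⟨m, rfl⟩ : ∃ m, n = m + 1 := ⟨n - 1, by omega⟩
  rfl

theorem ends_cons {x : ℤ} {rest : List ℤ} {f : ℤ}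
    (h : rest.getLast? = some f) : (x :: rest).getLast? = some f := by
  rw [List.getLast?_cons, h]
  rfl

theorem ends_run {f : ℕ → ℤ} {n : ℕ} {rest : List ℤ} {x : ℤ}
    (h : rest.getLast? = some x) : (run f n rest).getLast? = some x := by
  induction n generalizing f with
  | zero => exact h
  | succ n ih => exact ends_cons ih

theorem CP_run_last {f : ℕ → ℤ} {n : ℕ} {rest : List ℤ} (m : ℕ) (hn : n = m + 1)
    {x : ℤ} (hx : rest.head? = some x) : CP (run f n rest) (f m) x := by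
  subst hn
  induction m generalizing f with
  | zero =>
    cases rest with
    | nil => simp at hx
    | cons y l =>
      simp only [List.head?_cons, Option.some.injEq] at hx
      subst hx
      exact Or.inl ⟨rfl, rfl⟩
  | succ m ih => exact CP.cons (ih (f := fun i => f (i + 1)))

theorem lastCons {y x : ℤ} {rest : List ℤ} (hx : rest.head? = some x) : CP (y :: rest) y x := by
  cases rest with
  | nil => simp at hx
  | cons z l =>
    simp only [List.head?_cons, Option.some.injEq] at hx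
    subst hx
    exact Or.inl ⟨rfl, rfl⟩

/-- two interleaved arithmetic progressions with the same step -/
def p2 (u v ε : ℤ) (i : ℕ) : ℤ :=
  if i % 2 = 0 then u + ε * ((i / 2 : ℕ) : ℤ) else v + ε * ((i / 2 : ℕ) : ℤ)

theorem p2_0 (u v ε : ℤ) (q : ℕ) : p2 u v ε (2 * q) = u + ε * q := by
  have h2 : 2 * q / 2 = q := by omega
  simp [p2]

theorem p2_1 (u v ε : ℤ) (q : ℕ) : p2 u v ε (2 * q + 1) = v + ε * q := by
  have h1 : (2 * q + 1) % 2 = 1 := by omega
  have h2 : (2 * q + 1) / 2 = q := by omega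
  simp [p2, h1, h2]

theorem p2_sum (u v ε : ℤ) (i : ℕ) : p2 u v ε i + p2 u v ε (i + 1) = u + v + ε * i := by
  rcases Nat.even_or_odd' i with ⟨q, rfl | rfl⟩
  · rw [p2_0, p2_1]; push_cast; ring
  · rw [p2_1, show 2 * q + 1 + 1 = 2 * (q + 1) by ring, p2_0]; push_cast; ring

theorem sum_run (f : ℕ → ℤ) (n : ℕ) (rest : List ℤ) :
    (run f n rest).sum = (∑ i ∈ Finset.range n, f i) + rest.sum := by
  induction n generalizing f with
  | zero => simp [run]
  | succ n ih =>
    rw [run, List.sum_cons, ih, Finset.sum_range_succ']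
    ring

theorem sum_p2_even (u v ε : ℤ) (m : ℕ) :
    2 * ∑ i ∈ Finset.range (2 * m), p2 u v ε i = 2 * m * (u + v) + 2 * ε * (m * (m - 1)) := by
  induction m with
  | zero => simp
  | succ m ih =>
    rw [show 2 * (m + 1) = 2 * m + 1 + 1 by ring, Finset.sum_range_succ, Finset.sum_range_succ,
      mul_add, mul_add, ih, p2_0, p2_1]
    push_cast
    ring

theorem sum_p2_odd (u v ε : ℤ) (m : ℕ) :
    2 * ∑ i ∈ Finset.range (2 * m + 1), p2 u v ε i =
      2 * m * (u + v) + 2 * ε * (m * (m - 1)) + 2 * (u + ε * m) := by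
  rw [Finset.sum_range_succ, mul_add, sum_p2_even, p2_0]

/-- `m` is up to sign and modulo `t` an entry or a sum of two consecutive entries. -/
def Cov (t : ℤ) (L : List ℤ) (m : ℤ) : Prop :=
  (∃ y ∈ L, ∃ j : ℤ, y = m + j * t ∨ y = -m + j * t) ∨
    ∃ p q, CP L p q ∧ ∃ j : ℤ, p + q = m + j * t ∨ p + q = -m + j * t

theorem Cov.el {t : ℤ} {L : List ℤ} {m y : ℤ} (h : y ∈ L) (j : ℤ) (hj : y = m + j * t) :
    Cov t L m := Or.inl ⟨y, h, j, Or.inl hj⟩

theorem Cov.el' {t : ℤ} {L : List ℤ} {m y : ℤ} (h : y ∈ L) (j : ℤ) (hj : y = -m + j * t) :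
    Cov t L m := Or.inl ⟨y, h, j, Or.inr hj⟩

theorem Cov.su {t : ℤ} {L : List ℤ} {m p q : ℤ} (h : CP L p q) (j : ℤ)
    (hj : p + q = m + j * t) : Cov t L m := Or.inr ⟨p, q, h, j, Or.inl hj⟩

theorem Cov.su' {t : ℤ} {L : List ℤ} {m p q : ℤ} (h : CP L p q) (j : ℤ)
    (hj : p + q = -m + j * t) : Cov t L m := Or.inr ⟨p, q, h, j, Or.inr hj⟩

section
variable {u v ε : ℤ} {n : ℕ} {rest : List ℤ}

theorem mE {x : ℤ} (q : ℤ) (h0 : 0 ≤ q) (h : 2 * q < n) (hx : x = u + ε * q) :
    x ∈ run (p2 u v ε) n rest := by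
  obtain ⟨m, rfl⟩ := Int.eq_ofNat_of_zero_le h0
  have := run_mem (f := p2 u v ε) (rest := rest) (2 * m) (n := n) (by omega)
  rw [p2_0] at this
  rw [hx]
  exact this

theorem mO {x : ℤ} (q : ℤ) (h0 : 0 ≤ q) (h : 2 * q + 1 < n) (hx : x = v + ε * q) :
    x ∈ run (p2 u v ε) n rest := by
  obtain ⟨m, rfl⟩ := Int.eq_ofNat_of_zero_le h0
  have := run_mem (f := p2 u v ε) (rest := rest) (2 * m + 1) (n := n) (by omega)
  rw [p2_1] at this
  rw [hx]
  exact this

/-- the sums inside a run -/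
theorem Cov.run {t : ℤ} {L : List ℤ} {m : ℤ}
    (hL : ∀ p q, CP (run (p2 u v ε) n rest) p q → CP L p q) (i : ℤ) (h0 : 0 ≤ i)
    (h : i + 1 < n) (j : ℤ) (hj : u + v + ε * i = m + j * t ∨ u + v + ε * i = -m + j * t) :
    Cov t L m := by
  obtain ⟨a, rfl⟩ := Int.eq_ofNat_of_zero_le h0
  have := CP_run (f := p2 u v ε) (rest := rest) a (n := n) (by omega)
  refine Or.inr ⟨_, _, hL _ _ this, j, ?_⟩
  rw [p2_sum]
  exact hj

theorem lE (q : ℕ) (hn : n = 2 * q + 1) {x : ℤ} (hx : rest.head? = some x) {l : ℤ}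
    (hl : l = u + ε * q) : CP (run (p2 u v ε) n rest) l x := by
  have := CP_run_last (f := p2 u v ε) (rest := rest) (2 * q) hn hx
  rw [p2_0] at this
  rw [hl]
  exact this

theorem lO (q : ℕ) (hn : n = 2 * q + 2) {x : ℤ} (hx : rest.head? = some x) {l : ℤ}
    (hl : l = v + ε * q) : CP (run (p2 u v ε) n rest) l x := by
  have := CP_run_last (f := p2 u v ε) (rest := rest) (2 * q + 1) hn hx
  rw [p2_1] at this
  rw [hl]
  exact this

theorem hE (hn : 0 < n) : (run (p2 u v ε) n rest).head? = some u := by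
  rw [head_run hn]; simp [p2]

theorem sumE (q : ℕ) (hn : n = 2 * q) :
    2 * (run (p2 u v ε) n rest).sum =
      2 * q * (u + v) + 2 * ε * (q * (q - 1)) + 2 * rest.sum := by
  rw [sum_run, mul_add, hn, sum_p2_even]

theorem sumO (q : ℕ) (hn : n = 2 * q + 1) :
    2 * (run (p2 u v ε) n rest).sum =
      2 * q * (u + v) + 2 * ε * (q * (q - 1)) + 2 * (u + ε * q) + 2 * rest.sum := by
  rw [sum_run, mul_add, hn, sum_p2_odd]

end

/-- The property asked for: a cyclic sequence `x 0, ..., x (k - 1)`, `x k = x 0`, in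
`ℤ / (4 k + 1)` such that the set of nonzero residues is the set of all `± x i` and
`± (x i + x (i + 1))`, `i < k`, and the sum `x 0 + ... + x (k - 1)` is coprime to `4 k + 1`. -/
def Good (k : ℕ) : Prop :=
  ∃ x : ℕ → ZMod (4 * k + 1), x k = x 0 ∧
    {z : ZMod (4 * k + 1) | z ≠ 0} =
      ⋃ i ∈ Set.Iio k, {x i, -x i, x i + x (i + 1), -(x i + x (i + 1))} ∧
    Nat.gcd (∑ i ∈ Finset.range k, x i).val (4 * k + 1) = 1

theorem sum_getD {R : Type*} [AddCommMonoid R] (L : List ℤ) (g : ℤ → R) :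
    ∑ i ∈ Finset.range L.length, g (L.getD i 0) = (L.map g).sum := by
  induction L with
  | nil => simp
  | cons a l ih =>
    rw [List.length_cons, Finset.sum_range_succ', List.map_cons, List.sum_cons, ← ih, add_comm]
    simp

/-- The covering criterion. -/
theorem good_of_list (k : ℕ) (hk : 0 < k) (L : List ℤ) (f : ℤ) (hlen : L.length = k + 1)
    (hhead : L.head? = some f) (hlast : L.getLast? = some f)
    (hcov : ∀ m : ℤ, 1 ≤ m → m ≤ 2 * k → Cov (4 * k + 1) L m) (c Q s : ℤ) (a : ℕ)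
    (hs : s = 1 ∨ s = -1) (hsum : c * (L.sum - f) = s * 2 ^ a + (4 * k + 1) * Q) : Good k := by
  classical
  have h0 : L.getD 0 0 = f := by
    rw [List.head?_eq_getElem?, List.getElem?_eq_getElem (by omega)] at hhead
    rw [List.getD_eq_getElem _ _ (by omega)]
    exact Option.some_injective _ hhead
  have hk1 : L.getD k 0 = f := by
    rw [List.getLast?_eq_getElem?, hlen, List.getElem?_eq_getElem (by omega)] at hlast
    rw [List.getD_eq_getElem _ _ (by omega)]
    exact Option.some_injective _ hlast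
  have ht : (((4 * k + 1 : ℕ) : ℤ) : ZMod (4 * k + 1)) = 0 := by
    rw [Int.cast_natCast]; exact ZMod.natCast_self _
  have htz : ∀ (y m j : ℤ), y = m + j * (4 * k + 1) → (y : ZMod (4 * k + 1)) = m := by
    intro y m j h
    rw [h]
    push_cast at ht ⊢
    rw [ht, mul_zero, add_zero]
  let x : ℕ → ZMod (4 * k + 1) := fun i => (L.getD i 0 : ℤ)
  let φ : Fin k × Fin 4 → ZMod (4 * k + 1) := fun p =>
    if p.2 = 0 then x p.1 else if p.2 = 1 then -x p.1 else
    if p.2 = 2 then x p.1 + x (p.1 + 1) else -(x p.1 + x (p.1 + 1))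
  have e0 : ∀ i : Fin k, φ (i, 0) = x i := fun i => rfl
  have e1 : ∀ i : Fin k, φ (i, 1) = -x i := fun i => rfl
  have e2 : ∀ i : Fin k, φ (i, 2) = x i + x (i + 1) := fun i => rfl
  have e3 : ∀ i : Fin k, φ (i, 3) = -(x i + x (i + 1)) := fun i => rfl
  -- coverage
  have hpos : ∀ m : ℤ, 1 ≤ m → m ≤ 2 * k → ∃ i : Fin k,
      ((m : ZMod (4 * k + 1)) = x i ∨ (m : ZMod (4 * k + 1)) = -x i) ∨
      ((m : ZMod (4 * k + 1)) = x i + x (i + 1) ∨
        (m : ZMod (4 * k + 1)) = -(x i + x (i + 1))) := by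
    intro m h1 h2
    rcases hcov m h1 h2 with ⟨y, hy, j, hj⟩ | ⟨p, q, hpq, j, hj⟩
    · obtain ⟨i, hi, hiy⟩ := List.mem_iff_getElem.mp hy
      have hix : ∃ i' : Fin k, L.getD i' 0 = y := by
        by_cases hik : i < k
        · exact ⟨⟨i, hik⟩, by rw [List.getD_eq_getElem _ _ hi]; exact hiy⟩
        · have : i = k := by omega
          subst this
          exact ⟨⟨0, hk⟩, by
            show L.getD 0 0 = y
            rw [h0, ← hk1, List.getD_eq_getElem _ _ hi]; exact hiy⟩
      obtain ⟨i', hi'⟩ := hix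
      refine ⟨i', Or.inl ?_⟩
      show _ = ((L.getD i' 0 : ℤ) : ZMod (4 * k + 1)) ∨ _ = -((L.getD i' 0 : ℤ) : ZMod (4 * k + 1))
      rw [hi']
      rcases hj with hj | hj
      · left; rw [htz y m j hj]
      · right; rw [htz y (-m) j hj]; push_cast; ring
    · obtain ⟨i, hi, h3, h4⟩ := hpq.index
      refine ⟨⟨i, by omega⟩, Or.inr ?_⟩
      show _ = ((L.getD i 0 : ℤ) : ZMod (4 * k + 1)) + ((L.getD (i + 1) 0 : ℤ) : ZMod (4 * k + 1)) ∨
        _ = -(((L.getD i 0 : ℤ) : ZMod (4 * k + 1)) + ((L.getD (i + 1) 0 : ℤ) : ZMod (4 * k + 1)))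
      rw [List.getD_eq_getElem _ _ (by omega), List.getD_eq_getElem _ _ hi, h3, h4, ← Int.cast_add]
      rcases hj with hj | hj
      · left; rw [htz _ m j hj]
      · right; rw [htz _ (-m) j hj]; push_cast; ring
  have hcovers : ∀ z ∈ {z : ZMod (4 * k + 1) | z ≠ 0}, ∃ p, φ p = z := by
    intro z hz
    have hv1 : 0 < z.val := Nat.pos_of_ne_zero (by
      intro h; exact hz ((ZMod.val_eq_zero z).mp h))
    have hv2 : z.val < 4 * k + 1 := ZMod.val_lt z
    have hzv : ((z.val : ℤ) : ZMod (4 * k + 1)) = z := by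
      rw [Int.cast_natCast]; exact ZMod.natCast_zmod_val z
    by_cases hle : z.val ≤ 2 * k
    · obtain ⟨i, hi⟩ := hpos z.val (by omega) (by omega)
      rw [hzv] at hi
      rcases hi with (h | h) | (h | h)
      · exact ⟨(i, 0), by rw [e0, h]⟩
      · exact ⟨(i, 1), by rw [e1, h]⟩
      · exact ⟨(i, 2), by rw [e2, h]⟩
      · exact ⟨(i, 3), by rw [e3, h]⟩
    · obtain ⟨i, hi⟩ := hpos (4 * k + 1 - z.val) (by omega) (by omega)
      have hz2 : ((4 * k + 1 - z.val : ℤ) : ZMod (4 * k + 1)) = -z := by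
        rw [← hzv]
        push_cast at ht ⊢
        rw [ht, zero_sub, ZMod.natCast_zmod_val]
      rw [hz2] at hi
      rcases hi with (h | h) | (h | h)
      · exact ⟨(i, 1), by rw [e1, ← h, neg_neg]⟩
      · exact ⟨(i, 0), by rw [e0]; exact (neg_injective h).symm⟩
      · exact ⟨(i, 3), by rw [e3, ← h, neg_neg]⟩
      · exact ⟨(i, 2), by rw [e2]; exact (neg_injective h).symm⟩
  have hcardS : ({z : ZMod (4 * k + 1) | z ≠ 0} : Set _).ncard = Fintype.card (Fin k × Fin 4) := by
    have h1 : ({z : ZMod (4 * k + 1) | z ≠ 0} : Set _) = ({0} : Set _)ᶜ := rfl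
    rw [h1, Set.ncard_compl, Set.ncard_singleton, Nat.card_zmod, Fintype.card_prod,
      Fintype.card_fin, Fintype.card_fin]
    omega
  have hboth := inj_of_hits φ {z : ZMod (4 * k + 1) | z ≠ 0} hcardS (Set.toFinite _) hcovers
  refine ⟨x, ?_, ?_, ?_⟩
  · show ((L.getD k 0 : ℤ) : ZMod (4 * k + 1)) = ((L.getD 0 0 : ℤ) : ZMod (4 * k + 1))
    rw [h0, hk1]
  · ext z
    rw [← hboth.2 z]
    simp only [Set.mem_iUnion, Set.mem_Iio, Set.mem_insert_iff, Set.mem_singleton_iff, exists_prop]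
    constructor
    · rintro ⟨⟨i, b⟩, h⟩
      refine ⟨i, i.2, ?_⟩
      fin_cases b
      · left; exact h.symm
      · right; left; exact h.symm
      · right; right; left; exact h.symm
      · right; right; right; exact h.symm
    · rintro ⟨i, hi, h | h | h | h⟩
      · exact ⟨(⟨i, hi⟩, 0), by rw [e0, h]⟩
      · exact ⟨(⟨i, hi⟩, 1), by rw [e1, h]⟩
      · exact ⟨(⟨i, hi⟩, 2), by rw [e2, h]⟩
      · exact ⟨(⟨i, hi⟩, 3), by rw [e3, h]⟩
  · have h1 : ∑ i ∈ Finset.range k, x i = ((L.sum - f : ℤ) : ZMod (4 * k + 1)) := by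
      have h2 := sum_getD L (fun y : ℤ => (y : ZMod (4 * k + 1)))
      rw [hlen, Finset.sum_range_succ] at h2
      have h3 : (L.map (fun y : ℤ => (y : ZMod (4 * k + 1)))).sum = ((L.sum : ℤ) : ZMod _) := by
        clear * -
        induction L with
        | nil => simp
        | cons y l ih => rw [List.map_cons, List.sum_cons, List.sum_cons, ih, Int.cast_add]
      rw [h3, hk1] at h2
      rw [Int.cast_sub, ← h2, add_sub_cancel_right]
    have h2unit : IsUnit (2 : ZMod (4 * k + 1)) := by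
      refine IsUnit.of_mul_eq_one (2 * k + 1) ?_
      push_cast at ht
      linear_combination ht
    have h4 : (c : ZMod (4 * k + 1)) * ∑ i ∈ Finset.range k, x i = s * 2 ^ a := by
      rw [h1, ← Int.cast_mul, hsum]
      push_cast at ht ⊢
      rw [ht, zero_mul, add_zero]
    have hsu : IsUnit ((s : ℤ) : ZMod (4 * k + 1)) := by
      rcases hs with rfl | rfl
      · simp
      · simp
    have h5 : IsUnit (∑ i ∈ Finset.range k, x i) := by
      apply isUnit_of_mul_isUnit_right (x := (c : ZMod (4 * k + 1)))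
      rw [h4]
      exact hsu.mul (h2unit.pow a)
    have h6 := (ZMod.isUnit_iff_coprime (∑ i ∈ Finset.range k, x i).val (4 * k + 1)).mp (by
      rw [ZMod.natCast_zmod_val]; exact h5)
    exact h6

end Pool.Agent.Q132.CovSum
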