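import Pool.Agent.Q132.SEM

/-! A criterion for super edge-magic labelings in terms of covering (surjectivity) only. -/

namespace Pool.Agent.Q132

/-- A map from a finite type with `N` elements that hits all the `N` numbers `s, ..., s + N - 1`
is injective and takes no other value. -/
theorem inj_of_cover {α : Type} [Fintype α] (f : α → ℕ) (s : ℕ)
    (h : ∀ t, s ≤ t → t < s + Fintype.card α → ∃ a, f a = t) :
    Function.Injective f ∧ ∀ a, s ≤ f a ∧ f a < s + Fintype.card α := by
  classical
  have hsub : Finset.Ico s (s + Fintype.card α) ⊆ Finset.univ.image f := by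
    intro t ht
    rw [Finset.mem_Ico] at ht
    obtain ⟨a, ha⟩ := h t ht.1 ht.2
    exact Finset.mem_image.mpr ⟨a, Finset.mem_univ _, ha⟩
  have hle : (Finset.univ.image f).card ≤ (Finset.Ico s (s + Fintype.card α)).card := by
    rw [Nat.card_Ico]
    calc (Finset.univ.image f).card ≤ (Finset.univ : Finset α).card := Finset.card_image_le
      _ = Fintype.card α := Finset.card_univ
      _ ≤ s + Fintype.card α - s := by omega
  have heq : Finset.Ico s (s + Fintype.card α) = Finset.univ.image f :=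
    Finset.eq_of_subset_of_card_le hsub hle
  have hcard : (Finset.univ.image f).card = (Finset.univ : Finset α).card := by
    rw [← heq, Nat.card_Ico, Finset.card_univ]
    omega
  refine ⟨?_, fun a => ?_⟩
  · have h1 := Finset.card_image_iff.mp hcard
    intro x y hxy
    exact h1 (by simp) (by simp) hxy
  · have h1 : f a ∈ Finset.univ.image f := Finset.mem_image_of_mem _ (Finset.mem_univ _)
    rw [← heq, Finset.mem_Ico] at h1
    exact h1

/-- A vertex labeling that hits all of `1, ..., p` and whose edge sums hit all the numbers of an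
interval of length `q` extends to a super edge-magic labeling. -/
theorem superEdgeMagic_of_cover {V : Type} [Fintype V] (G : SimpleGraph V) {I : Type} [Fintype I]
    (a b : I → V) (hadj : ∀ i, G.Adj (a i) (b i))
    (hall : ∀ u v, G.Adj u v → ∃ i, (a i = u ∧ b i = v) ∨ (a i = v ∧ b i = u))
    (g : V → ℕ) (hg : ∀ l, 1 ≤ l → l ≤ Fintype.card V → ∃ v, g v = l)
    (s : ℕ) (hs : ∀ t, s ≤ t → t < s + Fintype.card I → ∃ i, g (a i) + g (b i) = t) :
    SuperEdgeMagic G := by
  have h1 := inj_of_cover g 1 (fun t h1 h2 => hg t h1 (by omega))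
  have h2 := inj_of_cover (fun i => g (a i) + g (b i)) s hs
  exact superEdgeMagic_of G a b hadj hall g h1.1
    (fun v => ⟨(h1.2 v).1, by have := (h1.2 v).2; omega⟩) s h2.1 h2.2

/-- The list of the pairs `(x + i, y + i)`, `i < L`, for the entries `(x, y, L)` of a list. -/
def pairs (runs : List (ℕ × ℕ × ℕ)) : List (ℕ × ℕ) :=
  runs.flatMap fun r => (List.range r.2.2).map fun i => (r.1 + i, r.2.1 + i)

theorem length_pairs (runs : List (ℕ × ℕ × ℕ)) :
    (pairs runs).length = (runs.map fun r => r.2.2).sum := by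
  induction runs with
  | nil => rfl
  | cons r t ih =>
    rw [pairs, List.flatMap_cons, List.length_append, List.length_map, List.length_range,
      List.map_cons, List.sum_cons, ← ih, pairs]

theorem mem_pairs {runs : List (ℕ × ℕ × ℕ)} {x y L i : ℕ} (h : (x, y, L) ∈ runs) (hi : i < L) :
    (x + i, y + i) ∈ pairs runs :=
  List.mem_flatMap.mpr ⟨(x, y, L), h, List.mem_map.mpr ⟨i, List.mem_range.mpr hi, rfl⟩⟩

theorem cov_x {runs : List (ℕ × ℕ × ℕ)} {x y L l : ℕ} (h : (x, y, L) ∈ runs) (h1 : x ≤ l)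
    (h2 : l < x + L) : ∃ p ∈ pairs runs, p.1 = l :=
  ⟨_, mem_pairs h (show l - x < L by omega), show x + (l - x) = l by omega⟩

theorem cov_y {runs : List (ℕ × ℕ × ℕ)} {x y L l : ℕ} (h : (x, y, L) ∈ runs) (h1 : y ≤ l)
    (h2 : l < y + L) : ∃ p ∈ pairs runs, p.2 = l :=
  ⟨_, mem_pairs h (show l - y < L by omega), show y + (l - y) = l by omega⟩

theorem cov_ax {runs : List (ℕ × ℕ × ℕ)} {x y L t : ℕ} (a : ℕ) (h : (x, y, L) ∈ runs)
    (h1 : a + x ≤ t) (h2 : t < a + x + L) : ∃ p ∈ pairs runs, a + p.1 = t :=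
  ⟨_, mem_pairs h (show t - (a + x) < L by omega), show a + (x + (t - (a + x))) = t by omega⟩

theorem cov_by {runs : List (ℕ × ℕ × ℕ)} {x y L t : ℕ} (b : ℕ) (h : (x, y, L) ∈ runs)
    (h1 : b + y ≤ t) (h2 : t < b + y + L) : ∃ p ∈ pairs runs, b + p.2 = t :=
  ⟨_, mem_pairs h (show t - (b + y) < L by omega), show b + (y + (t - (b + y))) = t by omega⟩

theorem cov_xy {runs : List (ℕ × ℕ × ℕ)} {x y L t : ℕ} (h : (x, y, L) ∈ runs)
    (h1 : x + y ≤ t) (h2 : t < x + y + 2 * L) (h3 : (t - (x + y)) % 2 = 0) :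
    ∃ p ∈ pairs runs, p.1 + p.2 = t :=
  ⟨_, mem_pairs h (show (t - (x + y)) / 2 < L by omega),
    show x + (t - (x + y)) / 2 + (y + (t - (x + y)) / 2) = t by omega⟩

end Pool.Agent.Q132
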