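import Pool.Agent.Q132.Cover

/-! Edge-magic total labelings of graphs, and of disjoint unions of two cycles: a criterion in
terms of covering only. -/

namespace Pool.Agent.Q132

open SimpleGraph

/-- `G` is edge-magic (total). -/
def EdgeMagic {V : Type} [Fintype V] (G : SimpleGraph V) : Prop :=
  ∃ f : V ⊕ G.edgeSet → ℕ, IsEdgeMagicLabeling G f

/-- If the labels `g v` of the vertices and the numbers `k - (g u + g v)` for the edges `uv`
(enumerated by `I`) hit all of `1, ..., |V| + |I|`, then the graph is edge-magic. -/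
theorem edgeMagic_of_cover {V : Type} [Fintype V] (G : SimpleGraph V) {I : Type} [Fintype I]
    (a b : I → V) (hadj : ∀ i, G.Adj (a i) (b i))
    (hall : ∀ u v, G.Adj u v → ∃ i, (a i = u ∧ b i = v) ∨ (a i = v ∧ b i = u))
    (g : V → ℕ) (k : ℕ)
    (hcov : ∀ l, 1 ≤ l → l ≤ Fintype.card V + Fintype.card I →
      (∃ v, g v = l) ∨ ∃ i, g (a i) + g (b i) + l = k) :
    EdgeMagic G := by
  classical
  let h : V ⊕ I → ℕ := Sum.elim g (fun i => k - (g (a i) + g (b i)))
  have hinl : ∀ v, h (Sum.inl v) = g v := fun v => rfl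
  have hinr : ∀ i, h (Sum.inr i) = k - (g (a i) + g (b i)) := fun i => rfl
  have hcard : Fintype.card (V ⊕ I) = Fintype.card V + Fintype.card I := Fintype.card_sum
  have hc := inj_of_cover h 1 (by
    intro l h1 h2
    rw [hcard] at h2
    rcases hcov l h1 (by omega) with ⟨v, hv⟩ | ⟨i, hi⟩
    · exact ⟨Sum.inl v, hv⟩
    · exact ⟨Sum.inr i, by rw [hinr]; omega⟩)
  obtain ⟨hinj, hr⟩ := hc
  rw [hcard] at hr
  have hpos : ∀ i, g (a i) + g (b i) < k := by
    intro i
    have := (hr (Sum.inr i)).1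
    rw [hinr] at this
    omega
  -- the edges correspond to the index type
  let e : I → G.edgeSet := fun i => ⟨s(a i, b i), hadj i⟩
  have he_inj : Function.Injective e := by
    intro i j hij
    have h1 : (s(a i, b i) : Sym2 V) = s(a j, b j) := congrArg Subtype.val hij
    have h2 : g (a i) + g (b i) = g (a j) + g (b j) := congrArg (edgeSum g) h1
    have h3 : h (Sum.inr i) = h (Sum.inr j) := by rw [hinr, hinr, h2]
    exact Sum.inr_injective (hinj h3)
  have he_surj : Function.Surjective e := by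
    rintro ⟨x, hx⟩
    induction x using Sym2.ind with
    | _ u v =>
      obtain ⟨i, h | h⟩ := hall u v hx
      · exact ⟨i, Subtype.ext (by show (s(a i, b i) : Sym2 V) = s(u, v); rw [h.1, h.2])⟩
      · exact ⟨i, Subtype.ext (by
          show (s(a i, b i) : Sym2 V) = s(u, v); rw [h.1, h.2, Sym2.eq_swap])⟩
  have hfin : Finite G.edgeSet := Finite.of_surjective e he_surj
  have hcardE : G.edgeSet.ncard = Fintype.card I := by
    rw [← Nat.card_coe_set_eq, ← Nat.card_eq_fintype_card]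
    exact (Nat.card_congr (Equiv.ofBijective e ⟨he_inj, he_surj⟩)).symm
  let f : V ⊕ G.edgeSet → ℕ := Sum.elim g (fun x => k - edgeSum g x.1)
  have hfl : ∀ v, f (Sum.inl v) = g v := fun v => rfl
  have hfr : ∀ i, f (Sum.inr (e i)) = h (Sum.inr i) := fun i => rfl
  have hfinj : Function.Injective f := by
    rintro (u | x) (v | y) hxy
    · have : h (Sum.inl u) = h (Sum.inl v) := hxy
      rw [Sum.inl_injective (hinj this)]
    · exfalso
      obtain ⟨i, rfl⟩ := he_surj y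
      have : h (Sum.inl u) = h (Sum.inr i) := hxy
      exact absurd (hinj this) (by simp)
    · exfalso
      obtain ⟨i, rfl⟩ := he_surj x
      have : h (Sum.inr i) = h (Sum.inl v) := hxy
      exact absurd (hinj this) (by simp)
    · obtain ⟨i, rfl⟩ := he_surj x
      obtain ⟨j, rfl⟩ := he_surj y
      have : h (Sum.inr i) = h (Sum.inr j) := hxy
      rw [Sum.inr_injective (hinj this)]
  refine ⟨f, ⟨?_, hfinj.injOn, ?_⟩, k, ?_⟩
  · rintro (u | x) _
    · have := hr (Sum.inl u)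
      rw [hinl] at this
      rw [hfl, hcardE, Set.mem_Icc]
      omega
    · obtain ⟨i, rfl⟩ := he_surj x
      have := hr (Sum.inr i)
      rw [hfr, hcardE, Set.mem_Icc]
      omega
  · rintro l ⟨h1, h2⟩
    rw [hcardE] at h2
    rcases hcov l h1 h2 with ⟨v, hv⟩ | ⟨i, hi⟩
    · exact ⟨Sum.inl v, Set.mem_univ _, hv⟩
    · refine ⟨Sum.inr (e i), Set.mem_univ _, ?_⟩
      rw [hfr, hinr]
      omega
  · intro u v huv
    obtain ⟨i, hi⟩ := hall u v huv
    have h1 : (⟨s(u, v), huv⟩ : G.edgeSet) = e i := by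
      apply Subtype.ext
      show (s(u, v) : Sym2 V) = s(a i, b i)
      rcases hi with hi | hi
      · rw [hi.1, hi.2]
      · rw [hi.1, hi.2, Sym2.eq_swap]
    have h2 := hpos i
    rw [h1, hfr, hinr, hfl, hfl]
    rcases hi with hi | hi
    · rw [← hi.1, ← hi.2]
      omega
    · rw [← hi.1, ← hi.2]
      omega

/-- Index of the next vertex on a cycle. -/
theorem val_succ {m : ℕ} (i : Fin (m + 3)) :
    (i.val + 1 < m + 3 ∧ (i + 1).val = i.val + 1) ∨ (i.val + 1 = m + 3 ∧ (i + 1).val = 0) := by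
  have h1 : (i + 1).val = (i.val + 1) % (m + 3) := by
    rw [Fin.val_add]
    rfl
  have h2 := i.isLt
  by_cases h : i.val + 1 < m + 3
  · exact Or.inl ⟨h, by rw [h1, Nat.mod_eq_of_lt h]⟩
  · have h3 : i.val + 1 = m + 3 := by omega
    exact Or.inr ⟨h3, by rw [h1, h3, Nat.mod_self]⟩

theorem adj_succ {m : ℕ} (i : Fin (m + 3)) : (cycleGraph (m + 3)).Adj i (i + 1) :=
  (cycleGraph_adj (n := m + 1)).mpr (Or.inr (add_sub_cancel_left i 1))

theorem adj_cases {m : ℕ} (u v : Fin (m + 3)) (h : (cycleGraph (m + 3)).Adj u v) :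
    v = u + 1 ∨ u = v + 1 := by
  rcases (cycleGraph_adj (n := m + 1)).mp h with h | h
  · exact Or.inr (by rw [← h, add_sub_cancel])
  · exact Or.inl (by rw [← h, add_sub_cancel])

/-- Covering criterion for the disjoint union of two cycles. -/
theorem edgeMagic_two_cycles (m n : ℕ) (hm : 3 ≤ m) (hn : 3 ≤ n) (fA fB : ℕ → ℕ) (k : ℕ)
    (hcov : ∀ l, 1 ≤ l → l ≤ 2 * (m + n) →
      (∃ i, i < m ∧ fA i = l) ∨ (∃ i, i < n ∧ fB i = l) ∨
      (∃ i, i + 1 < m ∧ fA i + fA (i + 1) + l = k) ∨ (fA (m - 1) + fA 0 + l = k) ∨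
      (∃ i, i + 1 < n ∧ fB i + fB (i + 1) + l = k) ∨ (fB (n - 1) + fB 0 + l = k)) :
    EdgeMagic (cycleGraph m ⊕g cycleGraph n) := by
  obtain ⟨m, rfl⟩ : ∃ m', m = m' + 3 := ⟨m - 3, by omega⟩
  obtain ⟨n, rfl⟩ : ∃ n', n = n' + 3 := ⟨n - 3, by omega⟩
  let g : Fin (m + 3) ⊕ Fin (n + 3) → ℕ := Sum.elim (fun i => fA i.val) (fun i => fB i.val)
  refine edgeMagic_of_cover (cycleGraph (m + 3) ⊕g cycleGraph (n + 3))
    (I := Fin (m + 3) ⊕ Fin (n + 3)) id (Sum.map (· + 1) (· + 1)) ?_ ?_ g k ?_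
  · rintro (i | i)
    · exact adj_succ i
    · exact adj_succ i
  · rintro (u | u) (v | v) h
    · rcases adj_cases u v h with h | h
      · exact ⟨Sum.inl u, Or.inl ⟨rfl, by rw [h]; rfl⟩⟩
      · exact ⟨Sum.inl v, Or.inr ⟨rfl, by rw [h]; rfl⟩⟩
    · exact absurd h (by simp)
    · exact absurd h (by simp)
    · rcases adj_cases u v h with h | h
      · exact ⟨Sum.inr u, Or.inl ⟨rfl, by rw [h]; rfl⟩⟩
      · exact ⟨Sum.inr v, Or.inr ⟨rfl, by rw [h]; rfl⟩⟩
  · intro l h1 h2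
    rw [Fintype.card_sum, Fintype.card_fin, Fintype.card_fin] at h2
    rcases hcov l h1 (by omega) with ⟨i, hi, h⟩ | ⟨i, hi, h⟩ | ⟨i, hi, h⟩ | h | ⟨i, hi, h⟩ | h
    · exact Or.inl ⟨Sum.inl ⟨i, hi⟩, h⟩
    · exact Or.inl ⟨Sum.inr ⟨i, hi⟩, h⟩
    · refine Or.inr ⟨Sum.inl ⟨i, by omega⟩, ?_⟩
      rcases val_succ (⟨i, by omega⟩ : Fin (m + 3)) with h3 | h3
      · show fA i + fA ((⟨i, _⟩ : Fin (m + 3)) + 1).val + l = k
        rw [h3.2]; exact h
      · exact absurd h3.1 (by simp; omega)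
    · refine Or.inr ⟨Sum.inl ⟨m + 2, by omega⟩, ?_⟩
      rcases val_succ (⟨m + 2, by omega⟩ : Fin (m + 3)) with h3 | h3
      · exact absurd h3.1 (by simp)
      · show fA (m + 2) + fA ((⟨m + 2, _⟩ : Fin (m + 3)) + 1).val + l = k
        rw [h3.2]; exact h
    · refine Or.inr ⟨Sum.inr ⟨i, by omega⟩, ?_⟩
      rcases val_succ (⟨i, by omega⟩ : Fin (n + 3)) with h3 | h3
      · show fB i + fB ((⟨i, _⟩ : Fin (n + 3)) + 1).val + l = k
        rw [h3.2]; exact h
      · exact absurd h3.1 (by simp; omega)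
    · refine Or.inr ⟨Sum.inr ⟨n + 2, by omega⟩, ?_⟩
      rcases val_succ (⟨n + 2, by omega⟩ : Fin (n + 3)) with h3 | h3
      · exact absurd h3.1 (by simp)
      · show fB (n + 2) + fB ((⟨n + 2, _⟩ : Fin (n + 3)) + 1).val + l = k
        rw [h3.2]; exact h

/-- The alternating sequence `a, b, a + 1, b + 1, a + 2, b + 2, ...`. -/
def zig (a b i : ℕ) : ℕ := if i % 2 = 0 then a + i / 2 else b + i / 2

theorem zig_even (a b j : ℕ) : zig a b (2 * j) = a + j := by
  unfold zig; rw [if_pos (by omega)]; omega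

theorem zig_odd (a b j : ℕ) : zig a b (2 * j + 1) = b + j := by
  unfold zig; rw [if_neg (by omega)]; omega

theorem zig_sum (a b i : ℕ) : zig a b i + zig a b (i + 1) = a + b + i := by
  unfold zig; split_ifs <;> omega

end Pool.Agent.Q132
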