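import Pool.Agent.Q132.Runs

/-! General runs and the covering criterion for harmonious orderings of twisted groups. -/

namespace Pool.Agent.Q132.Walks

/-- The list `f 0, f 1, ..., f (n - 1)` followed by `rest`. -/
def run (f : ℕ → Bool × ℤ) : ℕ → List (Bool × ℤ) → List (Bool × ℤ)
  | 0, rest => rest
  | n + 1, rest => f 0 :: run (fun i => f (i + 1)) n rest

theorem run_length (f : ℕ → Bool × ℤ) (n : ℕ) (rest : List (Bool × ℤ)) :
    (run f n rest).length = n + rest.length := by
  induction n generalizing f with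
  | zero => simp [run]
  | succ n ih => rw [run, List.length_cons, ih]; omega

theorem run_rest {f : ℕ → Bool × ℤ} {n : ℕ} {rest : List (Bool × ℤ)} {p : Bool × ℤ}
    (h : p ∈ rest) : p ∈ run f n rest := by
  induction n generalizing f with
  | zero => exact h
  | succ n ih => exact List.mem_cons_of_mem _ ih

theorem run_mem {f : ℕ → Bool × ℤ} {n : ℕ} {rest : List (Bool × ℤ)} (i : ℕ) (h : i < n) :
    f i ∈ run f n rest := by
  induction n generalizing f i with
  | zero => omega
  | succ n ih =>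
    rw [run]
    cases i with
    | zero => simp
    | succ i => exact List.mem_cons_of_mem _ (ih (f := fun i => f (i + 1)) i (by omega))

theorem CP_run_rest {f : ℕ → Bool × ℤ} {n : ℕ} {rest : List (Bool × ℤ)} {p q : Bool × ℤ}
    (h : CP rest p q) : CP (run f n rest) p q := by
  induction n generalizing f with
  | zero => exact h
  | succ n ih => exact CP.cons ih

theorem CP_run {f : ℕ → Bool × ℤ} {n : ℕ} {rest : List (Bool × ℤ)} (i : ℕ) (h : i + 1 < n) :
    CP (run f n rest) (f i) (f (i + 1)) := by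
  induction n generalizing f i with
  | zero => omega
  | succ n ih =>
    rw [run]
    cases i with
    | zero =>
      obtain ⟨m, rfl⟩ : ∃ m, n = m + 1 := ⟨n - 1, by omega⟩
      rw [run]
      exact Or.inl ⟨rfl, rfl⟩
    | succ i => exact CP.cons (ih (f := fun i => f (i + 1)) i (by omega))

theorem head_run {f : ℕ → Bool × ℤ} {n : ℕ} {rest : List (Bool × ℤ)} (hn : 0 < n) :
    (run f n rest).head? = some (f 0) := by
  obtain ⟨m, rfl⟩ : ∃ m, n = m + 1 := ⟨n - 1, by omega⟩
  rfl

theorem ends_run {f : ℕ → Bool × ℤ} {n : ℕ} {rest : List (Bool × ℤ)} {x : Bool × ℤ}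
    (h : rest.getLast? = some x) : (run f n rest).getLast? = some x := by
  induction n generalizing f with
  | zero => exact h
  | succ n ih => exact ends_cons ih

theorem CP_run_last {f : ℕ → Bool × ℤ} {n : ℕ} {rest : List (Bool × ℤ)} (m : ℕ) (hn : n = m + 1)
    {x : Bool × ℤ} (hx : rest.head? = some x) : CP (run f n rest) (f m) x := by
  subst hn
  induction m generalizing f with
  | zero =>
    cases rest with
    | nil => simp at hx
    | cons y l =>
      simp only [List.head?_cons, Option.some.injEq] at hx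
      subst hx
      exact Or.inl ⟨rfl, rfl⟩
  | succ m ih => exact CP.cons (ih (f := fun i => f (i + 1)))

/-- one arithmetic progression -/
def p1 (s : Bool) (u ε : ℤ) (i : ℕ) : Bool × ℤ := (s, u + ε * i)

/-- three interleaved arithmetic progressions -/
def p3 (s t r : Bool) (u v w ε δ γ : ℤ) (i : ℕ) : Bool × ℤ :=
  if i % 3 = 0 then (s, u + ε * ((i / 3 : ℕ) : ℤ)) else
  if i % 3 = 1 then (t, v + δ * ((i / 3 : ℕ) : ℤ)) else (r, w + γ * ((i / 3 : ℕ) : ℤ))

section
variable {s t r : Bool} {u v w ε δ γ : ℤ} {n : ℕ} {rest : List (Bool × ℤ)}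

theorem p3_0 (q : ℕ) : p3 s t r u v w ε δ γ (3 * q) = (s, u + ε * q) := by
  have h1 : 3 * q % 3 = 0 := by omega
  have h2 : 3 * q / 3 = q := by omega
  simp [p3, h2]

theorem p3_1 (q : ℕ) : p3 s t r u v w ε δ γ (3 * q + 1) = (t, v + δ * q) := by
  have h1 : (3 * q + 1) % 3 = 1 := by omega
  have h2 : (3 * q + 1) / 3 = q := by omega
  simp [p3, h1, h2]

theorem p3_2 (q : ℕ) : p3 s t r u v w ε δ γ (3 * q + 2) = (r, w + γ * q) := by
  have h1 : (3 * q + 2) % 3 = 2 := by omega
  have h2 : (3 * q + 2) / 3 = q := by omega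
  simp [p3, h1, h2]

/-- consecutive pairs in an arithmetic progression -/
theorem cpA (q : ℤ) (h0 : 0 ≤ q) (h : q + 1 < n) :
    CP (run (p1 s u ε) n rest) (s, u + ε * q) (s, u + ε * (q + 1)) := by
  obtain ⟨m, rfl⟩ := Int.eq_ofNat_of_zero_le h0
  have := CP_run (f := p1 s u ε) (rest := rest) m (n := n) (by omega)
  unfold p1 at this
  push_cast at this
  exact this

theorem cp30 (q : ℤ) (h0 : 0 ≤ q) (h : 3 * q + 1 < n) :
    CP (run (p3 s t r u v w ε δ γ) n rest) (s, u + ε * q) (t, v + δ * q) := by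
  obtain ⟨m, rfl⟩ := Int.eq_ofNat_of_zero_le h0
  have := CP_run (f := p3 s t r u v w ε δ γ) (rest := rest) (3 * m) (n := n) (by omega)
  rwa [p3_0, p3_1] at this

theorem cp31 (q : ℤ) (h0 : 0 ≤ q) (h : 3 * q + 2 < n) :
    CP (run (p3 s t r u v w ε δ γ) n rest) (t, v + δ * q) (r, w + γ * q) := by
  obtain ⟨m, rfl⟩ := Int.eq_ofNat_of_zero_le h0
  have := CP_run (f := p3 s t r u v w ε δ γ) (rest := rest) (3 * m + 1) (n := n) (by omega)
  rwa [p3_1, p3_2] at this

theorem cp32 (q : ℤ) (h0 : 0 ≤ q) (h : 3 * q + 3 < n) :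
    CP (run (p3 s t r u v w ε δ γ) n rest) (r, w + γ * q) (s, u + ε * (q + 1)) := by
  obtain ⟨m, rfl⟩ := Int.eq_ofNat_of_zero_le h0
  have := CP_run (f := p3 s t r u v w ε δ γ) (rest := rest) (3 * m + 2) (n := n) (by omega)
  rw [p3_2, show 3 * m + 2 + 1 = 3 * (m + 1) by ring, p3_0] at this
  push_cast at this
  exact this

theorem mA {x : ℤ} (q : ℤ) (h0 : 0 ≤ q) (h : q < n) (hx : x = u + ε * q) :
    (s, x) ∈ run (p1 s u ε) n rest := by
  obtain ⟨m, rfl⟩ := Int.eq_ofNat_of_zero_le h0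
  rw [hx]
  exact run_mem (f := p1 s u ε) (rest := rest) m (n := n) (by omega)

theorem m30 {x : ℤ} (q : ℤ) (h0 : 0 ≤ q) (h : 3 * q < n) (hx : x = u + ε * q) :
    (s, x) ∈ run (p3 s t r u v w ε δ γ) n rest := by
  obtain ⟨m, rfl⟩ := Int.eq_ofNat_of_zero_le h0
  have := run_mem (f := p3 s t r u v w ε δ γ) (rest := rest) (3 * m) (n := n) (by omega)
  rw [p3_0] at this
  rw [hx]
  exact this

theorem m31 {x : ℤ} (q : ℤ) (h0 : 0 ≤ q) (h : 3 * q + 1 < n) (hx : x = v + δ * q) :
    (t, x) ∈ run (p3 s t r u v w ε δ γ) n rest := by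
  obtain ⟨m, rfl⟩ := Int.eq_ofNat_of_zero_le h0
  have := run_mem (f := p3 s t r u v w ε δ γ) (rest := rest) (3 * m + 1) (n := n) (by omega)
  rw [p3_1] at this
  rw [hx]
  exact this

theorem m32 {x : ℤ} (q : ℤ) (h0 : 0 ≤ q) (h : 3 * q + 2 < n) (hx : x = w + γ * q) :
    (r, x) ∈ run (p3 s t r u v w ε δ γ) n rest := by
  obtain ⟨m, rfl⟩ := Int.eq_ofNat_of_zero_le h0
  have := run_mem (f := p3 s t r u v w ε δ γ) (rest := rest) (3 * m + 2) (n := n) (by omega)
  rw [p3_2] at this
  rw [hx]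
  exact this

theorem lA (q : ℕ) (hn : n = q + 1) {x : Bool × ℤ} (hx : rest.head? = some x) {l : ℤ}
    (hl : l = u + ε * q) : CP (run (p1 s u ε) n rest) (s, l) x := by
  have := CP_run_last (f := p1 s u ε) (rest := rest) q hn hx
  rw [hl]
  exact this

theorem l30 (q : ℕ) (hn : n = 3 * q + 1) {x : Bool × ℤ} (hx : rest.head? = some x) {l : ℤ}
    (hl : l = u + ε * q) : CP (run (p3 s t r u v w ε δ γ) n rest) (s, l) x := by
  have := CP_run_last (f := p3 s t r u v w ε δ γ) (rest := rest) (3 * q) (by omega) hx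
  rw [p3_0] at this
  rw [hl]
  exact this

theorem l31 (q : ℕ) (hn : n = 3 * q + 2) {x : Bool × ℤ} (hx : rest.head? = some x) {l : ℤ}
    (hl : l = v + δ * q) : CP (run (p3 s t r u v w ε δ γ) n rest) (t, l) x := by
  have := CP_run_last (f := p3 s t r u v w ε δ γ) (rest := rest) (3 * q + 1) (by omega) hx
  rw [p3_1] at this
  rw [hl]
  exact this

theorem l32 (q : ℕ) (hn : n = 3 * q + 3) {x : Bool × ℤ} (hx : rest.head? = some x) {l : ℤ}
    (hl : l = w + γ * q) : CP (run (p3 s t r u v w ε δ γ) n rest) (r, l) x := by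
  have := CP_run_last (f := p3 s t r u v w ε δ γ) (rest := rest) (3 * q + 2) (by omega) hx
  rw [p3_2] at this
  rw [hl]
  exact this

theorem hA (hn : 0 < n) : (run (p1 s u ε) n rest).head? = some (s, u) := by
  rw [head_run hn]; simp [p1]

theorem h3 (hn : 0 < n) : (run (p3 s t r u v w ε δ γ) n rest).head? = some (s, u) := by
  rw [head_run hn]; simp [p3]

end

/-- The product `(t, d)` occurs as the product of consecutive elements of the list (`b` acts on
`a` by the exponent `c`). -/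
def PC (c M : ℤ) (L : List (Bool × ℤ)) (t : Bool) (d : ℤ) : Prop :=
  ∃ p q : Bool × ℤ, CP L p q ∧
    ((p.1 = false ∧ q.1 = t ∧ ∃ j : ℤ, p.2 + q.2 = d + j * M) ∨
     (p.1 = true ∧ q.1 = !t ∧ ∃ j : ℤ, p.2 + c * q.2 = d + j * M))

theorem PC.ofF {c M : ℤ} {L : List (Bool × ℤ)} {t : Bool} {d x y : ℤ}
    (h : CP L (false, x) (t, y)) (j : ℤ) (hj : x + y = d + j * M) : PC c M L t d :=
  ⟨_, _, h, Or.inl ⟨rfl, rfl, j, hj⟩⟩

theorem PC.sdE {k : ℤ} {L : List (Bool × ℤ)} {t t' : Bool} {d x y : ℤ}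
    (h : CP L (true, x) (t', y)) (ht : t' = !t) (e j : ℤ) (he : y = 2 * e)
    (hj : x - y = d + j * (16 * k)) : PC (8 * k - 1) (16 * k) L t d :=
  ⟨_, _, h, Or.inr ⟨rfl, ht, e + j, by
    show x + (8 * k - 1) * y = d + (e + j) * (16 * k)
    rw [he] at hj ⊢; linear_combination hj⟩⟩

theorem PC.sdO {k : ℤ} {L : List (Bool × ℤ)} {t t' : Bool} {d x y : ℤ}
    (h : CP L (true, x) (t', y)) (ht : t' = !t) (e j : ℤ) (he : y = 2 * e + 1)
    (hj : x - y + 8 * k = d + j * (16 * k)) : PC (8 * k - 1) (16 * k) L t d :=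
  ⟨_, _, h, Or.inr ⟨rfl, ht, e + j, by
    show x + (8 * k - 1) * y = d + (e + j) * (16 * k)
    rw [he] at hj ⊢; linear_combination hj⟩⟩

theorem product_el {G : Type*} [Group G] (a b : G) (c : ℤ) (hb : b ^ 2 = 1)
    (hconj : ∀ j : ℤ, b * a ^ j = a ^ (c * j) * b) (p q : Bool × ℤ) :
    el a b p * el a b q =
      el a b (xor p.1 q.1, if p.1 then p.2 + c * q.2 else p.2 + q.2) := by
  have hbb : b * b = 1 := by rw [← pow_two]; exact hb
  obtain ⟨s, x⟩ := p
  obtain ⟨t, y⟩ := q
  cases s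
  · cases t <;> simp [el, zpow_add, mul_assoc]
  · have h1 : el a b (true, x) * el a b (t, y) = a ^ x * (b * a ^ y) * (if t then b else 1) := by
      simp only [el]
      rw [if_pos trivial]
      group
    rw [h1, hconj]
    cases t
    · simp [el, zpow_add, mul_assoc]
    · simp [el, zpow_add, mul_assoc, hbb]

/-- The covering criterion for harmonious orderings of twisted groups. -/
theorem harmonious_twisted {G : Type*} [Group G] (a b : G) (c M : ℕ) (hM : 0 < M)
    (hcard : Nat.card G = 2 * M) (ha : a ^ M = 1) (hb : b ^ 2 = 1)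
    (hab : b * a * b⁻¹ = a ^ c) (hgen : Subgroup.closure {a, b} = ⊤)
    (L : List (Bool × ℤ)) (f : Bool × ℤ) (hlen : L.length = 2 * M + 1)
    (hhead : L.head? = some f) (hlast : L.getLast? = some f)
    (hE : ∀ (s : Bool) (x : ℤ), 0 ≤ x → x < M → EC M L s x)
    (hQ : ∀ (t : Bool) (d : ℤ), 0 ≤ d → d < M → PC c M L t d) :
    Harmonious G := by
  obtain ⟨hord, hbn⟩ := order_facts a b c M hM hcard ha hb hab hgen
  have haM : a ^ (M : ℤ) = 1 := by rw [zpow_natCast]; exact ha
  have hconj : ∀ j : ℤ, b * a ^ j = a ^ ((c : ℤ) * j) * b := by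
    intro j
    have h1 : b * a ^ j * b⁻¹ = (b * a * b⁻¹) ^ j := (conj_zpow).symm
    rw [hab, ← zpow_natCast, ← zpow_mul] at h1
    rw [← h1]
    group
  refine harmonious_of_cover (2 * M) (by omega) (by omega) (L.map (el a b))
    (by rw [List.length_map]; omega) ?_ ?_ ?_
  · rw [List.getElem_map, List.getElem_map]
    congr 1
    have h1 : L[0]'(by omega) = f := by
      have := List.head?_eq_getElem? (l := L)
      rw [hhead, List.getElem?_eq_getElem (by omega)] at this
      exact (Option.some_injective _ this).symm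
    have h2 : L[2 * M]'(by omega) = f := by
      have := List.getLast?_eq_getElem? (l := L)
      rw [hlast, hlen, List.getElem?_eq_getElem (by omega)] at this
      exact (Option.some_injective _ this).symm
    rw [h1, h2]
  · intro g
    obtain ⟨s, x, h0, h1, h2⟩ := exists_el a b M hM hcard hord hbn g
    obtain ⟨y, hy, j, hj⟩ := hE s x h0 h1
    rw [List.mem_map]
    exact ⟨(s, y), hy, by rw [el_congr haM j hj, h2]⟩
  · intro g
    obtain ⟨t, d, h0, h1, h2⟩ := exists_el a b M hM hcard hord hbn g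
    obtain ⟨p, q, hpq, hor⟩ := hQ t d h0 h1
    refine ⟨_, _, hpq.map (el a b), ?_⟩
    rw [product_el a b c hb hconj, ← h2]
    obtain ⟨s, x⟩ := p
    obtain ⟨r, y⟩ := q
    rcases hor with ⟨hp, hq, j, hj⟩ | ⟨hp, hq, j, hj⟩
    · simp only at hp hq hj
      subst hp hq
      simp only [Bool.false_xor, Bool.false_eq_true, if_false]
      exact el_congr haM j hj
    · simp only at hp hq hj
      subst hp hq
      simp only [Bool.true_xor, Bool.not_not, if_true]
      exact el_congr haM j hj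

/-- Boolean check for one product -/
def pchk (c M : ℤ) (t : Bool) (d : ℤ) (pq : (Bool × ℤ) × (Bool × ℤ)) : Bool :=
  (pq.1.1 == false && pq.2.1 == t && (pq.1.2 + pq.2.2 - d) % M == 0) ||
    (pq.1.1 == true && pq.2.1 == !t && (pq.1.2 + c * pq.2.2 - d) % M == 0)

theorem PC_of_chk {c M : ℤ} {L : List (Bool × ℤ)} {t : Bool} {d : ℤ}
    (h : (L.zip L.tail).any (pchk c M t d) = true) : PC c M L t d := by
  rw [List.any_eq_true] at h
  obtain ⟨⟨p, q⟩, hpq, h1⟩ := h
  simp only [pchk, Bool.or_eq_true, Bool.and_eq_true, beq_iff_eq] at h1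
  refine ⟨p, q, CP_of_mem_zip hpq, ?_⟩
  rcases h1 with ⟨⟨h1, h2⟩, h3⟩ | ⟨⟨h1, h2⟩, h3⟩
  · obtain ⟨j, hj⟩ := Int.dvd_of_emod_eq_zero h3
    exact Or.inl ⟨h1, h2, j, by linear_combination hj⟩
  · obtain ⟨j, hj⟩ := Int.dvd_of_emod_eq_zero h3
    exact Or.inr ⟨h1, h2, j, by linear_combination hj⟩

/-- Boolean check of the two covering conditions of `harmonious_twisted` -/
def fullChkH (c M : ℕ) (L : List (Bool × ℤ)) : Bool :=
  (List.range M).all fun x =>
    L.contains (true, (x : ℤ)) && L.contains (false, (x : ℤ)) &&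
    (L.zip L.tail).any (pchk c M true x) && (L.zip L.tail).any (pchk c M false x)

/-- Explicit finite harmonious orderings. -/
theorem harmonious_small {G : Type*} [Group G] (a b : G) (c M : ℕ) (hM : 0 < M)
    (hcard : Nat.card G = 2 * M) (ha : a ^ M = 1) (hb : b ^ 2 = 1)
    (hab : b * a * b⁻¹ = a ^ c) (hgen : Subgroup.closure {a, b} = ⊤)
    (L : List (Bool × ℤ)) (f : Bool × ℤ) (hlen : L.length = 2 * M + 1)
    (hhead : L.head? = some f) (hlast : L.getLast? = some f) (hchk : fullChkH c M L = true) :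
    Harmonious G := by
  refine harmonious_twisted a b c M hM hcard ha hb hab hgen L f hlen hhead hlast ?_ ?_
  · intro s x h0 h1
    obtain ⟨y, rfl⟩ := Int.eq_ofNat_of_zero_le h0
    have h2 := List.all_eq_true.mp hchk y (List.mem_range.mpr (by omega))
    simp only [Bool.and_eq_true, List.contains_eq_mem, decide_eq_true_eq] at h2
    refine EC.intro (y := (y : ℤ)) ?_ 0 (by ring)
    cases s
    · exact h2.1.1.2
    · exact h2.1.1.1
  · intro s x h0 h1
    obtain ⟨y, rfl⟩ := Int.eq_ofNat_of_zero_le h0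
    have h2 := List.all_eq_true.mp hchk y (List.mem_range.mpr (by omega))
    simp only [Bool.and_eq_true] at h2
    cases s
    · exact PC_of_chk h2.2
    · exact PC_of_chk h2.1.2

end Pool.Agent.Q132.Walks
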