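import Pool.Agent.Q132.HRuns

/-! Generated harmonious orderings of the semidihedral-type groups with cyclic part of order
`16 k`, `k ≥ 1`: a closed list of pairs `(s, x)` that stand for `a ^ x * b ^ s`, and its coverage
properties. -/

namespace Pool.Agent.Q132.HarmSD

open Pool.Agent.Q132.Walks

/-- tail 22 -/
def T22 (k : ℕ) : List (Bool × ℤ) := [(true, 4 * (k : ℤ))]
/-- tail 21 -/
def T21 (k : ℕ) : List (Bool × ℤ) := (true, 0) :: T22 k
/-- tail 20 -/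
def T20 (k : ℕ) : List (Bool × ℤ) := (false, 8 * (k : ℤ) + 1) :: T21 k
/-- tail 19 -/
def T19 (k : ℕ) : List (Bool × ℤ) := (true, 12 * (k : ℤ) + 1) :: T20 k
/-- tail 18 -/
def T18 (k : ℕ) : List (Bool × ℤ) := (false, 1) :: T19 k
/-- tail 17 -/
def T17 (k : ℕ) : List (Bool × ℤ) := (false, 0) :: T18 k
/-- tail 16 -/
def T16 (k : ℕ) : List (Bool × ℤ) := (true, 1) :: T17 k
/-- tail 15 -/
def T15 (k : ℕ) : List (Bool × ℤ) := (true, 8 * (k : ℤ)) :: T16 k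
/-- tail 14 -/
def T14 (k : ℕ) : List (Bool × ℤ) := run (p1 false (16 * (k : ℤ) - 2) (-1)) (4 * k - 1) (T15 k)
/-- tail 13 -/
def T13 (k : ℕ) : List (Bool × ℤ) := (false, 8 * (k : ℤ) - 1) :: T14 k
/-- tail 12 -/
def T12 (k : ℕ) : List (Bool × ℤ) := (false, 12 * (k : ℤ) - 1) :: T13 k
/-- tail 11 -/
def T11 (k : ℕ) : List (Bool × ℤ) := run (p3 true true false (8 * (k : ℤ) - 2) (12 * (k : ℤ) + 2) (8 * (k : ℤ) - 2) (-1) 1 (-1)) (12 * k - 11) (T12 k)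
/-- tail 10 -/
def T10 (k : ℕ) : List (Bool × ℤ) := (true, 8 * (k : ℤ) + 1) :: T11 k
/-- tail 9 -/
def T9 (k : ℕ) : List (Bool × ℤ) := (true, (-2)) :: T10 k
/-- tail 8 -/
def T8 (k : ℕ) : List (Bool × ℤ) := run (p1 false (8 * (k : ℤ) + 2) 1) (4 * k - 3) (T9 k)
/-- tail 7 -/
def T7 (k : ℕ) : List (Bool × ℤ) := (true, 8 * (k : ℤ) - 1) :: T8 k
/-- tail 6 -/
def T6 (k : ℕ) : List (Bool × ℤ) := (false, 8 * (k : ℤ)) :: T7 k
/-- tail 5 -/
def T5 (k : ℕ) : List (Bool × ℤ) := (false, (-1)) :: T6 k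
/-- tail 4 -/
def T4 (k : ℕ) : List (Bool × ℤ) := (false, 4 * (k : ℤ) + 1) :: T5 k
/-- tail 3 -/
def T3 (k : ℕ) : List (Bool × ℤ) := (true, (-1)) :: T4 k
/-- tail 2 -/
def T2 (k : ℕ) : List (Bool × ℤ) := (true, 4 * (k : ℤ) + 1) :: T3 k
/-- tail 1 -/
def T1 (k : ℕ) : List (Bool × ℤ) := (false, 4 * (k : ℤ) + 2) :: T2 k
/-- tail 0 -/
def T0 (k : ℕ) : List (Bool × ℤ) := run (p3 true true false (4 * (k : ℤ)) (8 * (k : ℤ) + 2) (4 * (k : ℤ)) (-1) 1 (-1)) (12 * k - 3) (T1 k)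

theorem head0 {k : ℕ} (hk : 1 ≤ k) : (T0 k).head? = some (true, 4 * (k : ℤ)) := h3 (by omega)
theorem head1 {k : ℕ} (_ : 1 ≤ k) : (T1 k).head? = some (false, 4 * (k : ℤ) + 2) := rfl
theorem head2 {k : ℕ} (_ : 1 ≤ k) : (T2 k).head? = some (true, 4 * (k : ℤ) + 1) := rfl
theorem head3 {k : ℕ} (_ : 1 ≤ k) : (T3 k).head? = some (true, (-1)) := rfl
theorem head4 {k : ℕ} (_ : 1 ≤ k) : (T4 k).head? = some (false, 4 * (k : ℤ) + 1) := rfl
theorem head5 {k : ℕ} (_ : 1 ≤ k) : (T5 k).head? = some (false, (-1)) := rfl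
theorem head6 {k : ℕ} (_ : 1 ≤ k) : (T6 k).head? = some (false, 8 * (k : ℤ)) := rfl
theorem head7 {k : ℕ} (_ : 1 ≤ k) : (T7 k).head? = some (true, 8 * (k : ℤ) - 1) := rfl
theorem head8 {k : ℕ} (hk : 1 ≤ k) : (T8 k).head? = some (false, 8 * (k : ℤ) + 2) := hA (by omega)
theorem head9 {k : ℕ} (_ : 1 ≤ k) : (T9 k).head? = some (true, (-2)) := rfl
theorem head10 {k : ℕ} (_ : 1 ≤ k) : (T10 k).head? = some (true, 8 * (k : ℤ) + 1) := rfl
theorem head11 {k : ℕ} (hk : 1 ≤ k) : (T11 k).head? = some (true, 8 * (k : ℤ) - 2) := h3 (by omega)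
theorem head12 {k : ℕ} (_ : 1 ≤ k) : (T12 k).head? = some (false, 12 * (k : ℤ) - 1) := rfl
theorem head13 {k : ℕ} (_ : 1 ≤ k) : (T13 k).head? = some (false, 8 * (k : ℤ) - 1) := rfl
theorem head14 {k : ℕ} (hk : 1 ≤ k) : (T14 k).head? = some (false, 16 * (k : ℤ) - 2) := hA (by omega)
theorem head15 {k : ℕ} (_ : 1 ≤ k) : (T15 k).head? = some (true, 8 * (k : ℤ)) := rfl
theorem head16 {k : ℕ} (_ : 1 ≤ k) : (T16 k).head? = some (true, 1) := rfl
theorem head17 {k : ℕ} (_ : 1 ≤ k) : (T17 k).head? = some (false, 0) := rfl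
theorem head18 {k : ℕ} (_ : 1 ≤ k) : (T18 k).head? = some (false, 1) := rfl
theorem head19 {k : ℕ} (_ : 1 ≤ k) : (T19 k).head? = some (true, 12 * (k : ℤ) + 1) := rfl
theorem head20 {k : ℕ} (_ : 1 ≤ k) : (T20 k).head? = some (false, 8 * (k : ℤ) + 1) := rfl
theorem head21 {k : ℕ} (_ : 1 ≤ k) : (T21 k).head? = some (true, 0) := rfl
theorem head22 {k : ℕ} (_ : 1 ≤ k) : (T22 k).head? = some (true, 4 * (k : ℤ)) := rfl

theorem sub0 {k : ℕ} {p : Bool × ℤ} (h : p ∈ T0 k) : p ∈ T0 k := h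
theorem cp0 {k : ℕ} {p q : Bool × ℤ} (h : CP (T0 k) p q) : CP (T0 k) p q := h
theorem sub1 {k : ℕ} {p : Bool × ℤ} (h : p ∈ T1 k) : p ∈ T0 k := sub0 (run_rest h)
theorem cp1 {k : ℕ} {p q : Bool × ℤ} (h : CP (T1 k) p q) : CP (T0 k) p q := cp0 (CP_run_rest h)
theorem sub2 {k : ℕ} {p : Bool × ℤ} (h : p ∈ T2 k) : p ∈ T0 k := sub1 (List.mem_cons_of_mem _ h)
theorem cp2 {k : ℕ} {p q : Bool × ℤ} (h : CP (T2 k) p q) : CP (T0 k) p q := cp1 (CP.cons h)
theorem sub3 {k : ℕ} {p : Bool × ℤ} (h : p ∈ T3 k) : p ∈ T0 k := sub2 (List.mem_cons_of_mem _ h)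
theorem cp3 {k : ℕ} {p q : Bool × ℤ} (h : CP (T3 k) p q) : CP (T0 k) p q := cp2 (CP.cons h)
theorem sub4 {k : ℕ} {p : Bool × ℤ} (h : p ∈ T4 k) : p ∈ T0 k := sub3 (List.mem_cons_of_mem _ h)
theorem cp4 {k : ℕ} {p q : Bool × ℤ} (h : CP (T4 k) p q) : CP (T0 k) p q := cp3 (CP.cons h)
theorem sub5 {k : ℕ} {p : Bool × ℤ} (h : p ∈ T5 k) : p ∈ T0 k := sub4 (List.mem_cons_of_mem _ h)
theorem cp5 {k : ℕ} {p q : Bool × ℤ} (h : CP (T5 k) p q) : CP (T0 k) p q := cp4 (CP.cons h)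
theorem sub6 {k : ℕ} {p : Bool × ℤ} (h : p ∈ T6 k) : p ∈ T0 k := sub5 (List.mem_cons_of_mem _ h)
theorem cp6 {k : ℕ} {p q : Bool × ℤ} (h : CP (T6 k) p q) : CP (T0 k) p q := cp5 (CP.cons h)
theorem sub7 {k : ℕ} {p : Bool × ℤ} (h : p ∈ T7 k) : p ∈ T0 k := sub6 (List.mem_cons_of_mem _ h)
theorem cp7 {k : ℕ} {p q : Bool × ℤ} (h : CP (T7 k) p q) : CP (T0 k) p q := cp6 (CP.cons h)
theorem sub8 {k : ℕ} {p : Bool × ℤ} (h : p ∈ T8 k) : p ∈ T0 k := sub7 (List.mem_cons_of_mem _ h)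
theorem cp8 {k : ℕ} {p q : Bool × ℤ} (h : CP (T8 k) p q) : CP (T0 k) p q := cp7 (CP.cons h)
theorem sub9 {k : ℕ} {p : Bool × ℤ} (h : p ∈ T9 k) : p ∈ T0 k := sub8 (run_rest h)
theorem cp9 {k : ℕ} {p q : Bool × ℤ} (h : CP (T9 k) p q) : CP (T0 k) p q := cp8 (CP_run_rest h)
theorem sub10 {k : ℕ} {p : Bool × ℤ} (h : p ∈ T10 k) : p ∈ T0 k := sub9 (List.mem_cons_of_mem _ h)
theorem cp10 {k : ℕ} {p q : Bool × ℤ} (h : CP (T10 k) p q) : CP (T0 k) p q := cp9 (CP.cons h)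
theorem sub11 {k : ℕ} {p : Bool × ℤ} (h : p ∈ T11 k) : p ∈ T0 k := sub10 (List.mem_cons_of_mem _ h)
theorem cp11 {k : ℕ} {p q : Bool × ℤ} (h : CP (T11 k) p q) : CP (T0 k) p q := cp10 (CP.cons h)
theorem sub12 {k : ℕ} {p : Bool × ℤ} (h : p ∈ T12 k) : p ∈ T0 k := sub11 (run_rest h)
theorem cp12 {k : ℕ} {p q : Bool × ℤ} (h : CP (T12 k) p q) : CP (T0 k) p q := cp11 (CP_run_rest h)
theorem sub13 {k : ℕ} {p : Bool × ℤ} (h : p ∈ T13 k) : p ∈ T0 k := sub12 (List.mem_cons_of_mem _ h)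
theorem cp13 {k : ℕ} {p q : Bool × ℤ} (h : CP (T13 k) p q) : CP (T0 k) p q := cp12 (CP.cons h)
theorem sub14 {k : ℕ} {p : Bool × ℤ} (h : p ∈ T14 k) : p ∈ T0 k := sub13 (List.mem_cons_of_mem _ h)
theorem cp14 {k : ℕ} {p q : Bool × ℤ} (h : CP (T14 k) p q) : CP (T0 k) p q := cp13 (CP.cons h)
theorem sub15 {k : ℕ} {p : Bool × ℤ} (h : p ∈ T15 k) : p ∈ T0 k := sub14 (run_rest h)
theorem cp15 {k : ℕ} {p q : Bool × ℤ} (h : CP (T15 k) p q) : CP (T0 k) p q := cp14 (CP_run_rest h)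
theorem sub16 {k : ℕ} {p : Bool × ℤ} (h : p ∈ T16 k) : p ∈ T0 k := sub15 (List.mem_cons_of_mem _ h)
theorem cp16 {k : ℕ} {p q : Bool × ℤ} (h : CP (T16 k) p q) : CP (T0 k) p q := cp15 (CP.cons h)
theorem sub17 {k : ℕ} {p : Bool × ℤ} (h : p ∈ T17 k) : p ∈ T0 k := sub16 (List.mem_cons_of_mem _ h)
theorem cp17 {k : ℕ} {p q : Bool × ℤ} (h : CP (T17 k) p q) : CP (T0 k) p q := cp16 (CP.cons h)
theorem sub18 {k : ℕ} {p : Bool × ℤ} (h : p ∈ T18 k) : p ∈ T0 k := sub17 (List.mem_cons_of_mem _ h)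
theorem cp18 {k : ℕ} {p q : Bool × ℤ} (h : CP (T18 k) p q) : CP (T0 k) p q := cp17 (CP.cons h)
theorem sub19 {k : ℕ} {p : Bool × ℤ} (h : p ∈ T19 k) : p ∈ T0 k := sub18 (List.mem_cons_of_mem _ h)
theorem cp19 {k : ℕ} {p q : Bool × ℤ} (h : CP (T19 k) p q) : CP (T0 k) p q := cp18 (CP.cons h)
theorem sub20 {k : ℕ} {p : Bool × ℤ} (h : p ∈ T20 k) : p ∈ T0 k := sub19 (List.mem_cons_of_mem _ h)
theorem cp20 {k : ℕ} {p q : Bool × ℤ} (h : CP (T20 k) p q) : CP (T0 k) p q := cp19 (CP.cons h)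
theorem sub21 {k : ℕ} {p : Bool × ℤ} (h : p ∈ T21 k) : p ∈ T0 k := sub20 (List.mem_cons_of_mem _ h)
theorem cp21 {k : ℕ} {p q : Bool × ℤ} (h : CP (T21 k) p q) : CP (T0 k) p q := cp20 (CP.cons h)
theorem sub22 {k : ℕ} {p : Bool × ℤ} (h : p ∈ T22 k) : p ∈ T0 k := sub21 (List.mem_cons_of_mem _ h)
theorem cp22 {k : ℕ} {p q : Bool × ℤ} (h : CP (T22 k) p q) : CP (T0 k) p q := cp21 (CP.cons h)

theorem last22 {k : ℕ} : (T22 k).getLast? = some (true, 4 * (k : ℤ)) := rfl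
theorem last21 {k : ℕ} : (T21 k).getLast? = some (true, 4 * (k : ℤ)) := ends_cons last22
theorem last20 {k : ℕ} : (T20 k).getLast? = some (true, 4 * (k : ℤ)) := ends_cons last21
theorem last19 {k : ℕ} : (T19 k).getLast? = some (true, 4 * (k : ℤ)) := ends_cons last20
theorem last18 {k : ℕ} : (T18 k).getLast? = some (true, 4 * (k : ℤ)) := ends_cons last19
theorem last17 {k : ℕ} : (T17 k).getLast? = some (true, 4 * (k : ℤ)) := ends_cons last18
theorem last16 {k : ℕ} : (T16 k).getLast? = some (true, 4 * (k : ℤ)) := ends_cons last17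
theorem last15 {k : ℕ} : (T15 k).getLast? = some (true, 4 * (k : ℤ)) := ends_cons last16
theorem last14 {k : ℕ} : (T14 k).getLast? = some (true, 4 * (k : ℤ)) := ends_run last15
theorem last13 {k : ℕ} : (T13 k).getLast? = some (true, 4 * (k : ℤ)) := ends_cons last14
theorem last12 {k : ℕ} : (T12 k).getLast? = some (true, 4 * (k : ℤ)) := ends_cons last13
theorem last11 {k : ℕ} : (T11 k).getLast? = some (true, 4 * (k : ℤ)) := ends_run last12
theorem last10 {k : ℕ} : (T10 k).getLast? = some (true, 4 * (k : ℤ)) := ends_cons last11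
theorem last9 {k : ℕ} : (T9 k).getLast? = some (true, 4 * (k : ℤ)) := ends_cons last10
theorem last8 {k : ℕ} : (T8 k).getLast? = some (true, 4 * (k : ℤ)) := ends_run last9
theorem last7 {k : ℕ} : (T7 k).getLast? = some (true, 4 * (k : ℤ)) := ends_cons last8
theorem last6 {k : ℕ} : (T6 k).getLast? = some (true, 4 * (k : ℤ)) := ends_cons last7
theorem last5 {k : ℕ} : (T5 k).getLast? = some (true, 4 * (k : ℤ)) := ends_cons last6
theorem last4 {k : ℕ} : (T4 k).getLast? = some (true, 4 * (k : ℤ)) := ends_cons last5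
theorem last3 {k : ℕ} : (T3 k).getLast? = some (true, 4 * (k : ℤ)) := ends_cons last4
theorem last2 {k : ℕ} : (T2 k).getLast? = some (true, 4 * (k : ℤ)) := ends_cons last3
theorem last1 {k : ℕ} : (T1 k).getLast? = some (true, 4 * (k : ℤ)) := ends_cons last2
theorem last0 {k : ℕ} : (T0 k).getLast? = some (true, 4 * (k : ℤ)) := ends_run last1

theorem len22 {k : ℕ} : (T22 k).length = 1 := rfl
theorem len21 {k : ℕ} (hk : 1 ≤ k) : (T21 k).length = 2 := by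
  rw [T21, List.length_cons, len22]
theorem len20 {k : ℕ} (hk : 1 ≤ k) : (T20 k).length = 3 := by
  rw [T20, List.length_cons, len21 hk]
theorem len19 {k : ℕ} (hk : 1 ≤ k) : (T19 k).length = 4 := by
  rw [T19, List.length_cons, len20 hk]
theorem len18 {k : ℕ} (hk : 1 ≤ k) : (T18 k).length = 5 := by
  rw [T18, List.length_cons, len19 hk]
theorem len17 {k : ℕ} (hk : 1 ≤ k) : (T17 k).length = 6 := by
  rw [T17, List.length_cons, len18 hk]
theorem len16 {k : ℕ} (hk : 1 ≤ k) : (T16 k).length = 7 := by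
  rw [T16, List.length_cons, len17 hk]
theorem len15 {k : ℕ} (hk : 1 ≤ k) : (T15 k).length = 8 := by
  rw [T15, List.length_cons, len16 hk]
theorem len14 {k : ℕ} (hk : 1 ≤ k) : (T14 k).length = 4 * k + 7 := by
  rw [T14, run_length, len15 hk]
  all_goals omega
theorem len13 {k : ℕ} (hk : 1 ≤ k) : (T13 k).length = 4 * k + 8 := by
  rw [T13, List.length_cons, len14 hk]
  all_goals omega
theorem len12 {k : ℕ} (hk : 1 ≤ k) : (T12 k).length = 4 * k + 9 := by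
  rw [T12, List.length_cons, len13 hk]
  all_goals omega
theorem len11 {k : ℕ} (hk : 1 ≤ k) : (T11 k).length = 16 * k - 2 := by
  rw [T11, run_length, len12 hk]
  all_goals omega
theorem len10 {k : ℕ} (hk : 1 ≤ k) : (T10 k).length = 16 * k - 1 := by
  rw [T10, List.length_cons, len11 hk]
  all_goals omega
theorem len9 {k : ℕ} (hk : 1 ≤ k) : (T9 k).length = 16 * k := by
  rw [T9, List.length_cons, len10 hk]
  all_goals omega
theorem len8 {k : ℕ} (hk : 1 ≤ k) : (T8 k).length = 20 * k - 3 := by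
  rw [T8, run_length, len9 hk]
  all_goals omega
theorem len7 {k : ℕ} (hk : 1 ≤ k) : (T7 k).length = 20 * k - 2 := by
  rw [T7, List.length_cons, len8 hk]
  all_goals omega
theorem len6 {k : ℕ} (hk : 1 ≤ k) : (T6 k).length = 20 * k - 1 := by
  rw [T6, List.length_cons, len7 hk]
  all_goals omega
theorem len5 {k : ℕ} (hk : 1 ≤ k) : (T5 k).length = 20 * k := by
  rw [T5, List.length_cons, len6 hk]
  all_goals omega
theorem len4 {k : ℕ} (hk : 1 ≤ k) : (T4 k).length = 20 * k + 1 := by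
  rw [T4, List.length_cons, len5 hk]
  all_goals omega
theorem len3 {k : ℕ} (hk : 1 ≤ k) : (T3 k).length = 20 * k + 2 := by
  rw [T3, List.length_cons, len4 hk]
  all_goals omega
theorem len2 {k : ℕ} (hk : 1 ≤ k) : (T2 k).length = 20 * k + 3 := by
  rw [T2, List.length_cons, len3 hk]
  all_goals omega
theorem len1 {k : ℕ} (hk : 1 ≤ k) : (T1 k).length = 20 * k + 4 := by
  rw [T1, List.length_cons, len2 hk]
  all_goals omega
theorem len0 {k : ℕ} (hk : 1 ≤ k) : (T0 k).length = 32 * k + 1 := by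
  rw [T0, run_length, len1 hk]
  all_goals omega

theorem jun0 {k : ℕ} (hk : 1 ≤ k) : CP (T0 k) (false, 2) (false, 4 * (k : ℤ) + 2) := by
  exact cp0 (l32 (4 * k - 2) (by omega) (head1 hk) (by omega))
theorem jun1 {k : ℕ} (hk : 1 ≤ k) : CP (T0 k) (false, 4 * (k : ℤ) + 2) (true, 4 * (k : ℤ) + 1) := by
  exact cp1 (lastCons (head2 hk))
theorem jun2 {k : ℕ} (hk : 1 ≤ k) : CP (T0 k) (true, 4 * (k : ℤ) + 1) (true, (-1)) := by
  exact cp2 (lastCons (head3 hk))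
theorem jun3 {k : ℕ} (hk : 1 ≤ k) : CP (T0 k) (true, (-1)) (false, 4 * (k : ℤ) + 1) := by
  exact cp3 (lastCons (head4 hk))
theorem jun4 {k : ℕ} (hk : 1 ≤ k) : CP (T0 k) (false, 4 * (k : ℤ) + 1) (false, (-1)) := by
  exact cp4 (lastCons (head5 hk))
theorem jun5 {k : ℕ} (hk : 1 ≤ k) : CP (T0 k) (false, (-1)) (false, 8 * (k : ℤ)) := by
  exact cp5 (lastCons (head6 hk))
theorem jun6 {k : ℕ} (hk : 1 ≤ k) : CP (T0 k) (false, 8 * (k : ℤ)) (true, 8 * (k : ℤ) - 1) := by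
  exact cp6 (lastCons (head7 hk))
theorem jun7 {k : ℕ} (hk : 1 ≤ k) : CP (T0 k) (true, 8 * (k : ℤ) - 1) (false, 8 * (k : ℤ) + 2) := by
  exact cp7 (lastCons (head8 hk))
theorem jun8 {k : ℕ} (hk : 1 ≤ k) : CP (T0 k) (false, 12 * (k : ℤ) - 2) (true, (-2)) := by
  exact cp8 (lA (4 * k - 4) (by omega) (head9 hk) (by omega))
theorem jun9 {k : ℕ} (hk : 1 ≤ k) : CP (T0 k) (true, (-2)) (true, 8 * (k : ℤ) + 1) := by
  exact cp9 (lastCons (head10 hk))
theorem jun10 {k : ℕ} (hk : 1 ≤ k) : CP (T0 k) (true, 8 * (k : ℤ) + 1) (true, 8 * (k : ℤ) - 2) := by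
  exact cp10 (lastCons (head11 hk))
theorem jun11 {k : ℕ} (hk : 1 ≤ k) : CP (T0 k) (true, 4 * (k : ℤ) + 2) (false, 12 * (k : ℤ) - 1) := by
  exact cp11 (l30 (4 * k - 4) (by omega) (head12 hk) (by omega))
theorem jun12 {k : ℕ} (hk : 1 ≤ k) : CP (T0 k) (false, 12 * (k : ℤ) - 1) (false, 8 * (k : ℤ) - 1) := by
  exact cp12 (lastCons (head13 hk))
theorem jun13 {k : ℕ} (hk : 1 ≤ k) : CP (T0 k) (false, 8 * (k : ℤ) - 1) (false, 16 * (k : ℤ) - 2) := by
  exact cp13 (lastCons (head14 hk))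
theorem jun14 {k : ℕ} (hk : 1 ≤ k) : CP (T0 k) (false, 12 * (k : ℤ)) (true, 8 * (k : ℤ)) := by
  exact cp14 (lA (4 * k - 2) (by omega) (head15 hk) (by omega))
theorem jun15 {k : ℕ} (hk : 1 ≤ k) : CP (T0 k) (true, 8 * (k : ℤ)) (true, 1) := by
  exact cp15 (lastCons (head16 hk))
theorem jun16 {k : ℕ} (hk : 1 ≤ k) : CP (T0 k) (true, 1) (false, 0) := by
  exact cp16 (lastCons (head17 hk))
theorem jun17 {k : ℕ} (hk : 1 ≤ k) : CP (T0 k) (false, 0) (false, 1) := by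
  exact cp17 (lastCons (head18 hk))
theorem jun18 {k : ℕ} (hk : 1 ≤ k) : CP (T0 k) (false, 1) (true, 12 * (k : ℤ) + 1) := by
  exact cp18 (lastCons (head19 hk))
theorem jun19 {k : ℕ} (hk : 1 ≤ k) : CP (T0 k) (true, 12 * (k : ℤ) + 1) (false, 8 * (k : ℤ) + 1) := by
  exact cp19 (lastCons (head20 hk))
theorem jun20 {k : ℕ} (hk : 1 ≤ k) : CP (T0 k) (false, 8 * (k : ℤ) + 1) (true, 0) := by
  exact cp20 (lastCons (head21 hk))
theorem jun21 {k : ℕ} (hk : 1 ≤ k) : CP (T0 k) (true, 0) (true, 4 * (k : ℤ)) := by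
  exact cp21 (lastCons (head22 hk))

theorem elems_false {k : ℕ} (hk : 1 ≤ k) (x : ℤ) (h0 : 0 ≤ x) (h1 : x < 16 * k) :
    EC (16 * k) (T0 k) false x := by
  rcases lt_or_ge (0) x with g0 | g0
  swap
  · exact EC.intro (y := 0) (sub17 List.mem_cons_self) 0 (by omega)
  rcases lt_or_ge (1) x with g1 | g1
  swap
  · exact EC.intro (y := 1) (sub18 List.mem_cons_self) 0 (by omega)
  clear g0
  rcases lt_or_ge (4 * (k : ℤ)) x with g2 | g2
  swap
  · exact EC.intro (y := x + 0 * (16 * k)) (sub0 (m32 ((4 * (k : ℤ)) - x) (by omega) (by omega) (by ring))) 0 rfl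
  clear g1
  rcases lt_or_ge (4 * (k : ℤ) + 1) x with g3 | g3
  swap
  · exact EC.intro (y := 4 * (k : ℤ) + 1) (sub4 List.mem_cons_self) 0 (by omega)
  clear g2
  rcases lt_or_ge (4 * (k : ℤ) + 2) x with g4 | g4
  swap
  · exact EC.intro (y := 4 * (k : ℤ) + 2) (sub1 List.mem_cons_self) 0 (by omega)
  clear g3
  rcases lt_or_ge (8 * (k : ℤ) - 2) x with g5 | g5
  swap
  · exact EC.intro (y := x + 0 * (16 * k)) (sub11 (m32 ((8 * (k : ℤ) - 2) - x) (by omega) (by omega) (by ring))) 0 rfl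
  clear g4
  rcases lt_or_ge (8 * (k : ℤ) - 1) x with g6 | g6
  swap
  · exact EC.intro (y := 8 * (k : ℤ) - 1) (sub13 List.mem_cons_self) 0 (by omega)
  clear g5
  rcases lt_or_ge (8 * (k : ℤ)) x with g7 | g7
  swap
  · exact EC.intro (y := 8 * (k : ℤ)) (sub6 List.mem_cons_self) 0 (by omega)
  clear g6
  rcases lt_or_ge (8 * (k : ℤ) + 1) x with g8 | g8
  swap
  · exact EC.intro (y := 8 * (k : ℤ) + 1) (sub20 List.mem_cons_self) 0 (by omega)
  clear g7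
  rcases lt_or_ge (12 * (k : ℤ) - 2) x with g9 | g9
  swap
  · exact EC.intro (y := x + 0 * (16 * k)) (sub8 (mA (x - (8 * (k : ℤ) + 2)) (by omega) (by omega) (by ring))) 0 rfl
  clear g8
  rcases lt_or_ge (12 * (k : ℤ) - 1) x with g10 | g10
  swap
  · exact EC.intro (y := 12 * (k : ℤ) - 1) (sub12 List.mem_cons_self) 0 (by omega)
  clear g9
  rcases lt_or_ge (16 * (k : ℤ) - 2) x with g11 | g11
  swap
  · exact EC.intro (y := x + 0 * (16 * k)) (sub14 (mA ((16 * (k : ℤ) - 2) - x) (by omega) (by omega) (by ring))) 0 rfl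
  clear g10
  exact EC.intro (y := (-1)) (sub5 List.mem_cons_self) (-1) (by omega)

theorem elems_true {k : ℕ} (hk : 1 ≤ k) (x : ℤ) (h0 : 0 ≤ x) (h1 : x < 16 * k) :
    EC (16 * k) (T0 k) true x := by
  rcases lt_or_ge (0) x with g0 | g0
  swap
  · exact EC.intro (y := 0) (sub21 List.mem_cons_self) 0 (by omega)
  rcases lt_or_ge (1) x with g1 | g1
  swap
  · exact EC.intro (y := 1) (sub16 List.mem_cons_self) 0 (by omega)
  clear g0
  rcases lt_or_ge (4 * (k : ℤ)) x with g2 | g2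
  swap
  · exact EC.intro (y := x + 0 * (16 * k)) (sub0 (m30 ((4 * (k : ℤ)) - x) (by omega) (by omega) (by ring))) 0 rfl
  clear g1
  rcases lt_or_ge (4 * (k : ℤ) + 1) x with g3 | g3
  swap
  · exact EC.intro (y := 4 * (k : ℤ) + 1) (sub2 List.mem_cons_self) 0 (by omega)
  clear g2
  rcases lt_or_ge (8 * (k : ℤ) - 2) x with g4 | g4
  swap
  · exact EC.intro (y := x + 0 * (16 * k)) (sub11 (m30 ((8 * (k : ℤ) - 2) - x) (by omega) (by omega) (by ring))) 0 rfl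
  clear g3
  rcases lt_or_ge (8 * (k : ℤ) - 1) x with g5 | g5
  swap
  · exact EC.intro (y := 8 * (k : ℤ) - 1) (sub7 List.mem_cons_self) 0 (by omega)
  clear g4
  rcases lt_or_ge (8 * (k : ℤ)) x with g6 | g6
  swap
  · exact EC.intro (y := 8 * (k : ℤ)) (sub15 List.mem_cons_self) 0 (by omega)
  clear g5
  rcases lt_or_ge (8 * (k : ℤ) + 1) x with g7 | g7
  swap
  · exact EC.intro (y := 8 * (k : ℤ) + 1) (sub10 List.mem_cons_self) 0 (by omega)
  clear g6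
  rcases lt_or_ge (12 * (k : ℤ)) x with g8 | g8
  swap
  · exact EC.intro (y := x + 0 * (16 * k)) (sub0 (m31 (x - (8 * (k : ℤ) + 2)) (by omega) (by omega) (by ring))) 0 rfl
  clear g7
  rcases lt_or_ge (12 * (k : ℤ) + 1) x with g9 | g9
  swap
  · exact EC.intro (y := 12 * (k : ℤ) + 1) (sub19 List.mem_cons_self) 0 (by omega)
  clear g8
  rcases lt_or_ge (16 * (k : ℤ) - 3) x with g10 | g10
  swap
  · exact EC.intro (y := x + 0 * (16 * k)) (sub11 (m31 (x - (12 * (k : ℤ) + 2)) (by omega) (by omega) (by ring))) 0 rfl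
  clear g9
  rcases lt_or_ge (16 * (k : ℤ) - 2) x with g11 | g11
  swap
  · exact EC.intro (y := (-2)) (sub9 List.mem_cons_self) (-1) (by omega)
  clear g10
  exact EC.intro (y := (-1)) (sub3 List.mem_cons_self) (-1) (by omega)

theorem prod_false_0 {k : ℕ} (hk : 1 ≤ k) (e : ℤ) (h0 : 0 ≤ e) (h1 : e < 4 * k) :
    PC (8 * k - 1) (16 * k) (T0 k) false (4 * e + 0) := by
  rcases lt_or_ge ((k : ℤ) - 1) e with g0 | g0
  swap
  · exact PC.sdO (cp0 (cp30 (-(2 * e + (-2 * (k : ℤ) + 1))) (by omega) (by omega))) rfl (-e + (5 * (k : ℤ))) 0 (by ring) (by ring)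
  rcases lt_or_ge ((k : ℤ)) e with g1 | g1
  swap
  · exact PC.ofF (jun4 hk) 0 (by omega)
  clear g0
  rcases lt_or_ge ((k : ℤ) + 1) e with g2 | g2
  swap
  · exact PC.ofF (jun0 hk) 0 (by omega)
  clear g1
  rcases lt_or_ge (3 * (k : ℤ) - 1) e with g3 | g3
  swap
  · exact PC.sdE (cp11 (cp30 (-(2 * e + (-6 * (k : ℤ) + 2))) (by omega) (by omega))) rfl (-e + (9 * (k : ℤ))) (-1) (by ring) (by ring)
  clear g2
  rcases lt_or_ge (3 * (k : ℤ)) e with g4 | g4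
  swap
  · exact PC.sdE (jun21 hk) rfl (2 * (k : ℤ)) (-1) (by omega) (by omega)
  clear g3
  exact PC.sdO (cp0 (cp30 (-(2 * e + (-10 * (k : ℤ) + 1))) (by omega) (by omega))) rfl (-e + (9 * (k : ℤ))) (-1) (by ring) (by ring)

theorem prod_false_1 {k : ℕ} (hk : 1 ≤ k) (e : ℤ) (h0 : 0 ≤ e) (h1 : e < 4 * k) :
    PC (8 * k - 1) (16 * k) (T0 k) false (4 * e + 1) := by
  rcases lt_or_ge (0) e with g0 | g0
  swap
  · exact PC.ofF (jun17 hk) 0 (by omega)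
  rcases lt_or_ge (2 * (k : ℤ) - 2) e with g1 | g1
  swap
  · exact PC.ofF (cp8 (cpA (2 * e + ((-2))) (by omega) (by omega))) 1 (by ring)
  clear g0
  rcases lt_or_ge (2 * (k : ℤ) - 1) e with g2 | g2
  swap
  · exact PC.ofF (jun13 hk) 1 (by omega)
  clear g1
  rcases lt_or_ge (4 * (k : ℤ) - 2) e with g3 | g3
  swap
  · exact PC.ofF (cp14 (cpA (-(2 * e + (-8 * (k : ℤ) + 3))) (by omega) (by omega))) 1 (by ring)
  clear g2
  exact PC.sdO (jun9 hk) rfl (4 * (k : ℤ)) (-1) (by omega) (by omega)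

theorem prod_false_2 {k : ℕ} (hk : 1 ≤ k) (e : ℤ) (h0 : 0 ≤ e) (h1 : e < 4 * k) :
    PC (8 * k - 1) (16 * k) (T0 k) false (4 * e + 2) := by
  rcases lt_or_ge ((k : ℤ) - 2) e with g0 | g0
  swap
  · exact PC.sdO (cp11 (cp30 (-(2 * e + (-2 * (k : ℤ) + 3))) (by omega) (by omega))) rfl (-e + (7 * (k : ℤ) - 1)) 0 (by ring) (by ring)
  rcases lt_or_ge ((k : ℤ) - 1) e with g1 | g1
  swap
  · exact PC.ofF (jun12 hk) 1 (by omega)
  clear g0
  rcases lt_or_ge (3 * (k : ℤ) - 1) e with g2 | g2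
  swap
  · exact PC.sdE (cp0 (cp30 (-(2 * e + (-6 * (k : ℤ) + 2))) (by omega) (by omega))) rfl (-e + (7 * (k : ℤ))) (-1) (by ring) (by ring)
  clear g1
  rcases lt_or_ge (3 * (k : ℤ)) e with g3 | g3
  swap
  · exact PC.sdO (jun2 hk) rfl ((-1)) 0 (by omega) (by omega)
  clear g2
  exact PC.sdO (cp11 (cp30 (-(2 * e + (-10 * (k : ℤ) + 3))) (by omega) (by omega))) rfl (-e + (11 * (k : ℤ) - 1)) (-1) (by ring) (by ring)

theorem prod_false_3 {k : ℕ} (hk : 1 ≤ k) (e : ℤ) (h0 : 0 ≤ e) (h1 : e < 4 * k) :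
    PC (8 * k - 1) (16 * k) (T0 k) false (4 * e + 3) := by
  rcases lt_or_ge (0) e with g0 | g0
  swap
  · exact PC.sdE (jun10 hk) rfl (4 * (k : ℤ) - 1) 0 (by omega) (by omega)
  rcases lt_or_ge (2 * (k : ℤ) - 2) e with g1 | g1
  swap
  · exact PC.ofF (cp8 (cpA (2 * e + ((-1))) (by omega) (by omega))) 1 (by ring)
  clear g0
  rcases lt_or_ge (2 * (k : ℤ) - 1) e with g2 | g2
  swap
  · exact PC.ofF (jun5 hk) 0 (by omega)
  clear g1
  rcases lt_or_ge (4 * (k : ℤ) - 2) e with g3 | g3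
  swap
  · exact PC.ofF (cp14 (cpA (-(2 * e + (-8 * (k : ℤ) + 4))) (by omega) (by omega))) 1 (by ring)
  clear g2
  exact PC.sdO (jun15 hk) rfl (0) 0 (by omega) (by omega)

theorem prod_true_0 {k : ℕ} (hk : 1 ≤ k) (e : ℤ) (h0 : 0 ≤ e) (h1 : e < 4 * k) :
    PC (8 * k - 1) (16 * k) (T0 k) true (4 * e + 0) := by
  rcases lt_or_ge ((k : ℤ) - 1) e with g0 | g0
  swap
  · exact PC.sdO (cp0 (cp31 (2 * e + (2 * (k : ℤ) - 1)) (by omega) (by omega))) rfl (-e + ((k : ℤ))) 1 (by ring) (by ring)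
  rcases lt_or_ge ((k : ℤ)) e with g1 | g1
  swap
  · exact PC.ofF (jun14 hk) 1 (by omega)
  clear g0
  rcases lt_or_ge (3 * (k : ℤ) - 2) e with g2 | g2
  swap
  · exact PC.sdE (cp11 (cp31 (2 * e + (-2 * (k : ℤ) - 2)) (by omega) (by omega))) rfl (-e + (5 * (k : ℤ))) 0 (by ring) (by ring)
  clear g1
  rcases lt_or_ge (3 * (k : ℤ) - 1) e with g3 | g3
  swap
  · exact PC.ofF (jun8 hk) 0 (by omega)
  clear g2
  rcases lt_or_ge (3 * (k : ℤ)) e with g4 | g4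
  swap
  · exact PC.sdO (jun19 hk) rfl (4 * (k : ℤ)) 0 (by omega) (by omega)
  clear g3
  exact PC.sdO (cp0 (cp31 (2 * e + (-6 * (k : ℤ) - 1)) (by omega) (by omega))) rfl (-e + (5 * (k : ℤ))) 0 (by ring) (by ring)

theorem prod_true_1 {k : ℕ} (hk : 1 ≤ k) (e : ℤ) (h0 : 0 ≤ e) (h1 : e < 4 * k) :
    PC (8 * k - 1) (16 * k) (T0 k) true (4 * e + 1) := by
  rcases lt_or_ge (0) e with g0 | g0
  swap
  · exact PC.sdE (jun16 hk) rfl (0) 0 (by omega) (by omega)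
  rcases lt_or_ge (2 * (k : ℤ) - 1) e with g1 | g1
  swap
  · exact PC.ofF (cp0 (cp32 (-(2 * e + (-4 * (k : ℤ) + 1))) (by omega) (by omega))) 0 (by ring)
  clear g0
  rcases lt_or_ge (2 * (k : ℤ)) e with g2 | g2
  swap
  · exact PC.ofF (jun20 hk) 0 (by omega)
  clear g1
  rcases lt_or_ge (4 * (k : ℤ) - 2) e with g3 | g3
  swap
  · exact PC.ofF (cp11 (cp32 (-(2 * e + (-8 * (k : ℤ) + 3))) (by omega) (by omega))) 0 (by ring)
  clear g2
  exact PC.sdE (jun7 hk) rfl (4 * (k : ℤ) + 1) (-1) (by omega) (by omega)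

theorem prod_true_2 {k : ℕ} (hk : 1 ≤ k) (e : ℤ) (h0 : 0 ≤ e) (h1 : e < 4 * k) :
    PC (8 * k - 1) (16 * k) (T0 k) true (4 * e + 2) := by
  rcases lt_or_ge ((k : ℤ) - 2) e with g0 | g0
  swap
  · exact PC.sdO (cp11 (cp31 (2 * e + (2 * (k : ℤ) - 1)) (by omega) (by omega))) rfl (-e + (3 * (k : ℤ) - 1)) 1 (by ring) (by ring)
  rcases lt_or_ge ((k : ℤ) - 1) e with g1 | g1
  swap
  · exact PC.sdO (jun3 hk) rfl (2 * (k : ℤ)) 0 (by omega) (by omega)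
  clear g0
  rcases lt_or_ge (3 * (k : ℤ) - 1) e with g2 | g2
  swap
  · exact PC.sdE (cp0 (cp31 (2 * e + (-2 * (k : ℤ))) (by omega) (by omega))) rfl (-e + (3 * (k : ℤ))) 0 (by ring) (by ring)
  clear g1
  rcases lt_or_ge (3 * (k : ℤ)) e with g3 | g3
  swap
  · exact PC.ofF (jun18 hk) 0 (by omega)
  clear g2
  exact PC.sdO (cp11 (cp31 (2 * e + (-6 * (k : ℤ) - 1)) (by omega) (by omega))) rfl (-e + (7 * (k : ℤ) - 1)) 0 (by ring) (by ring)

theorem prod_true_3 {k : ℕ} (hk : 1 ≤ k) (e : ℤ) (h0 : 0 ≤ e) (h1 : e < 4 * k) :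
    PC (8 * k - 1) (16 * k) (T0 k) true (4 * e + 3) := by
  rcases lt_or_ge (0) e with g0 | g0
  swap
  · exact PC.sdO (jun11 hk) rfl (6 * (k : ℤ) - 1) 0 (by omega) (by omega)
  rcases lt_or_ge (2 * (k : ℤ) - 1) e with g1 | g1
  swap
  · exact PC.ofF (cp0 (cp32 (-(2 * e + (-4 * (k : ℤ) + 2))) (by omega) (by omega))) 0 (by ring)
  clear g0
  rcases lt_or_ge (2 * (k : ℤ)) e with g2 | g2
  swap
  · exact PC.ofF (jun1 hk) 0 (by omega)
  clear g1
  rcases lt_or_ge (4 * (k : ℤ) - 2) e with g3 | g3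
  swap
  · exact PC.ofF (cp11 (cp32 (-(2 * e + (-8 * (k : ℤ) + 4))) (by omega) (by omega))) 0 (by ring)
  clear g2
  exact PC.ofF (jun6 hk) 0 (by omega)

theorem main {G : Type*} [Group G] (a b : G) (k : ℕ) (hk : 1 ≤ k)
    (hcard : Nat.card G = 2 * (16 * k)) (ha : a ^ (16 * k) = 1) (hb : b ^ 2 = 1)
    (hab : b * a * b⁻¹ = a ^ (8 * k - 1)) (hgen : Subgroup.closure {a, b} = ⊤) :
    Harmonious G := by
  have hM : ((16 * k : ℕ) : ℤ) = 16 * k := by push_cast; ring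
  have hc : ((8 * k - 1 : ℕ) : ℤ) = 8 * k - 1 := by omega
  refine harmonious_twisted a b (8 * k - 1) (16 * k) (by omega) hcard ha hb hab hgen (T0 k)
    (true, 4 * (k : ℤ)) (by rw [len0 hk]; omega) (head0 hk) last0 ?_ ?_
  · intro s x h0 h1
    rw [hM] at h1 ⊢
    cases s
    · exact elems_false hk x h0 h1
    · exact elems_true hk x h0 h1
  · intro t d h0 h1
    rw [hM] at h1 ⊢
    rw [hc]
    obtain ⟨e, he⟩ : ∃ e, d = 4 * e ∨ d = 4 * e + 1 ∨ d = 4 * e + 2 ∨ d = 4 * e + 3 :=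
      ⟨d / 4, by omega⟩
    rcases he with rfl | rfl | rfl | rfl
    · cases t
      · have := prod_false_0 hk e (by omega) (by omega)
        rwa [add_zero] at this
      · have := prod_true_0 hk e (by omega) (by omega)
        rwa [add_zero] at this
    · cases t
      · exact prod_false_1 hk e (by omega) (by omega)
      · exact prod_true_1 hk e (by omega) (by omega)
    · cases t
      · exact prod_false_2 hk e (by omega) (by omega)
      · exact prod_true_2 hk e (by omega) (by omega)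
    · cases t
      · exact prod_false_3 hk e (by omega) (by omega)
      · exact prod_true_3 hk e (by omega) (by omega)

end Pool.Agent.Q132.HarmSD

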