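import Pool.Agent.Q132.TwistedGroups

/-! The group `⟨a, b | a ^ M = b ^ 2 = 1, b a b⁻¹ = a ^ c⟩` has order `2 M` if `c ^ 2 ≡ 1` and
`c ≢ 1` modulo `M`. -/

namespace Pool.Agent.Q132.Walks

/-- The relators `a ^ M`, `b ^ 2`, `b a b⁻¹ (a ^ c)⁻¹`, where `a` and `b` are the generators
`false` and `true`. -/
def rels (M c : ℕ) : Set (FreeGroup Bool) :=
  {FreeGroup.of false ^ M, FreeGroup.of true ^ 2,
    FreeGroup.of true * FreeGroup.of false * (FreeGroup.of true)⁻¹ * (FreeGroup.of false ^ c)⁻¹}

/-- the permutation `x ↦ c * x` of `ZMod M` -/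
def mulPerm (M : ℕ) (c : ZMod M) (hc : c * c = 1) : Equiv.Perm (ZMod M) where
  toFun x := c * x
  invFun x := c * x
  left_inv x := by show c * (c * x) = x; rw [← mul_assoc, hc, one_mul]
  right_inv x := by show c * (c * x) = x; rw [← mul_assoc, hc, one_mul]

theorem addPerm_pow {M : ℕ} (i : ℕ) (x : ZMod M) :
    ((Equiv.addLeft (1 : ZMod M)) ^ i) x = (i : ZMod M) + x := by
  induction i with
  | zero => simp
  | succ i ih =>
    rw [pow_succ', Equiv.Perm.mul_apply, ih, Equiv.coe_addLeft]
    push_cast
    ring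

theorem presented_facts (M c : ℕ) (hM : 1 < M) (hc : (c : ZMod M) * c = 1)
    (hc1 : (c : ZMod M) ≠ 1) :
    let P := PresentedGroup (rels M c)
    let a : P := PresentedGroup.of false
    let b : P := PresentedGroup.of true
    Nat.card P = 2 * M ∧ a ^ M = 1 ∧ b ^ 2 = 1 ∧ b * a * b⁻¹ = a ^ c ∧
      Subgroup.closure {a, b} = ⊤ := by
  intro P a b
  have ha : a ^ M = 1 := by
    have h : PresentedGroup.mk (rels M c) (FreeGroup.of false ^ M) = 1 :=
      PresentedGroup.one_of_mem (by simp [rels])
    rw [map_pow] at h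
    exact h
  have hb : b ^ 2 = 1 := by
    have h : PresentedGroup.mk (rels M c) (FreeGroup.of true ^ 2) = 1 :=
      PresentedGroup.one_of_mem (by simp [rels])
    rw [map_pow] at h
    exact h
  have hab : b * a * b⁻¹ = a ^ c := by
    have h : PresentedGroup.mk (rels M c) (FreeGroup.of true * FreeGroup.of false *
        (FreeGroup.of true)⁻¹ * (FreeGroup.of false ^ c)⁻¹) = 1 :=
      PresentedGroup.one_of_mem (by simp [rels])
    simp only [map_mul, map_inv, map_pow] at h
    exact mul_inv_eq_one.mp h
  have hgen : Subgroup.closure {a, b} = ⊤ := by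
    have h := PresentedGroup.closure_range_of (rels M c)
    rw [← h]
    congr 1
    ext x
    simp only [Set.mem_insert_iff, Set.mem_singleton_iff, Set.mem_range]
    constructor
    · rintro (rfl | rfl)
      · exact ⟨false, rfl⟩
      · exact ⟨true, rfl⟩
    · rintro ⟨s, rfl⟩
      cases s
      · exact Or.inl rfl
      · exact Or.inr rfl
  refine ⟨?_, ha, hb, hab, hgen⟩
  have : NeZero M := ⟨by omega⟩
  -- upper bound
  let F : ZMod M × Bool → P := fun p => a ^ p.1.val * (if p.2 then b else 1)
  have hsurj : Function.Surjective F := by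
    intro g
    obtain ⟨i, hi⟩ := mem_of_closure a b c hb hab hgen g
    have h1 : a ^ i = a ^ (((i : ZMod M)).val) := by
      have h2 : ((((i : ZMod M)).val : ℕ) : ℤ) = i % M := ZMod.val_intCast i
      rw [← zpow_natCast a (((i : ZMod M)).val), h2]
      rw [Int.emod_def, zpow_sub, zpow_mul, zpow_natCast, ha, one_zpow, inv_one, mul_one]
    rcases hi with rfl | rfl
    · exact ⟨(i, false), by simp [F, h1]⟩
    · exact ⟨(i, true), by simp [F, h1]⟩
  -- lower bound
  let f : Bool → Equiv.Perm (ZMod M) := fun s => if s then mulPerm M c hc else Equiv.addLeft 1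
  have hf : ∀ r ∈ rels M c, FreeGroup.lift f r = 1 := by
    intro r hr
    simp only [rels, Set.mem_insert_iff, Set.mem_singleton_iff] at hr
    rcases hr with rfl | rfl | rfl
    · ext x
      simp [f, addPerm_pow]
    · ext x
      have : (c : ZMod M) * (c * x) = x := by rw [← mul_assoc, hc, one_mul]
      simp [f, pow_two, mulPerm, this]
    · rw [map_mul, map_mul, map_mul, map_inv, map_inv, map_pow, FreeGroup.lift_apply_of,
        FreeGroup.lift_apply_of, mul_inv_eq_one, mul_inv_eq_iff_eq_mul]
      ext x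
      simp only [f, if_true, Bool.false_eq_true, if_false, Equiv.Perm.mul_apply, addPerm_pow]
      simp [mulPerm, mul_add]
  let φ : P →* Equiv.Perm (ZMod M) := PresentedGroup.toGroup hf
  have hφa : φ a = Equiv.addLeft 1 := by
    show PresentedGroup.toGroup hf (PresentedGroup.of false) = _
    rw [PresentedGroup.toGroup.of]
    rfl
  have hφb : φ b = mulPerm M c hc := by
    show PresentedGroup.toGroup hf (PresentedGroup.of true) = _
    rw [PresentedGroup.toGroup.of]
    rfl
  have hinj : Function.Injective F := by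
    rintro ⟨i, s⟩ ⟨j, t⟩ hst
    have h1 : ∀ (i : ZMod M) (s : Bool) (x : ZMod M),
        φ (F (i, s)) x = i + (if s then c * x else x) := by
      intro i s x
      simp only [F]
      rw [map_mul, map_pow, hφa, Equiv.Perm.mul_apply, addPerm_pow, ZMod.natCast_zmod_val]
      cases s
      · simp
      · simp [hφb, mulPerm]
    have h2 : φ (F (i, s)) 0 = φ (F (j, t)) 0 := by rw [hst]
    have h3 : φ (F (i, s)) 1 = φ (F (j, t)) 1 := by rw [hst]
    rw [h1, h1] at h2 h3
    have h4 : i = j := by cases s <;> cases t <;> simpa using h2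
    subst h4
    cases s <;> cases t
    · rfl
    · exfalso; apply hc1; simpa using h3.symm
    · exfalso; apply hc1; simpa using h3
    · rfl
  rw [← Nat.card_eq_of_bijective F ⟨hinj, hsurj⟩, Nat.card_prod, Nat.card_zmod,
    Nat.card_eq_fintype_card, Fintype.card_bool, mul_comm]

end Pool.Agent.Q132.Walks
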