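import Pool.Agent.Q132.Runs

/-! Generated R-sequencings of the semidihedral-type groups with cyclic part of order `16 k`, `k ≥ 2`:
a closed list of pairs `(s, x)` that stand for `a ^ x * b ^ s`, and its coverage properties. -/

namespace Pool.Agent.Q132.RSeqSD

open Pool.Agent.Q132.Walks

/-- tail 33 -/
def T33 (k : ℕ) : List (Bool × ℤ) := [(false, 12 * (k : ℤ) - 1)]
/-- tail 32 -/
def T32 (k : ℕ) : List (Bool × ℤ) := zz false true (6 * (k : ℤ) + 2) (8 * (k : ℤ)) 1 (-1) (4 * k) (T33 k)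
/-- tail 31 -/
def T31 (k : ℕ) : List (Bool × ℤ) := zz false false (16 * (k : ℤ) - 2) (12 * (k : ℤ) + 2) (-1) 1 (4 * k - 4) (T32 k)
/-- tail 30 -/
def T30 (k : ℕ) : List (Bool × ℤ) := zz false false (10 * (k : ℤ) - 2) (2 * (k : ℤ) + 3) (-1) 1 (4 * k - 7) (T31 k)
/-- tail 29 -/
def T29 (k : ℕ) : List (Bool × ℤ) := (false, 2 * (k : ℤ)) :: T30 k
/-- tail 28 -/
def T28 (k : ℕ) : List (Bool × ℤ) := (true, 4 * (k : ℤ)) :: T29 k
/-- tail 27 -/
def T27 (k : ℕ) : List (Bool × ℤ) := (false, 10 * (k : ℤ) + 2) :: T28 k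
/-- tail 26 -/
def T26 (k : ℕ) : List (Bool × ℤ) := (true, 12 * (k : ℤ) + 1) :: T27 k
/-- tail 25 -/
def T25 (k : ℕ) : List (Bool × ℤ) := zz false true (4 * (k : ℤ) + 1) (10 * (k : ℤ) - 2) 1 (-1) (4 * k - 3) (T26 k)
/-- tail 24 -/
def T24 (k : ℕ) : List (Bool × ℤ) := (false, (-1)) :: T25 k
/-- tail 23 -/
def T23 (k : ℕ) : List (Bool × ℤ) := (true, 10 * (k : ℤ) - 1) :: T24 k
/-- tail 22 -/
def T22 (k : ℕ) : List (Bool × ℤ) := (false, 4 * (k : ℤ)) :: T23 k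
/-- tail 21 -/
def T21 (k : ℕ) : List (Bool × ℤ) := (false, 12 * (k : ℤ)) :: T22 k
/-- tail 20 -/
def T20 (k : ℕ) : List (Bool × ℤ) := (false, 12 * (k : ℤ) + 1) :: T21 k
/-- tail 19 -/
def T19 (k : ℕ) : List (Bool × ℤ) := (false, 4 * (k : ℤ) - 1) :: T20 k
/-- tail 18 -/
def T18 (k : ℕ) : List (Bool × ℤ) := zz false true (2 * (k : ℤ) - 2) (12 * (k : ℤ) + 3) (-1) 1 (4 * k - 4) (T19 k)
/-- tail 17 -/
def T17 (k : ℕ) : List (Bool × ℤ) := (true, 12 * (k : ℤ) + 2) :: T18 k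
/-- tail 16 -/
def T16 (k : ℕ) : List (Bool × ℤ) := (false, 2 * (k : ℤ) - 1) :: T17 k
/-- tail 15 -/
def T15 (k : ℕ) : List (Bool × ℤ) := (false, 2 * (k : ℤ) + 2) :: T16 k
/-- tail 14 -/
def T14 (k : ℕ) : List (Bool × ℤ) := (true, 12 * (k : ℤ) - 1) :: T15 k
/-- tail 13 -/
def T13 (k : ℕ) : List (Bool × ℤ) := (false, 6 * (k : ℤ) + 1) :: T14 k
/-- tail 12 -/
def T12 (k : ℕ) : List (Bool × ℤ) := (false, 14 * (k : ℤ)) :: T13 k
/-- tail 11 -/
def T11 (k : ℕ) : List (Bool × ℤ) := (true, 1) :: T12 k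
/-- tail 10 -/
def T10 (k : ℕ) : List (Bool × ℤ) := zz true true (6 * (k : ℤ)) (10 * (k : ℤ)) (-1) 1 (4 * k - 2) (T11 k)
/-- tail 9 -/
def T9 (k : ℕ) : List (Bool × ℤ) := zz true true (16 * (k : ℤ)) (3) (-1) 1 (4 * k) (T10 k)
/-- tail 8 -/
def T8 (k : ℕ) : List (Bool × ℤ) := (false, 10 * (k : ℤ)) :: T9 k
/-- tail 7 -/
def T7 (k : ℕ) : List (Bool × ℤ) := (false, 2 * (k : ℤ) + 1) :: T8 k
/-- tail 6 -/
def T6 (k : ℕ) : List (Bool × ℤ) := (true, 12 * (k : ℤ)) :: T7 k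
/-- tail 5 -/
def T5 (k : ℕ) : List (Bool × ℤ) := (true, 4 * (k : ℤ) + 1) :: T6 k
/-- tail 4 -/
def T4 (k : ℕ) : List (Bool × ℤ) := (false, 6 * (k : ℤ)) :: T5 k
/-- tail 3 -/
def T3 (k : ℕ) : List (Bool × ℤ) := (false, 10 * (k : ℤ) + 1) :: T4 k
/-- tail 2 -/
def T2 (k : ℕ) : List (Bool × ℤ) := (false, 10 * (k : ℤ) - 1) :: T3 k
/-- tail 1 -/
def T1 (k : ℕ) : List (Bool × ℤ) := (true, 2) :: T2 k
/-- tail 0 -/
def T0 (k : ℕ) : List (Bool × ℤ) := zz false true (12 * (k : ℤ) - 1) (2 * (k : ℤ) + 3) (-1) 1 (4 * k - 6) (T1 k)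

theorem head0 {k : ℕ} (hk : 2 ≤ k) : (T0 k).head? = some (false, 12 * (k : ℤ) - 1) := head_zz (by omega)
theorem head1 {k : ℕ} (_ : 2 ≤ k) : (T1 k).head? = some (true, 2) := rfl
theorem head2 {k : ℕ} (_ : 2 ≤ k) : (T2 k).head? = some (false, 10 * (k : ℤ) - 1) := rfl
theorem head3 {k : ℕ} (_ : 2 ≤ k) : (T3 k).head? = some (false, 10 * (k : ℤ) + 1) := rfl
theorem head4 {k : ℕ} (_ : 2 ≤ k) : (T4 k).head? = some (false, 6 * (k : ℤ)) := rfl
theorem head5 {k : ℕ} (_ : 2 ≤ k) : (T5 k).head? = some (true, 4 * (k : ℤ) + 1) := rfl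
theorem head6 {k : ℕ} (_ : 2 ≤ k) : (T6 k).head? = some (true, 12 * (k : ℤ)) := rfl
theorem head7 {k : ℕ} (_ : 2 ≤ k) : (T7 k).head? = some (false, 2 * (k : ℤ) + 1) := rfl
theorem head8 {k : ℕ} (_ : 2 ≤ k) : (T8 k).head? = some (false, 10 * (k : ℤ)) := rfl
theorem head9 {k : ℕ} (hk : 2 ≤ k) : (T9 k).head? = some (true, 16 * (k : ℤ)) := head_zz (by omega)
theorem head10 {k : ℕ} (hk : 2 ≤ k) : (T10 k).head? = some (true, 6 * (k : ℤ)) := head_zz (by omega)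
theorem head11 {k : ℕ} (_ : 2 ≤ k) : (T11 k).head? = some (true, 1) := rfl
theorem head12 {k : ℕ} (_ : 2 ≤ k) : (T12 k).head? = some (false, 14 * (k : ℤ)) := rfl
theorem head13 {k : ℕ} (_ : 2 ≤ k) : (T13 k).head? = some (false, 6 * (k : ℤ) + 1) := rfl
theorem head14 {k : ℕ} (_ : 2 ≤ k) : (T14 k).head? = some (true, 12 * (k : ℤ) - 1) := rfl
theorem head15 {k : ℕ} (_ : 2 ≤ k) : (T15 k).head? = some (false, 2 * (k : ℤ) + 2) := rfl
theorem head16 {k : ℕ} (_ : 2 ≤ k) : (T16 k).head? = some (false, 2 * (k : ℤ) - 1) := rfl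
theorem head17 {k : ℕ} (_ : 2 ≤ k) : (T17 k).head? = some (true, 12 * (k : ℤ) + 2) := rfl
theorem head18 {k : ℕ} (hk : 2 ≤ k) : (T18 k).head? = some (false, 2 * (k : ℤ) - 2) := head_zz (by omega)
theorem head19 {k : ℕ} (_ : 2 ≤ k) : (T19 k).head? = some (false, 4 * (k : ℤ) - 1) := rfl
theorem head20 {k : ℕ} (_ : 2 ≤ k) : (T20 k).head? = some (false, 12 * (k : ℤ) + 1) := rfl
theorem head21 {k : ℕ} (_ : 2 ≤ k) : (T21 k).head? = some (false, 12 * (k : ℤ)) := rfl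
theorem head22 {k : ℕ} (_ : 2 ≤ k) : (T22 k).head? = some (false, 4 * (k : ℤ)) := rfl
theorem head23 {k : ℕ} (_ : 2 ≤ k) : (T23 k).head? = some (true, 10 * (k : ℤ) - 1) := rfl
theorem head24 {k : ℕ} (_ : 2 ≤ k) : (T24 k).head? = some (false, (-1)) := rfl
theorem head25 {k : ℕ} (hk : 2 ≤ k) : (T25 k).head? = some (false, 4 * (k : ℤ) + 1) := head_zz (by omega)
theorem head26 {k : ℕ} (_ : 2 ≤ k) : (T26 k).head? = some (true, 12 * (k : ℤ) + 1) := rfl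
theorem head27 {k : ℕ} (_ : 2 ≤ k) : (T27 k).head? = some (false, 10 * (k : ℤ) + 2) := rfl
theorem head28 {k : ℕ} (_ : 2 ≤ k) : (T28 k).head? = some (true, 4 * (k : ℤ)) := rfl
theorem head29 {k : ℕ} (_ : 2 ≤ k) : (T29 k).head? = some (false, 2 * (k : ℤ)) := rfl
theorem head30 {k : ℕ} (hk : 2 ≤ k) : (T30 k).head? = some (false, 10 * (k : ℤ) - 2) := head_zz (by omega)
theorem head31 {k : ℕ} (hk : 2 ≤ k) : (T31 k).head? = some (false, 16 * (k : ℤ) - 2) := head_zz (by omega)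
theorem head32 {k : ℕ} (hk : 2 ≤ k) : (T32 k).head? = some (false, 6 * (k : ℤ) + 2) := head_zz (by omega)
theorem head33 {k : ℕ} (_ : 2 ≤ k) : (T33 k).head? = some (false, 12 * (k : ℤ) - 1) := rfl

theorem sub0 {k : ℕ} {p : Bool × ℤ} (h : p ∈ T0 k) : p ∈ T0 k := h
theorem cp0 {k : ℕ} {p q : Bool × ℤ} (h : CP (T0 k) p q) : CP (T0 k) p q := h
theorem sub1 {k : ℕ} {p : Bool × ℤ} (h : p ∈ T1 k) : p ∈ T0 k := sub0 (zz_rest h)
theorem cp1 {k : ℕ} {p q : Bool × ℤ} (h : CP (T1 k) p q) : CP (T0 k) p q := cp0 (CP_zz_rest h)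
theorem sub2 {k : ℕ} {p : Bool × ℤ} (h : p ∈ T2 k) : p ∈ T0 k := sub1 (List.mem_cons_of_mem _ h)
theorem cp2 {k : ℕ} {p q : Bool × ℤ} (h : CP (T2 k) p q) : CP (T0 k) p q := cp1 (CP.cons h)
theorem sub3 {k : ℕ} {p : Bool × ℤ} (h : p ∈ T3 k) : p ∈ T0 k := sub2 (List.mem_cons_of_mem _ h)
theorem cp3 {k : ℕ} {p q : Bool × ℤ} (h : CP (T3 k) p q) : CP (T0 k) p q := cp2 (CP.cons h)
theorem sub4 {k : ℕ} {p : Bool × ℤ} (h : p ∈ T4 k) : p ∈ T0 k := sub3 (List.mem_cons_of_mem _ h)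
theorem cp4 {k : ℕ} {p q : Bool × ℤ} (h : CP (T4 k) p q) : CP (T0 k) p q := cp3 (CP.cons h)
theorem sub5 {k : ℕ} {p : Bool × ℤ} (h : p ∈ T5 k) : p ∈ T0 k := sub4 (List.mem_cons_of_mem _ h)
theorem cp5 {k : ℕ} {p q : Bool × ℤ} (h : CP (T5 k) p q) : CP (T0 k) p q := cp4 (CP.cons h)
theorem sub6 {k : ℕ} {p : Bool × ℤ} (h : p ∈ T6 k) : p ∈ T0 k := sub5 (List.mem_cons_of_mem _ h)
theorem cp6 {k : ℕ} {p q : Bool × ℤ} (h : CP (T6 k) p q) : CP (T0 k) p q := cp5 (CP.cons h)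
theorem sub7 {k : ℕ} {p : Bool × ℤ} (h : p ∈ T7 k) : p ∈ T0 k := sub6 (List.mem_cons_of_mem _ h)
theorem cp7 {k : ℕ} {p q : Bool × ℤ} (h : CP (T7 k) p q) : CP (T0 k) p q := cp6 (CP.cons h)
theorem sub8 {k : ℕ} {p : Bool × ℤ} (h : p ∈ T8 k) : p ∈ T0 k := sub7 (List.mem_cons_of_mem _ h)
theorem cp8 {k : ℕ} {p q : Bool × ℤ} (h : CP (T8 k) p q) : CP (T0 k) p q := cp7 (CP.cons h)
theorem sub9 {k : ℕ} {p : Bool × ℤ} (h : p ∈ T9 k) : p ∈ T0 k := sub8 (List.mem_cons_of_mem _ h)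
theorem cp9 {k : ℕ} {p q : Bool × ℤ} (h : CP (T9 k) p q) : CP (T0 k) p q := cp8 (CP.cons h)
theorem sub10 {k : ℕ} {p : Bool × ℤ} (h : p ∈ T10 k) : p ∈ T0 k := sub9 (zz_rest h)
theorem cp10 {k : ℕ} {p q : Bool × ℤ} (h : CP (T10 k) p q) : CP (T0 k) p q := cp9 (CP_zz_rest h)
theorem sub11 {k : ℕ} {p : Bool × ℤ} (h : p ∈ T11 k) : p ∈ T0 k := sub10 (zz_rest h)
theorem cp11 {k : ℕ} {p q : Bool × ℤ} (h : CP (T11 k) p q) : CP (T0 k) p q := cp10 (CP_zz_rest h)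
theorem sub12 {k : ℕ} {p : Bool × ℤ} (h : p ∈ T12 k) : p ∈ T0 k := sub11 (List.mem_cons_of_mem _ h)
theorem cp12 {k : ℕ} {p q : Bool × ℤ} (h : CP (T12 k) p q) : CP (T0 k) p q := cp11 (CP.cons h)
theorem sub13 {k : ℕ} {p : Bool × ℤ} (h : p ∈ T13 k) : p ∈ T0 k := sub12 (List.mem_cons_of_mem _ h)
theorem cp13 {k : ℕ} {p q : Bool × ℤ} (h : CP (T13 k) p q) : CP (T0 k) p q := cp12 (CP.cons h)
theorem sub14 {k : ℕ} {p : Bool × ℤ} (h : p ∈ T14 k) : p ∈ T0 k := sub13 (List.mem_cons_of_mem _ h)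
theorem cp14 {k : ℕ} {p q : Bool × ℤ} (h : CP (T14 k) p q) : CP (T0 k) p q := cp13 (CP.cons h)
theorem sub15 {k : ℕ} {p : Bool × ℤ} (h : p ∈ T15 k) : p ∈ T0 k := sub14 (List.mem_cons_of_mem _ h)
theorem cp15 {k : ℕ} {p q : Bool × ℤ} (h : CP (T15 k) p q) : CP (T0 k) p q := cp14 (CP.cons h)
theorem sub16 {k : ℕ} {p : Bool × ℤ} (h : p ∈ T16 k) : p ∈ T0 k := sub15 (List.mem_cons_of_mem _ h)
theorem cp16 {k : ℕ} {p q : Bool × ℤ} (h : CP (T16 k) p q) : CP (T0 k) p q := cp15 (CP.cons h)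
theorem sub17 {k : ℕ} {p : Bool × ℤ} (h : p ∈ T17 k) : p ∈ T0 k := sub16 (List.mem_cons_of_mem _ h)
theorem cp17 {k : ℕ} {p q : Bool × ℤ} (h : CP (T17 k) p q) : CP (T0 k) p q := cp16 (CP.cons h)
theorem sub18 {k : ℕ} {p : Bool × ℤ} (h : p ∈ T18 k) : p ∈ T0 k := sub17 (List.mem_cons_of_mem _ h)
theorem cp18 {k : ℕ} {p q : Bool × ℤ} (h : CP (T18 k) p q) : CP (T0 k) p q := cp17 (CP.cons h)
theorem sub19 {k : ℕ} {p : Bool × ℤ} (h : p ∈ T19 k) : p ∈ T0 k := sub18 (zz_rest h)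
theorem cp19 {k : ℕ} {p q : Bool × ℤ} (h : CP (T19 k) p q) : CP (T0 k) p q := cp18 (CP_zz_rest h)
theorem sub20 {k : ℕ} {p : Bool × ℤ} (h : p ∈ T20 k) : p ∈ T0 k := sub19 (List.mem_cons_of_mem _ h)
theorem cp20 {k : ℕ} {p q : Bool × ℤ} (h : CP (T20 k) p q) : CP (T0 k) p q := cp19 (CP.cons h)
theorem sub21 {k : ℕ} {p : Bool × ℤ} (h : p ∈ T21 k) : p ∈ T0 k := sub20 (List.mem_cons_of_mem _ h)
theorem cp21 {k : ℕ} {p q : Bool × ℤ} (h : CP (T21 k) p q) : CP (T0 k) p q := cp20 (CP.cons h)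
theorem sub22 {k : ℕ} {p : Bool × ℤ} (h : p ∈ T22 k) : p ∈ T0 k := sub21 (List.mem_cons_of_mem _ h)
theorem cp22 {k : ℕ} {p q : Bool × ℤ} (h : CP (T22 k) p q) : CP (T0 k) p q := cp21 (CP.cons h)
theorem sub23 {k : ℕ} {p : Bool × ℤ} (h : p ∈ T23 k) : p ∈ T0 k := sub22 (List.mem_cons_of_mem _ h)
theorem cp23 {k : ℕ} {p q : Bool × ℤ} (h : CP (T23 k) p q) : CP (T0 k) p q := cp22 (CP.cons h)
theorem sub24 {k : ℕ} {p : Bool × ℤ} (h : p ∈ T24 k) : p ∈ T0 k := sub23 (List.mem_cons_of_mem _ h)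
theorem cp24 {k : ℕ} {p q : Bool × ℤ} (h : CP (T24 k) p q) : CP (T0 k) p q := cp23 (CP.cons h)
theorem sub25 {k : ℕ} {p : Bool × ℤ} (h : p ∈ T25 k) : p ∈ T0 k := sub24 (List.mem_cons_of_mem _ h)
theorem cp25 {k : ℕ} {p q : Bool × ℤ} (h : CP (T25 k) p q) : CP (T0 k) p q := cp24 (CP.cons h)
theorem sub26 {k : ℕ} {p : Bool × ℤ} (h : p ∈ T26 k) : p ∈ T0 k := sub25 (zz_rest h)
theorem cp26 {k : ℕ} {p q : Bool × ℤ} (h : CP (T26 k) p q) : CP (T0 k) p q := cp25 (CP_zz_rest h)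
theorem sub27 {k : ℕ} {p : Bool × ℤ} (h : p ∈ T27 k) : p ∈ T0 k := sub26 (List.mem_cons_of_mem _ h)
theorem cp27 {k : ℕ} {p q : Bool × ℤ} (h : CP (T27 k) p q) : CP (T0 k) p q := cp26 (CP.cons h)
theorem sub28 {k : ℕ} {p : Bool × ℤ} (h : p ∈ T28 k) : p ∈ T0 k := sub27 (List.mem_cons_of_mem _ h)
theorem cp28 {k : ℕ} {p q : Bool × ℤ} (h : CP (T28 k) p q) : CP (T0 k) p q := cp27 (CP.cons h)
theorem sub29 {k : ℕ} {p : Bool × ℤ} (h : p ∈ T29 k) : p ∈ T0 k := sub28 (List.mem_cons_of_mem _ h)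
theorem cp29 {k : ℕ} {p q : Bool × ℤ} (h : CP (T29 k) p q) : CP (T0 k) p q := cp28 (CP.cons h)
theorem sub30 {k : ℕ} {p : Bool × ℤ} (h : p ∈ T30 k) : p ∈ T0 k := sub29 (List.mem_cons_of_mem _ h)
theorem cp30 {k : ℕ} {p q : Bool × ℤ} (h : CP (T30 k) p q) : CP (T0 k) p q := cp29 (CP.cons h)
theorem sub31 {k : ℕ} {p : Bool × ℤ} (h : p ∈ T31 k) : p ∈ T0 k := sub30 (zz_rest h)
theorem cp31 {k : ℕ} {p q : Bool × ℤ} (h : CP (T31 k) p q) : CP (T0 k) p q := cp30 (CP_zz_rest h)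
theorem sub32 {k : ℕ} {p : Bool × ℤ} (h : p ∈ T32 k) : p ∈ T0 k := sub31 (zz_rest h)
theorem cp32 {k : ℕ} {p q : Bool × ℤ} (h : CP (T32 k) p q) : CP (T0 k) p q := cp31 (CP_zz_rest h)
theorem sub33 {k : ℕ} {p : Bool × ℤ} (h : p ∈ T33 k) : p ∈ T0 k := sub32 (zz_rest h)
theorem cp33 {k : ℕ} {p q : Bool × ℤ} (h : CP (T33 k) p q) : CP (T0 k) p q := cp32 (CP_zz_rest h)

theorem last33 {k : ℕ} : (T33 k).getLast? = some (false, 12 * (k : ℤ) - 1) := rfl
theorem last32 {k : ℕ} : (T32 k).getLast? = some (false, 12 * (k : ℤ) - 1) := ends_zz last33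
theorem last31 {k : ℕ} : (T31 k).getLast? = some (false, 12 * (k : ℤ) - 1) := ends_zz last32
theorem last30 {k : ℕ} : (T30 k).getLast? = some (false, 12 * (k : ℤ) - 1) := ends_zz last31
theorem last29 {k : ℕ} : (T29 k).getLast? = some (false, 12 * (k : ℤ) - 1) := ends_cons last30
theorem last28 {k : ℕ} : (T28 k).getLast? = some (false, 12 * (k : ℤ) - 1) := ends_cons last29
theorem last27 {k : ℕ} : (T27 k).getLast? = some (false, 12 * (k : ℤ) - 1) := ends_cons last28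
theorem last26 {k : ℕ} : (T26 k).getLast? = some (false, 12 * (k : ℤ) - 1) := ends_cons last27
theorem last25 {k : ℕ} : (T25 k).getLast? = some (false, 12 * (k : ℤ) - 1) := ends_zz last26
theorem last24 {k : ℕ} : (T24 k).getLast? = some (false, 12 * (k : ℤ) - 1) := ends_cons last25
theorem last23 {k : ℕ} : (T23 k).getLast? = some (false, 12 * (k : ℤ) - 1) := ends_cons last24
theorem last22 {k : ℕ} : (T22 k).getLast? = some (false, 12 * (k : ℤ) - 1) := ends_cons last23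
theorem last21 {k : ℕ} : (T21 k).getLast? = some (false, 12 * (k : ℤ) - 1) := ends_cons last22
theorem last20 {k : ℕ} : (T20 k).getLast? = some (false, 12 * (k : ℤ) - 1) := ends_cons last21
theorem last19 {k : ℕ} : (T19 k).getLast? = some (false, 12 * (k : ℤ) - 1) := ends_cons last20
theorem last18 {k : ℕ} : (T18 k).getLast? = some (false, 12 * (k : ℤ) - 1) := ends_zz last19
theorem last17 {k : ℕ} : (T17 k).getLast? = some (false, 12 * (k : ℤ) - 1) := ends_cons last18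
theorem last16 {k : ℕ} : (T16 k).getLast? = some (false, 12 * (k : ℤ) - 1) := ends_cons last17
theorem last15 {k : ℕ} : (T15 k).getLast? = some (false, 12 * (k : ℤ) - 1) := ends_cons last16
theorem last14 {k : ℕ} : (T14 k).getLast? = some (false, 12 * (k : ℤ) - 1) := ends_cons last15
theorem last13 {k : ℕ} : (T13 k).getLast? = some (false, 12 * (k : ℤ) - 1) := ends_cons last14
theorem last12 {k : ℕ} : (T12 k).getLast? = some (false, 12 * (k : ℤ) - 1) := ends_cons last13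
theorem last11 {k : ℕ} : (T11 k).getLast? = some (false, 12 * (k : ℤ) - 1) := ends_cons last12
theorem last10 {k : ℕ} : (T10 k).getLast? = some (false, 12 * (k : ℤ) - 1) := ends_zz last11
theorem last9 {k : ℕ} : (T9 k).getLast? = some (false, 12 * (k : ℤ) - 1) := ends_zz last10
theorem last8 {k : ℕ} : (T8 k).getLast? = some (false, 12 * (k : ℤ) - 1) := ends_cons last9
theorem last7 {k : ℕ} : (T7 k).getLast? = some (false, 12 * (k : ℤ) - 1) := ends_cons last8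
theorem last6 {k : ℕ} : (T6 k).getLast? = some (false, 12 * (k : ℤ) - 1) := ends_cons last7
theorem last5 {k : ℕ} : (T5 k).getLast? = some (false, 12 * (k : ℤ) - 1) := ends_cons last6
theorem last4 {k : ℕ} : (T4 k).getLast? = some (false, 12 * (k : ℤ) - 1) := ends_cons last5
theorem last3 {k : ℕ} : (T3 k).getLast? = some (false, 12 * (k : ℤ) - 1) := ends_cons last4
theorem last2 {k : ℕ} : (T2 k).getLast? = some (false, 12 * (k : ℤ) - 1) := ends_cons last3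
theorem last1 {k : ℕ} : (T1 k).getLast? = some (false, 12 * (k : ℤ) - 1) := ends_cons last2
theorem last0 {k : ℕ} : (T0 k).getLast? = some (false, 12 * (k : ℤ) - 1) := ends_zz last1

theorem len33 {k : ℕ} : (T33 k).length = 1 := rfl
theorem len32 {k : ℕ} (hk : 2 ≤ k) : (T32 k).length = 4 * k + 1 := by
  rw [T32, zz_length, len33]
  all_goals omega
theorem len31 {k : ℕ} (hk : 2 ≤ k) : (T31 k).length = 8 * k - 3 := by
  rw [T31, zz_length, len32 hk]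
  all_goals omega
theorem len30 {k : ℕ} (hk : 2 ≤ k) : (T30 k).length = 12 * k - 10 := by
  rw [T30, zz_length, len31 hk]
  all_goals omega
theorem len29 {k : ℕ} (hk : 2 ≤ k) : (T29 k).length = 12 * k - 9 := by
  rw [T29, List.length_cons, len30 hk]
  all_goals omega
theorem len28 {k : ℕ} (hk : 2 ≤ k) : (T28 k).length = 12 * k - 8 := by
  rw [T28, List.length_cons, len29 hk]
  all_goals omega
theorem len27 {k : ℕ} (hk : 2 ≤ k) : (T27 k).length = 12 * k - 7 := by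
  rw [T27, List.length_cons, len28 hk]
  all_goals omega
theorem len26 {k : ℕ} (hk : 2 ≤ k) : (T26 k).length = 12 * k - 6 := by
  rw [T26, List.length_cons, len27 hk]
  all_goals omega
theorem len25 {k : ℕ} (hk : 2 ≤ k) : (T25 k).length = 16 * k - 9 := by
  rw [T25, zz_length, len26 hk]
  all_goals omega
theorem len24 {k : ℕ} (hk : 2 ≤ k) : (T24 k).length = 16 * k - 8 := by
  rw [T24, List.length_cons, len25 hk]
  all_goals omega
theorem len23 {k : ℕ} (hk : 2 ≤ k) : (T23 k).length = 16 * k - 7 := by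
  rw [T23, List.length_cons, len24 hk]
  all_goals omega
theorem len22 {k : ℕ} (hk : 2 ≤ k) : (T22 k).length = 16 * k - 6 := by
  rw [T22, List.length_cons, len23 hk]
  all_goals omega
theorem len21 {k : ℕ} (hk : 2 ≤ k) : (T21 k).length = 16 * k - 5 := by
  rw [T21, List.length_cons, len22 hk]
  all_goals omega
theorem len20 {k : ℕ} (hk : 2 ≤ k) : (T20 k).length = 16 * k - 4 := by
  rw [T20, List.length_cons, len21 hk]
  all_goals omega
theorem len19 {k : ℕ} (hk : 2 ≤ k) : (T19 k).length = 16 * k - 3 := by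
  rw [T19, List.length_cons, len20 hk]
  all_goals omega
theorem len18 {k : ℕ} (hk : 2 ≤ k) : (T18 k).length = 20 * k - 7 := by
  rw [T18, zz_length, len19 hk]
  all_goals omega
theorem len17 {k : ℕ} (hk : 2 ≤ k) : (T17 k).length = 20 * k - 6 := by
  rw [T17, List.length_cons, len18 hk]
  all_goals omega
theorem len16 {k : ℕ} (hk : 2 ≤ k) : (T16 k).length = 20 * k - 5 := by
  rw [T16, List.length_cons, len17 hk]
  all_goals omega
theorem len15 {k : ℕ} (hk : 2 ≤ k) : (T15 k).length = 20 * k - 4 := by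
  rw [T15, List.length_cons, len16 hk]
  all_goals omega
theorem len14 {k : ℕ} (hk : 2 ≤ k) : (T14 k).length = 20 * k - 3 := by
  rw [T14, List.length_cons, len15 hk]
  all_goals omega
theorem len13 {k : ℕ} (hk : 2 ≤ k) : (T13 k).length = 20 * k - 2 := by
  rw [T13, List.length_cons, len14 hk]
  all_goals omega
theorem len12 {k : ℕ} (hk : 2 ≤ k) : (T12 k).length = 20 * k - 1 := by
  rw [T12, List.length_cons, len13 hk]
  all_goals omega
theorem len11 {k : ℕ} (hk : 2 ≤ k) : (T11 k).length = 20 * k := by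
  rw [T11, List.length_cons, len12 hk]
  all_goals omega
theorem len10 {k : ℕ} (hk : 2 ≤ k) : (T10 k).length = 24 * k - 2 := by
  rw [T10, zz_length, len11 hk]
  all_goals omega
theorem len9 {k : ℕ} (hk : 2 ≤ k) : (T9 k).length = 28 * k - 2 := by
  rw [T9, zz_length, len10 hk]
  all_goals omega
theorem len8 {k : ℕ} (hk : 2 ≤ k) : (T8 k).length = 28 * k - 1 := by
  rw [T8, List.length_cons, len9 hk]
  all_goals omega
theorem len7 {k : ℕ} (hk : 2 ≤ k) : (T7 k).length = 28 * k := by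
  rw [T7, List.length_cons, len8 hk]
  all_goals omega
theorem len6 {k : ℕ} (hk : 2 ≤ k) : (T6 k).length = 28 * k + 1 := by
  rw [T6, List.length_cons, len7 hk]
  all_goals omega
theorem len5 {k : ℕ} (hk : 2 ≤ k) : (T5 k).length = 28 * k + 2 := by
  rw [T5, List.length_cons, len6 hk]
  all_goals omega
theorem len4 {k : ℕ} (hk : 2 ≤ k) : (T4 k).length = 28 * k + 3 := by
  rw [T4, List.length_cons, len5 hk]
  all_goals omega
theorem len3 {k : ℕ} (hk : 2 ≤ k) : (T3 k).length = 28 * k + 4 := by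
  rw [T3, List.length_cons, len4 hk]
  all_goals omega
theorem len2 {k : ℕ} (hk : 2 ≤ k) : (T2 k).length = 28 * k + 5 := by
  rw [T2, List.length_cons, len3 hk]
  all_goals omega
theorem len1 {k : ℕ} (hk : 2 ≤ k) : (T1 k).length = 28 * k + 6 := by
  rw [T1, List.length_cons, len2 hk]
  all_goals omega
theorem len0 {k : ℕ} (hk : 2 ≤ k) : (T0 k).length = 32 * k := by
  rw [T0, zz_length, len1 hk]
  all_goals omega

theorem jun0 {k : ℕ} (hk : 2 ≤ k) : CP (T0 k) (true, 4 * (k : ℤ) - 1) (true, 2) := by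
  exact cp0 (lastEven' (2 * k - 4) (by omega) (head1 hk) (by omega))
theorem jun1 {k : ℕ} (hk : 2 ≤ k) : CP (T0 k) (true, 2) (false, 10 * (k : ℤ) - 1) := by
  exact cp1 (lastCons (head2 hk))
theorem jun2 {k : ℕ} (hk : 2 ≤ k) : CP (T0 k) (false, 10 * (k : ℤ) - 1) (false, 10 * (k : ℤ) + 1) := by
  exact cp2 (lastCons (head3 hk))
theorem jun3 {k : ℕ} (hk : 2 ≤ k) : CP (T0 k) (false, 10 * (k : ℤ) + 1) (false, 6 * (k : ℤ)) := by
  exact cp3 (lastCons (head4 hk))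
theorem jun4 {k : ℕ} (hk : 2 ≤ k) : CP (T0 k) (false, 6 * (k : ℤ)) (true, 4 * (k : ℤ) + 1) := by
  exact cp4 (lastCons (head5 hk))
theorem jun5 {k : ℕ} (hk : 2 ≤ k) : CP (T0 k) (true, 4 * (k : ℤ) + 1) (true, 12 * (k : ℤ)) := by
  exact cp5 (lastCons (head6 hk))
theorem jun6 {k : ℕ} (hk : 2 ≤ k) : CP (T0 k) (true, 12 * (k : ℤ)) (false, 2 * (k : ℤ) + 1) := by
  exact cp6 (lastCons (head7 hk))
theorem jun7 {k : ℕ} (hk : 2 ≤ k) : CP (T0 k) (false, 2 * (k : ℤ) + 1) (false, 10 * (k : ℤ)) := by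
  exact cp7 (lastCons (head8 hk))
theorem jun8 {k : ℕ} (hk : 2 ≤ k) : CP (T0 k) (false, 10 * (k : ℤ)) (true, 16 * (k : ℤ)) := by
  exact cp8 (lastCons (head9 hk))
theorem jun9 {k : ℕ} (hk : 2 ≤ k) : CP (T0 k) (true, 2 * (k : ℤ) + 2) (true, 6 * (k : ℤ)) := by
  exact cp9 (lastEven' (2 * k - 1) (by omega) (head10 hk) (by omega))
theorem jun10 {k : ℕ} (hk : 2 ≤ k) : CP (T0 k) (true, 12 * (k : ℤ) - 2) (true, 1) := by
  exact cp10 (lastEven' (2 * k - 2) (by omega) (head11 hk) (by omega))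
theorem jun11 {k : ℕ} (hk : 2 ≤ k) : CP (T0 k) (true, 1) (false, 14 * (k : ℤ)) := by
  exact cp11 (lastCons (head12 hk))
theorem jun12 {k : ℕ} (hk : 2 ≤ k) : CP (T0 k) (false, 14 * (k : ℤ)) (false, 6 * (k : ℤ) + 1) := by
  exact cp12 (lastCons (head13 hk))
theorem jun13 {k : ℕ} (hk : 2 ≤ k) : CP (T0 k) (false, 6 * (k : ℤ) + 1) (true, 12 * (k : ℤ) - 1) := by
  exact cp13 (lastCons (head14 hk))
theorem jun14 {k : ℕ} (hk : 2 ≤ k) : CP (T0 k) (true, 12 * (k : ℤ) - 1) (false, 2 * (k : ℤ) + 2) := by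
  exact cp14 (lastCons (head15 hk))
theorem jun15 {k : ℕ} (hk : 2 ≤ k) : CP (T0 k) (false, 2 * (k : ℤ) + 2) (false, 2 * (k : ℤ) - 1) := by
  exact cp15 (lastCons (head16 hk))
theorem jun16 {k : ℕ} (hk : 2 ≤ k) : CP (T0 k) (false, 2 * (k : ℤ) - 1) (true, 12 * (k : ℤ) + 2) := by
  exact cp16 (lastCons (head17 hk))
theorem jun17 {k : ℕ} (hk : 2 ≤ k) : CP (T0 k) (true, 12 * (k : ℤ) + 2) (false, 2 * (k : ℤ) - 2) := by
  exact cp17 (lastCons (head18 hk))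
theorem jun18 {k : ℕ} (hk : 2 ≤ k) : CP (T0 k) (true, 14 * (k : ℤ)) (false, 4 * (k : ℤ) - 1) := by
  exact cp18 (lastEven' (2 * k - 3) (by omega) (head19 hk) (by omega))
theorem jun19 {k : ℕ} (hk : 2 ≤ k) : CP (T0 k) (false, 4 * (k : ℤ) - 1) (false, 12 * (k : ℤ) + 1) := by
  exact cp19 (lastCons (head20 hk))
theorem jun20 {k : ℕ} (hk : 2 ≤ k) : CP (T0 k) (false, 12 * (k : ℤ) + 1) (false, 12 * (k : ℤ)) := by
  exact cp20 (lastCons (head21 hk))
theorem jun21 {k : ℕ} (hk : 2 ≤ k) : CP (T0 k) (false, 12 * (k : ℤ)) (false, 4 * (k : ℤ)) := by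
  exact cp21 (lastCons (head22 hk))
theorem jun22 {k : ℕ} (hk : 2 ≤ k) : CP (T0 k) (false, 4 * (k : ℤ)) (true, 10 * (k : ℤ) - 1) := by
  exact cp22 (lastCons (head23 hk))
theorem jun23 {k : ℕ} (hk : 2 ≤ k) : CP (T0 k) (true, 10 * (k : ℤ) - 1) (false, (-1)) := by
  exact cp23 (lastCons (head24 hk))
theorem jun24 {k : ℕ} (hk : 2 ≤ k) : CP (T0 k) (false, (-1)) (false, 4 * (k : ℤ) + 1) := by
  exact cp24 (lastCons (head25 hk))
theorem jun25 {k : ℕ} (hk : 2 ≤ k) : CP (T0 k) (false, 6 * (k : ℤ) - 1) (true, 12 * (k : ℤ) + 1) := by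
  exact cp25 (lastOdd' (2 * k - 2) (by omega) (head26 hk) (by omega))
theorem jun26 {k : ℕ} (hk : 2 ≤ k) : CP (T0 k) (true, 12 * (k : ℤ) + 1) (false, 10 * (k : ℤ) + 2) := by
  exact cp26 (lastCons (head27 hk))
theorem jun27 {k : ℕ} (hk : 2 ≤ k) : CP (T0 k) (false, 10 * (k : ℤ) + 2) (true, 4 * (k : ℤ)) := by
  exact cp27 (lastCons (head28 hk))
theorem jun28 {k : ℕ} (hk : 2 ≤ k) : CP (T0 k) (true, 4 * (k : ℤ)) (false, 2 * (k : ℤ)) := by
  exact cp28 (lastCons (head29 hk))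
theorem jun29 {k : ℕ} (hk : 2 ≤ k) : CP (T0 k) (false, 2 * (k : ℤ)) (false, 10 * (k : ℤ) - 2) := by
  exact cp29 (lastCons (head30 hk))
theorem jun30 {k : ℕ} (hk : 2 ≤ k) : CP (T0 k) (false, 8 * (k : ℤ) + 2) (false, 16 * (k : ℤ) - 2) := by
  exact cp30 (lastOdd' (2 * k - 4) (by omega) (head31 hk) (by omega))
theorem jun31 {k : ℕ} (hk : 2 ≤ k) : CP (T0 k) (false, 14 * (k : ℤ) - 1) (false, 6 * (k : ℤ) + 2) := by
  exact cp31 (lastEven' (2 * k - 3) (by omega) (head32 hk) (by omega))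
theorem jun32 {k : ℕ} (hk : 2 ≤ k) : CP (T0 k) (true, 6 * (k : ℤ) + 1) (false, 12 * (k : ℤ) - 1) := by
  exact cp32 (lastEven' (2 * k - 1) (by omega) (head33 hk) (by omega))

theorem elems_false {k : ℕ} (hk : 2 ≤ k) (x : ℤ) (h0 : 0 ≤ x) (h1 : x < 16 * k) (hx : x ≠ 0) :
    EC (16 * k) (T0 k) false x := by
  rcases lt_or_ge (0) x with g0 | g0
  swap
  · omega
  rcases lt_or_ge (2 * (k : ℤ) - 2) x with g1 | g1
  swap
  · exact EC.intro (y := x + 0 * (16 * k)) (sub18 (memA' (by omega) (by omega))) 0 rfl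
  clear g0
  rcases lt_or_ge (2 * (k : ℤ) - 1) x with g2 | g2
  swap
  · exact EC.intro (y := 2 * (k : ℤ) - 1) (sub16 List.mem_cons_self) 0 (by omega)
  clear g1
  rcases lt_or_ge (2 * (k : ℤ)) x with g3 | g3
  swap
  · exact EC.intro (y := 2 * (k : ℤ)) (sub29 List.mem_cons_self) 0 (by omega)
  clear g2
  rcases lt_or_ge (2 * (k : ℤ) + 1) x with g4 | g4
  swap
  · exact EC.intro (y := 2 * (k : ℤ) + 1) (sub7 List.mem_cons_self) 0 (by omega)
  clear g3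
  rcases lt_or_ge (2 * (k : ℤ) + 2) x with g5 | g5
  swap
  · exact EC.intro (y := 2 * (k : ℤ) + 2) (sub15 List.mem_cons_self) 0 (by omega)
  clear g4
  rcases lt_or_ge (4 * (k : ℤ) - 2) x with g6 | g6
  swap
  · exact EC.intro (y := x + 0 * (16 * k)) (sub30 (memB (by omega) (by omega))) 0 rfl
  clear g5
  rcases lt_or_ge (4 * (k : ℤ) - 1) x with g7 | g7
  swap
  · exact EC.intro (y := 4 * (k : ℤ) - 1) (sub19 List.mem_cons_self) 0 (by omega)
  clear g6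
  rcases lt_or_ge (4 * (k : ℤ)) x with g8 | g8
  swap
  · exact EC.intro (y := 4 * (k : ℤ)) (sub22 List.mem_cons_self) 0 (by omega)
  clear g7
  rcases lt_or_ge (6 * (k : ℤ) - 1) x with g9 | g9
  swap
  · exact EC.intro (y := x + 0 * (16 * k)) (sub25 (memA (by omega) (by omega))) 0 rfl
  clear g8
  rcases lt_or_ge (6 * (k : ℤ)) x with g10 | g10
  swap
  · exact EC.intro (y := 6 * (k : ℤ)) (sub4 List.mem_cons_self) 0 (by omega)
  clear g9
  rcases lt_or_ge (6 * (k : ℤ) + 1) x with g11 | g11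
  swap
  · exact EC.intro (y := 6 * (k : ℤ) + 1) (sub13 List.mem_cons_self) 0 (by omega)
  clear g10
  rcases lt_or_ge (8 * (k : ℤ) + 1) x with g12 | g12
  swap
  · exact EC.intro (y := x + 0 * (16 * k)) (sub32 (memA (by omega) (by omega))) 0 rfl
  clear g11
  rcases lt_or_ge (10 * (k : ℤ) - 2) x with g13 | g13
  swap
  · exact EC.intro (y := x + 0 * (16 * k)) (sub30 (memA' (by omega) (by omega))) 0 rfl
  clear g12
  rcases lt_or_ge (10 * (k : ℤ) - 1) x with g14 | g14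
  swap
  · exact EC.intro (y := 10 * (k : ℤ) - 1) (sub2 List.mem_cons_self) 0 (by omega)
  clear g13
  rcases lt_or_ge (10 * (k : ℤ)) x with g15 | g15
  swap
  · exact EC.intro (y := 10 * (k : ℤ)) (sub8 List.mem_cons_self) 0 (by omega)
  clear g14
  rcases lt_or_ge (10 * (k : ℤ) + 1) x with g16 | g16
  swap
  · exact EC.intro (y := 10 * (k : ℤ) + 1) (sub3 List.mem_cons_self) 0 (by omega)
  clear g15
  rcases lt_or_ge (10 * (k : ℤ) + 2) x with g17 | g17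
  swap
  · exact EC.intro (y := 10 * (k : ℤ) + 2) (sub27 List.mem_cons_self) 0 (by omega)
  clear g16
  rcases lt_or_ge (12 * (k : ℤ) - 1) x with g18 | g18
  swap
  · exact EC.intro (y := x + 0 * (16 * k)) (sub0 (memA' (by omega) (by omega))) 0 rfl
  clear g17
  rcases lt_or_ge (12 * (k : ℤ)) x with g19 | g19
  swap
  · exact EC.intro (y := 12 * (k : ℤ)) (sub21 List.mem_cons_self) 0 (by omega)
  clear g18
  rcases lt_or_ge (12 * (k : ℤ) + 1) x with g20 | g20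
  swap
  · exact EC.intro (y := 12 * (k : ℤ) + 1) (sub20 List.mem_cons_self) 0 (by omega)
  clear g19
  rcases lt_or_ge (14 * (k : ℤ) - 1) x with g21 | g21
  swap
  · exact EC.intro (y := x + 0 * (16 * k)) (sub31 (memB (by omega) (by omega))) 0 rfl
  clear g20
  rcases lt_or_ge (14 * (k : ℤ)) x with g22 | g22
  swap
  · exact EC.intro (y := 14 * (k : ℤ)) (sub12 List.mem_cons_self) 0 (by omega)
  clear g21
  rcases lt_or_ge (16 * (k : ℤ) - 2) x with g23 | g23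
  swap
  · exact EC.intro (y := x + 0 * (16 * k)) (sub31 (memA' (by omega) (by omega))) 0 rfl
  clear g22
  exact EC.intro (y := (-1)) (sub24 List.mem_cons_self) (-1) (by omega)

theorem elems_true {k : ℕ} (hk : 2 ≤ k) (x : ℤ) (h0 : 0 ≤ x) (h1 : x < 16 * k) :
    EC (16 * k) (T0 k) true x := by
  rcases lt_or_ge (0) x with g0 | g0
  swap
  · exact EC.intro (y := x + 1 * (16 * k)) (sub9 (memA' (by omega) (by omega))) 1 rfl
  rcases lt_or_ge (1) x with g1 | g1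
  swap
  · exact EC.intro (y := 1) (sub11 List.mem_cons_self) 0 (by omega)
  clear g0
  rcases lt_or_ge (2) x with g2 | g2
  swap
  · exact EC.intro (y := 2) (sub1 List.mem_cons_self) 0 (by omega)
  clear g1
  rcases lt_or_ge (2 * (k : ℤ) + 2) x with g3 | g3
  swap
  · exact EC.intro (y := x + 0 * (16 * k)) (sub9 (memB (by omega) (by omega))) 0 rfl
  clear g2
  rcases lt_or_ge (4 * (k : ℤ) - 1) x with g4 | g4
  swap
  · exact EC.intro (y := x + 0 * (16 * k)) (sub0 (memB (by omega) (by omega))) 0 rfl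
  clear g3
  rcases lt_or_ge (4 * (k : ℤ)) x with g5 | g5
  swap
  · exact EC.intro (y := 4 * (k : ℤ)) (sub28 List.mem_cons_self) 0 (by omega)
  clear g4
  rcases lt_or_ge (4 * (k : ℤ) + 1) x with g6 | g6
  swap
  · exact EC.intro (y := 4 * (k : ℤ) + 1) (sub5 List.mem_cons_self) 0 (by omega)
  clear g5
  rcases lt_or_ge (6 * (k : ℤ)) x with g7 | g7
  swap
  · exact EC.intro (y := x + 0 * (16 * k)) (sub10 (memA' (by omega) (by omega))) 0 rfl
  clear g6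
  rcases lt_or_ge (8 * (k : ℤ)) x with g8 | g8
  swap
  · exact EC.intro (y := x + 0 * (16 * k)) (sub32 (memB' (by omega) (by omega))) 0 rfl
  clear g7
  rcases lt_or_ge (10 * (k : ℤ) - 2) x with g9 | g9
  swap
  · exact EC.intro (y := x + 0 * (16 * k)) (sub25 (memB' (by omega) (by omega))) 0 rfl
  clear g8
  rcases lt_or_ge (10 * (k : ℤ) - 1) x with g10 | g10
  swap
  · exact EC.intro (y := 10 * (k : ℤ) - 1) (sub23 List.mem_cons_self) 0 (by omega)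
  clear g9
  rcases lt_or_ge (12 * (k : ℤ) - 2) x with g11 | g11
  swap
  · exact EC.intro (y := x + 0 * (16 * k)) (sub10 (memB (by omega) (by omega))) 0 rfl
  clear g10
  rcases lt_or_ge (12 * (k : ℤ) - 1) x with g12 | g12
  swap
  · exact EC.intro (y := 12 * (k : ℤ) - 1) (sub14 List.mem_cons_self) 0 (by omega)
  clear g11
  rcases lt_or_ge (12 * (k : ℤ)) x with g13 | g13
  swap
  · exact EC.intro (y := 12 * (k : ℤ)) (sub6 List.mem_cons_self) 0 (by omega)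
  clear g12
  rcases lt_or_ge (12 * (k : ℤ) + 1) x with g14 | g14
  swap
  · exact EC.intro (y := 12 * (k : ℤ) + 1) (sub26 List.mem_cons_self) 0 (by omega)
  clear g13
  rcases lt_or_ge (12 * (k : ℤ) + 2) x with g15 | g15
  swap
  · exact EC.intro (y := 12 * (k : ℤ) + 2) (sub17 List.mem_cons_self) 0 (by omega)
  clear g14
  rcases lt_or_ge (14 * (k : ℤ)) x with g16 | g16
  swap
  · exact EC.intro (y := x + 0 * (16 * k)) (sub18 (memB (by omega) (by omega))) 0 rfl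
  clear g15
  exact EC.intro (y := x + 0 * (16 * k)) (sub9 (memA' (by omega) (by omega))) 0 rfl

theorem quo_false_0 {k : ℕ} (hk : 2 ≤ k) (e : ℤ) (h0 : 0 ≤ e) (h1 : e < 8 * k) (hx : e ≠ 0) :
    QC (8 * k - 1) (16 * k) (T0 k) false (2 * e) := by
  rcases lt_or_ge (0) e with g0 | g0
  swap
  · omega
  rcases lt_or_ge (1) e with g1 | g1
  swap
  · exact QC.ofF (jun2 hk) 0 (by omega)
  clear g0
  rcases lt_or_ge (2 * (k : ℤ)) e with g2 | g2
  swap
  · exact QC.sdE (cp9 (runV2 (e - (2)) (by omega) (by omega))) rfl ((8 * (k : ℤ) - 2) - (e - (2))) (-1) (by ring) (by ring)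
  clear g1
  rcases lt_or_ge (2 * (k : ℤ) + 1) e with g3 | g3
  swap
  · exact QC.ofF (jun24 hk) 0 (by omega)
  clear g2
  rcases lt_or_ge (4 * (k : ℤ) - 3) e with g4 | g4
  swap
  · exact QC.ofF (cp30 (runV2 ((4 * (k : ℤ) - 3) - e) (by omega) (by omega))) 0 (by ring)
  clear g3
  rcases lt_or_ge (4 * (k : ℤ) - 2) e with g5 | g5
  swap
  · exact QC.ofF (jun30 hk) 0 (by omega)
  clear g4
  rcases lt_or_ge (4 * (k : ℤ) - 1) e with g6 | g6
  swap
  · exact QC.ofF (jun29 hk) 0 (by omega)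
  clear g5
  rcases lt_or_ge (4 * (k : ℤ)) e with g7 | g7
  swap
  · exact QC.ofF (jun21 hk) (-1) (by omega)
  clear g6
  rcases lt_or_ge (4 * (k : ℤ) + 1) e with g8 | g8
  swap
  · exact QC.ofF (jun19 hk) 0 (by omega)
  clear g7
  rcases lt_or_ge (6 * (k : ℤ)) e with g9 | g9
  swap
  · exact QC.sdE (cp10 (runV1 ((6 * (k : ℤ)) - e) (by omega) (by omega))) rfl ((2 * (k : ℤ)) + ((6 * (k : ℤ)) - e)) (-1) (by ring) (by ring)
  clear g8
  rcases lt_or_ge (6 * (k : ℤ) + 1) e with g10 | g10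
  swap
  · exact QC.sdE (jun9 hk) rfl (2 * (k : ℤ) - 1) (-1) (by omega) (by omega)
  clear g9
  exact QC.ofF (cp31 (runV1 (e - (6 * (k : ℤ) + 2)) (by omega) (by omega))) (-1) (by ring)

theorem quo_false_1 {k : ℕ} (hk : 2 ≤ k) (e : ℤ) (h0 : 0 ≤ e) (h1 : e < 8 * k) :
    QC (8 * k - 1) (16 * k) (T0 k) false (2 * e + 1) := by
  rcases lt_or_ge (0) e with g0 | g0
  swap
  · exact QC.sdO (jun5 hk) rfl (4 * (k : ℤ) - 1) 0 (by omega) (by omega)
  rcases lt_or_ge (2 * (k : ℤ) - 3) e with g1 | g1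
  swap
  · exact QC.ofF (cp31 (runV2 ((2 * (k : ℤ) - 3) - e) (by omega) (by omega))) 0 (by ring)
  clear g0
  rcases lt_or_ge (2 * (k : ℤ) - 2) e with g2 | g2
  swap
  · exact QC.sdO (jun10 hk) rfl (-6 * (k : ℤ) + 1) 1 (by omega) (by omega)
  clear g1
  rcases lt_or_ge (4 * (k : ℤ) - 2) e with g3 | g3
  swap
  · exact QC.sdO (cp9 (runV1 ((4 * (k : ℤ) - 2) - e) (by omega) (by omega))) rfl ((-8 * (k : ℤ) + 1) + ((4 * (k : ℤ) - 2) - e)) 1 (by ring) (by ring)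
  clear g2
  rcases lt_or_ge (4 * (k : ℤ) - 1) e with g4 | g4
  swap
  · exact QC.ofF (jun7 hk) 0 (by omega)
  clear g3
  rcases lt_or_ge (4 * (k : ℤ)) e with g5 | g5
  swap
  · exact QC.ofF (jun12 hk) (-1) (by omega)
  clear g4
  rcases lt_or_ge (4 * (k : ℤ) + 1) e with g6 | g6
  swap
  · exact QC.ofF (jun31 hk) (-1) (by omega)
  clear g5
  rcases lt_or_ge (6 * (k : ℤ) - 3) e with g7 | g7
  swap
  · exact QC.ofF (cp30 (runV1 (e - (4 * (k : ℤ) + 2)) (by omega) (by omega))) (-1) (by ring)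
  clear g6
  rcases lt_or_ge (6 * (k : ℤ) - 2) e with g8 | g8
  swap
  · exact QC.sdO (jun0 hk) rfl (-2 * (k : ℤ) + 1) 0 (by omega) (by omega)
  clear g7
  rcases lt_or_ge (6 * (k : ℤ) - 1) e with g9 | g9
  swap
  · exact QC.ofF (jun3 hk) (-1) (by omega)
  clear g8
  rcases lt_or_ge (8 * (k : ℤ) - 3) e with g10 | g10
  swap
  · exact QC.sdO (cp10 (runV2 (e - (6 * (k : ℤ))) (by omega) (by omega))) rfl ((-2 * (k : ℤ) - 1) - (e - (6 * (k : ℤ)))) 0 (by ring) (by ring)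
  clear g9
  rcases lt_or_ge (8 * (k : ℤ) - 2) e with g11 | g11
  swap
  · exact QC.ofF (jun15 hk) (-1) (by omega)
  clear g10
  exact QC.ofF (jun20 hk) (-1) (by omega)

theorem quo_true_0 {k : ℕ} (hk : 2 ≤ k) (e : ℤ) (h0 : 0 ≤ e) (h1 : e < 8 * k) :
    QC (8 * k - 1) (16 * k) (T0 k) true (2 * e) := by
  rcases lt_or_ge ((k : ℤ) - 1) e with g0 | g0
  swap
  · exact QC.ofF (cp32 (runU1 (((k : ℤ) - 1) - e) (by omega) (by omega))) 0 (by ring)
  rcases lt_or_ge ((k : ℤ)) e with g1 | g1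
  swap
  · exact QC.sdE (jun28 hk) rfl (-(k : ℤ)) 0 (by omega) (by omega)
  clear g0
  rcases lt_or_ge (3 * (k : ℤ) - 2) e with g2 | g2
  swap
  · exact QC.sdE (cp25 (runU2 ((3 * (k : ℤ) - 2) - e) (by omega) (by omega))) rfl ((-3 * (k : ℤ) + 2) + ((3 * (k : ℤ) - 2) - e)) 0 (by ring) (by ring)
  clear g1
  rcases lt_or_ge (3 * (k : ℤ) - 1) e with g3 | g3
  swap
  · exact QC.ofF (jun13 hk) 0 (by omega)
  clear g2
  rcases lt_or_ge (3 * (k : ℤ)) e with g4 | g4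
  swap
  · exact QC.ofF (jun8 hk) 0 (by omega)
  clear g3
  rcases lt_or_ge (3 * (k : ℤ) + 1) e with g5 | g5
  swap
  · exact QC.ofF (jun25 hk) 0 (by omega)
  clear g4
  rcases lt_or_ge (5 * (k : ℤ) - 2) e with g6 | g6
  swap
  · exact QC.ofF (cp0 (runV1 (e - (3 * (k : ℤ) + 2)) (by omega) (by omega))) (-1) (by ring)
  clear g5
  rcases lt_or_ge (5 * (k : ℤ) - 1) e with g7 | g7
  swap
  · exact QC.ofF (jun27 hk) (-1) (by omega)
  clear g6
  rcases lt_or_ge (5 * (k : ℤ)) e with g8 | g8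
  swap
  · exact QC.sdE (jun23 hk) rfl (-5 * (k : ℤ)) 0 (by omega) (by omega)
  clear g7
  rcases lt_or_ge (5 * (k : ℤ) + 1) e with g9 | g9
  swap
  · exact QC.sdE (jun32 hk) rfl (3 * (k : ℤ) - 1) (-1) (by omega) (by omega)
  clear g8
  rcases lt_or_ge (5 * (k : ℤ) + 2) e with g10 | g10
  swap
  · exact QC.sdE (jun17 hk) rfl (-5 * (k : ℤ) - 2) 0 (by omega) (by omega)
  clear g9
  rcases lt_or_ge (7 * (k : ℤ) - 1) e with g11 | g11
  swap
  · exact QC.sdE (cp18 (runV2 (e - (5 * (k : ℤ) + 3)) (by omega) (by omega))) rfl ((-5 * (k : ℤ) - 3) - (e - (5 * (k : ℤ) + 3))) 0 (by ring) (by ring)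
  clear g10
  exact QC.ofF (cp32 (runU1 ((9 * (k : ℤ) - 1) - e) (by omega) (by omega))) (-1) (by ring)

theorem quo_true_1 {k : ℕ} (hk : 2 ≤ k) (e : ℤ) (h0 : 0 ≤ e) (h1 : e < 8 * k) :
    QC (8 * k - 1) (16 * k) (T0 k) true (2 * e + 1) := by
  rcases lt_or_ge ((k : ℤ) - 3) e with g0 | g0
  swap
  · exact QC.sdO (cp0 (runV2 (e - (-(k : ℤ) + 2)) (by omega) (by omega))) rfl ((5 * (k : ℤ) - 3) - (e - (-(k : ℤ) + 2))) 0 (by ring) (by ring)
  rcases lt_or_ge ((k : ℤ) - 2) e with g1 | g1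
  swap
  · exact QC.sdO (jun14 hk) rfl (-5 * (k : ℤ) + 1) 1 (by omega) (by omega)
  clear g0
  rcases lt_or_ge ((k : ℤ) - 1) e with g2 | g2
  swap
  · exact QC.sdO (jun6 hk) rfl (-5 * (k : ℤ)) 1 (by omega) (by omega)
  clear g1
  rcases lt_or_ge ((k : ℤ)) e with g3 | g3
  swap
  · exact QC.sdO (jun18 hk) rfl (-5 * (k : ℤ) - 1) 1 (by omega) (by omega)
  clear g2
  rcases lt_or_ge (3 * (k : ℤ) - 2) e with g4 | g4
  swap
  · exact QC.ofF (cp25 (runU1 ((3 * (k : ℤ) - 2) - e) (by omega) (by omega))) 0 (by ring)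
  clear g3
  rcases lt_or_ge (3 * (k : ℤ) - 1) e with g5 | g5
  swap
  · exact QC.ofF (jun22 hk) 0 (by omega)
  clear g4
  rcases lt_or_ge (5 * (k : ℤ) - 2) e with g6 | g6
  swap
  · exact QC.sdO (cp32 (runU2 ((5 * (k : ℤ) - 2) - e) (by omega) (by omega))) rfl ((-(k : ℤ) + 1) + ((5 * (k : ℤ) - 2) - e)) 0 (by ring) (by ring)
  clear g5
  rcases lt_or_ge (5 * (k : ℤ) - 1) e with g7 | g7
  swap
  · exact QC.sdO (jun26 hk) rfl (-(k : ℤ)) 0 (by omega) (by omega)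
  clear g6
  rcases lt_or_ge (5 * (k : ℤ)) e with g8 | g8
  swap
  · exact QC.sdO (jun11 hk) rfl (7 * (k : ℤ) - 1) (-1) (by omega) (by omega)
  clear g7
  rcases lt_or_ge (5 * (k : ℤ) + 1) e with g9 | g9
  swap
  · exact QC.ofF (jun16 hk) 0 (by omega)
  clear g8
  rcases lt_or_ge (7 * (k : ℤ) - 1) e with g10 | g10
  swap
  · exact QC.ofF (cp18 (runV1 (e - (5 * (k : ℤ) + 2)) (by omega) (by omega))) 0 (by ring)
  clear g9
  rcases lt_or_ge (7 * (k : ℤ)) e with g11 | g11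
  swap
  · exact QC.ofF (jun4 hk) (-1) (by omega)
  clear g10
  rcases lt_or_ge (7 * (k : ℤ) + 1) e with g12 | g12
  swap
  · exact QC.sdO (jun1 hk) rfl (5 * (k : ℤ) - 2) (-1) (by omega) (by omega)
  clear g11
  exact QC.sdO (cp0 (runV2 (e - (7 * (k : ℤ) + 2)) (by omega) (by omega))) rfl ((5 * (k : ℤ) - 3) - (e - (7 * (k : ℤ) + 2))) (-1) (by ring) (by ring)

theorem main {G : Type*} [Group G] (a b : G) (k : ℕ) (hk : 2 ≤ k)
    (hcard : Nat.card G = 2 * (16 * k)) (ha : a ^ (16 * k) = 1) (hb : b ^ 2 = 1)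
    (hab : b * a * b⁻¹ = a ^ (8 * k - 1)) (hgen : Subgroup.closure {a, b} = ⊤) :
    RSequenceable G := by
  have hM : ((16 * k : ℕ) : ℤ) = 16 * k := by push_cast; ring
  have hc : ((8 * k - 1 : ℕ) : ℤ) = 8 * k - 1 := by omega
  refine rSequenceable_twisted a b (8 * k - 1) (16 * k) (by omega) hcard ha hb hab hgen (T0 k)
    (false, 12 * (k : ℤ) - 1) (by rw [len0 hk]; omega) (by omega) (head0 hk) last0 ?_ ?_
  · intro s x h0 h1 hs
    rw [hM] at h1 ⊢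
    cases s
    · exact elems_false hk x h0 h1 (by simpa using hs)
    · exact elems_true hk x h0 h1
  · intro t d h0 h1 hs
    rw [hM] at h1 ⊢
    rw [hc]
    rcases Int.even_or_odd' d with ⟨e, rfl | rfl⟩
    · cases t
      · refine quo_false_0 hk e (by omega) (by omega) ?_
        rcases hs with hs | hs
        · cases hs
        · omega
      · exact quo_true_0 hk e (by omega) (by omega)
    · cases t
      · exact quo_false_1 hk e (by omega) (by omega)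
      · exact quo_true_1 hk e (by omega) (by omega)

end Pool.Agent.Q132.RSeqSD

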