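import Pool.Agent.Q132.TwistedGroups

/-! Convenience lemmas about zigzag runs with integer parameters. -/

namespace Pool.Agent.Q132.Walks

variable {s t : Bool} {u v ε δ : ℤ} {n : ℕ} {rest : List (Bool × ℤ)}

theorem runU1 (i : ℤ) (h0 : 0 ≤ i) (h : 2 * i + 1 < n) :
    CP (zz s t u v 1 (-1) n rest) (s, u + i) (t, v - i) := by
  obtain ⟨m, rfl⟩ := Int.eq_ofNat_of_zero_le h0
  have := (CP_zz n s t u v 1 (-1) rest m).1 (by omega)
  rw [mul_one, mul_neg, mul_one, ← sub_eq_add_neg] at this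
  exact this

theorem runU2 (i : ℤ) (h0 : 0 ≤ i) (h : 2 * i + 2 < n) :
    CP (zz s t u v 1 (-1) n rest) (t, v - i) (s, u + i + 1) := by
  obtain ⟨m, rfl⟩ := Int.eq_ofNat_of_zero_le h0
  have := (CP_zz n s t u v 1 (-1) rest m).2 (by omega)
  rw [mul_one, mul_neg, mul_one, ← sub_eq_add_neg] at this
  have e : u + (m : ℤ) + 1 = u + ((m + 1 : ℕ) : ℤ) := by push_cast; ring
  rw [e]
  exact this

theorem runV1 (i : ℤ) (h0 : 0 ≤ i) (h : 2 * i + 1 < n) :
    CP (zz s t u v (-1) 1 n rest) (s, u - i) (t, v + i) := by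
  obtain ⟨m, rfl⟩ := Int.eq_ofNat_of_zero_le h0
  have := (CP_zz n s t u v (-1) 1 rest m).1 (by omega)
  rw [mul_one, mul_neg, mul_one, ← sub_eq_add_neg] at this
  exact this

theorem runV2 (i : ℤ) (h0 : 0 ≤ i) (h : 2 * i + 2 < n) :
    CP (zz s t u v (-1) 1 n rest) (t, v + i) (s, u - i - 1) := by
  obtain ⟨m, rfl⟩ := Int.eq_ofNat_of_zero_le h0
  have := (CP_zz n s t u v (-1) 1 rest m).2 (by omega)
  rw [mul_one, mul_neg, mul_one, ← sub_eq_add_neg] at this
  have e : u - (m : ℤ) - 1 = u - ((m + 1 : ℕ) : ℤ) := by push_cast; ring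
  rw [e]
  exact this

theorem lastOdd (m : ℕ) (hn : n = 2 * m + 1) {x : Bool × ℤ} (hx : rest.head? = some x) :
    CP (zz s t u v ε δ n rest) (s, u + m * ε) x := by
  cases rest with
  | nil => simp at hx
  | cons y l =>
    simp only [List.head?_cons, Option.some.injEq] at hx
    subst hx hn
    exact CP_zz_odd m s t u v ε δ y l

theorem lastEven (m : ℕ) (hn : n = 2 * m + 2) {x : Bool × ℤ} (hx : rest.head? = some x) :
    CP (zz s t u v ε δ n rest) (t, v + m * δ) x := by
  cases rest with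
  | nil => simp at hx
  | cons y l =>
    simp only [List.head?_cons, Option.some.injEq] at hx
    subst hx hn
    exact CP_zz_even m s t u v ε δ y l

theorem lastOdd' (m : ℕ) (hn : n = 2 * m + 1) {x : Bool × ℤ} (hx : rest.head? = some x) {l : ℤ}
    (hl : l = u + m * ε) : CP (zz s t u v ε δ n rest) (s, l) x := by
  rw [hl]
  exact lastOdd m hn hx

theorem lastEven' (m : ℕ) (hn : n = 2 * m + 2) {x : Bool × ℤ} (hx : rest.head? = some x) {l : ℤ}
    (hl : l = v + m * δ) : CP (zz s t u v ε δ n rest) (t, l) x := by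
  rw [hl]
  exact lastEven m hn hx

theorem lastCons {y x : Bool × ℤ} (hx : rest.head? = some x) : CP (y :: rest) y x := by
  cases rest with
  | nil => simp at hx
  | cons z l =>
    simp only [List.head?_cons, Option.some.injEq] at hx
    subst hx
    exact Or.inl ⟨rfl, rfl⟩

theorem memA {x : ℤ} (h0 : u ≤ x) (h : 2 * (x - u) < n) : (s, x) ∈ zz s t u v 1 δ n rest := by
  obtain ⟨m, hm⟩ := Int.eq_ofNat_of_zero_le (sub_nonneg.mpr h0)
  have := (zz_mem n s t u v 1 δ rest m).1 (by omega)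
  have e : x = u + (m : ℤ) * 1 := by linarith
  rw [e]
  exact this

theorem memA' {x : ℤ} (h0 : x ≤ u) (h : 2 * (u - x) < n) :
    (s, x) ∈ zz s t u v (-1) δ n rest := by
  obtain ⟨m, hm⟩ := Int.eq_ofNat_of_zero_le (sub_nonneg.mpr h0)
  have := (zz_mem n s t u v (-1) δ rest m).1 (by omega)
  have e : x = u + (m : ℤ) * (-1) := by linarith
  rw [e]
  exact this

theorem memB {x : ℤ} (h0 : v ≤ x) (h : 2 * (x - v) + 1 < n) :
    (t, x) ∈ zz s t u v ε 1 n rest := by
  obtain ⟨m, hm⟩ := Int.eq_ofNat_of_zero_le (sub_nonneg.mpr h0)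
  have := (zz_mem n s t u v ε 1 rest m).2 (by omega)
  have e : x = v + (m : ℤ) * 1 := by linarith
  rw [e]
  exact this

theorem memB' {x : ℤ} (h0 : x ≤ v) (h : 2 * (v - x) + 1 < n) :
    (t, x) ∈ zz s t u v ε (-1) n rest := by
  obtain ⟨m, hm⟩ := Int.eq_ofNat_of_zero_le (sub_nonneg.mpr h0)
  have := (zz_mem n s t u v ε (-1) rest m).2 (by omega)
  have e : x = v + (m : ℤ) * (-1) := by linarith
  rw [e]
  exact this

/-- consecutive pairs and the zip with the tail -/
theorem CP_of_mem_zip {α : Type*} {l : List α} {p q : α} (h : (p, q) ∈ l.zip l.tail) :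
    CP l p q := by
  induction l with
  | nil => simp at h
  | cons x l ih =>
    cases l with
    | nil => simp at h
    | cons y t =>
      simp only [List.tail_cons, List.zip_cons_cons, List.mem_cons, Prod.mk.injEq] at h
      rcases h with h | h
      · exact Or.inl ⟨h.1.symm, h.2.symm⟩
      · exact Or.inr (ih h)

/-- Boolean check for one quotient -/
def qchk (c M : ℤ) (t : Bool) (d : ℤ) (pq : (Bool × ℤ) × (Bool × ℤ)) : Bool :=
  (pq.1.1 == false && pq.2.1 == t && (pq.2.2 - pq.1.2 - d) % M == 0) ||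
    (pq.1.1 == true && pq.2.1 == !t && (c * (pq.2.2 - pq.1.2) - d) % M == 0)

theorem QC_of_chk {c M : ℤ} {L : List (Bool × ℤ)} {t : Bool} {d : ℤ}
    (h : (L.zip L.tail).any (qchk c M t d) = true) : QC c M L t d := by
  rw [List.any_eq_true] at h
  obtain ⟨⟨p, q⟩, hpq, h1⟩ := h
  simp only [qchk, Bool.or_eq_true, Bool.and_eq_true, beq_iff_eq] at h1
  refine ⟨p, q, CP_of_mem_zip hpq, ?_⟩
  rcases h1 with ⟨⟨h1, h2⟩, h3⟩ | ⟨⟨h1, h2⟩, h3⟩
  · obtain ⟨j, hj⟩ := Int.dvd_of_emod_eq_zero h3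
    exact Or.inl ⟨h1, h2, j, by linear_combination hj⟩
  · obtain ⟨j, hj⟩ := Int.dvd_of_emod_eq_zero h3
    exact Or.inr ⟨h1, h2, j, by linear_combination hj⟩

/-- Boolean check of the two covering conditions of `rSequenceable_twisted` -/
def fullChk (c M : ℕ) (L : List (Bool × ℤ)) : Bool :=
  (List.range M).all fun x =>
    L.contains (true, (x : ℤ)) && (x == 0 || L.contains (false, (x : ℤ))) &&
    (L.zip L.tail).any (qchk c M true x) && (x == 0 || (L.zip L.tail).any (qchk c M false x))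

theorem EC_of_fullChk {c M : ℕ} {L : List (Bool × ℤ)} (h : fullChk c M L = true) (s : Bool)
    (x : ℤ) (h0 : 0 ≤ x) (h1 : x < M) (hs : s = true ∨ x ≠ 0) : EC M L s x := by
  obtain ⟨y, rfl⟩ := Int.eq_ofNat_of_zero_le h0
  have hy : y < M := by omega
  have h2 := List.all_eq_true.mp h y (List.mem_range.mpr hy)
  simp only [Bool.and_eq_true, Bool.or_eq_true, beq_iff_eq, List.contains_eq_mem,
    decide_eq_true_eq] at h2
  refine EC.intro (y := (y : ℤ)) ?_ 0 (by ring)
  cases s
  · rcases h2.1.1.2 with h3 | h3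
    · exfalso
      rcases hs with hs | hs
      · cases hs
      · exact hs (by rw [h3]; rfl)
    · exact h3
  · exact h2.1.1.1

theorem QC_of_fullChk {c M : ℕ} {L : List (Bool × ℤ)} (h : fullChk c M L = true) (s : Bool)
    (x : ℤ) (h0 : 0 ≤ x) (h1 : x < M) (hs : s = true ∨ x ≠ 0) : QC c M L s x := by
  obtain ⟨y, rfl⟩ := Int.eq_ofNat_of_zero_le h0
  have hy : y < M := by omega
  have h2 := List.all_eq_true.mp h y (List.mem_range.mpr hy)
  simp only [Bool.and_eq_true, Bool.or_eq_true, beq_iff_eq] at h2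
  cases s
  · rcases h2.2 with h3 | h3
    · exfalso
      rcases hs with hs | hs
      · cases hs
      · exact hs (by rw [h3]; rfl)
    · exact QC_of_chk h3
  · exact QC_of_chk h2.1.2

/-- Explicit finite R-sequencings. -/
theorem rSequenceable_small {G : Type*} [Group G] (a b : G) (c M : ℕ) (hM : 0 < M)
    (hcard : Nat.card G = 2 * M) (ha : a ^ M = 1) (hb : b ^ 2 = 1)
    (hab : b * a * b⁻¹ = a ^ c) (hgen : Subgroup.closure {a, b} = ⊤)
    (L : List (Bool × ℤ)) (f : Bool × ℤ) (hlen : L.length = 2 * M) (hM1 : 1 < M)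
    (hhead : L.head? = some f) (hlast : L.getLast? = some f) (hchk : fullChk c M L = true) :
    RSequenceable G :=
  rSequenceable_twisted a b c M hM hcard ha hb hab hgen L f hlen hM1 hhead hlast
    (fun s x h0 h1 hs => EC_of_fullChk hchk s x h0 h1 hs)
    (fun s x h0 h1 hs => QC_of_fullChk hchk s x h0 h1 hs)

end Pool.Agent.Q132.Walks
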