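import Mathlib

/-! Edge-magic and super edge-magic labelings of simple graphs. -/

namespace Pool.Agent.Q132

/-- `f` is an edge-magic labeling of `G`: a bijection from the vertices and edges onto
`{1, ..., p + q}` such that `f u + f v + f (uv)` is the same number for all edges `uv`. -/
def IsEdgeMagicLabeling {V : Type} [Fintype V] (G : SimpleGraph V) (f : V ⊕ G.edgeSet → ℕ) :
    Prop :=
  Set.BijOn f Set.univ (Set.Icc 1 (Fintype.card V + G.edgeSet.ncard)) ∧
    ∃ σ : ℕ, ∀ (u v : V) (h : G.Adj u v),
      f (Sum.inl u) + f (Sum.inl v) + f (Sum.inr ⟨s(u, v), h⟩) = σ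

/-- `f` is a super edge-magic labeling of `G`: it is edge-magic and the vertices get the labels
`1, ..., p`. -/
def IsSuperEdgeMagicLabeling {V : Type} [Fintype V] (G : SimpleGraph V) (f : V ⊕ G.edgeSet → ℕ) :
    Prop :=
  IsEdgeMagicLabeling G f ∧ f '' Set.range Sum.inl = Set.Icc 1 (Fintype.card V)

/-- `G` is super edge-magic. -/
def SuperEdgeMagic {V : Type} [Fintype V] (G : SimpleGraph V) : Prop :=
  ∃ f : V ⊕ G.edgeSet → ℕ, IsSuperEdgeMagicLabeling G f

/-- A finite set of integers injected into an interval of the same size is mapped onto it. -/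
theorem image_eq_Icc {α : Type} [Fintype α] (f : α → ℕ) (hf : Function.Injective f) (a N : ℕ)
    (hcard : Fintype.card α = N) (hr : ∀ x, a + 1 ≤ f x ∧ f x ≤ a + N) :
    f '' Set.univ = Set.Icc (a + 1) (a + N) := by
  classical
  have h : Finset.univ.image f = Finset.Icc (a + 1) (a + N) := by
    apply Finset.eq_of_subset_of_card_le
    · intro x hx
      obtain ⟨v, _, rfl⟩ := Finset.mem_image.mp hx
      rw [Finset.mem_Icc]
      exact hr v
    · rw [Finset.card_image_of_injective _ hf, Nat.card_Icc, Finset.card_univ, hcard]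
      omega
  have h2 := congrArg (fun S : Finset ℕ => (S : Set ℕ)) h
  simpa using h2

/-- The sum of the labels of the two ends of an edge. -/
def edgeSum {V : Type} (g : V → ℕ) : Sym2 V → ℕ :=
  Sym2.lift ⟨fun a b => g a + g b, fun _ _ => Nat.add_comm _ _⟩

/-- A vertex labeling with labels `1, ..., p` whose edge sums are distinct and fill an interval
extends to a super edge-magic labeling. The edges are enumerated by an index type `I`. -/
theorem superEdgeMagic_of {V : Type} [Fintype V] (G : SimpleGraph V) {I : Type} [Fintype I]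
    (a b : I → V) (hadj : ∀ i, G.Adj (a i) (b i))
    (hall : ∀ u v, G.Adj u v → ∃ i, (a i = u ∧ b i = v) ∨ (a i = v ∧ b i = u))
    (g : V → ℕ) (hg : Function.Injective g) (hgr : ∀ v, 1 ≤ g v ∧ g v ≤ Fintype.card V)
    (s : ℕ) (hsum : Function.Injective fun i => g (a i) + g (b i))
    (hr : ∀ i, s ≤ g (a i) + g (b i) ∧ g (a i) + g (b i) < s + Fintype.card I) :
    SuperEdgeMagic G := by
  classical
  -- the edges correspond to the index type
  let e : I → G.edgeSet := fun i => ⟨s(a i, b i), hadj i⟩
  have he_inj : Function.Injective e := by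
    intro i j hij
    have h1 : (s(a i, b i) : Sym2 V) = s(a j, b j) := congrArg Subtype.val hij
    have h2 := congrArg (edgeSum g) h1
    exact hsum h2
  have he_surj : Function.Surjective e := by
    rintro ⟨x, hx⟩
    induction x using Sym2.ind with
    | _ u v =>
      obtain ⟨i, h | h⟩ := hall u v hx
      · exact ⟨i, Subtype.ext (by show (s(a i, b i) : Sym2 V) = s(u, v); rw [h.1, h.2])⟩
      · exact ⟨i, Subtype.ext (by
          show (s(a i, b i) : Sym2 V) = s(u, v); rw [h.1, h.2, Sym2.eq_swap])⟩
  have hfin : Finite G.edgeSet := Finite.of_surjective e he_surj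
  have hcard : G.edgeSet.ncard = Fintype.card I := by
    rw [← Nat.card_coe_set_eq, ← Nat.card_eq_fintype_card]
    exact (Nat.card_congr (Equiv.ofBijective e ⟨he_inj, he_surj⟩)).symm
  have : Fintype G.edgeSet := Fintype.ofFinite _
  set q := Fintype.card I with hq
  set p := Fintype.card V with hp
  let f : V ⊕ G.edgeSet → ℕ := Sum.elim g (fun x => p + s + q - edgeSum g x.1)
  have hinr : ∀ i, f (Sum.inr (e i)) = p + s + q - (g (a i) + g (b i)) := fun i => rfl
  have hrange : ∀ x : G.edgeSet, p + 1 ≤ f (Sum.inr x) ∧ f (Sum.inr x) ≤ p + q := by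
    intro x
    obtain ⟨i, rfl⟩ := he_surj x
    rw [hinr]
    have := hr i
    omega
  have hfinj : Function.Injective f := by
    rintro (u | x) (v | y) h
    · exact congrArg Sum.inl (hg h)
    · exfalso
      have h1 := (hgr u).2
      have h2 := (hrange y).1
      have h3 : g u = f (Sum.inr y) := h
      omega
    · exfalso
      have h1 := (hgr v).2
      have h2 := (hrange x).1
      have h3 : f (Sum.inr x) = g v := h
      omega
    · obtain ⟨i, rfl⟩ := he_surj x
      obtain ⟨j, rfl⟩ := he_surj y
      rw [hinr, hinr] at h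
      have h1 := hr i
      have h2 := hr j
      have h3 : i = j := hsum (by show g (a i) + g (b i) = g (a j) + g (b j); omega)
      rw [h3]
  refine ⟨f, ⟨⟨?_, hfinj.injOn, ?_⟩, p + q + s, ?_⟩, ?_⟩
  · rintro (u | x) _
    · have := hgr u
      show 1 ≤ g u ∧ g u ≤ p + G.edgeSet.ncard
      omega
    · have := hrange x
      show 1 ≤ f (Sum.inr x) ∧ f (Sum.inr x) ≤ p + G.edgeSet.ncard
      rw [hcard]
      omega
  · have hc : Fintype.card (V ⊕ G.edgeSet) = p + q := by
      rw [Fintype.card_sum]
      congr 1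
      exact (Fintype.card_congr (Equiv.ofBijective e ⟨he_inj, he_surj⟩)).symm
    have := image_eq_Icc f hfinj 0 (p + q) hc (by
      rintro (u | x)
      · have := hgr u
        show 0 + 1 ≤ g u ∧ g u ≤ 0 + (p + q)
        omega
      · have := hrange x
        omega)
    rw [zero_add, zero_add] at this
    rw [hcard]
    intro y hy
    rw [← this] at hy
    exact hy
  · intro u v h
    obtain ⟨i, hi⟩ := hall u v h
    have h1 : (⟨s(u, v), h⟩ : G.edgeSet) = e i := by
      apply Subtype.ext
      show (s(u, v) : Sym2 V) = s(a i, b i)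
      rcases hi with hi | hi
      · rw [hi.1, hi.2]
      · rw [hi.1, hi.2, Sym2.eq_swap]
    rw [h1, hinr]
    have h2 := hr i
    show g u + g v + (p + s + q - (g (a i) + g (b i))) = p + q + s
    rcases hi with hi | hi
    · rw [hi.1, hi.2] at h2 ⊢
      omega
    · rw [hi.1, hi.2] at h2 ⊢
      omega
  · have h1 : f '' Set.range Sum.inl = g '' Set.univ := by
      ext y
      constructor
      · rintro ⟨_, ⟨u, rfl⟩, rfl⟩
        exact ⟨u, Set.mem_univ _, rfl⟩
      · rintro ⟨u, _, rfl⟩
        exact ⟨Sum.inl u, ⟨u, rfl⟩, rfl⟩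
    rw [h1]
    have := image_eq_Icc g hg 0 p rfl (by
      intro v
      have := hgr v
      omega)
    rw [zero_add, zero_add] at this
    exact this

/-- An upper bound for the number of edges. -/
theorem ncard_edgeSet_le {V : Type} (G : SimpleGraph V) {I : Type} [Fintype I] (a b : I → V)
    (hall : ∀ u v, G.Adj u v → ∃ i, (a i = u ∧ b i = v) ∨ (a i = v ∧ b i = u)) :
    G.edgeSet.ncard ≤ Fintype.card I := by
  have hsub : G.edgeSet ⊆ (fun i => (s(a i, b i) : Sym2 V)) '' Set.univ := by
    intro x hx
    induction x using Sym2.ind with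
    | _ u v =>
      obtain ⟨i, h | h⟩ := hall u v hx
      · exact ⟨i, Set.mem_univ _, by show (s(a i, b i) : Sym2 V) = s(u, v); rw [h.1, h.2]⟩
      · exact ⟨i, Set.mem_univ _, by
          show (s(a i, b i) : Sym2 V) = s(u, v); rw [h.1, h.2, Sym2.eq_swap]⟩
  refine (Set.ncard_le_ncard hsub (Set.toFinite _)).trans ?_
  refine (Set.ncard_image_le (Set.toFinite _)).trans ?_
  rw [Set.ncard_univ, Nat.card_eq_fintype_card]

/-- In a super edge-magic labeling the vertices get labels in `[1, p]`. -/
theorem vertex_range {V : Type} [Fintype V] {G : SimpleGraph V} {f : V ⊕ G.edgeSet → ℕ}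
    (hf : IsSuperEdgeMagicLabeling G f) (v : V) :
    1 ≤ f (Sum.inl v) ∧ f (Sum.inl v) ≤ Fintype.card V := by
  have : f (Sum.inl v) ∈ f '' Set.range Sum.inl := ⟨_, ⟨v, rfl⟩, rfl⟩
  rw [hf.2] at this
  exact this

/-- In a super edge-magic labeling the edges get labels in `[p + 1, p + q]`. -/
theorem edge_range {V : Type} [Fintype V] {G : SimpleGraph V} {f : V ⊕ G.edgeSet → ℕ}
    (hf : IsSuperEdgeMagicLabeling G f) (e : G.edgeSet) :
    Fintype.card V + 1 ≤ f (Sum.inr e) ∧
      f (Sum.inr e) ≤ Fintype.card V + G.edgeSet.ncard := by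
  have h1 := hf.1.1.mapsTo (Set.mem_univ (Sum.inr e))
  refine ⟨?_, h1.2⟩
  by_contra hcon
  have h2 : f (Sum.inr e) ∈ Set.Icc 1 (Fintype.card V) := ⟨h1.1, by omega⟩
  rw [← hf.2] at h2
  obtain ⟨x, ⟨v, rfl⟩, hx⟩ := h2
  have := hf.1.1.injOn (Set.mem_univ _) (Set.mem_univ _) hx
  exact absurd this (by simp)

end Pool.Agent.Q132
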