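import Pool.Agent.Q132.Walks

/-! Semidihedral and modular `2`-groups: covering criteria for R-sequencings and harmonious
orderings given by lists of pairs `(s, x)` that stand for `a ^ x * b ^ s`. -/

namespace Pool.Agent.Q132.Walks

theorem ends_zz {s t : Bool} {u v ε δ : ℤ} {n : ℕ} {rest : List (Bool × ℤ)} {f : Bool × ℤ}
    (h : rest.getLast? = some f) : (zz s t u v ε δ n rest).getLast? = some f := by
  induction n generalizing s t u v ε δ with
  | zero => exact h
  | succ n ih =>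
    rw [zz, List.getLast?_cons, ih]
    rfl

theorem ends_cons {x : Bool × ℤ} {rest : List (Bool × ℤ)} {f : Bool × ℤ}
    (h : rest.getLast? = some f) : (x :: rest).getLast? = some f := by
  rw [List.getLast?_cons, h]
  rfl

theorem head_zz {s t : Bool} {u v ε δ : ℤ} {n : ℕ} {rest : List (Bool × ℤ)} (hn : 0 < n) :
    (zz s t u v ε δ n rest).head? = some (s, u) := by
  obtain ⟨m, rfl⟩ : ∃ m, n = m + 1 := ⟨n - 1, by omega⟩
  rfl

/-- The group generated by `a`, `b` with `b * b = 1` and `b * a * b⁻¹ = a ^ c` consists of the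
elements `a ^ i` and `a ^ i * b`. -/
theorem mem_of_closure {G : Type*} [Group G] (a b : G) (c : ℕ) (hb : b ^ 2 = 1)
    (hab : b * a * b⁻¹ = a ^ c) (hgen : Subgroup.closure {a, b} = ⊤) (g : G) :
    ∃ i : ℤ, g = a ^ i ∨ g = a ^ i * b := by
  have hbb : b * b = 1 := by rw [← pow_two]; exact hb
  have hbi : b⁻¹ = b := inv_eq_of_mul_eq_one_left hbb
  have hconj : ∀ j : ℤ, b * a ^ j = a ^ ((c : ℤ) * j) * b := by
    intro j
    have h1 : b * a ^ j * b⁻¹ = (b * a * b⁻¹) ^ j := (conj_zpow).symm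
    rw [hab, ← zpow_natCast, ← zpow_mul] at h1
    rw [← h1]
    group
  have hg : g ∈ Subgroup.closure {a, b} := by rw [hgen]; exact Subgroup.mem_top g
  induction hg using Subgroup.closure_induction with
  | mem x hx =>
    rcases hx with rfl | rfl
    · exact ⟨1, Or.inl (by simp)⟩
    · exact ⟨0, Or.inr (by simp)⟩
  | one => exact ⟨0, Or.inl (by simp)⟩
  | mul x y _ _ hx hy =>
    obtain ⟨i, hi⟩ := hx
    obtain ⟨j, hj⟩ := hy
    rcases hi with rfl | rfl <;> rcases hj with rfl | rfl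
    · exact ⟨i + j, Or.inl (by rw [zpow_add])⟩
    · exact ⟨i + j, Or.inr (by rw [zpow_add, mul_assoc])⟩
    · refine ⟨i + c * j, Or.inr ?_⟩
      rw [mul_assoc, hconj, ← mul_assoc, ← zpow_add]
    · refine ⟨i + c * j, Or.inl ?_⟩
      rw [mul_assoc, ← mul_assoc b, hconj, mul_assoc, hbb, mul_one, ← zpow_add]
  | inv x _ hx =>
    obtain ⟨i, rfl | rfl⟩ := hx
    · exact ⟨-i, Or.inl (by rw [zpow_neg])⟩
    · refine ⟨c * (-i), Or.inr ?_⟩
      rw [mul_inv_rev, hbi, ← zpow_neg, hconj]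

/-- Orders in a group of order `2M` generated by `a`, `b` with the relations
`a ^ M = 1`, `b ^ 2 = 1`, `b a b⁻¹ = a ^ c`. -/
theorem order_facts {G : Type*} [Group G] (a b : G) (c M : ℕ) (hM : 0 < M)
    (hcard : Nat.card G = 2 * M) (ha : a ^ M = 1) (hb : b ^ 2 = 1)
    (hab : b * a * b⁻¹ = a ^ c) (hgen : Subgroup.closure {a, b} = ⊤) :
    orderOf a = M ∧ b ∉ Subgroup.zpowers a := by
  have hfinite : Finite G := Nat.finite_of_card_ne_zero (by omega)
  have hle : orderOf a ≤ M := orderOf_le_of_pow_eq_one hM ha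
  have hcov := mem_of_closure a b c hb hab hgen
  have hpos : 0 < orderOf a := orderOf_pos a
  have huniv : (Set.univ : Set G) ⊆ (Subgroup.zpowers a : Set G) ∪
      (fun x => x * b) '' (Subgroup.zpowers a : Set G) := by
    intro g _
    obtain ⟨i, h | h⟩ := hcov g
    · exact Or.inl ⟨i, h.symm⟩
    · exact Or.inr ⟨a ^ i, ⟨i, rfl⟩, h.symm⟩
  have hz : (Subgroup.zpowers a : Set G).ncard = orderOf a := by
    rw [← Nat.card_coe_set_eq]
    exact Nat.card_zpowers a
  have h1 : 2 * M ≤ (Subgroup.zpowers a : Set G).ncard +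
      ((fun x => x * b) '' (Subgroup.zpowers a : Set G)).ncard := by
    rw [← hcard, ← Set.ncard_univ]
    exact (Set.ncard_le_ncard huniv (Set.toFinite _)).trans (Set.ncard_union_le _ _)
  have h2 : ((fun x => x * b) '' (Subgroup.zpowers a : Set G)).ncard ≤ orderOf a := by
    rw [← hz]
    exact Set.ncard_image_le (Set.toFinite _)
  rw [hz] at h1
  refine ⟨by omega, fun hbm => ?_⟩
  have h3 : (Set.univ : Set G) ⊆ (Subgroup.zpowers a : Set G) := by
    intro g _
    obtain ⟨i, h | h⟩ := hcov g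
    · exact ⟨i, h.symm⟩
    · rw [h]
      exact (Subgroup.zpowers a).mul_mem ⟨i, rfl⟩ hbm
  have h4 := Set.ncard_le_ncard h3 (Set.toFinite _)
  rw [Set.ncard_univ, hcard, hz] at h4
  omega

/-- The element `(s, x)` occurs in the list modulo `M` in the second coordinate. -/
def EC (M : ℤ) (L : List (Bool × ℤ)) (s : Bool) (x : ℤ) : Prop :=
  ∃ y : ℤ, (s, y) ∈ L ∧ ∃ j : ℤ, y = x + j * M

theorem EC.intro {M : ℤ} {L : List (Bool × ℤ)} {s : Bool} {x y : ℤ} (h : (s, y) ∈ L) (j : ℤ)
    (hj : y = x + j * M) : EC M L s x := ⟨y, h, j, hj⟩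

theorem el_congr {G : Type*} [Group G] {a b : G} {M : ℤ} (ha : a ^ M = 1) {s : Bool} {x y : ℤ}
    (j : ℤ) (h : y = x + j * M) : el a b (s, y) = el a b (s, x) := by
  unfold el
  rw [h]
  show a ^ (x + j * M) * _ = a ^ x * _
  rw [zpow_add, mul_comm j M, zpow_mul, ha, one_zpow, mul_one]

/-- The quotient `(t, d)` occurs between consecutive elements of the list (`b` acts on `a` by the
exponent `c`). -/
def QC (c M : ℤ) (L : List (Bool × ℤ)) (t : Bool) (d : ℤ) : Prop :=
  ∃ p q : Bool × ℤ, CP L p q ∧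
    ((p.1 = false ∧ q.1 = t ∧ ∃ j : ℤ, q.2 - p.2 = d + j * M) ∨
     (p.1 = true ∧ q.1 = !t ∧ ∃ j : ℤ, c * (q.2 - p.2) = d + j * M))

theorem QC.ofF {c M : ℤ} {L : List (Bool × ℤ)} {t : Bool} {d x y : ℤ}
    (h : CP L (false, x) (t, y)) (j : ℤ) (hj : y - x = d + j * M) : QC c M L t d :=
  ⟨_, _, h, Or.inl ⟨rfl, rfl, j, hj⟩⟩

/-- semidihedral twist `c = M / 2 - 1`, `M = 16 k`; even difference -/
theorem QC.sdE {k : ℤ} {L : List (Bool × ℤ)} {t t' : Bool} {d x y : ℤ}
    (h : CP L (true, x) (t', y)) (ht : t' = !t) (e j : ℤ) (he : y - x = 2 * e)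
    (hj : -(2 * e) = d + j * (16 * k)) : QC (8 * k - 1) (16 * k) L t d :=
  ⟨_, _, h, Or.inr ⟨rfl, ht, e + j, by
    show (8 * k - 1) * (y - x) = d + (e + j) * (16 * k)
    rw [he]; linear_combination hj⟩⟩

theorem QC.sdO {k : ℤ} {L : List (Bool × ℤ)} {t t' : Bool} {d x y : ℤ}
    (h : CP L (true, x) (t', y)) (ht : t' = !t) (e j : ℤ) (he : y - x = 2 * e + 1)
    (hj : 8 * k - (2 * e + 1) = d + j * (16 * k)) : QC (8 * k - 1) (16 * k) L t d :=
  ⟨_, _, h, Or.inr ⟨rfl, ht, e + j, by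
    show (8 * k - 1) * (y - x) = d + (e + j) * (16 * k)
    rw [he]; linear_combination hj⟩⟩

/-- modular twist `c = M / 2 + 1`, `M = 16 k`; even difference -/
theorem QC.mdE {k : ℤ} {L : List (Bool × ℤ)} {t t' : Bool} {d x y : ℤ}
    (h : CP L (true, x) (t', y)) (ht : t' = !t) (e j : ℤ) (he : y - x = 2 * e)
    (hj : 2 * e = d + j * (16 * k)) : QC (8 * k + 1) (16 * k) L t d :=
  ⟨_, _, h, Or.inr ⟨rfl, ht, e + j, by
    show (8 * k + 1) * (y - x) = d + (e + j) * (16 * k)
    rw [he]; linear_combination hj⟩⟩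

theorem QC.mdO {k : ℤ} {L : List (Bool × ℤ)} {t t' : Bool} {d x y : ℤ}
    (h : CP L (true, x) (t', y)) (ht : t' = !t) (e j : ℤ) (he : y - x = 2 * e + 1)
    (hj : 8 * k + (2 * e + 1) = d + j * (16 * k)) : QC (8 * k + 1) (16 * k) L t d :=
  ⟨_, _, h, Or.inr ⟨rfl, ht, e + j, by
    show (8 * k + 1) * (y - x) = d + (e + j) * (16 * k)
    rw [he]; linear_combination hj⟩⟩

theorem quotient_el {G : Type*} [Group G] (a b : G) (c : ℤ) (hb : b ^ 2 = 1)
    (hconj : ∀ j : ℤ, b * a ^ j = a ^ (c * j) * b) (p q : Bool × ℤ) :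
    (el a b p)⁻¹ * el a b q =
      el a b (xor p.1 q.1, if p.1 then c * (q.2 - p.2) else q.2 - p.2) := by
  have hbb : b * b = 1 := by rw [← pow_two]; exact hb
  have hbi : b⁻¹ = b := inv_eq_of_mul_eq_one_left hbb
  obtain ⟨s, x⟩ := p
  obtain ⟨t, y⟩ := q
  cases s
  · cases t <;> simp [el, zpow_sub, mul_assoc] <;> group
  · have h1 : (el a b (true, x))⁻¹ * el a b (t, y) = b * a ^ (y - x) * (if t then b else 1) := by
      simp only [el]
      rw [mul_inv_rev, if_pos trivial, hbi]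
      rw [mul_assoc, ← mul_assoc (a ^ x)⁻¹, ← zpow_neg, ← zpow_add, ← mul_assoc]
      congr 3
      ring
    rw [h1, hconj]
    cases t
    · simp [el]
    · simp [el, mul_assoc, hbb]

/-- The covering criterion for R-sequencings of twisted groups. -/
theorem rSequenceable_twisted {G : Type*} [Group G] (a b : G) (c M : ℕ) (hM : 0 < M)
    (hcard : Nat.card G = 2 * M) (ha : a ^ M = 1) (hb : b ^ 2 = 1)
    (hab : b * a * b⁻¹ = a ^ c) (hgen : Subgroup.closure {a, b} = ⊤)
    (L : List (Bool × ℤ)) (f : Bool × ℤ) (hlen : L.length = 2 * M) (hM1 : 1 < M)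
    (hhead : L.head? = some f) (hlast : L.getLast? = some f)
    (hE : ∀ (s : Bool) (x : ℤ), 0 ≤ x → x < M → (s = true ∨ x ≠ 0) → EC M L s x)
    (hQ : ∀ (t : Bool) (d : ℤ), 0 ≤ d → d < M → (t = true ∨ d ≠ 0) → QC c M L t d) :
    RSequenceable G := by
  obtain ⟨hord, hbn⟩ := order_facts a b c M hM hcard ha hb hab hgen
  have haM : a ^ (M : ℤ) = 1 := by rw [zpow_natCast]; exact ha
  have hconj : ∀ j : ℤ, b * a ^ j = a ^ ((c : ℤ) * j) * b := by
    intro j
    have h1 : b * a ^ j * b⁻¹ = (b * a * b⁻¹) ^ j := (conj_zpow).symm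
    rw [hab, ← zpow_natCast, ← zpow_mul] at h1
    rw [← h1]
    group
  have hne : L ≠ [] := by
    intro h; rw [h] at hlen; simp at hlen; omega
  refine rSequenceable_of_cover (2 * M - 1) (by omega) (by omega) (L.map (el a b))
    (by rw [List.length_map]; omega) ?_ ?_ ?_
  · rw [List.getElem_map, List.getElem_map]
    congr 1
    have h1 : L[0]'(by omega) = f := by
      have := List.head?_eq_getElem? (l := L)
      rw [hhead, List.getElem?_eq_getElem (by omega)] at this
      exact (Option.some_injective _ this).symm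
    have h2 : L[2 * M - 1]'(by omega) = f := by
      have := List.getLast?_eq_getElem? (l := L)
      rw [hlast, hlen, List.getElem?_eq_getElem (by omega)] at this
      exact (Option.some_injective _ this).symm
    rw [h1, h2]
  · intro g hg
    obtain ⟨s, x, h0, h1, h2⟩ := exists_el a b M hM hcard hord hbn g
    have hs : s = true ∨ x ≠ 0 := by
      by_contra hcon
      push Not at hcon
      apply hg
      rw [← h2, hcon.2, Bool.eq_false_iff.mpr hcon.1]
      simp [el]
    obtain ⟨y, hy, j, hj⟩ := hE s x h0 h1 hs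
    rw [List.mem_map]
    exact ⟨(s, y), hy, by rw [el_congr haM j hj, h2]⟩
  · intro g hg
    obtain ⟨t, d, h0, h1, h2⟩ := exists_el a b M hM hcard hord hbn g
    have hs : t = true ∨ d ≠ 0 := by
      by_contra hcon
      push Not at hcon
      apply hg
      rw [← h2, hcon.2, Bool.eq_false_iff.mpr hcon.1]
      simp [el]
    obtain ⟨p, q, hpq, hor⟩ := hQ t d h0 h1 hs
    refine ⟨_, _, hpq.map (el a b), ?_⟩
    rw [quotient_el a b c hb hconj, ← h2]
    obtain ⟨s, x⟩ := p
    obtain ⟨r, y⟩ := q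
    rcases hor with ⟨hp, hq, j, hj⟩ | ⟨hp, hq, j, hj⟩
    · simp only at hp hq hj
      subst hp hq
      simp only [Bool.false_xor, Bool.false_eq_true, if_false]
      exact el_congr haM j hj
    · simp only at hp hq hj
      subst hp hq
      simp only [Bool.true_xor, Bool.not_not, if_true]
      exact el_congr haM j hj

end Pool.Agent.Q132.Walks
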