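import Mathlib

/-! Zigzag lists, consecutive pairs in lists, and coverage criteria for R-sequenceable and
harmonious groups. -/

namespace Pool.Agent.Q132.Walks

/-- A finite group `G` is R-sequenceable: its non-identity elements can be arranged in a cycle
`g 0, g 1, ..., g (m - 1)` (`m = |G| - 1`) such that the quotients `(g i)⁻¹ * g (i + 1)`, indices
modulo `m`, are pairwise distinct. -/
def RSequenceable (G : Type*) [Group G] : Prop :=
  ∃ g : ZMod (Nat.card G - 1) → G, Function.Injective g ∧ (∀ x, (∃ i, g i = x) ↔ x ≠ 1) ∧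
    Function.Injective fun i => (g i)⁻¹ * g (i + 1)

/-- A finite group `G` is harmonious: its elements can be arranged in a cycle
`g 0, g 1, ..., g (m - 1)` (`m = |G|`) such that the products `g i * g (i + 1)`, indices
modulo `m`, are pairwise distinct. -/
def Harmonious (G : Type*) [Group G] : Prop :=
  ∃ g : ZMod (Nat.card G) → G, Function.Bijective g ∧
    Function.Injective fun i => g i * g (i + 1)

/-- `p` and `q` are consecutive entries of the list. -/
def CP {α : Type*} : List α → α → α → Prop
  | x :: y :: t, p, q => (x = p ∧ y = q) ∨ CP (y :: t) p q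
  | _, _, _ => False

theorem CP.cons {α : Type*} {x : α} {l : List α} {p q : α} (h : CP l p q) : CP (x :: l) p q := by
  cases l with
  | nil => exact h.elim
  | cons y t => exact Or.inr h

theorem CP.index {α : Type*} {l : List α} {p q : α} (h : CP l p q) :
    ∃ i, ∃ h1 : i + 1 < l.length, l[i] = p ∧ l[i + 1] = q := by
  induction l with
  | nil => exact h.elim
  | cons x l ih =>
    cases l with
    | nil => exact h.elim
    | cons y t =>
      rcases h with h | h
      · exact ⟨0, by simp, h.1, h.2⟩
      · obtain ⟨i, h1, h2, h3⟩ := ih h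
        exact ⟨i + 1, by simpa using h1, by simpa using h2, by simpa using h3⟩

/-- The zigzag `(s, u), (t, v), (s, u + ε), (t, v + δ), (s, u + 2ε), ...` with `n` terms, followed
by the list `rest`. -/
def zz : Bool → Bool → ℤ → ℤ → ℤ → ℤ → ℕ → List (Bool × ℤ) → List (Bool × ℤ)
  | _, _, _, _, _, _, 0, rest => rest
  | s, t, u, v, ε, δ, n + 1, rest => (s, u) :: zz t s v (u + ε) δ ε n rest

theorem zz_length (s t : Bool) (u v ε δ : ℤ) (n : ℕ) (rest : List (Bool × ℤ)) :
    (zz s t u v ε δ n rest).length = n + rest.length := by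
  induction n generalizing s t u v ε δ with
  | zero => simp [zz]
  | succ n ih =>
    rw [zz, List.length_cons, ih]
    omega

theorem zz_rest {s t : Bool} {u v ε δ : ℤ} {n : ℕ} {rest : List (Bool × ℤ)} {p : Bool × ℤ}
    (h : p ∈ rest) : p ∈ zz s t u v ε δ n rest := by
  induction n generalizing s t u v ε δ with
  | zero => exact h
  | succ n ih => exact List.mem_cons_of_mem _ ih

theorem zz_mem (n : ℕ) : ∀ (s t : Bool) (u v ε δ : ℤ) (rest : List (Bool × ℤ)) (i : ℕ),
    (2 * i < n → (s, u + i * ε) ∈ zz s t u v ε δ n rest) ∧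
    (2 * i + 1 < n → (t, v + i * δ) ∈ zz s t u v ε δ n rest) := by
  induction n with
  | zero => intro s t u v ε δ rest i; exact ⟨fun h => absurd h (by omega), fun h => absurd h (by omega)⟩
  | succ n ih =>
    intro s t u v ε δ rest i
    rw [zz]
    constructor
    · intro h
      rcases Nat.eq_zero_or_pos i with h0 | h0
      · subst h0; simp
      · obtain ⟨j, rfl⟩ : ∃ j, i = j + 1 := ⟨i - 1, by omega⟩
        have := (ih t s v (u + ε) δ ε rest j).2 (by omega)
        apply List.mem_cons_of_mem
        have e : u + ((j + 1 : ℕ) : ℤ) * ε = u + ε + (j : ℤ) * ε := by push_cast; ring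
        rw [e]
        exact this
    · intro h
      exact List.mem_cons_of_mem _ ((ih t s v (u + ε) δ ε rest i).1 (by omega))

theorem CP_zz_rest {s t : Bool} {u v ε δ : ℤ} {n : ℕ} {rest : List (Bool × ℤ)} {p q : Bool × ℤ}
    (h : CP rest p q) : CP (zz s t u v ε δ n rest) p q := by
  induction n generalizing s t u v ε δ with
  | zero => exact h
  | succ n ih => exact CP.cons ih

theorem CP_zz (n : ℕ) : ∀ (s t : Bool) (u v ε δ : ℤ) (rest : List (Bool × ℤ)) (i : ℕ),
    (2 * i + 1 < n → CP (zz s t u v ε δ n rest) (s, u + i * ε) (t, v + i * δ)) ∧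
    (2 * i + 2 < n → CP (zz s t u v ε δ n rest) (t, v + i * δ) (s, u + (i + 1 : ℕ) * ε)) := by
  induction n with
  | zero => intro s t u v ε δ rest i; exact ⟨fun h => absurd h (by omega), fun h => absurd h (by omega)⟩
  | succ n ih =>
    intro s t u v ε δ rest i
    rw [zz]
    constructor
    · intro h
      rcases Nat.eq_zero_or_pos i with h0 | h0
      · subst h0
        obtain ⟨m, rfl⟩ : ∃ m, n = m + 1 := ⟨n - 1, by omega⟩
        rw [zz]
        left
        simp
      · obtain ⟨j, rfl⟩ : ∃ j, i = j + 1 := ⟨i - 1, by omega⟩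
        have := (ih t s v (u + ε) δ ε rest j).2 (by omega)
        have e : u + ((j + 1 : ℕ) : ℤ) * ε = u + ε + (j : ℤ) * ε := by push_cast; ring
        rw [e]
        exact CP.cons this
    · intro h
      have := (ih t s v (u + ε) δ ε rest i).1 (by omega)
      have e : u + ((i + 1 : ℕ) : ℤ) * ε = u + ε + (i : ℤ) * ε := by push_cast; ring
      rw [e]
      exact CP.cons this

/-- The last entry of a zigzag is followed by the first entry of the rest: odd length. -/
theorem CP_zz_odd (m : ℕ) : ∀ (s t : Bool) (u v ε δ : ℤ) (x : Bool × ℤ) (rest : List (Bool × ℤ)),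
    CP (zz s t u v ε δ (2 * m + 1) (x :: rest)) (s, u + m * ε) x := by
  induction m with
  | zero => intro s t u v ε δ x rest; simp [zz, CP]
  | succ m ih =>
    intro s t u v ε δ x rest
    have := ih s t (u + ε) (v + δ) ε δ x rest
    have e : u + ((m + 1 : ℕ) : ℤ) * ε = u + ε + (m : ℤ) * ε := by push_cast; ring
    rw [e, show 2 * (m + 1) + 1 = (2 * m + 1) + 1 + 1 by omega, zz, zz]
    exact CP.cons (CP.cons this)

/-- The last entry of a zigzag is followed by the first entry of the rest: even length. -/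
theorem CP_zz_even (m : ℕ) : ∀ (s t : Bool) (u v ε δ : ℤ) (x : Bool × ℤ)
    (rest : List (Bool × ℤ)),
    CP (zz s t u v ε δ (2 * m + 2) (x :: rest)) (t, v + m * δ) x := by
  intro s t u v ε δ x rest
  rw [show 2 * m + 2 = (2 * m + 1) + 1 by omega, zz]
  exact CP.cons (CP_zz_odd m t s v (u + ε) δ ε x rest)

/-- A map from a finite type that hits a finite set with as many elements is injective and hits
nothing else. -/
theorem inj_of_hits {α β : Type*} [Fintype α] (f : α → β) (S : Set β) (hS : S.ncard = Fintype.card α)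
    (hfin : S.Finite) (h : ∀ x ∈ S, ∃ a, f a = x) :
    Function.Injective f ∧ ∀ x, (∃ a, f a = x) ↔ x ∈ S := by
  classical
  have h1 : S ⊆ f '' Set.univ := fun x hx => by
    obtain ⟨a, ha⟩ := h x hx; exact ⟨a, Set.mem_univ _, ha⟩
  have h2 : (f '' Set.univ).ncard ≤ S.ncard :=
    calc (f '' Set.univ).ncard ≤ (Set.univ : Set α).ncard := Set.ncard_image_le Set.finite_univ
      _ = Nat.card α := Set.ncard_univ α
      _ = Fintype.card α := Nat.card_eq_fintype_card
      _ = S.ncard := hS.symm
  have h3 : S = f '' Set.univ := Set.eq_of_subset_of_ncard_le h1 h2 (Set.toFinite _)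
  constructor
  · have h4 : (f '' Set.univ).ncard = (Set.univ : Set α).ncard := by
      rw [← h3, hS, Set.ncard_univ, Nat.card_eq_fintype_card]
    have h5 := (Set.ncard_image_iff Set.finite_univ).mp h4
    intro x y hxy
    exact h5 (Set.mem_univ _) (Set.mem_univ _) hxy
  · intro x
    rw [h3]
    simp

/-- The element `a ^ x * b ^ s`. -/
def el {G : Type*} [Group G] (a b : G) (p : Bool × ℤ) : G := a ^ p.2 * (if p.1 then b else 1)

theorem val_succ {m : ℕ} [NeZero m] (i : ZMod m) :
    (i.val + 1 < m ∧ (i + 1).val = i.val + 1) ∨ (i.val + 1 = m ∧ (i + 1).val = 0) := by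
  have h1 : (i + 1).val = (i.val + 1) % m := by
    rw [ZMod.val_add, ZMod.val_one_eq_one_mod, Nat.add_mod_mod]
  have h2 := ZMod.val_lt i
  by_cases h : i.val + 1 < m
  · exact Or.inl ⟨h, by rw [h1, Nat.mod_eq_of_lt h]⟩
  · have h3 : i.val + 1 = m := by omega
    exact Or.inr ⟨h3, by rw [h1, h3, Nat.mod_self]⟩

/-- A closed list of group elements (the last entry repeats the first one) that contains all
non-identity elements and has all of them as consecutive quotients, and has the right length,
gives an R-sequencing. -/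
theorem rSequenceable_of_cover {G : Type*} [Group G] (m : ℕ) (hm : 0 < m)
    (hcard : Nat.card G = m + 1) (L : List G) (hlen : L.length = m + 1)
    (hcl : L[m]'(by omega) = L[0]'(by omega))
    (hel : ∀ x : G, x ≠ 1 → x ∈ L)
    (hquo : ∀ x : G, x ≠ 1 → ∃ p q, CP L p q ∧ p⁻¹ * q = x) : RSequenceable G := by
  have hfinite : Finite G := Nat.finite_of_card_ne_zero (by omega)
  have : NeZero m := ⟨by omega⟩
  unfold RSequenceable
  rw [hcard, Nat.add_sub_cancel]
  let g : ZMod m → G := fun i => L[i.val]'(by have := ZMod.val_lt i; omega)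
  have hg : ∀ i (hi : i < m), g (i : ZMod m) = L[i]'(by omega) := by
    intro i hi
    show L[((i : ZMod m)).val]'_ = _
    congr 1
    exact ZMod.val_cast_of_lt hi
  have hnext : ∀ i (hi : i < m), g ((i : ZMod m) + 1) = L[i + 1]'(by omega) := by
    intro i hi
    have hv : ((i : ZMod m)).val = i := ZMod.val_cast_of_lt hi
    rcases val_succ (i : ZMod m) with h | h
    · show L[((i : ZMod m) + 1).val]'_ = _
      congr 1
      rw [h.2, hv]
    · have h3 : g ((i : ZMod m) + 1) = L[0]'(by omega) := by
        show L[((i : ZMod m) + 1).val]'_ = _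
        congr 1
        exact h.2
      rw [h3, ← hcl]
      congr 1
      rw [hv] at h
      exact h.1.symm
  have hcardS : ({x : G | x ≠ 1} : Set G).ncard = Fintype.card (ZMod m) := by
    have h1 : ({x : G | x ≠ 1} : Set G) = ({1} : Set G)ᶜ := rfl
    rw [h1, Set.ncard_compl, Set.ncard_singleton, hcard, ZMod.card]
    omega
  have h1 := inj_of_hits g {x : G | x ≠ 1} hcardS (Set.toFinite _) (by
    intro x hx
    obtain ⟨i, hi, hix⟩ := List.mem_iff_getElem.mp (hel x hx)
    by_cases h : i < m
    · exact ⟨(i : ZMod m), by rw [hg i h, hix]⟩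
    · have h3 : i = m := by omega
      subst h3
      refine ⟨((0 : ℕ) : ZMod i), ?_⟩
      rw [hg 0 hm, ← hcl, hix])
  have h2 := inj_of_hits (fun i => (g i)⁻¹ * g (i + 1)) {x : G | x ≠ 1} hcardS (Set.toFinite _) (by
    intro x hx
    obtain ⟨p, q, hpq, hx2⟩ := hquo x hx
    obtain ⟨i, hi, hp, hq⟩ := hpq.index
    refine ⟨(i : ZMod m), ?_⟩
    show (g (i : ZMod m))⁻¹ * g ((i : ZMod m) + 1) = x
    rw [hg i (by omega), hnext i (by omega), hp, hq, hx2])
  exact ⟨g, h1.1, fun x => h1.2 x, h2.1⟩

/-- The same for harmonious groups. -/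
theorem harmonious_of_cover {G : Type*} [Group G] (m : ℕ) (hm : 0 < m)
    (hcard : Nat.card G = m) (L : List G) (hlen : L.length = m + 1)
    (hcl : L[m]'(by omega) = L[0]'(by omega))
    (hel : ∀ x : G, x ∈ L)
    (hquo : ∀ x : G, ∃ p q, CP L p q ∧ p * q = x) : Harmonious G := by
  have hfinite : Finite G := Nat.finite_of_card_ne_zero (by omega)
  have : NeZero m := ⟨by omega⟩
  unfold Harmonious
  rw [hcard]
  let g : ZMod m → G := fun i => L[i.val]'(by have := ZMod.val_lt i; omega)
  have hg : ∀ i (hi : i < m), g (i : ZMod m) = L[i]'(by omega) := by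
    intro i hi
    show L[((i : ZMod m)).val]'_ = _
    congr 1
    exact ZMod.val_cast_of_lt hi
  have hnext : ∀ i (hi : i < m), g ((i : ZMod m) + 1) = L[i + 1]'(by omega) := by
    intro i hi
    have hv : ((i : ZMod m)).val = i := ZMod.val_cast_of_lt hi
    rcases val_succ (i : ZMod m) with h | h
    · show L[((i : ZMod m) + 1).val]'_ = _
      congr 1
      rw [h.2, hv]
    · have h3 : g ((i : ZMod m) + 1) = L[0]'(by omega) := by
        show L[((i : ZMod m) + 1).val]'_ = _
        congr 1
        exact h.2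
      rw [h3, ← hcl]
      congr 1
      rw [hv] at h
      exact h.1.symm
  have hcardS : (Set.univ : Set G).ncard = Fintype.card (ZMod m) := by
    rw [Set.ncard_univ, hcard, ZMod.card]
  have h1 := inj_of_hits g Set.univ hcardS (Set.toFinite _) (by
    intro x hx
    obtain ⟨i, hi, hix⟩ := List.mem_iff_getElem.mp (hel x)
    by_cases h : i < m
    · exact ⟨(i : ZMod m), by rw [hg i h, hix]⟩
    · have h3 : i = m := by omega
      subst h3
      refine ⟨((0 : ℕ) : ZMod i), ?_⟩
      rw [hg 0 hm, ← hcl, hix])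
  have h2 := inj_of_hits (fun i => g i * g (i + 1)) Set.univ hcardS (Set.toFinite _) (by
    intro x hx
    obtain ⟨p, q, hpq, hx2⟩ := hquo x
    obtain ⟨i, hi, hp, hq⟩ := hpq.index
    refine ⟨(i : ZMod m), ?_⟩
    show g (i : ZMod m) * g ((i : ZMod m) + 1) = x
    rw [hg i (by omega), hnext i (by omega), hp, hq, hx2])
  exact ⟨g, ⟨h1.1, fun x => (h1.2 x).mpr (Set.mem_univ x)⟩, h2.1⟩

theorem CP.map {α β : Type*} (f : α → β) {l : List α} {p q : α} (h : CP l p q) :
    CP (l.map f) (f p) (f q) := by
  induction l with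
  | nil => exact h.elim
  | cons x l ih =>
    cases l with
    | nil => exact h.elim
    | cons y t =>
      rcases h with h | h
      · exact Or.inl ⟨by rw [h.1], by rw [h.2]⟩
      · exact Or.inr (ih h)

/-- In a group of order `2M` with an element `a` of order `M` and `b ∉ ⟨a⟩`, every element is
`a ^ x` or `a ^ x * b` with `0 ≤ x < M`. -/
theorem exists_el {G : Type*} [Group G] (a b : G) (M : ℕ) (hM : 0 < M)
    (hcard : Nat.card G = 2 * M) (ha : orderOf a = M) (hb : b ∉ Subgroup.zpowers a) (g : G) :
    ∃ (s : Bool) (x : ℤ), 0 ≤ x ∧ x < M ∧ el a b (s, x) = g := by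
  have hfinite : Finite G := Nat.finite_of_card_ne_zero (by omega)
  have key : ∀ h ∈ Subgroup.zpowers a, ∃ x : ℤ, 0 ≤ x ∧ x < M ∧ a ^ x = h := by
    intro h hh
    obtain ⟨i, rfl⟩ := Subgroup.mem_zpowers_iff.mp hh
    refine ⟨i % M, Int.emod_nonneg _ (by omega), Int.emod_lt_of_pos _ (by omega), ?_⟩
    rw [← ha, zpow_mod_orderOf]
  have hindex : (Subgroup.zpowers a).index = 2 := by
    have h1 := (Subgroup.zpowers a).card_mul_index
    rw [Nat.card_zpowers, ha, hcard] at h1
    exact Nat.eq_of_mul_eq_mul_left hM (by rw [h1]; ring)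
  by_cases hg : g ∈ Subgroup.zpowers a
  · obtain ⟨x, h0, h1, h2⟩ := key g hg
    exact ⟨false, x, h0, h1, by simp [el, h2]⟩
  · have h3 : g * b⁻¹ ∈ Subgroup.zpowers a := by
      rw [Subgroup.mul_mem_iff_of_index_two hindex]
      constructor
      · intro h; exact absurd h hg
      · intro h; exact absurd (by simpa using (Subgroup.zpowers a).inv_mem h) hb
    obtain ⟨x, h0, h1, h2⟩ := key _ h3
    exact ⟨true, x, h0, h1, by simp [el, h2]⟩

end Pool.Agent.Q132.Walks
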